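import Pool.Agent.Lib.MSF.JIndE

set_option autoImplicit false

/-!
# ANA.P : a good point near `t0` (about 170 lines; from JIndE)

Take a ball `B ⊆ W` around `t0` on which all `ζ k` are analytic with positive imaginary part
(`AnalyticAt.eventually_analyticAt`, continuity). The functions `t ↦ deriv jf (ζ k t)` are analytic on `B`
and do not vanish identically near `t0` (`j_ind_comp` for `P = X 2`, `J4 z 2 = deriv jf z`), so none
vanishes near any point of `B` (identity theorem on the ball: `AnalyticOnNhd.eqOn_zero_of_preconnected_of_eventuallyEq_zero`),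
and there is `t1 ∈ B` where none of them vanishes (near `t0` each has at most isolated zeros:
`AnalyticAt.eventually_eq_zero_or_eventually_ne_zero`, finitely many `k`).
Not constant near `t1`: otherwise `ζ k` is constant on `B`, hence near `t0`. Relation near `t1`: multiply by
the denominator, `ζ l (c ζ k + d) = a ζ k + b` (the denominator is not zero because `ζ k` is not real and
`(c, d) ≠ (0, 0)`) near `t1`, hence on `B`, hence near `t0`, and divide again.
-/

noncomputable section

namespace Pool.Agent.Lib.MSF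

open Topology Pool.Agent.Lib.MP5e

/-- the denominator is not zero -/
private theorem den_ne {u : ℂ} (hu : 0 < u.im) {a b c d : ℚ} (h : 0 < a * d - b * c) :
    (c : ℂ) * u + d ≠ 0 := by
  intro h0
  have him := congrArg Complex.im h0
  have hre := congrArg Complex.re h0
  simp at him hre
  rcases him with hc | hu0
  · rw [hc] at hre
    have hd : d = 0 := by simpa using hre
    rw [hc, hd] at h
    simp at h
  · exact hu.ne' hu0

theorem anaP {n : ℕ} (ζ : Fin n → ℂ → ℂ) (t0 : ℂ) (han : ∀ k, AnalyticAt ℂ (ζ k) t0)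
    (him : ∀ k, 0 < (ζ k t0).im) (hnc : ∀ k, ¬ ∀ᶠ t in 𝓝 t0, ζ k t = ζ k t0)
    (hrel : ∀ k l, k ≠ l → ∀ a b c d : ℚ, 0 < a * d - b * c →
      ¬ ∀ᶠ t in 𝓝 t0, ζ l t = ((a : ℂ) * ζ k t + b) / ((c : ℂ) * ζ k t + d))
    (W : Set ℂ) (hW : IsOpen W) (ht0 : t0 ∈ W) :
    ∃ t1 ∈ W, (∀ k, AnalyticAt ℂ (ζ k) t1 ∧ 0 < (ζ k t1).im ∧ deriv jf (ζ k t1) ≠ 0 ∧
        ¬ ∀ᶠ t in 𝓝 t1, ζ k t = ζ k t1) ∧
      ∀ k l, k ≠ l → ∀ a b c d : ℚ, 0 < a * d - b * c →
        ¬ ∀ᶠ t in 𝓝 t1, ζ l t = ((a : ℂ) * ζ k t + b) / ((c : ℂ) * ζ k t + d) := by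
  have h1 : ∀ᶠ t in 𝓝 t0, (∀ k, AnalyticAt ℂ (ζ k) t ∧ 0 < (ζ k t).im) ∧ t ∈ W := by
    refine (Filter.eventually_all.2 fun k => ?_).and (hW.mem_nhds ht0)
    refine (han k).eventually_analyticAt.and ?_
    exact (Complex.continuous_im.continuousAt.comp (han k).continuousAt).eventually
      (lt_mem_nhds (him k))
  obtain ⟨r, hr, hball⟩ := Metric.eventually_nhds_iff_ball.1 h1
  have hpre : IsPreconnected (Metric.ball t0 r) := (convex_ball t0 r).isPreconnected
  have hmem0 : t0 ∈ Metric.ball t0 r := Metric.mem_ball_self hr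
  have hn0 : Metric.ball t0 r ∈ 𝓝 t0 := Metric.isOpen_ball.mem_nhds hmem0
  have h2 : ∀ᶠ t in 𝓝[≠] t0, ∀ k, deriv jf (ζ k t) ≠ 0 := by
    refine Filter.eventually_all.2 fun k => ?_
    have hfa : AnalyticAt ℂ (fun t => deriv jf (ζ k t)) t0 :=
      (J4_analyticAt (him k) 2).comp (han k)
    rcases hfa.eventually_eq_zero_or_eventually_ne_zero with h | h
    · exfalso
      have h3 := j_ind_comp (ζ k) t0 (han k) (him k) (hnc k) (MvPolynomial.X 2) (by
        filter_upwards [h] with t ht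
        rw [MvPolynomial.eval_X]
        exact ht)
      exact MvPolynomial.X_ne_zero _ h3
    · exact h
  obtain ⟨t1, ht1, ht1b⟩ := (h2.and (mem_nhdsWithin_of_mem_nhds hn0)).exists
  have hn1 : Metric.ball t0 r ∈ 𝓝 t1 := Metric.isOpen_ball.mem_nhds ht1b
  refine ⟨t1, (hball t1 ht1b).2, fun k => ⟨((hball t1 ht1b).1 k).1, ((hball t1 ht1b).1 k).2,
    ht1 k, ?_⟩, ?_⟩
  · intro hc
    have hE : Set.EqOn (ζ k) (fun _ => ζ k t1) (Metric.ball t0 r) :=
      AnalyticOnNhd.eqOn_of_preconnected_of_eventuallyEq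
        (fun t ht => ((hball t ht).1 k).1) analyticOnNhd_const hpre ht1b hc
    apply hnc k
    filter_upwards [hn0] with t ht
    exact (hE ht).trans (hE hmem0).symm
  · intro k l hkl a b c d hdet hc
    apply hrel k l hkl a b c d hdet
    have hE : Set.EqOn (fun t => ζ l t * ((c : ℂ) * ζ k t + d)) (fun t => (a : ℂ) * ζ k t + b)
        (Metric.ball t0 r) := by
      refine AnalyticOnNhd.eqOn_of_preconnected_of_eventuallyEq (𝕜 := ℂ) ?_ ?_ hpre ht1b ?_
      · intro t ht
        exact ((hball t ht).1 l).1.mul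
          ((analyticAt_const.mul ((hball t ht).1 k).1).add analyticAt_const)
      · intro t ht
        exact (analyticAt_const.mul ((hball t ht).1 k).1).add analyticAt_const
      · filter_upwards [hc, hn1] with t ht htb
        have hne : (c : ℂ) * ζ k t + d ≠ 0 := den_ne ((hball t htb).1 k).2 hdet
        change ζ l t * ((c : ℂ) * ζ k t + d) = _
        rw [ht, div_mul_cancel₀ _ hne]
    filter_upwards [hn0] with t ht
    have hne : (c : ℂ) * ζ k t + d ≠ 0 := den_ne ((hball t ht).1 k).2 hdet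
    exact (eq_div_iff hne).2 (hE ht)

end Pool.Agent.Lib.MSF
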