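import Mathlib

set_option autoImplicit false

/-!
# GER.B : derivations of the algebraic closure of the fraction field (about 170 lines; only Mathlib)

`K = FractionRing R`, `Ω = AlgebraicClosure K` (types in `Type`). `D` followed by `R → Ω` is a derivation
`R → Ω` over `C`; `R → K` is a localization and `K → Ω` is algebraic and separable (characteristic zero),
so `R → Ω` is formally etale and the derivation extends to `Ω` (as in `rder`,
`Pool/Agent/Lib/MP_5e64e7_nt/RDer.lean`: `Algebra.FormallyEtale.of_isLocalization`,
`Algebra.FormallyEtale.of_isSeparable`, `Algebra.FormallyEtale.comp`,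
`KaehlerDifferential.tensorKaehlerEquivOfFormallyEtale C R Ω` and its lemma
`tensorKaehlerEquivOfFormallyEtale_symm_D_algebraMap`, `LinearMap.liftBaseChange`).
Constants: let `D y = 0`, `p = minpoly K y`, `D` maps `K` to `K` (quotient rule). Differentiating
`p(y) = 0` gives `(D p)(y) = 0` where `D p` has degree less than `p` (monic), so `D p = 0`: the coefficients
of `p` are constants in `K`. A constant `r/s` of `K` has `D r * s = r * D s`, so `r = c s` (`hR`), `r/s = c ∈
C`. So `y` is algebraic over `C`, and `C` is algebraically closed (`IsAlgClosed.algebraMap_surjective...`,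
`IsAlgClosed.exists_aeval_eq_zero`; `p` splits over `C`).
-/

noncomputable section

namespace Pool.Agent.Lib.MSF

/-- extension of a derivation along a formally etale map -/
theorem gerB_ext {C R A : Type} [Field C] [CommRing R] [Algebra C R] [CommRing A] [Algebra C A]
    [Algebra R A] [IsScalarTower C R A] [Algebra.FormallyEtale R A] (D : Derivation C R R) :
    ∃ D' : Derivation C A A, ∀ r, D' (algebraMap R A r) = algebraMap R A (D r) := by
  let D₀ : Derivation C R A := (Algebra.linearMap R A).compDer D
  let L : TensorProduct R A (Ω[R⁄C]) →ₗ[A] A := LinearMap.liftBaseChange A D₀.liftKaehlerDifferential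
  let D' : Derivation C A A :=
    (L ∘ₗ (KaehlerDifferential.tensorKaehlerEquivOfFormallyEtale C R A).symm.toLinearMap).compDer
      (KaehlerDifferential.D C A)
  refine ⟨D', fun r => ?_⟩
  change L ((KaehlerDifferential.tensorKaehlerEquivOfFormallyEtale C R A).symm
      (KaehlerDifferential.D C A (algebraMap R A r))) = _
  rw [KaehlerDifferential.tensorKaehlerEquivOfFormallyEtale_symm_D_algebraMap]
  simp only [L, D₀, LinearMap.liftBaseChange_tmul, one_smul, Derivation.liftKaehlerDifferential_comp_D]
  rfl

theorem gerB {C R : Type} [Field C] [IsAlgClosed C] [CharZero C] [CommRing R] [IsDomain R]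
    [Algebra C R] (D : Derivation C R R)
    (hR : ∀ r s : R, s ≠ 0 → D r * s = r * D s → ∃ c : C, r = algebraMap C R c * s) :
    ∃ (Ω : Type) (_ : Field Ω) (_ : Algebra C Ω) (_ : IsAlgClosed Ω) (DΩ : Derivation C Ω Ω)
      (i : R →ₐ[C] Ω), Function.Injective i ∧ (∀ r, DΩ (i r) = i (D r)) ∧
      ∀ y, DΩ y = 0 → y ∈ Set.range (algebraMap C Ω) := by
  classical
  let K := FractionRing R
  let Om := AlgebraicClosure K
  have : CharZero K := charZero_of_injective_algebraMap (algebraMap C K).injective
  have t0 : IsScalarTower C R Om := inferInstance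
  have t1 : IsScalarTower R K Om := inferInstance
  have t2 : IsScalarTower C K Om := inferInstance
  have f2 : Algebra.FormallyEtale R K := Algebra.FormallyEtale.of_isLocalization (nonZeroDivisors R)
  have alg : Algebra.IsAlgebraic K Om := inferInstance
  have sep : Algebra.IsSeparable K Om := inferInstance
  have f4 : Algebra.FormallyEtale K Om := Algebra.FormallyEtale.of_isSeparable K Om
  have f5 : Algebra.FormallyEtale R Om := Algebra.FormallyEtale.comp R K Om
  obtain ⟨DK, hDK⟩ := gerB_ext (A := K) D
  obtain ⟨DO, hDO⟩ := gerB_ext (A := Om) D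
  have injRK : Function.Injective (algebraMap R K) := IsFractionRing.injective R K
  have injKO : Function.Injective (algebraMap K Om) := (algebraMap K Om).injective
  have hfrac : ∀ x : K, ∃ r s : R, s ≠ 0 ∧ algebraMap R K s * x = algebraMap R K r := by
    intro x
    obtain ⟨r, s, hs, hx⟩ := IsFractionRing.div_surjective (A := R) x
    have hs0 : s ≠ 0 := nonZeroDivisors.ne_zero hs
    have hs1 : algebraMap R K s ≠ 0 := fun h => hs0 (injRK (by rw [h, map_zero]))
    refine ⟨r, s, hs0, ?_⟩
    rw [← hx, ← mul_div_assoc, mul_div_cancel_left₀ _ hs1]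
  -- compatibility of DK and DO
  have hcomp : ∀ x : K, DO (algebraMap K Om x) = algebraMap K Om (DK x) := by
    intro x
    obtain ⟨r, s, hs0, hx⟩ := hfrac x
    have hs1 : algebraMap R K s ≠ 0 := fun h => hs0 (injRK (by rw [h, map_zero]))
    have hs2 : algebraMap K Om (algebraMap R K s) ≠ 0 := fun h => hs1 (injKO (by rw [h, map_zero]))
    have e1 := congrArg DK hx
    rw [DK.leibniz, hDK, hDK] at e1
    have e2 := congrArg DO (congrArg (algebraMap K Om) hx)
    rw [map_mul, DO.leibniz, ← IsScalarTower.algebraMap_apply R K Om,
      ← IsScalarTower.algebraMap_apply R K Om, hDO, hDO] at e2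
    have e3 := congrArg (algebraMap K Om) e1
    simp only [smul_eq_mul, map_add, map_mul, ← IsScalarTower.algebraMap_apply R K Om] at e2 e3
    rw [← IsScalarTower.algebraMap_apply R K Om] at hs2
    have e4 : algebraMap R Om s * DO (algebraMap K Om x) =
        algebraMap R Om s * algebraMap K Om (DK x) := by
      linear_combination e2 - e3
    exact mul_left_cancel₀ hs2 e4
  -- constants of K
  have hconstK : ∀ x : K, DK x = 0 → x ∈ Set.range (algebraMap C K) := by
    intro x hx0
    obtain ⟨r, s, hs0, hx⟩ := hfrac x
    have hs1 : algebraMap R K s ≠ 0 := fun h => hs0 (injRK (by rw [h, map_zero]))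
    have e1 := congrArg DK hx
    rw [DK.leibniz, hDK, hDK, hx0] at e1
    simp only [smul_zero, zero_add, smul_eq_mul] at e1
    have e2 : D r * s = r * D s := by
      apply injRK
      rw [map_mul, map_mul, ← e1, ← hx]; ring
    obtain ⟨c, hc⟩ := hR r s hs0 e2
    refine ⟨c, ?_⟩
    apply mul_left_cancel₀ hs1
    rw [hx, hc, map_mul, ← IsScalarTower.algebraMap_apply C R K, mul_comm]
  refine ⟨Om, inferInstance, inferInstance, inferInstance, DO, IsScalarTower.toAlgHom C R Om, ?_, ?_, ?_⟩
  · intro a b hab
    have : algebraMap R Om a = algebraMap R Om b := hab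
    rw [IsScalarTower.algebraMap_apply R K Om, IsScalarTower.algebraMap_apply R K Om] at this
    exact injRK (injKO this)
  · intro r
    exact hDO r
  · intro y hy
    set p := minpoly K y with hp
    have hyi : IsIntegral K y := (alg.isAlgebraic y).isIntegral
    have hmonic : p.Monic := minpoly.monic hyi
    have hp0 : Polynomial.aeval y p = 0 := minpoly.aeval K y
    -- the differentiated polynomial
    let q : Polynomial K := ∑ i ∈ Finset.range (p.natDegree + 1), Polynomial.monomial i (DK (p.coeff i))
    have hqc : ∀ j, q.coeff j = if j < p.natDegree + 1 then DK (p.coeff j) else 0 := by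
      intro j
      simp only [q, Polynomial.finsetSum_coeff, Polynomial.coeff_monomial]
      rw [Finset.sum_ite_eq' (Finset.range (p.natDegree + 1)) j]
      simp
    have hq0 : Polynomial.aeval y q = 0 := by
      have h1 := congrArg DO hp0
      rw [Polynomial.aeval_eq_sum_range, map_sum, map_zero] at h1
      rw [← h1]
      simp only [q, map_sum]
      refine Finset.sum_congr rfl fun i _ => ?_
      rw [Polynomial.aeval_monomial, Algebra.smul_def, DO.leibniz, DO.leibniz_pow, hy, hcomp]
      simp [mul_comm]
    have hqdeg : q.degree < p.degree := by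
      rw [Polynomial.degree_eq_natDegree hmonic.ne_zero, Polynomial.degree_lt_iff_coeff_zero]
      intro m hm
      rw [hqc]
      split_ifs with h
      · have hm' : m = p.natDegree := by omega
        rw [hm', Polynomial.Monic.coeff_natDegree hmonic, Derivation.map_one_eq_zero]
      · rfl
    have hqz : q = 0 := by
      by_contra hne
      exact absurd (minpoly.degree_le_of_ne_zero K y hne hq0) (not_le.2 hqdeg)
    have hcoef : ∀ j, p.coeff j ∈ Set.range (algebraMap C K) := by
      intro j
      apply hconstK
      by_cases h : j < p.natDegree + 1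
      · have := hqc j
        rw [hqz, Polynomial.coeff_zero, if_pos h] at this
        exact this.symm
      · rw [Polynomial.coeff_eq_zero_of_natDegree_lt (by omega), map_zero]
    have hlift : p ∈ Polynomial.lifts (algebraMap C K) := by
      rw [Polynomial.lifts_iff_coeff_lifts]
      intro j
      exact hcoef j
    obtain ⟨p0, hp0m, -, hp0monic⟩ := Polynomial.lifts_and_degree_eq_and_monic hlift hmonic
    have hint : IsIntegral C y := by
      refine ⟨p0, hp0monic, ?_⟩
      rw [← Polynomial.aeval_def, ← Polynomial.aeval_map_algebraMap K, hp0m]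
      exact hp0
    exact minpoly.mem_range_of_degree_eq_one C y
      (IsAlgClosed.degree_eq_one_of_irreducible C (minpoly.irreducible hint))

end Pool.Agent.Lib.MSF
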