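import Pool.Agent.Lib.MSF.GerA
import Pool.Agent.Lib.MSF.GerB

set_option autoImplicit false

/-!
# GER : the differential field (about 90 lines; from GerA, GerB)

`hR` of `gerB` for the germs: `r = γ f`, `s = γ g`, `f' g = f g'` near `t0`, `g` not zero near `t0`. On a
punctured ball around `t0` where `g ≠ 0` (`AnalyticAt.eventually_eq_zero_or_eventually_ne_zero`) choose
`t1` near `t0` with `g ≠ 0` on a ball around `t1`; there `f/g` has derivative zero, so
`f = c g` near `t1`, identity theorem on a ball around `t0` containing `t1`.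
The germ map of the field is `i ∘ γ`.
-/

noncomputable section

namespace Pool.Agent.Lib.MSF

open Topology

/-- if the Wronskian of `f, g` vanishes near `t0` and `g` does not vanish near `t0`, then `f = c g`
near `t0` -/
private theorem wronskian (t0 : ℂ) (f g : ℂ → ℂ) (hf : AnalyticAt ℂ f t0) (hg : AnalyticAt ℂ g t0)
    (hW : ∀ᶠ t in 𝓝 t0, deriv f t * g t - f t * deriv g t = 0)
    (hg0 : ¬ ∀ᶠ t in 𝓝 t0, g t = 0) : ∃ c : ℂ, ∀ᶠ t in 𝓝 t0, f t = c * g t := by
  have hne : ∀ᶠ t in 𝓝[≠] t0, g t ≠ 0 :=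
    (hg.eventually_eq_zero_or_eventually_ne_zero).resolve_left hg0
  rw [eventually_nhdsWithin_iff] at hne
  have hall : ∀ᶠ t in 𝓝 t0, (AnalyticAt ℂ f t ∧ AnalyticAt ℂ g t ∧
      deriv f t * g t - f t * deriv g t = 0) ∧ (t ∈ ({t0}ᶜ : Set ℂ) → g t ≠ 0) :=
    (hf.eventually_analyticAt.and (hg.eventually_analyticAt.and hW)).and hne
  obtain ⟨ρ, hρ, hball⟩ := Metric.eventually_nhds_iff_ball.1 hall
  -- the auxiliary point
  set t1 : ℂ := t0 + ((ρ / 2 : ℝ) : ℂ) with ht1
  have hdist : dist t1 t0 = ρ / 2 := by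
    rw [dist_eq_norm, ht1, add_sub_cancel_left, Complex.norm_real, Real.norm_eq_abs,
      abs_of_pos (by positivity)]
  have ht1b : t1 ∈ Metric.ball t0 ρ := by
    rw [Metric.mem_ball, hdist]; linarith
  have ht1ne : t1 ∈ ({t0}ᶜ : Set ℂ) := by
    intro h
    have h' : t1 = t0 := h
    rw [h', dist_self] at hdist
    linarith
  have hsub : ∀ᶠ t in 𝓝 t1, t ∈ Metric.ball t0 ρ ∧ t ∈ ({t0}ᶜ : Set ℂ) :=
    Filter.Eventually.and (Metric.isOpen_ball.mem_nhds ht1b) (isOpen_compl_singleton.mem_nhds ht1ne)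
  obtain ⟨ρ1, hρ1, hball1⟩ := Metric.eventually_nhds_iff_ball.1 hsub
  have hgne : ∀ t ∈ Metric.ball t1 ρ1, g t ≠ 0 := fun t ht =>
    (hball t (hball1 t ht).1).2 (hball1 t ht).2
  have hconst : ∀ t ∈ Metric.ball t1 ρ1, f t / g t = f t1 / g t1 := by
    intro t ht
    refine IsOpen.is_const_of_deriv_eq_zero (f := fun t => f t / g t) Metric.isOpen_ball
      (convex_ball t1 ρ1).isPreconnected ?_ ?_ ht (Metric.mem_ball_self hρ1)
    · intro s hs
      have h1 := (hball s (hball1 s hs).1).1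
      exact (h1.1.differentiableAt.div h1.2.1.differentiableAt (hgne s hs)).differentiableWithinAt
    · intro s hs
      have h1 := (hball s (hball1 s hs).1).1
      have h2 : deriv (fun t => f t / g t) s =
          (deriv f s * g s - f s * deriv g s) / g s ^ 2 :=
        deriv_div h1.1.differentiableAt h1.2.1.differentiableAt (hgne s hs)
      rw [h2, h1.2.2]
      simp
  refine ⟨f t1 / g t1, ?_⟩
  have hana : AnalyticOnNhd ℂ (fun t => f t - f t1 / g t1 * g t) (Metric.ball t0 ρ) := by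
    intro s hs
    have h1 := (hball s hs).1
    exact h1.1.sub (analyticAt_const.mul h1.2.1)
  have hev : (fun t => f t - f t1 / g t1 * g t) =ᶠ[𝓝 t1] 0 := by
    filter_upwards [Metric.ball_mem_nhds t1 hρ1] with s hs
    have h1 := hconst s hs
    have h2 := hgne s hs
    rw [← h1]
    simp [div_mul_cancel₀ _ h2]
  have hzero := hana.eqOn_zero_of_preconnected_of_eventuallyEq_zero
    (convex_ball t0 ρ).isPreconnected ht1b hev
  filter_upwards [Metric.ball_mem_nhds t0 hρ] with s hs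
  have h3 : f s - f t1 / g t1 * g s = 0 := hzero hs
  exact sub_eq_zero.1 h3

theorem ger (t0 : ℂ) : ∃ (Ω : Type) (_ : Field Ω) (_ : Algebra ℂ Ω) (_ : IsAlgClosed Ω)
    (D : Derivation ℂ Ω Ω) (γ : (ℂ → ℂ) → Ω), IsGer t0 D γ ∧
      ∀ y, D y = 0 → y ∈ Set.range (algebraMap ℂ Ω) := by
  obtain ⟨R, _, _, _, D, γ, hγ, hrep⟩ := gerA t0
  have hR : ∀ r s : R, s ≠ 0 → D r * s = r * D s → ∃ c : ℂ, r = algebraMap ℂ R c * s := by
    intro r s hs hrs
    obtain ⟨f, hf, rfl⟩ := hrep r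
    obtain ⟨g, hg, rfl⟩ := hrep s
    have hf' : AnalyticAt ℂ (deriv f) t0 := hf.deriv
    have hg' : AnalyticAt ℂ (deriv g) t0 := hg.deriv
    rw [hγ.der f hf, hγ.der g hg] at hrs
    have h1 : AnalyticAt ℂ (fun t => deriv f t * g t) t0 := hf'.mul hg
    have h2 : AnalyticAt ℂ (fun t => f t * deriv g t) t0 := hf.mul hg'
    have h3 : AnalyticAt ℂ (fun t => (-1 : ℂ) * (f t * deriv g t)) t0 := analyticAt_const.mul h2
    have hW0 : γ (fun t => deriv f t * g t + (-1 : ℂ) * (f t * deriv g t)) = 0 := by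
      rw [hγ.add _ _ h1 h3, hγ.mul _ _ hf' hg, hγ.mul _ _ analyticAt_const h2, hγ.mul _ _ hf hg',
        hγ.const, hrs]
      simp
    have hW := hγ.zero _ (h1.add h3) hW0
    have hW' : ∀ᶠ t in 𝓝 t0, deriv f t * g t - f t * deriv g t = 0 := by
      filter_upwards [hW] with t ht
      have ht' : deriv f t * g t + (-1 : ℂ) * (f t * deriv g t) = 0 := ht
      rw [← ht']; ring
    have hg0 : ¬ ∀ᶠ t in 𝓝 t0, g t = 0 := by
      intro h
      apply hs
      rw [hγ.congr g (fun _ => (0 : ℂ)) hg h, hγ.const, map_zero]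
    obtain ⟨c, hc⟩ := wronskian t0 f g hf hg hW' hg0
    refine ⟨c, ?_⟩
    rw [hγ.congr f (fun t => c * g t) hf hc, hγ.mul (fun _ => c) g analyticAt_const hg, hγ.const]
  obtain ⟨Ω, iF, iA, iC, DΩ, i, hi, hD, hc⟩ := gerB D hR
  refine ⟨Ω, iF, iA, iC, DΩ, fun f => i (γ f), ⟨?_, ?_, ?_, ?_, ?_, ?_⟩, hc⟩
  · intro f g hf hg
    rw [hγ.add f g hf hg, map_add]
  · intro f g hf hg
    rw [hγ.mul f g hf hg, map_mul]
  · intro c
    rw [hγ.const c, AlgHom.commutes]
  · intro f hf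
    rw [hD, hγ.der f hf]
  · intro f hf h0
    exact hγ.zero f hf (hi (by rw [h0, map_zero]))
  · intro f g hf hfg
    rw [hγ.congr f g hf hfg]

end Pool.Agent.Lib.MSF
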