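import Pool.Agent.Lib.MSF.MobRel

set_option autoImplicit false

/-!
# MOB.COMP : the same along a function `ζ` (about 90 lines; from MobRel)

`c = g 1 0`, `d = g 1 1`: if `c ζ(t) + d = 0` then by `hg` also `g₀₀ ζ(t) + g₀₁ = 0`, contradicting
`det g ≠ 0`. So near `t0` `ξ t = mob g (ζ t)`. `ζ` is open at `t0`
(`AnalyticAt.eventually_constant_or_nhds_le_map_nhds`), so the relation `P(j z, j(mob g z)) = 0` holds near
`ζ t0`; `mob_rel` with `w = ζ t0`.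
-/

noncomputable section

namespace Pool.Agent.Lib.MSF

open Topology Pool.Agent.Lib.MP5e

theorem mob_comp (g : Matrix (Fin 2) (Fin 2) ℂ) (hdet : g.det ≠ 0) (ζ ξ : ℂ → ℂ) (t0 : ℂ)
    (han : AnalyticAt ℂ ζ t0) (han' : AnalyticAt ℂ ξ t0) (him : 0 < (ζ t0).im)
    (him' : 0 < (ξ t0).im) (hnc : ¬ ∀ᶠ t in 𝓝 t0, ζ t = ζ t0)
    (hg : ∀ᶠ t in 𝓝 t0, ξ t * (g 1 0 * ζ t + g 1 1) = g 0 0 * ζ t + g 0 1)
    (P : MvPolynomial (Fin 2) ℂ) (hP : P ≠ 0)
    (h : ∀ᶠ t in 𝓝 t0, MvPolynomial.eval ![jf (ζ t), jf (ξ t)] P = 0) :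
    ∃ A B C D : ℚ, 0 < A * D - B * C ∧
      ∀ᶠ t in 𝓝 t0, ξ t = ((A : ℂ) * ζ t + B) / ((C : ℂ) * ζ t + D) := by
  have hE : ∀ᶠ t in 𝓝 t0, ξ t = mob g (ζ t) := by
    filter_upwards [hg] with t ht
    have hden : g 1 0 * ζ t + g 1 1 ≠ 0 := by
      intro h0
      rw [h0, mul_zero] at ht
      apply hdet
      rw [Matrix.det_fin_two]
      linear_combination g 0 0 * h0 + g 1 0 * ht
    unfold mob
    exact (eq_div_iff hden).2 ht
  have hgw : 0 < (mob g (ζ t0)).im := by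
    rw [← hE.self_of_nhds]
    exact him'
  have hP' : ∀ᶠ z in 𝓝 (ζ t0), MvPolynomial.eval ![jf z, jf (mob g z)] P = 0 := by
    apply han.eventually_constant_or_nhds_le_map_nhds.resolve_left hnc
    rw [Filter.mem_map]
    filter_upwards [h, hE] with t h1 h2
    change MvPolynomial.eval ![jf (ζ t), jf (mob g (ζ t))] P = 0
    rw [← h2]
    exact h1
  obtain ⟨A, B, C, D, hd, hz⟩ := mob_rel g hdet (ζ t0) him hgw P hP hP'
  refine ⟨A, B, C, D, hd, ?_⟩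
  filter_upwards [hE, (Complex.continuous_im.continuousAt.comp han.continuousAt).eventually
    (lt_mem_nhds him)] with t h1 h2
  rw [h1]
  exact hz (ζ t) h2

end Pool.Agent.Lib.MSF
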