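import Pool.Agent.Lib.MSF.Der

set_option autoImplicit false

/-!
# RED.A : stability under `D` (about 110 lines; from Der, Acl)

`red_stab`: for a subset `T` of `F` with `D s ∈ ACl C T` for all `s ∈ T`, `D` maps `ACl C T` to itself:
`{u : u ∈ ACl C T, D u ∈ ACl C T}` is a subfield containing `C` and `T`, so it contains
`E = adjoin C T`; for `u ∈ ACl C T` let `p = minpoly E u`: `0 = D (p(u)) = (D p)(u) + p'(u) D u`
(the coefficients of `p` are in `E`), `p'(u) ≠ 0`.
`red_fam`: first `T = {t}` (`D t = 1`): `D z_k ∈ ACl C {t}`. Then `T = range S.fam`: `t`, `x_k`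
(`hx`: `D x_k = a_k² D z_k`), `a_k` (`hDa`), `b_k` (`hDb`; `aeval x_k N` is in the subfield).
-/

noncomputable section

namespace Pool.Agent.Lib.MSF

variable {C F : Type} [Field C] [Field F] [Algebra C F] {n : ℕ}

private theorem adj_le_acl (T : Set F) {u : F} (hu : u ∈ IntermediateField.adjoin C T) :
    u ∈ ACl C T := by
  rw [mem_acl]
  exact isAlgebraic_algebraMap (⟨u, hu⟩ : IntermediateField.adjoin C T)

private theorem stab_adj (D : Derivation C F F) (T : Set F) (h : ∀ s ∈ T, D s ∈ ACl C T) :
    ∀ u ∈ IntermediateField.adjoin C T, D u ∈ ACl C T := by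
  intro u hu
  induction hu using IntermediateField.adjoin_induction with
  | mem x hx => exact h x hx
  | algebraMap x => rw [Derivation.map_algebraMap]; exact zero_mem _
  | add x y hx hy ihx ihy => rw [map_add]; exact add_mem ihx ihy
  | inv x hx ihx =>
    rw [Derivation.leibniz_inv]
    exact mul_mem (neg_mem (pow_mem (inv_mem (adj_le_acl T hx)) 2)) ihx
  | mul x y hx hy ihx ihy =>
    rw [Derivation.leibniz]
    exact add_mem (mul_mem (adj_le_acl T hx) ihy) (mul_mem (adj_le_acl T hy) ihx)

private theorem der_aeval (D : Derivation C F F) (T : Set F) (h : ∀ s ∈ T, D s ∈ ACl C T)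
    (u : F) (hu : u ∈ ACl C T) (p : Polynomial (IntermediateField.adjoin C T)) :
    ∃ v ∈ ACl C T, D (Polynomial.aeval u p) =
      v + Polynomial.aeval u (Polynomial.derivative p) * D u := by
  induction p using Polynomial.induction_on' with
  | add p q hp hq =>
    obtain ⟨v, hv, h1⟩ := hp
    obtain ⟨w, hw, h2⟩ := hq
    refine ⟨v + w, add_mem hv hw, ?_⟩
    rw [map_add, map_add, h1, h2, Polynomial.derivative_add, map_add]
    ring
  | monomial m a =>
    refine ⟨u ^ m * D (a : F), mul_mem (pow_mem hu m) (stab_adj D T h _ a.2), ?_⟩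
    rw [Polynomial.aeval_monomial, Polynomial.derivative_monomial, Polynomial.aeval_monomial,
      Derivation.leibniz, Derivation.leibniz_pow]
    simp only [smul_eq_mul, nsmul_eq_mul, map_mul, map_natCast]
    have : (algebraMap (IntermediateField.adjoin C T) F) a = (a : F) := rfl
    rw [this]
    ring

theorem red_stab [CharZero C] (D : Derivation C F F) (T : Set F) (h : ∀ s ∈ T, D s ∈ ACl C T) :
    ∀ u ∈ ACl C T, D u ∈ ACl C T := by
  intro u hu
  have halg : IsAlgebraic (IntermediateField.adjoin C T) u := mem_acl.mp hu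
  have hint : IsIntegral (IntermediateField.adjoin C T) u := halg.isIntegral
  have : CharZero (IntermediateField.adjoin C T) :=
    charZero_of_injective_algebraMap (FaithfulSMul.algebraMap_injective C _)
  obtain ⟨v, hv, h1⟩ := der_aeval D T h u hu (minpoly (IntermediateField.adjoin C T) u)
  rw [minpoly.aeval, map_zero] at h1
  have hsep : (minpoly (IntermediateField.adjoin C T) u).Separable :=
    (minpoly.irreducible hint).separable
  have hne := hsep.aeval_derivative_ne_zero (minpoly.aeval _ u)
  have hmem : Polynomial.aeval u (Polynomial.derivative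
      (minpoly (IntermediateField.adjoin C T) u)) ∈ ACl C T := by
    rw [Polynomial.aeval_eq_sum_range]
    refine sum_mem fun i _ => ?_
    rw [Algebra.smul_def]
    exact mul_mem (adj_le_acl T (SetLike.coe_mem _)) (pow_mem hu i)
  have h2 : D u = -v / Polynomial.aeval u (Polynomial.derivative
      (minpoly (IntermediateField.adjoin C T) u)) := by
    rw [eq_div_iff hne]
    linear_combination -h1
  rw [h2]
  exact div_mem (neg_mem hv) hmem

theorem red_fam [CharZero C] (S : FDat C F n) :
    ∀ u ∈ ACl C (Set.range S.fam), S.D u ∈ ACl C (Set.range S.fam) := by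
  have ht0 : S.t ∈ ACl C (Set.range S.fam) := subset_acl _ ⟨none, rfl⟩
  have hx0 : ∀ k, S.x k ∈ ACl C (Set.range S.fam) := fun k =>
    subset_acl _ ⟨some (k, 0), rfl⟩
  have ha0 : ∀ k, S.a k ∈ ACl C (Set.range S.fam) := fun k =>
    subset_acl _ ⟨some (k, 1), rfl⟩
  have hb0 : ∀ k, S.b k ∈ ACl C (Set.range S.fam) := fun k =>
    subset_acl _ ⟨some (k, 2), rfl⟩
  have h1 : ∀ u ∈ ACl C {S.t}, S.D u ∈ ACl C {S.t} := by
    apply red_stab
    intro s hs
    rw [Set.mem_singleton_iff] at hs
    rw [hs, S.ht]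
    exact one_mem _
  have h2 : ACl C {S.t} ≤ ACl C (Set.range S.fam) := by
    apply acl_mono
    intro s hs
    rw [Set.mem_singleton_iff] at hs
    exact ⟨none, hs.symm⟩
  have hDz : ∀ k, S.D (S.z k) ∈ ACl C (Set.range S.fam) := fun k => h2 (h1 _ (S.hz k))
  have hDx : ∀ k, S.D (S.x k) ∈ ACl C (Set.range S.fam) := fun k => by
    rw [S.hx k]
    exact mul_mem (pow_mem (ha0 k) 2) (hDz k)
  have hpol : ∀ (k : Fin n) (p : Polynomial ℤ),
      Polynomial.aeval (S.x k) p ∈ ACl C (Set.range S.fam) := by
    intro k p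
    rw [Polynomial.aeval_eq_sum_range]
    exact sum_mem fun i _ => zsmul_mem (pow_mem (hx0 k) i) _
  apply red_stab
  rintro s ⟨v, rfl⟩
  rcases v with _ | ⟨k, i⟩
  · change S.D S.t ∈ _
    rw [S.ht]
    exact one_mem _
  · fin_cases i
    · exact hDx k
    · change S.D (S.a k) ∈ _
      rw [S.hDa k]
      exact mul_mem (hb0 k) (hDx k)
    · change S.D (S.b k) ∈ _
      rw [S.hDb k]
      exact mul_mem (neg_mem (mul_mem (div_mem (hpol k _) (hpol k _)) (ha0 k))) (hDx k)

end Pool.Agent.Lib.MSF
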