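import Pool.Agent.Lib.MSF.Ind

set_option autoImplicit false

/-!
# RED.B : closures and independence in a subfield (about 90 lines; from Acl)

`L` is a relatively algebraically closed intermediate field of `F/C`. `red_acl`: for a set `T ⊆ L`,
`adjoin C T` (in `L`) is mapped isomorphically to `adjoin C (image of T)` (in `F`)
(`IntermediateField.adjoin_map`, `L.val`); an element of `L` is algebraic over the one iff over the other
(`isAlgebraic_algHom_iff` or by mapping polynomials). `red_ind`:
`AlgHom.algebraicIndependent_iff` (injective algebra homomorphism `L.val`).
-/

noncomputable section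

namespace Pool.Agent.Lib.MSF

variable {C F : Type} [Field C] [Field F] [Algebra C F]

theorem red_acl (L : IntermediateField C F) (T : Set L) (u : L) :
    u ∈ ACl C T ↔ (u : F) ∈ ACl C ((fun v : L => (v : F)) '' T) := by
  rw [mem_acl, mem_acl]
  have h : IntermediateField.adjoin C ((fun v : L => (v : F)) '' T) =
      (IntermediateField.adjoin C T).map L.val := by
    rw [IntermediateField.adjoin_map]
    rfl
  rw [h]
  exact (isAlgebraic_ringHom_iff_of_comp_eq
    (IntermediateField.equivMap (IntermediateField.adjoin C T) L.val) L.val
    Subtype.val_injective (RingHom.ext fun x => rfl)).symm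

theorem red_ind (L : IntermediateField C F) {ι : Type} (v : ι → L) :
    AlgebraicIndependent C v ↔ AlgebraicIndependent C (fun i => (v i : F)) :=
  (AlgHom.algebraicIndependent_iff L.val Subtype.val_injective).symm

end Pool.Agent.Lib.MSF
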