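import Pool.Agent.Lib.MSF.Abs
import Pool.Agent.Lib.MSF.RedA
import Pool.Agent.Lib.MSF.RedB

set_option autoImplicit false

/-!
# RED : reduction to a field of finite transcendence degree (about 120 lines; from Abs, RedA, RedB, Acl)

`L = ACl C (range S.fam)`, an algebraically closed field (`acl_isAlgClosed`). `D` restricts to a derivation
of `L` (`red_fam`), `z_k ∈ L` (`hz`, `acl_le`; `t = S.fam none`), and `S` restricts to
`S' : FDat C L n` (`red_acl`, `red_ind`; `hC`: `algebraMap C F` factors through `L`;
`Polynomial.aeval` of integer polynomials commutes with the inclusion `L → F`). Every element of `L` is in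
`ACl C (range S'.fam)` by `red_acl`. Apply `fabs`, transfer back with `red_ind`.
-/

noncomputable section

namespace Pool.Agent.Lib.MSF

variable {C F : Type} [Field C] [Field F] [Algebra C F] {n : ℕ}

/-- the restriction of a derivation to an intermediate field -/
private def restrD (L : IntermediateField C F) (D : Derivation C F F)
    (h : ∀ u ∈ L, D u ∈ L) : Derivation C L L where
  toFun u := ⟨D u, h u u.2⟩
  map_add' u v := by
    apply Subtype.ext
    simp
  map_smul' c u := by
    apply Subtype.ext
    simp
  map_one_eq_zero' := by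
    apply Subtype.ext
    simp
  leibniz' u v := by
    apply Subtype.ext
    simp

private theorem restrD_coe (L : IntermediateField C F) (D : Derivation C F F)
    (h : ∀ u ∈ L, D u ∈ L) (u : L) : ((restrD L D h u : L) : F) = D u := rfl

private theorem aeval_coe (L : IntermediateField C F) (p : Polynomial ℤ) (u : L) :
    ((Polynomial.aeval u p : L) : F) = Polynomial.aeval (u : F) p := by
  have h := Polynomial.hom_eval₂ p (algebraMap ℤ L) (algebraMap L F) u
  rw [Polynomial.aeval_def, Polynomial.aeval_def]
  have h2 : (algebraMap L F).comp (algebraMap ℤ L) = algebraMap ℤ F := RingHom.ext_int _ _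
  rw [h2] at h
  exact h

private theorem fam_mem (S : FDat C F n) (v : Option (Fin n × Fin 3)) :
    S.fam v ∈ ACl C (Set.range S.fam) := subset_acl _ ⟨v, rfl⟩

private theorem z_mem (S : FDat C F n) (k : Fin n) : S.z k ∈ ACl C (Set.range S.fam) := by
  refine acl_le ?_ (S.hz k)
  intro u hu
  rw [Set.mem_singleton_iff.mp hu]
  exact fam_mem S none

private theorem coe_vec4 (L : IntermediateField C F) (p q r s : L) :
    (fun i => ((![p, q, r, s] i : L) : F)) = ![(p : F), (q : F), (r : F), (s : F)] := by
  funext i
  fin_cases i <;> rfl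

private theorem coe_vec2 (L : IntermediateField C F) (p q : L) :
    (fun i => ((![p, q] i : L) : F)) = ![(p : F), (q : F)] := by
  funext i
  fin_cases i <;> rfl

/-- the restricted data -/
private def restr [CharZero C] (S : FDat C F n) : FDat C (ACl C (Set.range S.fam)) n where
  D := restrD (ACl C (Set.range S.fam)) S.D (red_fam S)
  N := S.N
  M := S.M
  t := ⟨S.t, fam_mem S none⟩
  z k := ⟨S.z k, z_mem S k⟩
  x k := ⟨S.x k, fam_mem S (some (k, 0))⟩
  a k := ⟨S.a k, fam_mem S (some (k, 1))⟩
  b k := ⟨S.b k, fam_mem S (some (k, 2))⟩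
  hC y hy := by
    have h1 : S.D (y : F) = 0 := by
      rw [← restrD_coe (ACl C (Set.range S.fam)) S.D (red_fam S) y, hy]
      rfl
    obtain ⟨c, hc⟩ := S.hC _ h1
    exact ⟨c, Subtype.ext hc⟩
  ht := by
    apply Subtype.ext
    rw [restrD_coe]
    exact S.ht
  ha k h := S.ha k (congrArg Subtype.val h)
  hM k h := by
    apply S.hM k
    have h1 := congrArg (fun u : ACl C (Set.range S.fam) => (u : F)) h
    rw [aeval_coe] at h1
    exact h1
  hx k := by
    apply Subtype.ext
    rw [restrD_coe]
    exact S.hx k
  hDa k := by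
    apply Subtype.ext
    rw [restrD_coe]
    exact S.hDa k
  hDb k := by
    apply Subtype.ext
    rw [restrD_coe]
    have h := S.hDb k
    push_cast
    rw [aeval_coe, aeval_coe, restrD_coe]
    exact h
  hz k := by
    rw [red_acl, Set.image_singleton]
    exact S.hz k
  h1 k := by
    rw [red_ind, coe_vec4]
    exact S.h1 k

private theorem restr_fam [CharZero C] (S : FDat C F n) (v : Option (Fin n × Fin 3)) :
    (((restr S).fam v : ACl C (Set.range S.fam)) : F) = S.fam v := by
  rcases v with _ | ⟨k, i⟩
  · rfl
  · fin_cases i <;> rfl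

theorem fabs' [IsAlgClosed C] [CharZero C] [IsAlgClosed F]
    (hC : Cardinal.aleph0 < Cardinal.mk C) (S : FDat C F n)
    (h2 : ∀ k l, k ≠ l → ∀ g : Matrix (Fin 2) (Fin 2) C, g.det ≠ 0 →
      S.z l * (algebraMap C F (g 1 0) * S.z k + algebraMap C F (g 1 1)) =
        algebraMap C F (g 0 0) * S.z k + algebraMap C F (g 0 1) →
      AlgebraicIndependent C ![S.x k, S.x l]) :
    AlgebraicIndependent C S.fam := by
  have : IsAlgClosed (ACl C (Set.range S.fam)) := acl_isAlgClosed _
  have himg : (fun v : ACl C (Set.range S.fam) => (v : F)) '' Set.range (restr S).fam =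
      Set.range S.fam := by
    ext u
    constructor
    · rintro ⟨_, ⟨v, rfl⟩, rfl⟩
      exact ⟨v, (restr_fam S v).symm⟩
    · rintro ⟨v, rfl⟩
      exact ⟨_, ⟨v, rfl⟩, restr_fam S v⟩
  have h := fabs hC (restr S) (fun u => by
    rw [red_acl, himg]
    exact u.2) (fun k l hkl g hg he => by
    rw [red_ind, coe_vec2]
    refine h2 k l hkl g hg ?_
    exact congrArg (fun u : ACl C (Set.range S.fam) => (u : F)) he)
  rw [red_ind] at h
  have h3 : (fun i => (((restr S).fam i : ACl C (Set.range S.fam)) : F)) = S.fam :=
    funext (restr_fam S)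
  rw [h3] at h
  exact h

end Pool.Agent.Lib.MSF
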