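import Pool.Agent.Lib.MSF.AnaS
import Pool.Agent.Lib.MSF.AnaP
import Pool.Agent.Lib.MSF.Ger
import Pool.Agent.Lib.MSF.Red
import Pool.Agent.Lib.MSF.MobComp

set_option autoImplicit false

/-!
# ANA : the functional theorem (about 170 lines; from AnaS, AnaP, Ger, GerE, Red, MobComp, Ind)

Let `W` be an open neighbourhood of `t0` on which the relation `Q` and the algebraic relations hold
(`eventually_nhds_iff`, `Filter.eventually_all`); `t1 ∈ W` from `anaP`; the relations hold near `t1`.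
`Ω, D, γ` from `ger t1`, `S` from `anaS`. `h2` of `fabs'`: the equation between `S.z l` and `S.z k` gives
`ζ_l (g₁₀ ζ_k + g₁₁) = g₀₀ ζ_k + g₀₁` near `t1` (`ger_zero` for a polynomial in two variables); if
`S.x k, S.x l` are dependent there is `P ≠ 0` with `aeval ![S.x k, S.x l] P = 0`, so
`P(j(ζ_k), j(ζ_l)) = 0` near `t1` (`ger_zero`), and `mob_comp` contradicts the last property of `t1`.
(`ℂ` is uncountable: `Cardinal.mk_complex`, `Cardinal.aleph0_lt_continuum`.) So `S.fam` is algebraically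
independent by `fabs'`. The family `v ↦ γ (fun t => jfam ζ t v)` is algebraically independent by
`ind_of_acl` (`a_k² `, `b_k · 2 a_k³` are members, `acl_pow`), so `Q = 0` by `ger_ind`.
-/

noncomputable section

namespace Pool.Agent.Lib.MSF

open Topology Pool.Agent.Lib.MP5e

/-- **Functional theorem.** -/
theorem ft (n : ℕ) (z : Fin n → ℂ → ℂ) (t0 : ℂ) (han : ∀ k, AnalyticAt ℂ (z k) t0)
    (him : ∀ k, 0 < (z k t0).im)
    (halg : ∀ k, ∃ P : Polynomial (Polynomial ℂ), P ≠ 0 ∧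
      ∀ᶠ t in 𝓝 t0, (P.map (Polynomial.evalRingHom t)).eval (z k t) = 0)
    (hnc : ∀ k, ¬ ∀ᶠ t in 𝓝 t0, z k t = z k t0)
    (hrel : ∀ k l, k ≠ l → ∀ a b c d : ℚ, 0 < a * d - b * c →
      ¬ ∀ᶠ t in 𝓝 t0, z l t = ((a : ℂ) * z k t + b) / ((c : ℂ) * z k t + d))
    (Q : MvPolynomial (Option (Fin n × Fin 3)) ℂ)
    (hQ : ∀ᶠ t in 𝓝 t0, MvPolynomial.eval (fun v : Option (Fin n × Fin 3) =>
      v.elim t fun p => J4 (z p.1 t) p.2.succ) Q = 0) : Q = 0 := by
  choose A hA0 hA using halg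
  have hall : ∀ᶠ t in 𝓝 t0, (∀ k, ((A k).map (Polynomial.evalRingHom t)).eval (z k t) = 0) ∧
      MvPolynomial.eval (fun v : Option (Fin n × Fin 3) =>
        v.elim t fun p => J4 (z p.1 t) p.2.succ) Q = 0 :=
    (Filter.eventually_all.2 hA).and hQ
  obtain ⟨W, hW, hWo, ht0⟩ := eventually_nhds_iff.1 hall
  obtain ⟨t1, ht1, hgood, hrel1⟩ := anaP z t0 han him hnc hrel W hWo ht0
  have hW1 : W ∈ 𝓝 t1 := hWo.mem_nhds ht1
  obtain ⟨Ω, _, _, _, D, γ, hg, hC⟩ := ger t1
  obtain ⟨S, hSt, hS⟩ := anaS z t1 hgood (fun k => ⟨A k, hA0 k, by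
    filter_upwards [hW1] with t ht
    exact (hW t ht).1 k⟩) D γ hg hC
  have hjan : ∀ k, ∀ i, AnalyticAt ℂ (fun t => J4 (z k t) i) t1 := by
    intro k i
    exact (J4_analyticAt (hgood k).2.1 i).comp (hgood k).1
  have h2 : ∀ k l, k ≠ l → ∀ g : Matrix (Fin 2) (Fin 2) ℂ, g.det ≠ 0 →
      S.z l * (algebraMap ℂ Ω (g 1 0) * S.z k + algebraMap ℂ Ω (g 1 1)) =
        algebraMap ℂ Ω (g 0 0) * S.z k + algebraMap ℂ Ω (g 0 1) →
      AlgebraicIndependent ℂ ![S.x k, S.x l] := by
    intro k l hkl g hdet heq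
    by_contra hno
    rw [algebraicIndependent_iff] at hno
    push Not at hno
    obtain ⟨P, hP, hP0⟩ := hno
    have hy2 : ∀ i : Fin 2, AnalyticAt ℂ ((![fun t => jf (z k t), fun t => jf (z l t)] :
        Fin 2 → ℂ → ℂ) i) t1 := by
      intro i
      fin_cases i
      · exact hjan k 1
      · exact hjan l 1
    have hP' : ∀ᶠ t in 𝓝 t1, MvPolynomial.eval (fun i => (![fun t => jf (z k t),
        fun t => jf (z l t)] : Fin 2 → ℂ → ℂ) i t) P = 0 := by
      rw [← ger_zero hg _ hy2, ← hP]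
      congr 2
      funext i
      fin_cases i
      · exact (hS k).2.1.symm
      · exact (hS l).2.1.symm
    have hz2 : ∀ i : Fin 2, AnalyticAt ℂ ((![z k, z l] : Fin 2 → ℂ → ℂ) i) t1 := by
      intro i
      fin_cases i
      · exact (hgood k).1
      · exact (hgood l).1
    have hrl : ∀ᶠ t in 𝓝 t1, MvPolynomial.eval (fun i => (![z k, z l] : Fin 2 → ℂ → ℂ) i t)
        (MvPolynomial.X 1 * (MvPolynomial.C (g 1 0) * MvPolynomial.X 0 +
          MvPolynomial.C (g 1 1)) - (MvPolynomial.C (g 0 0) * MvPolynomial.X 0 +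
          MvPolynomial.C (g 0 1)) : MvPolynomial (Fin 2) ℂ) = 0 := by
      rw [← ger_zero hg _ hz2]
      have e0 : γ ((![z k, z l] : Fin 2 → ℂ → ℂ) 0) = S.z k := (hS k).1.symm
      have e1 : γ ((![z k, z l] : Fin 2 → ℂ → ℂ) 1) = S.z l := (hS l).1.symm
      simp only [map_sub, map_mul, map_add, MvPolynomial.aeval_X, MvPolynomial.aeval_C, e0, e1]
      rw [heq, sub_self]
    obtain ⟨a, b, c, d, hdet', hx⟩ := mob_comp g hdet (z k) (z l) t1 (hgood k).1 (hgood l).1
      (hgood k).2.1 (hgood l).2.1 (hgood k).2.2.2 (by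
        filter_upwards [hrl] with t ht
        have ht' : z l t * (g 1 0 * z k t + g 1 1) - (g 0 0 * z k t + g 0 1) = 0 := by
          simpa using ht
        exact sub_eq_zero.1 ht') P hP0 (by
        filter_upwards [hP'] with t ht
        rw [← ht]
        congr 2
        funext i
        fin_cases i <;> rfl)
    exact hrel1 k l hkl a b c d hdet' hx
  have hfam := fabs' (by rw [Cardinal.mk_complex]; exact Cardinal.aleph0_lt_continuum) S h2
  have hJan : ∀ v : Option (Fin n × Fin 3), AnalyticAt ℂ (fun t => v.elim t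
      fun p => J4 (z p.1 t) p.2.succ) t1 := by
    rintro (_ | ⟨k, i⟩)
    · exact analyticAt_id
    · exact hjan k _
  have hind : AlgebraicIndependent ℂ (fun v : Option (Fin n × Fin 3) =>
      γ (fun t => v.elim t fun p => J4 (z p.1 t) p.2.succ)) := by
    refine ind_of_acl _ S.fam hfam ?_
    obtain ⟨R, hR⟩ : ∃ R : Set Ω, R = Set.range (fun v : Option (Fin n × Fin 3) =>
      γ (fun t => v.elim t fun p => J4 (z p.1 t) p.2.succ)) := ⟨_, rfl⟩
    rw [← hR]
    have hmem : ∀ v : Option (Fin n × Fin 3),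
        γ (fun t => v.elim t fun p => J4 (z p.1 t) p.2.succ) ∈ ACl ℂ R := by
      intro v
      apply subset_acl
      rw [hR]
      exact ⟨v, rfl⟩
    have ha : ∀ k, S.a k ∈ ACl ℂ R := by
      intro k
      apply acl_pow two_ne_zero
      rw [(hS k).2.2.1]
      exact hmem (some (k, 1))
    rintro (_ | ⟨k, i⟩)
    · change S.t ∈ _
      rw [hSt]
      exact hmem none
    · fin_cases i
      · change S.x k ∈ _
        rw [(hS k).2.1]
        exact hmem (some (k, 0))
      · exact ha k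
      · change S.b k ∈ _
        have h3 := (hS k).2.2.2
        have h20 : (2 : Ω) ≠ 0 := by
          rw [← map_ofNat (algebraMap ℂ Ω) 2]
          exact (map_ne_zero _).2 two_ne_zero
        have h4 : (2 : Ω) * S.a k ^ 3 ≠ 0 := mul_ne_zero h20 (pow_ne_zero 3 (S.ha k))
        rw [eq_div_of_mul_eq h4 h3]
        refine div_mem (hmem (some (k, 2))) (mul_mem ?_ (pow_mem (ha k) 3))
        rw [← map_ofNat (algebraMap ℂ Ω) 2]
        exact (ACl ℂ R).algebraMap_mem 2
  rw [ger_ind hg _ hJan] at hind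
  apply hind
  filter_upwards [hW1] with t ht
  exact (hW t ht).2

end Pool.Agent.Lib.MSF
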