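import Pool.Agent.Lib.MSF.Acl

set_option autoImplicit false

/-!
# DER : extension of derivations, characteristic zero

`der_ext`: `K = ACl C S`; `y` is transcendental over `K`, so there is a transcendence basis of `F/K`
containing `y` and a derivation `δ` of `F` over `K` with `δ y = 1`.
`der_acl`: a derivation that kills `S` kills the algebraic closure of `C(S)`.
`der_kill`: the converse.
-/

noncomputable section

namespace Pool.Agent.Lib.MSF

variable {C F : Type} [Field C] [Field F] [Algebra C F]

private theorem rder_one {K : Type} [Field K] [Algebra K F] [CharZero K] (y : F)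
    (hy : Transcendental K y) : ∃ D : Derivation K F F, D y = 1 := by
  classical
  have hw : AlgebraicIndependent K (fun _ : Fin 1 => y) :=
    (algebraicIndependent_unique_type_iff (x := fun _ : Fin 1 => y)).2 hy
  obtain ⟨t, hwt, ht⟩ := exists_isTranscendenceBasis_superset
    (s := Set.range (fun _ : Fin 1 => y)) (R := K) (A := F) hw.to_subtype_range
  let S := MvPolynomial t K
  let A := Algebra.adjoin K (Set.range ((↑) : t → F))
  let K' := IntermediateField.adjoin K (Set.range ((↑) : t → F))
  let e : S ≃ₐ[K] A := ht.1.aevalEquiv
  open scoped IntermediateField.algebraAdjoinAdjoin in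
  let iSA : Algebra S A := e.toRingEquiv.toRingHom.toAlgebra
  let iSK : Algebra S K' := ((algebraMap A K').comp e.toRingEquiv.toRingHom).toAlgebra
  let iSC : Algebra S F := (MvPolynomial.aeval ((↑) : t → F) : S →ₐ[K] F).toRingHom.toAlgebra
  have t1 : IsScalarTower S A K' := IsScalarTower.of_algebraMap_eq' rfl
  have t2 : IsScalarTower S K' F := IsScalarTower.of_algebraMap_eq (fun x => by
    change (MvPolynomial.aeval ((↑) : t → F)) x = ((algebraMap A K' (e x) : K') : F)
    exact (ht.1.algebraMap_aevalEquiv x).symm)
  have t3 : IsScalarTower K S F := IsScalarTower.of_algebraMap_eq (fun x => by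
    exact ((MvPolynomial.aeval ((↑) : t → F) : S →ₐ[K] F).commutes x).symm)
  have f1 : Algebra.FormallyEtale S A :=
    Algebra.FormallyEtale.of_equiv (A := S) (AlgEquiv.ofBijective (Algebra.ofId S A) e.bijective)
  have f2 : Algebra.FormallyEtale A K' := Algebra.FormallyEtale.of_isLocalization (nonZeroDivisors A)
  have f3 : Algebra.FormallyEtale S K' := Algebra.FormallyEtale.comp S A K'
  have alg : Algebra.IsAlgebraic K' F := ht.isAlgebraic_field
  have cz : CharZero K' := charZero_of_injective_algebraMap (algebraMap K K').injective
  have sep : Algebra.IsSeparable K' F := inferInstance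
  have f4 : Algebra.FormallyEtale K' F := Algebra.FormallyEtale.of_isSeparable K' F
  have f5 : Algebra.FormallyEtale S F := Algebra.FormallyEtale.comp S K' F
  let D₀ : Derivation K S F := MvPolynomial.mkDerivation K (fun _ => (1 : F))
  let L : TensorProduct S F (Ω[S⁄K]) →ₗ[F] F := LinearMap.liftBaseChange F D₀.liftKaehlerDifferential
  let D : Derivation K F F :=
    (L ∘ₗ (KaehlerDifferential.tensorKaehlerEquivOfFormallyEtale K S F).symm.toLinearMap).compDer
      (KaehlerDifferential.D K F)
  refine ⟨D, ?_⟩
  have hmem : y ∈ t := hwt ⟨0, rfl⟩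
  have h1 : y = algebraMap S F (MvPolynomial.X ⟨y, hmem⟩) := by
    change _ = (MvPolynomial.aeval ((↑) : t → F)) (MvPolynomial.X ⟨y, hmem⟩)
    simp
  have h2 : D (algebraMap S F (MvPolynomial.X ⟨y, hmem⟩)) = 1 := by
    change L ((KaehlerDifferential.tensorKaehlerEquivOfFormallyEtale K S F).symm
      (KaehlerDifferential.D K F (algebraMap S F (MvPolynomial.X ⟨y, hmem⟩)))) = _
    rw [KaehlerDifferential.tensorKaehlerEquivOfFormallyEtale_symm_D_algebraMap]
    simp only [L, D₀, LinearMap.liftBaseChange_tmul, one_smul,
      Derivation.liftKaehlerDifferential_comp_D]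
    exact MvPolynomial.mkDerivation_X K _ _
  exact (congrArg D h1).trans h2

theorem der_ext [CharZero C] (S : Set F) (y : F) (hy : y ∉ ACl C S) :
    ∃ δ : Derivation C F F, (∀ u ∈ ACl C S, δ u = 0) ∧ δ y = 1 := by
  have hcz : CharZero (ACl C S) :=
    charZero_of_injective_algebraMap (algebraMap C (ACl C S)).injective
  have hy' : Transcendental (ACl C S) y := fun h => hy (acl_closed h)
  obtain ⟨D, hD⟩ := rder_one y hy'
  refine ⟨D.restrictScalars C, fun u hu => ?_, hD⟩
  exact D.map_algebraMap (⟨u, hu⟩ : ACl C S)

/-- the constants of a derivation -/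
private def constF (δ : Derivation C F F) : IntermediateField C F :=
  { carrier := {x | δ x = 0}
    mul_mem' := by
      intro a b ha hb
      have ha' : δ a = 0 := ha
      have hb' : δ b = 0 := hb
      change δ (a * b) = 0
      rw [δ.leibniz, ha', hb']; simp
    one_mem' := by change δ 1 = 0; simp
    add_mem' := by
      intro a b ha hb
      have ha' : δ a = 0 := ha
      have hb' : δ b = 0 := hb
      change δ (a + b) = 0
      rw [map_add, ha', hb', add_zero]
    zero_mem' := by change δ 0 = 0; simp
    algebraMap_mem' := by intro r; change δ (algebraMap C F r) = 0; exact δ.map_algebraMap r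
    inv_mem' := by
      intro a ha
      have ha' : δ a = 0 := ha
      change δ a⁻¹ = 0
      rw [δ.leibniz_inv, ha']; simp }

theorem der_acl [CharZero C] (δ : Derivation C F F) (S : Set F) (h : ∀ s ∈ S, δ s = 0) :
    ∀ y ∈ ACl C S, δ y = 0 := by
  intro y hy
  have hy' := mem_acl.1 hy
  have hle : IntermediateField.adjoin C S ≤ constF δ :=
    IntermediateField.adjoin_le_iff.2 (fun s hs => h s hs)
  have hkill : ∀ k : IntermediateField.adjoin C S, δ (k : F) = 0 := fun k => hle k.2
  have hcz : CharZero (IntermediateField.adjoin C S) :=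
    charZero_of_injective_algebraMap (algebraMap C (IntermediateField.adjoin C S)).injective
  let D' : Derivation (IntermediateField.adjoin C S) F F :=
    { toFun := δ
      map_add' := fun a b => map_add δ a b
      map_smul' := by
        intro k a
        have hk : δ (k : F) = 0 := hkill k
        change δ ((k : F) * a) = (k : F) * δ a
        rw [δ.leibniz, hk]; simp
      map_one_eq_zero' := δ.map_one_eq_zero
      leibniz' := fun a b => δ.leibniz a b }
  have h1 : D' (Polynomial.aeval y (minpoly (IntermediateField.adjoin C S) y)) =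
      Polynomial.aeval y (Polynomial.derivative (minpoly (IntermediateField.adjoin C S) y)) • D' y :=
    D'.map_aeval _ _
  rw [minpoly.aeval, map_zero] at h1
  have hsep : (minpoly (IntermediateField.adjoin C S) y).Separable :=
    (minpoly.irreducible hy'.isIntegral).separable
  have hne : Polynomial.aeval y
      (Polynomial.derivative (minpoly (IntermediateField.adjoin C S) y)) ≠ 0 :=
    hsep.aeval_derivative_ne_zero (minpoly.aeval (IntermediateField.adjoin C S) y)
  rcases smul_eq_zero.1 h1.symm with h | h
  · exact absurd h hne
  · exact h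

theorem der_kill [CharZero C] (S : Set F) (y : F)
    (h : ∀ δ : Derivation C F F, (∀ s ∈ S, δ s = 0) → δ y = 0) : y ∈ ACl C S := by
  by_contra hy
  obtain ⟨δ, h1, h2⟩ := der_ext S y hy
  have h3 := h δ (fun s hs => h1 s (subset_acl S hs))
  rw [h2] at h3
  exact one_ne_zero h3

end Pool.Agent.Lib.MSF
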