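import Pool.Agent.Lib.MSF.Defs

set_option autoImplicit false

/-!
# ETA.A : first properties of `eta` (about 130 lines)

Everything is a `2 × 2` computation (`Matrix.ext`, `Fin.forall_fin_two`, `Matrix.mul_apply`,
`Fin.sum_univ_two`, `field_simp`, `ring`); `δ (1 / a) = - δ a / a²` (`Derivation.leibniz_inv`),
`δ (z * a) = z δ a + a δ z`.
`eta_trace`: the trace is `Phi'₀₀ δPhi₀₀ + Phi'₀₁ δPhi₁₀ + Phi'₁₀ δPhi₀₁ + Phi'₁₁ δPhi₁₁` minus
`δ x tr(Phi⁻¹ A Phi) = δ x tr A = 0`, and the first sum is `δ (det Phi) = δ 1 = 0`.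
`eta_D`: `(Phi).map D = D x • (A Phi)`: `D (z a) = z b D x + a D z = (z b + 1/a) D x`,
`D (z b + 1/a) = b D z - z q a D x - b D x / a² = - q z a D x`.
`Phi_der`: multiply the definition of `eta` by `Phi` from the left.
-/

noncomputable section

namespace Pool.Agent.Lib.MSF

variable {C F : Type} [Field C] [Field F] [Algebra C F]

theorem Phi_mul (z a b : F) (ha : a ≠ 0) : Phi z a b * Phi' z a b = 1 := by
  ext i j
  fin_cases i <;> fin_cases j <;>
    simp [Phi, Phi', Matrix.mul_apply, Fin.sum_univ_two] <;> field_simp <;> ring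

theorem Phi'_mul (z a b : F) (ha : a ≠ 0) : Phi' z a b * Phi z a b = 1 := by
  ext i j
  fin_cases i <;> fin_cases j <;>
    simp [Phi, Phi', Matrix.mul_apply, Fin.sum_univ_two] <;> field_simp <;> ring

theorem eta_add (z x a b q : F) (δ₁ δ₂ : Derivation C F F) :
    eta z x a b q (δ₁ + δ₂) = eta z x a b q δ₁ + eta z x a b q δ₂ := by
  unfold eta
  rw [← mul_add]
  congr 1
  ext i j
  simp only [Matrix.sub_apply, Matrix.add_apply, Matrix.map_apply, Matrix.smul_apply,
    Derivation.coe_add, Pi.add_apply, smul_eq_mul]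
  ring

theorem eta_smul (z x a b q : F) (f : F) (δ : Derivation C F F) :
    eta z x a b q (f • δ) = f • eta z x a b q δ := by
  unfold eta
  refine Eq.trans ?_ (Matrix.mul_smul _ _ _)
  congr 1
  ext i j
  simp only [Matrix.sub_apply, Matrix.map_apply, Matrix.smul_apply,
    Derivation.coe_smul, Pi.smul_apply, smul_eq_mul]
  ring

private theorem der_inv (a : F) (δ : Derivation C F F) : δ (1 / a) = -(δ a) / a ^ 2 := by
  rw [one_div, Derivation.leibniz_inv, smul_eq_mul]
  ring

private theorem der_mul (z a : F) (δ : Derivation C F F) : δ (z * a) = z * δ a + a * δ z := by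
  rw [Derivation.leibniz, smul_eq_mul, smul_eq_mul]

theorem eta_trace (z x a b q : F) (ha : a ≠ 0) (δ : Derivation C F F) :
    (eta z x a b q δ).trace = 0 := by
  unfold eta
  simp only [Matrix.trace, Matrix.diag_apply, Fin.sum_univ_two, Matrix.mul_apply,
    Matrix.sub_apply, Matrix.map_apply, Matrix.smul_apply, Phi, Phi', AA, Matrix.of_apply,
    Matrix.cons_val_zero, Matrix.cons_val_one, Matrix.cons_val', Matrix.cons_val_fin_one,
    smul_eq_mul, map_add, der_inv, der_mul]
  field_simp
  ring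

theorem eta_D (z x a b q : F) (ha : a ≠ 0) (D : Derivation C F F) (hx : D x = a ^ 2 * D z)
    (hDa : D a = b * D x) (hDb : D b = -(q * a) * D x) : eta z x a b q D = 0 := by
  unfold eta
  have h : (Phi z a b).map D - D x • (AA q * Phi z a b) = 0 := by
    ext i j
    fin_cases i <;> fin_cases j <;>
      simp [Phi, AA, Matrix.mul_apply, Fin.sum_univ_two, der_inv, der_mul, hDa, hDb, hx,
        -one_div] <;>
      field_simp <;> ring
  rw [h, mul_zero]

theorem Phi_der (z x a b q : F) (ha : a ≠ 0) (δ : Derivation C F F) :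
    (Phi z a b).map δ = δ x • (AA q * Phi z a b) + Phi z a b * eta z x a b q δ := by
  unfold eta
  rw [← mul_assoc, Phi_mul z a b ha, one_mul]
  abel

end Pool.Agent.Lib.MSF
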