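import Pool.Agent.Lib.MSF.Ric
import Pool.Agent.Lib.MSF.Der
import Pool.Agent.Lib.MSF.EtaA

set_option autoImplicit false

/-!
# ONE : no common eigenvector (about 110 lines; from Ric, Der, EtaA, Ind)

`v' = algebraMap ∘ v`, `u = Phi v'`: `u₀ = a (v₀ + z v₁)`, `u₁ = b (v₀ + z v₁) + v₁ / a`. `u₀ ≠ 0`: if
`v₁ = 0` then `v₀ ≠ 0`; if `v₁ ≠ 0` then `z ≠ - v₀ / v₁` because `z ∉ ACl C ∅` (`ind_four`). From
`Phi_der` (apply both sides to `v'`, `δ` kills the entries of `v'`): `δ u₀ = δ x u₁ + c u₀`,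
`δ u₁ = - q δ x u₀ + c u₁`. So `r = u₁ / u₀` has `δ r = (- q - r²) δ x` for all `δ`. By `der_kill` for
`{x}`: `r ∈ ACl C {x}`. With `δ = D`: `ric`.
-/

noncomputable section

namespace Pool.Agent.Lib.MSF

variable {C F : Type} [Field C] [Field F] [Algebra C F] {n : ℕ}

private theorem key (z x a b q : F) (ha : a ≠ 0) (v : Fin 2 → C) (δ : Derivation C F F) (c : F)
    (hc : (Pool.Agent.Lib.MSF.eta z x a b q δ).mulVec (fun i => algebraMap C F (v i)) =
      c • (fun i => algebraMap C F (v i))) :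
    δ (a * algebraMap C F (v 0) + z * a * algebraMap C F (v 1)) =
      δ x * (b * algebraMap C F (v 0) + (z * b + 1 / a) * algebraMap C F (v 1)) +
        c * (a * algebraMap C F (v 0) + z * a * algebraMap C F (v 1)) ∧
    δ (b * algebraMap C F (v 0) + (z * b + 1 / a) * algebraMap C F (v 1)) =
      -(q * (a * algebraMap C F (v 0) + z * a * algebraMap C F (v 1))) * δ x +
        c * (b * algebraMap C F (v 0) + (z * b + 1 / a) * algebraMap C F (v 1)) := by
  have h2 : ((Phi z a b).map δ).mulVec (fun i => algebraMap C F (v i)) =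
      δ x • (AA q).mulVec ((Phi z a b).mulVec (fun i => algebraMap C F (v i))) +
        c • (Phi z a b).mulVec (fun i => algebraMap C F (v i)) := by
    rw [Phi_der z x a b q ha δ, Matrix.add_mulVec, Matrix.smul_mulVec, ← Matrix.mulVec_mulVec,
      ← Matrix.mulVec_mulVec, hc, Matrix.mulVec_smul]
  have e0 := congrFun h2 0
  have e1 := congrFun h2 1
  simp only [Matrix.mulVec, dotProduct, Fin.sum_univ_two, Matrix.map_apply, Phi, AA,
    Matrix.of_apply, Matrix.cons_val_zero, Matrix.cons_val_one, Matrix.cons_val', Pi.add_apply,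
    Pi.smul_apply, smul_eq_mul, Matrix.cons_val_fin_one, Matrix.empty_val'] at e0 e1
  have hm : ∀ (y : F) (w : C), δ (y * algebraMap C F w) = δ y * algebraMap C F w := by
    intro y w
    rw [Derivation.leibniz, Derivation.map_algebraMap, smul_zero, zero_add, smul_eq_mul, mul_comm]
  refine ⟨?_, ?_⟩
  · rw [map_add, hm, hm, e0]
    ring
  · rw [map_add, hm, hm, e1]
    ring

theorem no_eigen [CharZero C] (S : FDat C F n) (k : Fin n) (v : Fin 2 → C) (hv : v ≠ 0)
    (h : ∀ δ : Derivation C F F, ∃ c : F, (S.eta k δ).mulVec (fun i => algebraMap C F (v i)) =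
      c • (fun i => algebraMap C F (v i))) : False := by
  set v0 : F := algebraMap C F (v 0) with hv0
  set v1 : F := algebraMap C F (v 1) with hv1
  have ha := S.ha k
  set u0 : F := S.a k * v0 + S.z k * S.a k * v1 with hu0
  set u1 : F := S.b k * v0 + (S.z k * S.b k + 1 / S.a k) * v1 with hu1
  have hz : S.z k ∉ ACl C (∅ : Set F) := (ind_four _ _ _ _ (S.h1 k)).2.1
  have hne : u0 ≠ 0 := by
    have h1 : u0 = S.a k * (v0 + S.z k * v1) := by rw [hu0]; ring
    rw [h1]
    refine mul_ne_zero ha ?_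
    intro h2
    by_cases h3 : v 1 = 0
    · have h4 : v1 = 0 := by rw [hv1, h3, map_zero]
      rw [h4, mul_zero, add_zero, hv0] at h2
      have h5 : v 0 = 0 := (map_eq_zero (algebraMap C F)).1 h2
      apply hv
      funext i
      fin_cases i
      · exact h5
      · exact h3
    · have h4 : v1 ≠ 0 := by
        rw [hv1]
        exact (map_ne_zero (algebraMap C F)).2 h3
      apply hz
      have h5 : S.z k = algebraMap C F (-(v 0) / v 1) := by
        rw [map_div₀, map_neg, ← hv0, ← hv1, eq_div_iff h4]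
        linear_combination h2
      rw [h5]
      exact (ACl C (∅ : Set F)).algebraMap_mem _
  have hr : ∀ δ : Derivation C F F, δ (u1 / u0) = (-(S.q k) - (u1 / u0) ^ 2) * δ (S.x k) := by
    intro δ
    obtain ⟨c, hc⟩ := h δ
    obtain ⟨e0, e1⟩ := key (S.z k) (S.x k) (S.a k) (S.b k) (S.q k) ha v δ c hc
    have e2 : δ u1 = δ (u1 / u0 * u0) := by rw [div_mul_cancel₀ _ hne]
    rw [Derivation.leibniz, smul_eq_mul, smul_eq_mul] at e2
    have e0' : δ u0 = δ (S.x k) * u1 + c * u0 := e0
    have e1' : δ u1 = -(S.q k * u0) * δ (S.x k) + c * u1 := e1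
    rw [e0', e1'] at e2
    have e3 : u1 / u0 * u0 = u1 := div_mul_cancel₀ _ hne
    apply mul_left_cancel₀ hne
    set r := u1 / u0 with hrr
    have e4 : u1 = r * u0 := e3.symm
    rw [e4] at e2
    linear_combination (-1) * e2
  have hmem : u1 / u0 ∈ ACl C {S.x k} := by
    apply der_kill
    intro δ hδ
    rw [hr δ, hδ (S.x k) (Set.mem_singleton _), mul_zero]
  exact ric S k (u1 / u0) hmem (hr S.D)

end Pool.Agent.Lib.MSF
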