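import Pool.Agent.Lib.MSF.Acl

set_option autoImplicit false

/-!
# IND : algebraic independence and the closure (about 170 lines)

`ind_notMem`, `ind_of_notMem`, `exists_mem`: `AlgebraicIndependent C v` iff no `v i` is algebraic over
`C(v j, j ≠ i)`; Mathlib: `algebraicIndependent_iff_transcendental...`, `AlgebraicIndependent.matroid`
(`matroid_closure_eq`, `matroid_indep_iff`; used in `Pool/Agent/Lib/MP_5e64e7_nt/QExch.lean`,
`IntermediateField.isAlgebraic_adjoin_iff`), or `AlgebraicIndependent.option_iff` /
`algebraicIndependent_of_finite_type'`. In a matroid: `v` independent iff `v` injective and for all `i`,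
`v i ∉ closure (range v \ {v i})`. If `v` is not injective, `v i = v j` with `j ≠ i` gives
`v i ∈ v '' {i}ᶜ`.
`ind_pair`, `ind_pair_not`: the case of two elements.
`acl_exch`: exchange property of the closure (`Matroid.mem_closure_insert`, or `ind_pair` for `t`, `z`).
`ind_of_acl`: rank of a matroid: `range w` is an independent set of `card ι` elements inside the closure of
`range v`, so `range v` has at least `card ι` elements (so `v` is injective) and is independent (a proper
subset would span it otherwise; `exists_mem`).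
`ind_four`: from `ind_notMem` for `i = 3`, `i = 0`, `i = 1` and `acl_mono`.
-/

noncomputable section

namespace Pool.Agent.Lib.MSF

variable {C F : Type} [Field C] [Field F] [Algebra C F]

private theorem mem_cl (S : Set F) (y : F) :
    y ∈ (AlgebraicIndependent.matroid C F).closure S ↔ y ∈ ACl C S := by
  rw [mem_acl, IntermediateField.isAlgebraic_adjoin_iff,
    AlgebraicIndependent.matroid_closure_eq, SetLike.mem_coe, Subalgebra.mem_algebraicClosure]

private theorem ground (S : Set F) : S ⊆ (AlgebraicIndependent.matroid C F).E := by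
  rw [AlgebraicIndependent.matroid_e]
  exact Set.subset_univ S

private theorem indep_iff {ι : Type} (v : ι → F) :
    AlgebraicIndependent C v ↔ Function.Injective v ∧
      (AlgebraicIndependent.matroid C F).Indep (Set.range v) := by
  constructor
  · intro h
    refine ⟨h.injective, ?_⟩
    rw [AlgebraicIndependent.matroid_indep_iff]
    exact h.coe_range
  · rintro ⟨hv, h⟩
    rw [AlgebraicIndependent.matroid_indep_iff] at h
    exact (algebraicIndependent_subtype_range hv).mp h

theorem ind_notMem {ι : Type} (v : ι → F) (h : AlgebraicIndependent C v) (i : ι) :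
    v i ∉ ACl C (v '' {i}ᶜ) := by
  obtain ⟨hv, hI⟩ := (indep_iff v).mp h
  intro hmem
  have h1 := hI.notMem_closure_sdiff_of_mem (e := v i) ⟨i, rfl⟩
  apply h1
  rw [mem_cl]
  refine acl_mono ?_ hmem
  rintro _ ⟨j, hj, rfl⟩
  refine ⟨⟨j, rfl⟩, ?_⟩
  intro hji
  exact hj (hv hji)

theorem exists_mem {ι : Type} [Finite ι] (v : ι → F) (h : ¬ AlgebraicIndependent C v) :
    ∃ i, v i ∈ ACl C (v '' {i}ᶜ) := by
  by_contra hne
  push Not at hne
  apply h
  rw [indep_iff]
  constructor
  · intro i j hij
    by_contra hne'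
    apply hne i
    rw [hij]
    exact subset_acl _ ⟨j, fun hji => hne' (Set.mem_singleton_iff.mp hji).symm, rfl⟩
  · rw [Matroid.indep_iff_forall_notMem_closure_sdiff (ground _)]
    rintro _ ⟨i, rfl⟩ hmem
    rw [mem_cl] at hmem
    apply hne i
    refine acl_mono ?_ hmem
    rintro _ ⟨⟨j, rfl⟩, hj⟩
    refine ⟨j, ?_, rfl⟩
    intro hji
    exact hj (by rw [Set.mem_singleton_iff.mp hji]; rfl)

private theorem exch_aux (t z : F) (h : z ∈ ACl C {t}) (hz : z ∉ ACl C (∅ : Set F)) :
    t ∈ ACl C {z} := by
  rw [← mem_cl] at h hz ⊢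
  have h1 : z ∈ (AlgebraicIndependent.matroid C F).closure (insert t ∅) := by
    simpa using h
  have h2 := (AlgebraicIndependent.matroid C F).mem_closure_insert hz h1
  simpa using h2

omit [Field F] in
private theorem image_pair_zero (x y : F) : (![x, y] : Fin 2 → F) '' {0}ᶜ = {y} := by
  ext u
  constructor
  · rintro ⟨j, hj, rfl⟩
    fin_cases j
    · exact absurd rfl hj
    · rfl
  · rintro rfl
    exact ⟨1, by decide, rfl⟩

omit [Field F] in
private theorem image_pair_one (x y : F) : (![x, y] : Fin 2 → F) '' {1}ᶜ = {x} := by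
  ext u
  constructor
  · rintro ⟨j, hj, rfl⟩
    fin_cases j
    · rfl
    · exact absurd rfl hj
  · rintro rfl
    exact ⟨0, by decide, rfl⟩

theorem ind_pair (x y : F) (hx : x ∉ ACl C (∅ : Set F)) (hy : y ∉ ACl C {x}) :
    AlgebraicIndependent C ![x, y] := by
  by_contra hne
  obtain ⟨i, hi⟩ := exists_mem _ hne
  fin_cases i
  · rw [show ((fun i => i) ⟨0, by decide⟩ : Fin 2) = 0 from rfl, image_pair_zero] at hi
    exact hy (exch_aux y x hi hx)
  · rw [show ((fun i => i) ⟨1, by decide⟩ : Fin 2) = 1 from rfl, image_pair_one] at hi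
    exact hy hi

theorem ind_pair_not (x y : F) (h : AlgebraicIndependent C ![x, y]) : y ∉ ACl C {x} := by
  have h1 := ind_notMem _ h 1
  rw [image_pair_one] at h1
  exact h1

theorem acl_exch (t z : F) (h : z ∈ ACl C {t}) (hz : z ∉ ACl C (∅ : Set F)) : t ∈ ACl C {z} :=
  exch_aux t z h hz

theorem ind_of_acl {ι : Type} [Finite ι] (v w : ι → F) (hw : AlgebraicIndependent C w)
    (h : ∀ i, w i ∈ ACl C (Set.range v)) : AlgebraicIndependent C v := by
  classical
  cases nonempty_fintype ι
  set M := AlgebraicIndependent.matroid C F with hM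
  obtain ⟨hwi, hwI⟩ := (indep_iff w).mp hw
  have hsub : Set.range w ⊆ M.closure (Set.range v) := by
    rintro _ ⟨i, rfl⟩
    rw [hM, mem_cl]
    exact h i
  obtain ⟨I, hI⟩ := M.exists_isBasis (Set.range v) (ground _)
  have h1 : (Set.range w).encard ≤ M.eRk (M.closure (Set.range v)) :=
    hwI.encard_le_eRk_of_subset hsub
  rw [M.eRk_closure_eq, ← hI.encard_eq_eRk] at h1
  have h2 : (Set.range w).encard = (Fintype.card ι : ℕ∞) := by
    rw [← Set.image_univ, hwi.encard_image, Set.encard_univ, ENat.card_eq_coe_fintype_card]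
  have h3 : (Set.range v).encard ≤ (Fintype.card ι : ℕ∞) := by
    rw [← Set.image_univ]
    refine (Set.encard_image_le _ _).trans ?_
    rw [Set.encard_univ, ENat.card_eq_coe_fintype_card]
  have hfin : (Set.range v).Finite := Set.finite_range v
  have hIv : I = Set.range v := by
    apply (hfin.subset hI.subset).eq_of_subset_of_encard_le hI.subset
    exact h3.trans (h2 ▸ h1)
  rw [indep_iff]
  constructor
  · have h4 : (Fintype.card ι : ℕ∞) ≤ (Set.range v).encard := by
      rw [← h2, ← hIv]
      exact h1
    rw [← Set.injOn_univ]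
    apply Set.finite_univ.injOn_of_encard_image_eq
    rw [Set.image_univ, Set.encard_univ, ENat.card_eq_coe_fintype_card]
    exact le_antisymm h3 h4
  · rw [← hIv]
    exact hI.indep

theorem ind_four (z x a b : F) (h : AlgebraicIndependent C ![z, x, a, b]) :
    b ∉ ACl C {z, x, a} ∧ z ∉ ACl C (∅ : Set F) ∧ x ∉ ACl C (∅ : Set F) := by
  refine ⟨fun hb => ?_, fun hz => ?_, fun hx => ?_⟩
  · apply ind_notMem _ h 3
    refine acl_mono ?_ hb
    rintro u (rfl | rfl | rfl)
    · exact ⟨0, by decide, rfl⟩
    · exact ⟨1, by decide, rfl⟩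
    · exact ⟨2, by decide, rfl⟩
  · exact ind_notMem _ h 0 (acl_mono (Set.empty_subset _) hz)
  · exact ind_notMem _ h 1 (acl_mono (Set.empty_subset _) hx)

end Pool.Agent.Lib.MSF
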