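import Pool.Agent.Lib.MSF.PairM
import Pool.Agent.Lib.MSF.Ind

set_option autoImplicit false

/-!
# PAIR.A : the pair case, `x_k` and `x_l` dependent (about 100 lines; from PairM, Ind, Acl)

`e = g₀₀ + z_l g₁₀`, `h = - z_k e + (g₀₁ + z_l g₁₁)`. The claim is `h = 0`. Suppose `h ≠ 0`. Since
`x_l ∈ ACl C {x_k}`, the entries of `M2` lie in `ACl C {x_k}` (`pair_mem`, `acl_le`). By `pair_00`,
`pair_01`: `M₀₀ / M₀₁ = - b_k / a_k + e / (a_k² h)`. `z_l ∈ ACl C {z_k}`: `hz`, and `t ∈ ACl C {z_k}` by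
`acl_exch` (`z_k ∉ ACl C ∅` by `ind_four`). So `b_k = e / (a_k h) - a_k M₀₀ / M₀₁ ∈
ACl C {z_k, x_k, a_k}`, contradiction to `ind_four`.
-/

noncomputable section

namespace Pool.Agent.Lib.MSF

variable {C F : Type} [Field C] [Field F] [Algebra C F] {n : ℕ}

theorem pairA [CharZero C] (S : FDat C F n) (k l : Fin n) (g : Matrix (Fin 2) (Fin 2) C)
    (hg : ∀ δ : Derivation C F F, S.eta l δ * cmat g = cmat g * S.eta k δ)
    (hdep : S.x l ∈ ACl C {S.x k}) :
    S.z l * (algebraMap C F (g 1 1) - algebraMap C F (g 1 0) * S.z k) =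
      algebraMap C F (g 0 0) * S.z k - algebraMap C F (g 0 1) := by
  obtain ⟨e, he⟩ : ∃ e : F, e = algebraMap C F (g 0 0) + S.z l * algebraMap C F (g 1 0) :=
    ⟨_, rfl⟩
  obtain ⟨h, hh⟩ : ∃ h : F, h = -(S.z k) * e +
      (algebraMap C F (g 0 1) + S.z l * algebraMap C F (g 1 1)) := ⟨_, rfl⟩
  by_cases h0 : h = 0
  · rw [hh, he] at h0
    linear_combination h0
  exfalso
  obtain ⟨hb, hz0, -⟩ := ind_four (S.z k) (S.x k) (S.a k) (S.b k) (S.h1 k)
  apply hb
  obtain ⟨K, hK⟩ : ∃ K : IntermediateField C F, K = ACl C {S.z k, S.x k, S.a k} := ⟨_, rfl⟩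
  rw [← hK]
  have hsub : ({S.z k, S.x k, S.a k} : Set F) ⊆ (K : Set F) := by
    rw [hK]
    exact subset_acl _
  have hzk : S.z k ∈ K := hsub (by simp)
  have hxk : S.x k ∈ K := hsub (by simp)
  have hak : S.a k ∈ K := hsub (by simp)
  have hcm : ∀ c : C, algebraMap C F c ∈ K := fun c => K.algebraMap_mem c
  have ht : S.t ∈ K := by
    have h1 := acl_exch S.t (S.z k) (S.hz k) hz0
    rw [hK]
    exact acl_mono (by simp) h1
  have hzl : S.z l ∈ K := by
    have h1 := S.hz l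
    rw [hK] at ht ⊢
    refine acl_le ?_ h1
    rw [Set.singleton_subset_iff]
    exact ht
  have hM : ∀ i j, S.M2 k l g i j ∈ K := by
    intro i j
    have h1 := pair_mem S k l g hg i j
    have hxl : S.x l ∈ K := by
      rw [hK]
      exact acl_mono (by simp) hdep
    rw [hK] at hxk hxl ⊢
    refine acl_le ?_ h1
    rw [Set.insert_subset_iff, Set.singleton_subset_iff]
    exact ⟨hxk, hxl⟩
  have heK : e ∈ K := by
    rw [he]
    exact add_mem (hcm _) (mul_mem hzl (hcm _))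
  have hhK : h ∈ K := by
    rw [hh]
    exact add_mem (mul_mem (neg_mem hzk) heK) (add_mem (hcm _) (mul_mem hzl (hcm _)))
  have h01 := pair_01 S k l g
  have h00 := pair_00 S k l g
  rw [← he, ← hh] at h01 h00
  have hak0 := S.ha k
  have hal0 := S.ha l
  have hbk : S.b k = e / (S.a k * h) - S.a k * (S.M2 k l g 0 0 / S.M2 k l g 0 1) := by
    rw [h01, h00]
    field_simp
    ring
  rw [hbk]
  exact sub_mem (div_mem heK (mul_mem hak hhK)) (mul_mem hak (div_mem (hM 0 0) (hM 0 1)))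

end Pool.Agent.Lib.MSF
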