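import Pool.Agent.Lib.MSF.Acl

set_option autoImplicit false

/-!
# PSI.K : the closure of `C(x)` is isomorphic to `C`

`K = ACl C {x}` is algebraically closed (`acl_isAlgClosed`), of characteristic zero; its elements are the
elements of `F` algebraic over `adjoin C {x}`, so `#K ≤ max #(adjoin C {x}) ℵ₀ ≤ #C` and `#C ≤ #K`;
both fields are uncountable, so they are isomorphic.
-/

noncomputable section

namespace Pool.Agent.Lib.MSF

variable {C F : Type} [Field C] [Field F] [Algebra C F]

theorem psiK [IsAlgClosed C] [CharZero C] [IsAlgClosed F]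
    (hC : Cardinal.aleph0 < Cardinal.mk C) (x : F) : Nonempty (ACl C {x} ≃+* C) := by
  have : IsAlgClosed (ACl C {x}) := acl_isAlgClosed {x}
  have : CharZero (ACl C {x}) :=
    charZero_of_injective_algebraMap (algebraMap C (ACl C {x})).injective
  have h1 : Cardinal.mk (ACl C {x}) ≤ Cardinal.mk C := by
    have h2 : Cardinal.mk (ACl C {x}) ≤
        Cardinal.mk {y : F // IsAlgebraic (IntermediateField.adjoin C {x}) y} :=
      Cardinal.mk_le_of_injective
        (f := fun y : ACl C {x} => (⟨y.1, mem_acl.1 y.2⟩ :
          {y : F // IsAlgebraic (IntermediateField.adjoin C {x}) y}))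
        (by
          intro y z h
          exact Subtype.ext (Subtype.mk.inj h))
    have h3 := Algebraic.cardinalMk_le_max (IntermediateField.adjoin C {x}) F
    have h4 := IntermediateField.cardinalMk_adjoin_le C ({x} : Set F)
    refine h2.trans (h3.trans (max_le (h4.trans ?_) hC.le))
    refine max_le (max_le le_rfl ?_) hC.le
    rw [Cardinal.mk_singleton]
    exact (Cardinal.one_le_aleph0).trans hC.le
  have h5 : Cardinal.mk C ≤ Cardinal.mk (ACl C {x}) :=
    Cardinal.mk_le_of_injective (algebraMap C (ACl C {x})).injective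
  have h6 : Cardinal.mk (ACl C {x}) = Cardinal.mk C := le_antisymm h1 h5
  refine IsAlgClosed.ringEquiv_of_equiv_of_charZero (h6 ▸ hC) ?_
  exact Cardinal.eq.1 h6

end Pool.Agent.Lib.MSF
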