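import Pool.Agent.Lib.MSF.Ind
import Pool.Agent.Lib.MSF.PsiK

set_option autoImplicit false

/-!
# PSI.A : transport of the constants (about 140 lines; from PsiK, Acl, Ind)

`K = ACl C {x}`, `σ : K ≃+* C` from `psiK`. `y` is transcendental over `K`
(`ind_pair_not`, `acl_closed`). `L = ACl C {x, y}` is an algebra over `K[Y]` by `Y ↦ y` (injective) and
algebraic over it (algebraic over the field `K(y) ⊇ C(x, y)`). `F` is an algebra over `K[Y]` by
`eval₂ ((algebraMap C F).comp σ) y`, injective because `y` is transcendental over `C`.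
`IsAlgClosed.lift` gives `Ψ : L → F` over `K[Y]`: `Ψ y = y`, `Ψ u = algebraMap (σ u)` for `u ∈ K`.
Last property: `u ∈ L` is algebraic over `K[Y]`, so `Ψ u` is algebraic over the image of `K[Y]`, which
is in `ACl C {y}`, and `acl_closed` applies.
-/

noncomputable section

namespace Pool.Agent.Lib.MSF

variable {C F : Type} [Field C] [Field F] [Algebra C F]

/-- extension of homomorphisms to an algebraic extension -/
private lemma psi_lift {R L F : Type} [CommRing R] [IsDomain R] [Field L] [Field F]
    [IsAlgClosed F] (φL : R →+* L) (φF : R →+* F) (hL : Function.Injective φL)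
    (hF : Function.Injective φF)
    (halg : ∀ u : L, ∃ p : Polynomial R, p ≠ 0 ∧ p.eval₂ φL u = 0) :
    ∃ Ψ : L →+* F, ∀ r, Ψ (φL r) = φF r := by
  let : Algebra R L := φL.toAlgebra
  let : Algebra R F := φF.toAlgebra
  have : Module.IsTorsionFree R L := Module.isTorsionFree_iff_algebraMap_injective.mpr hL
  have : Module.IsTorsionFree R F := Module.isTorsionFree_iff_algebraMap_injective.mpr hF
  have : Algebra.IsAlgebraic R L := ⟨fun u => by
    obtain ⟨p, h1, h2⟩ := halg u
    exact ⟨p, h1, h2⟩⟩
  let Ψ : L →ₐ[R] F := IsAlgClosed.lift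
  exact ⟨Ψ.toRingHom, fun r => Ψ.commutes r⟩

open scoped IntermediateField.algebraAdjoinAdjoin in
/-- algebraic over `K(y)` implies algebraic over `K[Y]` -/
private lemma alg_poly (K : IntermediateField C F) (y u : F)
    (hu : IsAlgebraic (IntermediateField.adjoin K ({y} : Set F)) u) :
    ∃ p : Polynomial (Polynomial K), p ≠ 0 ∧
      p.eval₂ ((Polynomial.aeval y : Polynomial K →ₐ[K] F) : Polynomial K →+* F) u = 0 := by
  have h1 : IsAlgebraic (Algebra.adjoin K ({y} : Set F)) u :=
    (IsFractionRing.isAlgebraic_iff (Algebra.adjoin K ({y} : Set F))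
      (IntermediateField.adjoin K ({y} : Set F)) F).mpr hu
  obtain ⟨p, hp, hp0⟩ := h1
  have hy : y ∈ Algebra.adjoin K ({y} : Set F) := Algebra.self_mem_adjoin_singleton K y
  set f : Polynomial K →ₐ[K] Algebra.adjoin K ({y} : Set F) :=
    Polynomial.aeval (⟨y, hy⟩ : Algebra.adjoin K ({y} : Set F)) with hf
  have hfc : ∀ g, ((f g : Algebra.adjoin K ({y} : Set F)) : F) = Polynomial.aeval y g := by
    intro g
    rw [hf]
    exact Subalgebra.aeval_coe (Algebra.adjoin K ({y} : Set F)) (⟨y, hy⟩ : _) g |>.symm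
  have hsurj : Function.Surjective (f : Polynomial K →+* Algebra.adjoin K ({y} : Set F)) := by
    intro a
    have ha : (a : F) ∈ (Polynomial.aeval y : Polynomial K →ₐ[K] F).range := by
      rw [← Algebra.adjoin_singleton_eq_range_aeval]
      exact a.2
    obtain ⟨g, hg⟩ := ha
    exact ⟨g, Subtype.ext ((hfc g).trans hg)⟩
  obtain ⟨q, rfl⟩ := Polynomial.map_surjective _ hsurj p
  refine ⟨q, fun h => hp (by rw [h, Polynomial.map_zero]), ?_⟩
  rw [Polynomial.aeval_def, Polynomial.eval₂_map] at hp0
  have he : (algebraMap (Algebra.adjoin K ({y} : Set F)) F).comp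
      (f : Polynomial K →+* Algebra.adjoin K ({y} : Set F)) =
      ((Polynomial.aeval y : Polynomial K →ₐ[K] F) : Polynomial K →+* F) :=
    RingHom.ext fun g => hfc g
  rw [he] at hp0
  exact hp0

private lemma alg_KY (K : IntermediateField C F) (x y u : F) (hx : x ∈ K)
    (h1 : IsAlgebraic (IntermediateField.adjoin C ({x, y} : Set F)) u) :
    IsAlgebraic (IntermediateField.adjoin K ({y} : Set F)) u := by
  have hle : ∀ z ∈ IntermediateField.adjoin C ({x, y} : Set F),
      z ∈ IntermediateField.adjoin K ({y} : Set F) := by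
    have : IntermediateField.adjoin C ({x, y} : Set F) ≤
        (IntermediateField.adjoin K ({y} : Set F)).restrictScalars C := by
      rw [IntermediateField.adjoin_le_iff]
      intro z hz
      rcases hz with rfl | hz
      · exact IntermediateField.algebraMap_mem
          (IntermediateField.adjoin K ({y} : Set F)) ⟨z, hx⟩
      · exact IntermediateField.subset_adjoin K ({y} : Set F) hz
    exact fun z hz => this hz
  let f : IntermediateField.adjoin C ({x, y} : Set F) →+*
      IntermediateField.adjoin K ({y} : Set F) :=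
    { toFun := fun z => ⟨z.1, hle z.1 z.2⟩
      map_one' := rfl
      map_mul' := fun _ _ => rfl
      map_zero' := rfl
      map_add' := fun _ _ => rfl }
  exact h1.ringHom_of_comp_eq f (RingHom.id F) f.injective (RingHom.ext fun _ => rfl)

private lemma psi_core [IsAlgClosed F] (K L T : IntermediateField C F) (σ : K ≃+* C) (x y : F)
    (hKL : K ≤ L) (hyL : y ∈ L) (hyT : y ∈ T) (htK : Transcendental K y) (hx : x ∈ K)
    (hL : ∀ u : L, IsAlgebraic (IntermediateField.adjoin C ({x, y} : Set F)) (u : F)) :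
    ∃ Ψ : L →+* F, (∀ u : L, (u : F) = y → Ψ u = y) ∧
      (∀ u : L, (u : F) ∈ K → Ψ u ∈ Set.range (algebraMap C F)) ∧
      (∀ u : L, IsAlgebraic T (Ψ u)) := by
  have htC : Transcendental C y := fun h => htK (h.tower_top K)
  have hinjK : Function.Injective (Polynomial.aeval y : Polynomial K →ₐ[K] F) :=
    transcendental_iff_injective.mp htK
  have hinjC : Function.Injective (Polynomial.aeval y : Polynomial C →ₐ[C] F) :=
    transcendental_iff_injective.mp htC
  -- the homomorphisms
  let σ' : K →+* C := σ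
  have hσ' : Function.Injective σ' := σ.injective
  let ι : K →+* L := (IntermediateField.inclusion hKL : K →+* L)
  let φL : Polynomial K →+* L := Polynomial.eval₂RingHom ι ⟨y, hyL⟩
  let φT : Polynomial K →+* T := Polynomial.eval₂RingHom ((algebraMap C T).comp σ') ⟨y, hyT⟩
  have hφLX : φL Polynomial.X = ⟨y, hyL⟩ := Polynomial.eval₂_X _ _
  have hφLC : ∀ a, φL (Polynomial.C a) = ι a := fun a => Polynomial.eval₂_C _ _
  have hφTX : φT Polynomial.X = ⟨y, hyT⟩ := Polynomial.eval₂_X _ _
  have hφTC : ∀ a, φT (Polynomial.C a) = algebraMap C T (σ' a) := fun a => Polynomial.eval₂_C _ _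
  have hφL : (algebraMap L F).comp φL =
      ((Polynomial.aeval y : Polynomial K →ₐ[K] F) : Polynomial K →+* F) := by
    refine Polynomial.ringHom_ext (fun a => ?_) ?_
    · rw [RingHom.comp_apply, hφLC]
      exact (Polynomial.aeval_C y a).symm
    · rw [RingHom.comp_apply, hφLX]
      exact (Polynomial.aeval_X y).symm
  have hφT : (algebraMap T F).comp φT =
      ((Polynomial.aeval y : Polynomial C →ₐ[C] F) : Polynomial C →+* F).comp
        (Polynomial.mapRingHom σ') := by
    refine Polynomial.ringHom_ext (fun a => ?_) ?_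
    · rw [RingHom.comp_apply, hφTC, RingHom.comp_apply, Polynomial.coe_mapRingHom,
        Polynomial.map_C]
      exact (Polynomial.aeval_C y (σ' a)).symm
    · rw [RingHom.comp_apply, hφTX, RingHom.comp_apply, Polynomial.coe_mapRingHom,
        Polynomial.map_X]
      exact (Polynomial.aeval_X y).symm
  have hinjT' : Function.Injective ((algebraMap T F).comp φT) := by
    rw [hφT]
    intro p q hpq
    rw [RingHom.comp_apply, RingHom.comp_apply] at hpq
    exact Polynomial.map_injective σ' hσ' (hinjC hpq)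
  have hinjT : Function.Injective φT := fun p q hpq => hinjT' (by
    rw [RingHom.comp_apply, RingHom.comp_apply, hpq])
  have hinjL : Function.Injective φL := by
    intro p q hpq
    apply hinjK
    have h2 : ((algebraMap L F).comp φL) p = ((algebraMap L F).comp φL) q := by
      rw [RingHom.comp_apply, RingHom.comp_apply, hpq]
    rw [hφL] at h2
    exact h2
  have halg : ∀ u : L, ∃ p : Polynomial (Polynomial K), p ≠ 0 ∧ p.eval₂ φL u = 0 := by
    intro u
    obtain ⟨p, hp, hp0⟩ := alg_poly K y (u : F) (alg_KY K x y (u : F) hx (hL u))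
    refine ⟨p, hp, ?_⟩
    apply (algebraMap L F).injective
    rw [Polynomial.hom_eval₂, hφL, map_zero]
    exact hp0
  obtain ⟨Ψ, hΨ⟩ := psi_lift φL ((algebraMap T F).comp φT) hinjL hinjT' halg
  refine ⟨Ψ, ?_, ?_, ?_⟩
  · intro u hu
    have h1 : u = φL Polynomial.X := by
      rw [hφLX]
      exact Subtype.ext hu
    rw [h1, hΨ, RingHom.comp_apply, hφTX]
    rfl
  · intro u hu
    have h1 : u = φL (Polynomial.C ⟨(u : F), hu⟩) := by
      rw [hφLC]
      exact Subtype.ext rfl
    rw [h1, hΨ, RingHom.comp_apply, hφTC]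
    exact ⟨σ' ⟨(u : F), hu⟩, rfl⟩
  · intro u
    obtain ⟨p, hp, hp0⟩ := halg u
    refine ⟨p.map φT, ?_, ?_⟩
    · rw [Ne, Polynomial.map_eq_zero_iff hinjT]
      exact hp
    · rw [Polynomial.aeval_def, Polynomial.eval₂_map]
      have h1 : Ψ.comp φL = (algebraMap T F).comp φT := RingHom.ext hΨ
      rw [← h1, ← Polynomial.hom_eval₂, hp0, map_zero]

theorem psiA [IsAlgClosed C] [CharZero C] [IsAlgClosed F]
    (hC : Cardinal.aleph0 < Cardinal.mk C) (x y : F) (hxy : AlgebraicIndependent C ![x, y]) :
    ∃ Ψ : ACl C ({x, y} : Set F) →+* F,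
      (∀ u : ACl C ({x, y} : Set F), (u : F) = y → Ψ u = y) ∧
      (∀ u : ACl C ({x, y} : Set F), (u : F) ∈ ACl C {x} →
        Ψ u ∈ Set.range (algebraMap C F)) ∧
      (∀ u : ACl C ({x, y} : Set F), Ψ u ∈ ACl C {y}) := by
  obtain ⟨σ⟩ := psiK (C := C) (F := F) hC x
  have hKL : ACl C ({x} : Set F) ≤ ACl C ({x, y} : Set F) :=
    acl_mono (by intro z hz; exact Or.inl hz)
  have hyL : y ∈ ACl C ({x, y} : Set F) := subset_acl _ (Or.inr rfl)
  have hyT : y ∈ ACl C ({y} : Set F) := subset_acl _ rfl
  have hx : x ∈ ACl C ({x} : Set F) := subset_acl _ rfl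
  have htK : Transcendental (ACl C ({x} : Set F)) y := fun h =>
    ind_pair_not x y hxy (acl_closed h)
  obtain ⟨Ψ, h1, h2, h3⟩ := psi_core (ACl C ({x} : Set F)) (ACl C ({x, y} : Set F))
    (ACl C ({y} : Set F)) σ x y hKL hyL hyT htK hx (fun u => mem_acl.mp u.2)
  exact ⟨Ψ, h1, h2, fun u => acl_closed (h3 u)⟩

end Pool.Agent.Lib.MSF
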