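import Pool.Agent.Lib.MSF.Der

set_option autoImplicit false

/-!
# PSI.B : `Ψ` respects the derivations (about 130 lines; from Acl)

`L = ACl C {x, y}`. (1) `δ` maps `L` into `L`: `{u : u ∈ L, δ u ∈ L}` is a subfield containing
`C`, `x`
(`x ∈ ACl C {x}`, `δ x = 0`), `y` (`δ y = 1`), so it contains `E = adjoin C {x, y}`; for `u ∈ L` let
`p = minpoly E u`: `0 = δ (p(u)) = (δ p)(u) + p'(u) δ u`, `p'(u) ≠ 0`, so `δ u ∈ L`.
(2) `T = {u ∈ L : D (Ψ u) = Ψ (δ u) D y}` is a subfield of `L` (Leibniz rule on both sides)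
containing
`ACl C {x}` (`δ u = 0` and `Ψ u` is constant) and `y`, so it contains `E`; again for `u ∈ L` with
`p = minpoly E u` apply `u ↦ D (Ψ u)` and `u ↦ Ψ (δ u) D y` to `p(u) = 0`: both give
`Ψ(p'(u)) * value + (the same sum over the coefficients) = 0`, and `Ψ (p'(u)) ≠ 0`. So `T = L`.
-/

noncomputable section

namespace Pool.Agent.Lib.MSF

variable {C F : Type} [Field C] [Field F] [Algebra C F]

/-- the elements whose derivative is transported -/
private def TT (L : IntermediateField C F) (Ψ : L →+* F) (δ D : Derivation C F F) (w : F)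
    (hC : ∀ c : C, ∃ v : L, δ (algebraMap C F c) = v ∧
      D (Ψ ⟨algebraMap C F c, L.algebraMap_mem c⟩) = Ψ v * w) : IntermediateField C F where
  carrier := {u | ∃ (hu : u ∈ L) (v : L), δ u = v ∧ D (Ψ ⟨u, hu⟩) = Ψ v * w}
  mul_mem' := by
    rintro a b ⟨ha, v, hv, hv'⟩ ⟨hb, v2, hv2, hv2'⟩
    refine ⟨L.mul_mem ha hb, (⟨a, ha⟩ : L) * v2 + (⟨b, hb⟩ : L) * v, ?_, ?_⟩
    · rw [Derivation.leibniz, hv, hv2]
      simp [smul_eq_mul]
    · have h1 : (⟨a * b, L.mul_mem ha hb⟩ : L) = (⟨a, ha⟩ : L) * ⟨b, hb⟩ := rfl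
      rw [h1, map_mul, Derivation.leibniz, hv', hv2', map_add, map_mul, map_mul]
      simp only [smul_eq_mul]
      ring
  add_mem' := by
    rintro a b ⟨ha, v, hv, hv'⟩ ⟨hb, v2, hv2, hv2'⟩
    refine ⟨L.add_mem ha hb, v + v2, ?_, ?_⟩
    · rw [map_add, hv, hv2]
      simp
    · have h1 : (⟨a + b, L.add_mem ha hb⟩ : L) = (⟨a, ha⟩ : L) + ⟨b, hb⟩ := rfl
      rw [h1, map_add, map_add, hv', hv2', map_add]
      ring
  algebraMap_mem' := by
    intro c
    obtain ⟨v, hv, hv'⟩ := hC c
    exact ⟨L.algebraMap_mem c, v, hv, hv'⟩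
  inv_mem' := by
    rintro a ⟨ha, v, hv, hv'⟩
    refine ⟨L.inv_mem ha, -((⟨a, ha⟩ : L)⁻¹ ^ 2) * v, ?_, ?_⟩
    · rw [Derivation.leibniz_inv, hv]
      simp [smul_eq_mul]
    · have h1 : (⟨a⁻¹, L.inv_mem ha⟩ : L) = (⟨a, ha⟩ : L)⁻¹ := rfl
      rw [h1, map_inv₀, Derivation.leibniz_inv, hv', map_mul, map_neg, map_pow, map_inv₀]
      simp only [smul_eq_mul]
      ring

private theorem poly_step (L : IntermediateField C F) (Ψ : L →+* F) (δ D : Derivation C F F)
    (w : F) (E : IntermediateField C F) (hEL : E ≤ L)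
    (hE : ∀ e : E, ∃ v : L, δ (e : F) = v ∧
      D (Ψ ⟨(e : F), hEL e.2⟩) = Ψ v * w) (u : L) (p : Polynomial E) :
    ∃ v : L, δ ((p.eval₂ (IntermediateField.inclusion hEL).toRingHom u : L) : F) =
      (((Polynomial.derivative p).eval₂ (IntermediateField.inclusion hEL).toRingHom u : L) : F) *
        δ (u : F) + v ∧
      D (Ψ (p.eval₂ (IntermediateField.inclusion hEL).toRingHom u)) =
        Ψ ((Polynomial.derivative p).eval₂ (IntermediateField.inclusion hEL).toRingHom u) *
          D (Ψ u) + Ψ v * w := by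
  induction p using Polynomial.induction_on' with
  | add p q hp hq =>
    obtain ⟨v, h1, h2⟩ := hp
    obtain ⟨v', h1', h2'⟩ := hq
    refine ⟨v + v', ?_, ?_⟩
    · rw [Polynomial.eval₂_add, Polynomial.derivative_add, Polynomial.eval₂_add]
      push_cast
      rw [map_add, h1, h1']
      ring
    · rw [Polynomial.eval₂_add, Polynomial.derivative_add, Polynomial.eval₂_add, map_add,
        map_add, h2, h2', map_add, map_add]
      ring
  | monomial n e =>
    obtain ⟨v, h1, h2⟩ := hE e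
    have he : ((IntermediateField.inclusion hEL).toRingHom e : L) = ⟨(e : F), hEL e.2⟩ := rfl
    refine ⟨v * u ^ n, ?_, ?_⟩
    · rw [Polynomial.derivative_monomial, Polynomial.eval₂_monomial, Polynomial.eval₂_monomial,
        map_mul, he]
      push_cast
      rw [Derivation.leibniz, Derivation.leibniz_pow, h1]
      simp only [smul_eq_mul, nsmul_eq_mul, map_natCast]
      push_cast
      ring
    · rw [Polynomial.derivative_monomial, Polynomial.eval₂_monomial, Polynomial.eval₂_monomial]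
      have e1 : Ψ ((IntermediateField.inclusion hEL).toRingHom e * u ^ n) =
          Ψ ⟨(e : F), hEL e.2⟩ * Ψ u ^ n := by rw [map_mul, map_pow, he]
      have e2 : Ψ ((IntermediateField.inclusion hEL).toRingHom (e * (n : E)) * u ^ (n - 1)) =
          Ψ ⟨(e : F), hEL e.2⟩ * n * Ψ u ^ (n - 1) := by
        rw [map_mul, map_mul, map_mul, he, map_pow, map_natCast, map_natCast]
      rw [e1, e2, Derivation.leibniz, Derivation.leibniz_pow, h2, map_mul, map_pow]
      simp only [smul_eq_mul, nsmul_eq_mul]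
      ring

theorem psiB [CharZero C] (x y : F) (Ψ : ACl C ({x, y} : Set F) →+* F)
    (h1 : ∀ u : ACl C ({x, y} : Set F), (u : F) = y → Ψ u = y)
    (h2 : ∀ u : ACl C ({x, y} : Set F), (u : F) ∈ ACl C {x} → Ψ u ∈ Set.range (algebraMap C F))
    (δ D : Derivation C F F) (hδ : ∀ u ∈ ACl C {x}, δ u = 0) (hy : δ y = 1)
    (u v : ACl C ({x, y} : Set F)) (huv : δ u = v) : D (Ψ u) = Ψ v * D y := by
  have hxa : ∀ (a : F) (ha : a ∈ ACl C ({x, y} : Set F)), a ∈ ACl C {x} →
      ∃ v : ACl C ({x, y} : Set F), δ a = v ∧ D (Ψ ⟨a, ha⟩) = Ψ v * D y := by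
    intro a ha hax
    refine ⟨0, ?_, ?_⟩
    · rw [hδ a hax]
      simp
    · obtain ⟨c, hc⟩ := h2 ⟨a, ha⟩ hax
      rw [← hc, Derivation.map_algebraMap, map_zero, zero_mul]
  have hC : ∀ c : C, ∃ v : ACl C ({x, y} : Set F), δ (algebraMap C F c) = v ∧
      D (Ψ ⟨algebraMap C F c, (ACl C ({x, y} : Set F)).algebraMap_mem c⟩) = Ψ v * D y :=
    fun c => hxa _ _ ((ACl C ({x} : Set F)).algebraMap_mem c)
  have hEL : IntermediateField.adjoin C ({x, y} : Set F) ≤ ACl C ({x, y} : Set F) :=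
    IntermediateField.adjoin_le_iff.2 (subset_acl _)
  have hET : IntermediateField.adjoin C ({x, y} : Set F) ≤
      TT (ACl C ({x, y} : Set F)) Ψ δ D (D y) hC := by
    rw [IntermediateField.adjoin_le_iff]
    rintro a (rfl | ha)
    · have hmem : a ∈ ACl C ({a, y} : Set F) := subset_acl _ (by simp)
      exact ⟨hmem, hxa a hmem (subset_acl _ (by simp))⟩
    · rw [Set.mem_singleton_iff] at ha
      subst ha
      have hmem : a ∈ ACl C ({x, a} : Set F) := subset_acl _ (by simp)
      refine ⟨hmem, 1, by rw [hy]; simp, ?_⟩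
      rw [h1 ⟨a, hmem⟩ rfl, map_one, one_mul]
  have hE : ∀ e : IntermediateField.adjoin C ({x, y} : Set F),
      ∃ v : ACl C ({x, y} : Set F), δ (e : F) = v ∧ D (Ψ ⟨(e : F), hEL e.2⟩) = Ψ v * D y := by
    intro e
    obtain ⟨_, v, hv, hv'⟩ := hET e.2
    exact ⟨v, hv, hv'⟩
  have hu := mem_acl.1 u.2
  have hcz : CharZero (IntermediateField.adjoin C ({x, y} : Set F)) :=
    charZero_of_injective_algebraMap
      (algebraMap C (IntermediateField.adjoin C ({x, y} : Set F))).injective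
  set p := minpoly (IntermediateField.adjoin C ({x, y} : Set F)) (u : F) with hp
  have hval : ∀ q : Polynomial (IntermediateField.adjoin C ({x, y} : Set F)),
      ((q.eval₂ (IntermediateField.inclusion hEL).toRingHom u : ACl C ({x, y} : Set F)) : F) =
        Polynomial.aeval (u : F) q := by
    intro q
    have h3 := Polynomial.hom_eval₂ q (IntermediateField.inclusion hEL).toRingHom
      (algebraMap (ACl C ({x, y} : Set F)) F) u
    refine Eq.trans h3 ?_
    rw [Polynomial.aeval_def]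
    rfl
  have hsep : p.Separable := (minpoly.irreducible hu.isIntegral).separable
  have hne : Polynomial.aeval (u : F) (Polynomial.derivative p) ≠ 0 :=
    hsep.aeval_derivative_ne_zero (minpoly.aeval _ (u : F))
  obtain ⟨w, hw1, hw2⟩ := poly_step _ Ψ δ D (D y) _ hEL hE u p
  have hp0 : (p.eval₂ (IntermediateField.inclusion hEL).toRingHom u :
      ACl C ({x, y} : Set F)) = 0 := by
    apply Subtype.ext
    rw [hval p, hp, minpoly.aeval]
    rfl
  set P' : ACl C ({x, y} : Set F) :=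
    (Polynomial.derivative p).eval₂ (IntermediateField.inclusion hEL).toRingHom u with hP'
  have hP'0 : P' ≠ 0 := by
    intro h0
    apply hne
    rw [← hval, ← hP', h0]
    rfl
  rw [hp0, map_zero, map_zero] at hw2
  rw [hp0, ZeroMemClass.coe_zero, map_zero, huv] at hw1
  have hvv : P' * v + w = 0 := by
    apply Subtype.ext
    push_cast
    exact hw1.symm
  have hΨ : Ψ P' * Ψ v + Ψ w = 0 := by rw [← map_mul, ← map_add, hvv, map_zero]
  have hΨ0 : Ψ P' ≠ 0 := by
    rw [Ne, map_eq_zero]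
    exact hP'0
  apply mul_left_cancel₀ hΨ0
  linear_combination (-1 : F) * hw2 - D y * hΨ

end Pool.Agent.Lib.MSF
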