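import Pool.Agent.Lib.MSF.Ind

set_option autoImplicit false

/-!
# RIC : no solution of the Riccati equation is algebraic over `C(x_k)` (about 100 lines; from Ind)

Write `z, x, a, b, q` for the index `k`; `c₂ = a r - b`, `c₁ = 1/a - z c₂`. Then
`D c₂ = (b r + a (-q - r²) + q a) D x = - r c₂ D x` and
`D c₁ = - b D x / a² - (D x / a²) (a r - b) + z r c₂ D x = - r c₁ D x` (`D z = D x / a²`).
If `c₂ = 0` then `b = a r ∈ ACl C {z, x, a}`, contradiction to `ind_four` (`h1`). Otherwise
`D (c₁ / c₂) = 0`, so `c₁ / c₂ = c ∈ C` (`hC`), `1/a = (z + c) c₂`, so `z + c ≠ 0`,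
`b = a r - 1 / (a (z + c)) ∈ ACl C {z, x, a}`, contradiction.
-/

noncomputable section

namespace Pool.Agent.Lib.MSF

variable {C F : Type} [Field C] [Field F] [Algebra C F] {n : ℕ}

theorem ric (S : FDat C F n) (k : Fin n) (r : F) (hr : r ∈ ACl C {S.x k})
    (hD : S.D r = (-(S.q k) - r ^ 2) * S.D (S.x k)) : False := by
  obtain ⟨hb, -, -⟩ := ind_four _ _ _ _ (S.h1 k)
  have ha := S.ha k
  have hDx := S.hx k
  have hDa := S.hDa k
  have hDb : S.D (S.b k) = -(S.q k * S.a k) * S.D (S.x k) := S.hDb k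
  have hxT : ({S.x k} : Set F) ⊆ {S.z k, S.x k, S.a k} := by
    intro y hy
    rw [Set.mem_singleton_iff] at hy
    rw [hy]
    simp
  have hrT : r ∈ ACl C ({S.z k, S.x k, S.a k} : Set F) := acl_mono hxT hr
  have haT : S.a k ∈ ACl C ({S.z k, S.x k, S.a k} : Set F) := subset_acl _ (by simp)
  have hzT : S.z k ∈ ACl C ({S.z k, S.x k, S.a k} : Set F) := subset_acl _ (by simp)
  generalize S.z k = z at *
  generalize S.x k = x at *
  generalize S.b k = b at *
  generalize S.q k = q at *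
  generalize S.a k = a at *
  obtain ⟨c2, hc2⟩ : ∃ c2 : F, c2 = a * r - b := ⟨_, rfl⟩
  have hDc2 : S.D c2 = -r * c2 * S.D x := by
    rw [hc2, map_sub, Derivation.leibniz, hDa, hDb, hD]
    simp only [smul_eq_mul]
    ring
  by_cases h0 : c2 = 0
  · apply hb
    have : b = a * r := by rw [h0] at hc2; linear_combination hc2
    rw [this]
    exact mul_mem haT hrT
  obtain ⟨i, hi⟩ : ∃ i : F, i = a⁻¹ := ⟨_, rfl⟩
  have hai : a * i = 1 := by rw [hi]; exact mul_inv_cancel₀ ha
  have hDi : S.D i = -b * i ^ 2 * S.D x := by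
    have h1 : a * S.D i + i * S.D a = 0 := by
      have := S.D.leibniz a i
      rw [hai, Derivation.map_one_eq_zero] at this
      simp only [smul_eq_mul] at this
      exact this.symm
    rw [hDa] at h1
    linear_combination i * h1 - S.D i * hai
  have hDz : S.D z = i ^ 2 * S.D x := by
    rw [hDx]
    linear_combination (-(a * i * S.D z) - S.D z) * hai
  obtain ⟨c1, hc1⟩ : ∃ c1 : F, c1 = i - z * c2 := ⟨_, rfl⟩
  have hDc1 : S.D c1 = -r * c1 * S.D x := by
    rw [hc1, map_sub, Derivation.leibniz, hDi, hDz, hDc2]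
    simp only [smul_eq_mul]
    rw [hc2]
    linear_combination (-(i * r * S.D x)) * hai
  have hDq : S.D (c1 * c2⁻¹) = 0 := by
    obtain ⟨w, hw⟩ : ∃ w : F, w = c1 * c2⁻¹ := ⟨_, rfl⟩
    rw [← hw]
    have hwc : w * c2 = c1 := by rw [hw, mul_assoc, inv_mul_cancel₀ h0, mul_one]
    have h2 := S.D.leibniz w c2
    rw [hwc, hDc1, hDc2] at h2
    simp only [smul_eq_mul] at h2
    have h3 : c2 * S.D w = 0 := by
      linear_combination (r * S.D x) * hwc - h2
    rcases mul_eq_zero.1 h3 with h | h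
    · exact absurd h h0
    · exact h
  obtain ⟨c, hc⟩ := S.hC _ hDq
  have hcT : algebraMap C F c ∈ ACl C ({z, x, a} : Set F) := (ACl C _).algebraMap_mem c
  have h4 : algebraMap C F c * c2 = i - z * c2 := by
    rw [hc, mul_assoc, inv_mul_cancel₀ h0, mul_one, hc1]
  have h5 : (z + algebraMap C F c) * (a * c2) = 1 := by
    linear_combination a * h4 + hai
  have h6 : a * c2 = (z + algebraMap C F c)⁻¹ := eq_inv_of_mul_eq_one_right h5
  apply hb
  have h7 : b = a * r - a⁻¹ * (z + algebraMap C F c)⁻¹ := by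
    rw [← h6, ← mul_assoc, inv_mul_cancel₀ ha, one_mul, hc2]
    ring
  rw [h7]
  exact sub_mem (mul_mem haT hrT) (mul_mem (inv_mem haT) (inv_mem (add_mem hzT hcT)))

end Pool.Agent.Lib.MSF
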