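import Pool.Agent.Lib.MSF.PairM
import Pool.Agent.Lib.MSF.PsiA
import Pool.Agent.Lib.MSF.PsiB
import Pool.Agent.Lib.MSF.Ric

set_option autoImplicit false

/-!
# PAIR.B : the pair case, `x_k` and `x_l` independent (about 120 lines; from PairM, PsiA, PsiB, Ric)

`M = M2 k l g`, `det M ≠ 0` (`pair_det`), so `M 0 j ≠ 0` for some `j`; `r = M 1 j / M 0 j ∈
ACl C {x_k, x_l}` (`pair_mem`). For `δ` with `δ x_k = 0`, `pair_der` gives `δ (M 0 j) = δ x_l M 1
j`,
`δ (M 1 j) = - q_l δ x_l M 0 j`, so `δ r = (- q_l - r²) δ x_l`. Take `δ` from `der_ext` for `S =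
{x_k}`,
`y = x_l` (`ind_pair_not`): `δ r = - q_l - r²`. `Ψ` from `psiA` for `x = x_k`, `y = x_l`. `Ψ q_l =
q_l`
(`q_l` is a quotient of values of integer polynomials at `x_l`; `Polynomial.hom_eval₂` /
`Polynomial.aeval_algHom_apply` for `ℤ`). By `psiB`: `D (Ψ r) = (- q_l - (Ψ r)²) D x_l`, and
`Ψ r ∈ ACl C {x_l}`: `ric` for the index `l`.
-/

noncomputable section

namespace Pool.Agent.Lib.MSF

variable {C F : Type} [Field C] [Field F] [Algebra C F] {n : ℕ}

theorem pairB [IsAlgClosed C] [CharZero C] [IsAlgClosed F]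
    (hC : Cardinal.aleph0 < Cardinal.mk C) (S : FDat C F n) (k l : Fin n)
    (g : Matrix (Fin 2) (Fin 2) C) (hdet : g.det ≠ 0)
    (hg : ∀ δ : Derivation C F F, S.eta l δ * cmat g = cmat g * S.eta k δ)
    (hind : AlgebraicIndependent C ![S.x k, S.x l]) : False := by
  have hdM : (S.M2 k l g).det ≠ 0 := by
    rw [pair_det]
    simpa using hdet
  have hj : ∃ j, S.M2 k l g 0 j ≠ 0 := by
    by_contra hcon
    push Not at hcon
    apply hdM
    rw [Matrix.det_fin_two, hcon 0, hcon 1]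
    ring
  obtain ⟨j, hj⟩ := hj
  obtain ⟨δ, hδ, hδy⟩ := der_ext ({S.x k} : Set F) (S.x l) (ind_pair_not _ _ hind)
  have hk0 : δ (S.x k) = 0 := hδ _ (subset_acl _ (by simp))
  have hder := pair_der S k l g hg δ
  rw [hk0, hδy, zero_smul, one_smul, sub_zero] at hder
  have hd0 : δ (S.M2 k l g 0 j) = S.M2 k l g 1 j := by
    have h := congrFun (congrFun hder 0) j
    simpa [AA, Matrix.mul_apply, Fin.sum_univ_two] using h
  have hd1 : δ (S.M2 k l g 1 j) = -(S.q l) * S.M2 k l g 0 j := by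
    have h := congrFun (congrFun hder 1) j
    simpa [AA, Matrix.mul_apply, Fin.sum_univ_two] using h
  have hm0 := pair_mem S k l g hg 0 j
  have hm1 := pair_mem S k l g hg 1 j
  generalize S.M2 k l g 0 j = m0 at *
  generalize S.M2 k l g 1 j = m1 at *
  obtain ⟨Ψ, hΨ1, hΨ2, hΨ3⟩ := psiA hC (S.x k) (S.x l) hind
  let r : ACl C ({S.x k, S.x l} : Set F) := ⟨m1, hm1⟩ / ⟨m0, hm0⟩
  have hrc : (r : F) = m1 / m0 := rfl
  have hdr : δ (r : F) = -(S.q l) - (r : F) ^ 2 := by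
    rw [hrc, div_eq_mul_inv, Derivation.leibniz, Derivation.leibniz_inv, hd0, hd1]
    simp only [smul_eq_mul]
    field_simp
    ring
  have hxl : S.x l ∈ ACl C ({S.x k, S.x l} : Set F) := subset_acl _ (by simp)
  let xl : ACl C ({S.x k, S.x l} : Set F) := ⟨S.x l, hxl⟩
  let qL : ACl C ({S.x k, S.x l} : Set F) :=
    Polynomial.aeval xl S.N / Polynomial.aeval xl S.M
  have hco : ∀ (f : ACl C ({S.x k, S.x l} : Set F) →+* F) (P : Polynomial ℤ),
      f (Polynomial.aeval xl P) = Polynomial.aeval (f xl) P := by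
    intro f P
    rw [Polynomial.aeval_def, Polynomial.aeval_def, Polynomial.hom_eval₂]
    congr 1
    exact RingHom.ext_int _ _
  have hqL : (qL : F) = S.q l := by
    have h1 := hco (algebraMap _ F) S.N
    have h2 := hco (algebraMap _ F) S.M
    have h3 : (qL : F) = algebraMap (ACl C ({S.x k, S.x l} : Set F)) F qL := rfl
    rw [h3, map_div₀, h1, h2]
    rfl
  have hΨx : Ψ xl = S.x l := hΨ1 xl rfl
  have hΨq : Ψ qL = S.q l := by
    have h1 := hco Ψ S.N
    have h2 := hco Ψ S.M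
    rw [map_div₀, h1, h2, hΨx]
    rfl
  have hB := psiB (S.x k) (S.x l) Ψ hΨ1 hΨ2 δ S.D hδ hδy r (-qL - r ^ 2) (by
    rw [hdr]
    push_cast
    rw [hqL])
  rw [map_sub, map_neg, map_pow, hΨq] at hB
  exact ric S l (Ψ r) (hΨ3 r) hB

end Pool.Agent.Lib.MSF
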