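import Pool.Agent.Lib.MSF.Dich
import Pool.Agent.Lib.MSF.One
import Pool.Agent.Lib.MSF.PairA
import Pool.Agent.Lib.MSF.PairB

set_option autoImplicit false

/-!
# ABS : the abstract functional theorem (about 100 lines; from Dich, One, PairA, PairB, Ind)

Suppose `S.fam` is not algebraically independent. By `exists_mem` some member `i` is in the closure of the
others; the index type `{v // v ≠ i}` has `3n` elements, `y` = the others (composed with an equivalence with
`Fin (3n)`), and every element of `F` is in `ACl C (range y)` (`hF`, `acl_le`). `dich` with `d = 3n`.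
First alternative: `no_eigen`. Second: `k ≠ l`, `g`. If `x_l ∈ ACl C {x_k}`: `pairA` and `h2` with the
matrix `[[g₀₀, - g₀₁], [- g₁₀, g₁₁]]` (same determinant) give the independence of `x_k, x_l`,
contradiction (`ind_pair_not`). Otherwise `x_k, x_l` are independent (`ind_pair`, `ind_four`): `pairB`.
-/

noncomputable section

namespace Pool.Agent.Lib.MSF

variable {C F : Type} [Field C] [Field F] [Algebra C F] {n : ℕ}

theorem fabs [IsAlgClosed C] [CharZero C] [IsAlgClosed F]
    (hC : Cardinal.aleph0 < Cardinal.mk C) (S : FDat C F n)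
    (hF : ∀ u : F, u ∈ ACl C (Set.range S.fam))
    (h2 : ∀ k l, k ≠ l → ∀ g : Matrix (Fin 2) (Fin 2) C, g.det ≠ 0 →
      S.z l * (algebraMap C F (g 1 0) * S.z k + algebraMap C F (g 1 1)) =
        algebraMap C F (g 0 0) * S.z k + algebraMap C F (g 0 1) →
      AlgebraicIndependent C ![S.x k, S.x l]) :
    AlgebraicIndependent C S.fam := by
  classical
  by_contra hno
  obtain ⟨i, hi⟩ := exists_mem S.fam hno
  have hcard : Fintype.card {v : Option (Fin n × Fin 3) // v ≠ i} = 3 * n := by
    rw [Fintype.card_subtype_compl, Fintype.card_option, Fintype.card_prod, Fintype.card_fin,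
      Fintype.card_fin, Fintype.card_subtype_eq]
    omega
  obtain ⟨e⟩ : Nonempty ({v : Option (Fin n × Fin 3) // v ≠ i} ≃ Fin (3 * n)) :=
    ⟨Fintype.equivFinOfCardEq hcard⟩
  obtain ⟨y, hy⟩ : ∃ y : Fin (3 * n) → F, y = fun j => S.fam (e.symm j).1 := ⟨_, rfl⟩
  have hrange : Set.range y = S.fam '' {i}ᶜ := by
    rw [hy]
    ext u
    constructor
    · rintro ⟨j, rfl⟩
      exact ⟨(e.symm j).1, (e.symm j).2, rfl⟩
    · rintro ⟨v, hv, rfl⟩
      exact ⟨e ⟨v, hv⟩, by simp⟩
  have hall : ∀ u : F, u ∈ ACl C (Set.range y) := by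
    intro u
    refine acl_le ?_ (hF u)
    rintro _ ⟨v, rfl⟩
    by_cases hv : v = i
    · rw [hv, SetLike.mem_coe, hrange]
      exact hi
    · apply subset_acl
      rw [hrange]
      exact ⟨v, hv, rfl⟩
  rcases dich S (3 * n) le_rfl y hall with ⟨k, v, hv, h⟩ | ⟨k, l, hkl, g, hdet, hg⟩
  · exact no_eigen S k v hv h
  · by_cases hdep : S.x l ∈ ACl C {S.x k}
    · have h3 := pairA S k l g hg hdep
      have h4 := h2 k l hkl !![g 0 0, -g 0 1; -g 1 0, g 1 1] (by
        rw [Matrix.det_fin_two] at hdet ⊢
        simpa using hdet) (by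
        simp only [Matrix.of_apply, Matrix.cons_val', Matrix.cons_val_zero, Matrix.cons_val_one,
          Matrix.cons_val_fin_one, map_neg]
        rw [← sub_eq_add_neg, ← h3]
        ring)
      exact ind_pair_not _ _ h4 hdep
    · exact pairB hC S k l g hdet hg (ind_pair _ _ (ind_four _ _ _ _ (S.h1 k)).2.2 hdep)

end Pool.Agent.Lib.MSF
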