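import Pool.Agent.Lib.MSF.Defs

set_option autoImplicit false

/-!
# ACL : the relative algebraic closure (about 80 lines)

`mem_acl`: unfold, `IntermediateField.mem_restrictScalars`, `mem_algebraicClosure_iff`.
`subset_acl`: elements of `S` lie in `adjoin C S` (`IntermediateField.subset_adjoin`),
`isAlgebraic_algebraMap`.
`acl_closed`: `algebraicClosure E F` is algebraic over `E`, so an element algebraic over it is algebraic
over `E` (`IsAlgebraic.restrictScalars`; compare the proof of `qexch` in
`Pool/Agent/Lib/MP_5e64e7_nt/QExch.lean`, `hcl`).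
`acl_le`: `adjoin C S ≤ ACl C T` (`IntermediateField.adjoin_le_iff`); `y` algebraic over `adjoin C S` is
algebraic over `ACl C T` (map the polynomial by `IntermediateField.inclusion`), `acl_closed`.
`acl_pow`: `y` is a root of `X^n - y^n` over `ACl C S`. `acl_mono`: from `acl_le` and `subset_acl`.
`acl_isAlgClosed`: a nonconstant polynomial over `ACl C S` has a root in `F`, algebraic over `ACl C S`
(`IsAlgClosed.of_exists_root` or `IsAlgClosed` of `algebraicClosure E F`:
`algebraicClosure.isAlgClosed`/`isAlgClosure` and `IntermediateField.restrictScalars` has the same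
elements).
-/

noncomputable section

namespace Pool.Agent.Lib.MSF

variable {C F : Type} [Field C] [Field F] [Algebra C F]

private theorem alg_mono {E E' : IntermediateField C F} (h : E ≤ E') {y : F}
    (hy : IsAlgebraic E y) : IsAlgebraic E' y := by
  obtain ⟨P, hP0, hP⟩ := hy
  refine ⟨P.map (IntermediateField.inclusion h).toRingHom, ?_, ?_⟩
  · intro h0
    apply hP0
    exact (Polynomial.map_eq_zero_iff (IntermediateField.inclusion h).toRingHom.injective).mp h0
  · rw [Polynomial.aeval_def, Polynomial.eval₂_map]
    exact hP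

theorem mem_acl {S : Set F} {y : F} :
    y ∈ ACl C S ↔ IsAlgebraic (IntermediateField.adjoin C S) y := by
  unfold ACl
  rw [IntermediateField.mem_restrictScalars, mem_algebraicClosure_iff]

theorem subset_acl (S : Set F) : S ⊆ (ACl C S : Set F) := by
  intro y hy
  rw [SetLike.mem_coe, mem_acl]
  exact isAlgebraic_algebraMap (⟨y, IntermediateField.subset_adjoin C _ hy⟩ :
    IntermediateField.adjoin C S)

theorem acl_closed {S : Set F} {y : F} (hy : IsAlgebraic (ACl C S) y) : y ∈ ACl C S := by
  rw [mem_acl]
  have hz' : IsAlgebraic (algebraicClosure (IntermediateField.adjoin C S) F) y := hy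
  exact IsAlgebraic.restrictScalars (IntermediateField.adjoin C S) hz'

theorem acl_le {S T : Set F} (h : S ⊆ (ACl C T : Set F)) : ACl C S ≤ ACl C T := by
  intro y hy
  have h1 : IntermediateField.adjoin C S ≤ ACl C T := IntermediateField.adjoin_le_iff.mpr h
  exact acl_closed (alg_mono h1 (mem_acl.mp hy))

theorem acl_mono {S T : Set F} (h : S ⊆ T) : ACl C S ≤ ACl C T :=
  acl_le (h.trans (subset_acl T))

theorem acl_pow {S : Set F} {y : F} {n : ℕ} (hn : n ≠ 0) (h : y ^ n ∈ ACl C S) :
    y ∈ ACl C S := by
  apply acl_closed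
  refine ⟨Polynomial.X ^ n - Polynomial.C (⟨y ^ n, h⟩ : ACl C S), ?_, ?_⟩
  · exact Polynomial.X_pow_sub_C_ne_zero (Nat.pos_of_ne_zero hn) _
  · simp only [map_sub, map_pow, Polynomial.aeval_X, Polynomial.aeval_C]
    exact sub_self _

theorem acl_isAlgClosed [IsAlgClosed F] (S : Set F) : IsAlgClosed (ACl C S) := by
  have h1 : IsAlgClosed (algebraicClosure (IntermediateField.adjoin C S) F) :=
    (algebraicClosure.isAlgClosure (IntermediateField.adjoin C S) F).isAlgClosed
  exact h1

end Pool.Agent.Lib.MSF
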