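import Pool.Agent.Lib.MSF.GDefs
import Pool.Agent.Lib.MP_5e64e7_nt.OOne
import Pool.Agent.Lib.MP_5e64e7_nt.JDer

set_option autoImplicit false

/-!
# J.IND : `z, j, j', j''` are algebraically independent (about 110 lines; from OOne)

`j_ind`: `oone` with `n = 1`, `g = 1` (`mob 1 u = u`, `him 1 u = u.im`; the finiteness condition is void for
`Fin 1`), after renaming the four variables: `0 ↦ none`, `i.succ ↦ some (0, i)`
(`MvPolynomial.rename`, injective: `MvPolynomial.rename_injective`).
`j_ind_comp`: `ζ` is not constant near `t0`, so it is open there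
(`AnalyticAt.eventually_constant_or_nhds_le_map_nhds`): the relation holds near `ζ t0`.
-/

noncomputable section

namespace Pool.Agent.Lib.MSF

open Topology Pool.Agent.Lib.MP5e

theorem j_ind {w : ℂ} (hw : 0 < w.im) (P : MvPolynomial (Fin 4) ℂ)
    (hP : ∀ᶠ z in 𝓝 w, MvPolynomial.eval (J4 z) P = 0) : P = 0 := by
  obtain ⟨e, he0, hes⟩ : ∃ e : Fin 4 → Option (Fin 1 × Fin 3),
      e 0 = none ∧ ∀ i : Fin 3, e i.succ = some (0, i) :=
    ⟨Fin.cases none (fun i => some (0, i)), rfl, fun i => rfl⟩
  have hinj : Function.Injective e := by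
    intro i j h
    refine Fin.cases ?_ (fun i' => ?_) i (motive := fun i => e i = e j → i = j) h
    · refine Fin.cases ?_ (fun j' => ?_) j (motive := fun j => e 0 = e j → 0 = j)
      · intro _; rfl
      · intro h
        rw [he0, hes] at h
        exact absurd h (by simp)
    · refine Fin.cases ?_ (fun j' => ?_) j (motive := fun j => e i'.succ = e j → i'.succ = j)
      · intro h
        rw [he0, hes] at h
        exact absurd h (by simp)
      · intro h
        rw [hes, hes] at h
        have h2 := (Prod.ext_iff.1 (Option.some.inj h)).2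
        simp only at h2
        rw [h2]
  have hmob : ∀ u : ℂ, mob (1 : Matrix (Fin 2) (Fin 2) ℂ) u = u := by
    intro u
    simp [mob]
  have hhim : ∀ u : ℂ, him (1 : Matrix (Fin 2) (Fin 2) ℂ) u = u.im := by
    intro u
    simp [him]
  have h0 : MvPolynomial.rename e P = 0 := by
    refine oone 1 (fun _ => 1) (fun _ => by simp) w (fun _ => by rw [hhim]; exact hw) ?_ _ ?_
    · intro k l hkl
      exact absurd (Subsingleton.elim k l) hkl
    · filter_upwards [hP] with u hu
      rw [MvPolynomial.eval_rename]
      convert hu using 3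
      funext i
      refine Fin.cases ?_ (fun i' => ?_) i
      · simp [he0, J4]
      · simp [hes, hmob]
  exact MvPolynomial.rename_injective e hinj (by rw [h0, map_zero])

theorem j_ind_comp (ζ : ℂ → ℂ) (t0 : ℂ) (han : AnalyticAt ℂ ζ t0) (him : 0 < (ζ t0).im)
    (hnc : ¬ ∀ᶠ t in 𝓝 t0, ζ t = ζ t0) (P : MvPolynomial (Fin 4) ℂ)
    (hP : ∀ᶠ t in 𝓝 t0, MvPolynomial.eval (J4 (ζ t)) P = 0) : P = 0 := by
  have h := han.eventually_constant_or_nhds_le_map_nhds.resolve_left hnc
  exact j_ind him P (h (Filter.mem_map.2 hP))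

end Pool.Agent.Lib.MSF
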