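import Pool.Agent.Lib.MSF.GerE
import Pool.Agent.Lib.MSF.JIndE
import Pool.Agent.Lib.MSF.Ind

set_option autoImplicit false

/-!
# ANA.H : the two algebraic conditions (about 130 lines; from GerE, JIndE, Ind)

`anaHz`: the relation gives `P(γ t, γ ζ) = 0` for the nonzero `P ∈ ℂ[T][Y]` (`ger_zero` for the polynomial in
two variables corresponding to `P`); `γ t` is transcendental over `ℂ` (a nonzero polynomial in `t` does not
vanish near `t1`), so the polynomial `P(γ t, Y)` over `adjoin ℂ {γ t}` is not zero: `γ ζ` is algebraic over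
it (`mem_acl`).
`anaH1`: by `j_ind_comp` and `ger_ind` the family `γ ζ, γ j, γ j', γ j''` (`J4`) is algebraically
independent, and it lies in the closure of `{z, x, a, b}` (`j' = a²`, `j'' = 2 a³ b`): `ind_of_acl`.
-/

noncomputable section

namespace Pool.Agent.Lib.MSF

open Topology Pool.Agent.Lib.MP5e

variable {t1 : ℂ} {Ω : Type} [Field Ω] [Algebra ℂ Ω] {D : Derivation ℂ Ω Ω} {γ : (ℂ → ℂ) → Ω}

private def toMv : Polynomial (Polynomial ℂ) →+* MvPolynomial (Fin 2) ℂ :=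
  Polynomial.eval₂RingHom (Polynomial.aeval (MvPolynomial.X 0 : MvPolynomial (Fin 2) ℂ)).toRingHom
    (MvPolynomial.X 1)

private theorem toMv_map {R : Type} [CommRing R] [Algebra ℂ R] (x : Fin 2 → R)
    (P : Polynomial (Polynomial ℂ)) : MvPolynomial.aeval x (toMv P) =
      Polynomial.eval₂ (Polynomial.aeval (x 0)).toRingHom (x 1) P := by
  induction P using Polynomial.induction_on' with
  | add p q hp hq => rw [map_add, map_add, Polynomial.eval₂_add, hp, hq]
  | monomial k p =>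
    have h1 : toMv (Polynomial.monomial k p) =
        Polynomial.aeval (MvPolynomial.X 0 : MvPolynomial (Fin 2) ℂ) p * MvPolynomial.X 1 ^ k := by
      simp [toMv]
    rw [h1, map_mul, map_pow, MvPolynomial.aeval_X, Polynomial.eval₂_monomial]
    congr 1
    have h2 : MvPolynomial.aeval x (Polynomial.aeval (MvPolynomial.X 0 : MvPolynomial (Fin 2) ℂ) p) =
        Polynomial.aeval (MvPolynomial.aeval x (MvPolynomial.X 0 : MvPolynomial (Fin 2) ℂ)) p :=
      (Polynomial.aeval_algHom_apply _ _ p).symm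
    rw [h2, MvPolynomial.aeval_X]
    rfl

private theorem rel_iff (hg : IsGer t1 D γ) (ζ : ℂ → ℂ) (han : AnalyticAt ℂ ζ t1)
    (P : Polynomial (Polynomial ℂ)) :
    Polynomial.eval₂ (Polynomial.aeval (γ (fun t => t))).toRingHom (γ ζ) P = 0 ↔
      ∀ᶠ t in 𝓝 t1, (P.map (Polynomial.evalRingHom t)).eval (ζ t) = 0 := by
  have hy : ∀ i : Fin 2, AnalyticAt ℂ ((![fun t => t, ζ] : Fin 2 → ℂ → ℂ) i) t1 := by
    intro i
    fin_cases i
    · exact analyticAt_id
    · exact han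
  have h := ger_zero hg (![fun t => t, ζ] : Fin 2 → ℂ → ℂ) hy (toMv P)
  have e1 : MvPolynomial.aeval (fun i => γ ((![fun t => t, ζ] : Fin 2 → ℂ → ℂ) i)) (toMv P) =
      Polynomial.eval₂ (Polynomial.aeval (γ (fun t => t))).toRingHom (γ ζ) P :=
    toMv_map (fun i => γ ((![fun t => t, ζ] : Fin 2 → ℂ → ℂ) i)) P
  have e2 : ∀ t : ℂ, MvPolynomial.eval (fun i => (![fun t => t, ζ] : Fin 2 → ℂ → ℂ) i t) (toMv P) =
      (P.map (Polynomial.evalRingHom t)).eval (ζ t) := by
    intro t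
    have h3 := toMv_map (fun i => (![fun t => t, ζ] : Fin 2 → ℂ → ℂ) i t) P
    have h5 : MvPolynomial.aeval (fun i => (![fun t => t, ζ] : Fin 2 → ℂ → ℂ) i t) (toMv P) =
        MvPolynomial.eval (fun i => (![fun t => t, ζ] : Fin 2 → ℂ → ℂ) i t) (toMv P) := rfl
    have h4 : MvPolynomial.eval (fun i => (![fun t => t, ζ] : Fin 2 → ℂ → ℂ) i t) (toMv P) =
      Polynomial.eval₂ (Polynomial.aeval t : Polynomial ℂ →ₐ[ℂ] ℂ).toRingHom (ζ t) P :=
        h5.symm.trans h3
    rw [h4, Polynomial.eval_map]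
    congr 1
  rw [e1] at h
  simp only [e2] at h
  exact h

private theorem t_trans (hg : IsGer t1 D γ) :
    Function.Injective (Polynomial.aeval (γ (fun t => t)) : Polynomial ℂ →ₐ[ℂ] Ω) := by
  rw [injective_iff_map_eq_zero]
  intro p hp
  have h := (rel_iff hg (fun _ => (0 : ℂ)) analyticAt_const (Polynomial.C p)).1 (by
    rw [Polynomial.eval₂_C]
    exact hp)
  have h2 : {t : ℂ | p.eval t = 0} ∈ 𝓝 t1 := by
    filter_upwards [h] with t ht
    simpa using ht
  exact Polynomial.eq_zero_of_infinite_isRoot p (infinite_of_mem_nhds t1 h2)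

theorem anaHz (hg : IsGer t1 D γ) (ζ : ℂ → ℂ) (han : AnalyticAt ℂ ζ t1)
    (halg : ∃ P : Polynomial (Polynomial ℂ), P ≠ 0 ∧
      ∀ᶠ t in 𝓝 t1, (P.map (Polynomial.evalRingHom t)).eval (ζ t) = 0) :
    γ ζ ∈ ACl ℂ {γ (fun t => t)} := by
  obtain ⟨P, hP0, hP⟩ := halg
  rw [mem_acl]
  have hrel := (rel_iff hg ζ han P).2 hP
  have hmem : γ (fun t => t) ∈ IntermediateField.adjoin ℂ {γ (fun t => t)} :=
    IntermediateField.subset_adjoin ℂ _ rfl
  have hinj : Function.Injective (Polynomial.aeval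
      (⟨γ (fun t => t), hmem⟩ : IntermediateField.adjoin ℂ {γ (fun t => t)}) :
        Polynomial ℂ →ₐ[ℂ] IntermediateField.adjoin ℂ {γ (fun t => t)}).toRingHom := by
    intro p q hpq
    apply t_trans hg
    have h1 := congrArg (algebraMap (IntermediateField.adjoin ℂ {γ (fun t => t)}) Ω) hpq
    have h2 : ∀ r : Polynomial ℂ, algebraMap (IntermediateField.adjoin ℂ {γ (fun t => t)}) Ω
        (Polynomial.aeval (⟨γ (fun t => t), hmem⟩ :
          IntermediateField.adjoin ℂ {γ (fun t => t)}) r) =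
        Polynomial.aeval (γ (fun t => t)) r := by
      intro r
      rw [← Polynomial.aeval_algebraMap_apply]
      rfl
    exact (h2 p).symm.trans (h1.trans (h2 q))
  refine ⟨P.map (Polynomial.aeval
      (⟨γ (fun t => t), hmem⟩ : IntermediateField.adjoin ℂ {γ (fun t => t)}) :
        Polynomial ℂ →ₐ[ℂ] IntermediateField.adjoin ℂ {γ (fun t => t)}).toRingHom,
      (Polynomial.map_ne_zero_iff hinj).2 hP0, ?_⟩
  rw [Polynomial.aeval_def, Polynomial.eval₂_map, ← hrel]
  congr 1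
  ext x
  · simp
  · simp

theorem anaH1 (hg : IsGer t1 D γ) (ζ : ℂ → ℂ) (han : AnalyticAt ℂ ζ t1) (him : 0 < (ζ t1).im)
    (hnc : ¬ ∀ᶠ t in 𝓝 t1, ζ t = ζ t1) (a b : Ω) (ha : a ^ 2 = γ (fun t => deriv jf (ζ t)))
    (hb : b * (2 * a ^ 3) = γ (fun t => deriv (deriv jf) (ζ t))) :
    AlgebraicIndependent ℂ ![γ ζ, γ (fun t => jf (ζ t)), a, b] := by
  have hy : ∀ i : Fin 4, AnalyticAt ℂ (fun t => J4 (ζ t) i) t1 := by
    intro i
    exact AnalyticAt.fun_comp (f := ζ) (g := fun u => J4 u i) (J4_analyticAt him i) han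
  have hw : AlgebraicIndependent ℂ (fun i : Fin 4 => γ (fun t => J4 (ζ t) i)) := by
    rw [ger_ind hg (fun (i : Fin 4) (t : ℂ) => J4 (ζ t) i) hy]
    intro P hP
    exact j_ind_comp ζ t1 han him hnc P hP
  refine ind_of_acl _ _ hw ?_
  have h0 := subset_acl (C := ℂ) (Set.range ![γ ζ, γ (fun t => jf (ζ t)), a, b])
  have hm : ∀ i : Fin 4, (![γ ζ, γ (fun t => jf (ζ t)), a, b] : Fin 4 → Ω) i ∈
      ACl ℂ (Set.range ![γ ζ, γ (fun t => jf (ζ t)), a, b]) := fun i => h0 ⟨i, rfl⟩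
  have ha' : a ∈ ACl ℂ (Set.range ![γ ζ, γ (fun t => jf (ζ t)), a, b]) := hm 2
  have hb' : b ∈ ACl ℂ (Set.range ![γ ζ, γ (fun t => jf (ζ t)), a, b]) := hm 3
  intro i
  fin_cases i
  · exact hm 0
  · exact hm 1
  · change γ (fun t => deriv jf (ζ t)) ∈ _
    rw [← ha]
    exact pow_mem ha' 2
  · change γ (fun t => deriv (deriv jf) (ζ t)) ∈ _
    rw [← hb]
    exact mul_mem hb' (mul_mem (ofNat_mem _ 2) (pow_mem ha' 3))

end Pool.Agent.Lib.MSF
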