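import Pool.Agent.Lib.MSF.Swz

set_option autoImplicit false

/-!
# ANA.O : the differential equations along `ζ` (about 130 lines; from Swz)

`deriv jf (ζ t1) ≠ 0`: an analytic square root `a` of `t ↦ deriv jf (ζ t)` near `t1`: with
`c = deriv jf (ζ t1)`, `c₀² = c`, `a t = c₀ * (deriv jf (ζ t) / c) ^ (1/2 : ℂ)` (`cpow` is analytic near
`1`; `Complex.cpow_nat_inv_pow` or `Complex.cpow_add`). `b t = deriv (deriv jf) (ζ t) / (2 * a t ^ 3)`.
Near `t1` all functions are analytic, `a ≠ 0`. Chain rule: `x = jf ∘ ζ`, `x' = j'(ζ) ζ' = a² ζ'`;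
differentiate `a² = j'(ζ)`: `2 a a' = j''(ζ) ζ'`, `a' = j''(ζ) ζ' / (2a) = b a² ζ' = b x'`;
`b' = j'''(ζ) ζ'/(2a³) - 3 j''(ζ) a'/(2a⁴) = ζ' (j'''(ζ)/(2a³) - 3 j''(ζ)²/(4a⁵))`, and `swz` with
`j'(ζ) = a²` gives the last equation.
-/

noncomputable section

namespace Pool.Agent.Lib.MSF

open Topology Pool.Agent.Lib.MP5e

theorem anaO (ζ : ℂ → ℂ) (t1 : ℂ) (hζ : AnalyticAt ℂ ζ t1) (him : 0 < (ζ t1).im)
    (hj : deriv jf (ζ t1) ≠ 0) :
    ∃ a b : ℂ → ℂ, AnalyticAt ℂ a t1 ∧ AnalyticAt ℂ b t1 ∧ a t1 ≠ 0 ∧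
      ∀ᶠ t in 𝓝 t1, a t ^ 2 = deriv jf (ζ t) ∧
        b t * (2 * a t ^ 3) = deriv (deriv jf) (ζ t) ∧
        deriv (fun t => jf (ζ t)) t = a t ^ 2 * deriv ζ t ∧
        deriv a t = b t * deriv (fun t => jf (ζ t)) t ∧
        4 * jf (ζ t) ^ 2 * (jf (ζ t) - 1728) ^ 2 * deriv b t =
          -((jf (ζ t) ^ 2 - 1968 * jf (ζ t) + 2654208) * a t) *
            deriv (fun t => jf (ζ t)) t := by
  obtain ⟨c, hc⟩ : ∃ c, c = deriv jf (ζ t1) := ⟨_, rfl⟩
  rw [← hc] at hj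
  obtain ⟨c0, hc0⟩ := IsAlgClosed.exists_pow_nat_eq c (n := 2) (by norm_num)
  have hfa : AnalyticAt ℂ (fun t => deriv jf (ζ t)) t1 := (J4_analyticAt him 2).comp hζ
  have hga : AnalyticAt ℂ (fun t => deriv (deriv jf) (ζ t)) t1 := (J4_analyticAt him 3).comp hζ
  have hua : AnalyticAt ℂ (fun t => deriv jf (ζ t) / c) t1 := hfa.div analyticAt_const hj
  obtain ⟨a, ha⟩ : ∃ a : ℂ → ℂ, a = fun t => c0 * (deriv jf (ζ t) / c) ^ (((2 : ℕ) : ℂ)⁻¹) :=
    ⟨_, rfl⟩
  have hsq : ∀ t, a t ^ 2 = deriv jf (ζ t) := by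
    intro t
    rw [ha]
    change (c0 * (deriv jf (ζ t) / c) ^ (((2 : ℕ) : ℂ)⁻¹)) ^ 2 = _
    rw [mul_pow, hc0, Complex.cpow_nat_inv_pow _ two_ne_zero, mul_div_cancel₀ _ hj]
  have haa : AnalyticAt ℂ a t1 := by
    rw [ha]
    refine analyticAt_const.mul (hua.cpow analyticAt_const ?_)
    rw [← hc, div_self hj]
    exact Complex.one_mem_slitPlane
  have ha1 : a t1 ≠ 0 := by
    intro h0
    have h1 := hsq t1
    rw [h0, ← hc] at h1
    exact hj (by rw [← h1]; norm_num)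
  obtain ⟨b, hb⟩ : ∃ b : ℂ → ℂ, b = fun t => deriv (deriv jf) (ζ t) / (2 * a t ^ 3) := ⟨_, rfl⟩
  have hba : AnalyticAt ℂ b t1 := by
    rw [hb]
    exact hga.div (analyticAt_const.mul (haa.pow 3))
      (mul_ne_zero two_ne_zero (pow_ne_zero 3 ha1))
  have hbe : ∀ t, a t ≠ 0 → b t * (2 * a t ^ 3) = deriv (deriv jf) (ζ t) := by
    intro t ht
    rw [hb]
    exact div_mul_cancel₀ _ (mul_ne_zero two_ne_zero (pow_ne_zero 3 ht))
  refine ⟨a, b, haa, hba, ha1, ?_⟩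
  have hE : ∀ᶠ t in 𝓝 t1, AnalyticAt ℂ ζ t ∧ 0 < (ζ t).im ∧ AnalyticAt ℂ a t ∧
      AnalyticAt ℂ b t ∧ a t ≠ 0 := by
    refine hζ.eventually_analyticAt.and (((Complex.continuous_im.continuousAt.comp
      hζ.continuousAt).eventually (lt_mem_nhds him)).and (haa.eventually_analyticAt.and
      (hba.eventually_analyticAt.and (haa.continuousAt.eventually_ne ha1))))
  filter_upwards [hE] with t ht
  obtain ⟨hz, hzi, hat, hbt, ht0⟩ := ht
  have hz' : HasDerivAt ζ (deriv ζ t) t := hz.differentiableAt.hasDerivAt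
  have hj1 : HasDerivAt jf (deriv jf (ζ t)) (ζ t) :=
    (J4_analyticAt hzi 1).differentiableAt.hasDerivAt
  have hj2 : HasDerivAt (deriv jf) (deriv (deriv jf) (ζ t)) (ζ t) :=
    (J4_analyticAt hzi 2).differentiableAt.hasDerivAt
  have hj3 : HasDerivAt (deriv (deriv jf)) (deriv (deriv (deriv jf)) (ζ t)) (ζ t) :=
    (J4_analyticAt hzi 3).differentiableAt.hasDerivAt
  have hx' : deriv (fun t => jf (ζ t)) t = a t ^ 2 * deriv ζ t := by
    rw [hsq]
    exact (hj1.comp t hz').deriv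
  have ha' : HasDerivAt a (deriv a t) t := hat.differentiableAt.hasDerivAt
  have hb' : HasDerivAt b (deriv b t) t := hbt.differentiableAt.hasDerivAt
  have hA : 2 * a t * deriv a t = deriv (deriv jf) (ζ t) * deriv ζ t := by
    have h1 : HasDerivAt (fun s => a s ^ 2) (2 * a t * deriv a t) t := by
      have h := ha'.pow 2
      have e : ((2 : ℕ) : ℂ) * a t ^ (2 - 1) * deriv a t = 2 * a t * deriv a t := by
        norm_num
      rw [e] at h
      exact h
    have h2 : HasDerivAt (fun s => a s ^ 2) (deriv (deriv jf) (ζ t) * deriv ζ t) t := by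
      have h3 : (fun s => a s ^ 2) = (deriv jf ∘ ζ) := by
        funext s
        exact hsq s
      rw [h3]
      exact hj2.comp t hz'
    exact h1.unique h2
  have hAb : deriv a t = b t * (a t ^ 2 * deriv ζ t) := by
    have h1 := hbe t ht0
    have h2 : (2 * a t) * deriv a t = (2 * a t) * (b t * (a t ^ 2 * deriv ζ t)) := by
      rw [hA, ← h1]
      ring
    exact mul_left_cancel₀ (mul_ne_zero two_ne_zero ht0) h2
  have hB : deriv b t * (2 * a t ^ 3) + b t * (2 * (3 * a t ^ 2 * deriv a t)) =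
      deriv (deriv (deriv jf)) (ζ t) * deriv ζ t := by
    have h1 : HasDerivAt (fun s => b s * (2 * a s ^ 3))
        (deriv b t * (2 * a t ^ 3) + b t * (2 * (3 * a t ^ 2 * deriv a t))) t := by
      have h := hb'.mul ((ha'.pow 3).const_mul 2)
      have e : deriv b t * (2 * (a ^ 3) t) + b t * (2 * (((3 : ℕ) : ℂ) * a t ^ (3 - 1) * deriv a t)) =
          deriv b t * (2 * a t ^ 3) + b t * (2 * (3 * a t ^ 2 * deriv a t)) := by
        norm_num
      rw [e] at h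
      exact h
    have h2 : HasDerivAt (fun s => b s * (2 * a s ^ 3))
        (deriv (deriv (deriv jf)) (ζ t) * deriv ζ t) t := by
      have h3 : (fun s => b s * (2 * a s ^ 3)) =ᶠ[𝓝 t] (deriv (deriv jf) ∘ ζ) := by
        filter_upwards [hat.continuousAt.eventually_ne ht0] with s hs
        exact hbe s hs
      exact (hj3.comp t hz').congr_of_eventuallyEq h3
    exact h1.unique h2
  refine ⟨hsq t, hbe t ht0, hx', ?_, ?_⟩
  · rw [hx', hAb]
  · have hsw := swz hzi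
    have h1 := hbe t ht0
    have h2 := hsq t
    rw [hx']
    rw [← h1, ← h2] at hsw
    have h5 : (2 * a t ^ 5) ≠ 0 := mul_ne_zero two_ne_zero (pow_ne_zero 5 ht0)
    refine mul_left_cancel₀ h5 ?_
    rw [hAb] at hB
    linear_combination (4 * jf (ζ t) ^ 2 * (jf (ζ t) - 1728) ^ 2 * a t ^ 2) * hB +
      deriv ζ t * hsw

end Pool.Agent.Lib.MSF
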