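import Pool.Agent.Lib.MSF.AnaH
import Pool.Agent.Lib.MSF.AnaO

set_option autoImplicit false

/-!
# ANA.S : the data `FDat` of analytic functions (about 140 lines; from GerE, AnaO, AnaH)

`a_k, b_k` from `anaO` (choose), `S.t = γ (fun t => t)`, `S.z k = γ (ζ k)`,
`S.x k = γ (fun t => jf (ζ k t))`, `S.a k = γ (a_k)`, `S.b k = γ (b_k)`, `N = polN`, `M = polM`.
`ht`: `D γ(t) = γ (deriv (fun t => t)) = γ 1`. `ha`: `IsGer.zero` and `a t1 ≠ 0` (continuity).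
`hM`: `aeval x polM = 4 x² (x - 1728)²` is the germ of `4 j² (j - 1728)²`, which is not zero at `t1` by
`jf_ne`. `hx, hDa, hDb`: `IsGer.der`, `mul`, `congr` and `anaO` (`hDb`: divide by `aeval x polM`).
`hz`: `anaHz`. `h1`: `anaH1`.
-/

noncomputable section

namespace Pool.Agent.Lib.MSF

open Topology Pool.Agent.Lib.MP5e

section

variable {t1 : ℂ} {Ω : Type} [Field Ω] [Algebra ℂ Ω] {D : Derivation ℂ Ω Ω} {γ : (ℂ → ℂ) → Ω}

private theorem g_neg (hg : IsGer t1 D γ) {f : ℂ → ℂ} (hf : AnalyticAt ℂ f t1) :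
    γ (fun t => -f t) = -γ f := by
  have h1 := hg.mul (fun _ => (-1 : ℂ)) f analyticAt_const hf
  rw [hg.const, map_neg, map_one, neg_one_mul] at h1
  rw [← h1]
  congr 1
  funext t
  ring

private theorem g_sub_const (hg : IsGer t1 D γ) {f : ℂ → ℂ} (hf : AnalyticAt ℂ f t1) (c : ℂ) :
    γ (fun t => f t - c) = γ f - algebraMap ℂ Ω c := by
  have h1 := hg.add f (fun _ => -c) hf analyticAt_const
  rw [hg.const, map_neg, ← sub_eq_add_neg] at h1
  rw [← h1]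
  congr 1

private theorem g_cmul (hg : IsGer t1 D γ) {f : ℂ → ℂ} (hf : AnalyticAt ℂ f t1) (c : ℂ) :
    γ (fun t => c * f t) = algebraMap ℂ Ω c * γ f := by
  have h1 := hg.mul (fun _ => c) f analyticAt_const hf
  rw [hg.const] at h1
  exact h1

private theorem g_pow (hg : IsGer t1 D γ) {f : ℂ → ℂ} (hf : AnalyticAt ℂ f t1) (m : ℕ) :
    γ (fun t => f t ^ m) = γ f ^ m := by
  induction m with
  | zero =>
    simp only [pow_zero]
    rw [hg.const, map_one]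
  | succ m ih =>
    simp only [pow_succ]
    rw [hg.mul (fun t => f t ^ m) f (hf.fun_pow m) hf, ih]

private theorem g_ne (hg : IsGer t1 D γ) {f : ℂ → ℂ} (hf : AnalyticAt ℂ f t1) (h : f t1 ≠ 0) :
    γ f ≠ 0 := by
  intro h0
  exact h (hg.zero f hf h0).self_of_nhds

private theorem one_fun (ζ : ℂ → ℂ) (hg : IsGer t1 D γ) (hζ : AnalyticAt ℂ ζ t1)
    (him : 0 < (ζ t1).im) (hj : deriv jf (ζ t1) ≠ 0) :
    ∃ a b : Ω, a ≠ 0 ∧ a ^ 2 = γ (fun t => deriv jf (ζ t)) ∧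
      b * (2 * a ^ 3) = γ (fun t => deriv (deriv jf) (ζ t)) ∧
      Polynomial.aeval (γ (fun t => jf (ζ t))) polM ≠ 0 ∧
      D (γ (fun t => jf (ζ t))) = a ^ 2 * D (γ ζ) ∧
      D a = b * D (γ (fun t => jf (ζ t))) ∧
      D b = -(Polynomial.aeval (γ (fun t => jf (ζ t))) polN /
        Polynomial.aeval (γ (fun t => jf (ζ t))) polM * a) * D (γ (fun t => jf (ζ t))) := by
  obtain ⟨a, b, ha, hb, ha0, hev⟩ := anaO ζ t1 hζ him hj
  have hx : AnalyticAt ℂ (fun t => jf (ζ t)) t1 := (jf_analyticAt him).fun_comp hζ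
  set x : Ω := γ (fun t => jf (ζ t)) with hxd
  have e1 : γ a ^ 2 = γ (fun t => deriv jf (ζ t)) := by
    rw [← g_pow hg ha 2]
    exact hg.congr _ _ (ha.fun_pow 2) (hev.mono fun t h => h.1)
  have e2 : γ b * (2 * γ a ^ 3) = γ (fun t => deriv (deriv jf) (ζ t)) := by
    have h1 := hg.mul b (fun t => 2 * a t ^ 3) hb (analyticAt_const.fun_mul (ha.fun_pow 3))
    rw [g_cmul hg (ha.fun_pow 3) 2, g_pow hg ha 3, map_ofNat] at h1
    rw [← h1]
    exact hg.congr _ _ (hb.fun_mul (analyticAt_const.fun_mul (ha.fun_pow 3)))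
      (hev.mono fun t h => h.2.1)
  have e3 : D x = γ a ^ 2 * D (γ ζ) := by
    rw [hxd, hg.der _ hx, hg.der _ hζ, ← g_pow hg ha 2,
      ← hg.mul (fun t => a t ^ 2) (deriv ζ) (ha.fun_pow 2) hζ.deriv]
    exact hg.congr _ _ hx.deriv (hev.mono fun t h => h.2.2.1)
  have e4 : D (γ a) = γ b * D x := by
    rw [hxd, hg.der _ hx, hg.der _ ha, ← hg.mul b _ hb hx.deriv]
    exact hg.congr _ _ ha.deriv (hev.mono fun t h => h.2.2.2.1)
  have hM : Polynomial.aeval x polM = 4 * x ^ 2 * (x - 1728) ^ 2 := by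
    rw [polM, map_mul, map_mul, map_pow, map_pow, map_sub, Polynomial.aeval_C, Polynomial.aeval_C,
      Polynomial.aeval_X, map_ofNat, map_ofNat]
  have hN : Polynomial.aeval x polN = x ^ 2 - 1968 * x + 2654208 := by
    rw [polN, map_add, map_sub, map_mul, map_pow, Polynomial.aeval_C, Polynomial.aeval_C,
      Polynomial.aeval_X, map_ofNat, map_ofNat]
  have hx0 : x ≠ 0 := g_ne hg hx (jf_ne him hj).1
  have hx1 : x - 1728 ≠ 0 := by
    have h1 := g_ne hg (hx.fun_sub analyticAt_const) (f := fun t => jf (ζ t) - 1728)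
      (sub_ne_zero.2 (jf_ne him hj).2)
    rw [g_sub_const hg hx 1728, map_ofNat] at h1
    exact h1
  have h4 : (4 : Ω) ≠ 0 := by
    have h1 : algebraMap ℂ Ω 4 ≠ 0 := by
      rw [Ne, map_eq_zero_iff _ (algebraMap ℂ Ω).injective]
      norm_num
    rwa [map_ofNat] at h1
  have hM0 : Polynomial.aeval x polM ≠ 0 := by
    rw [hM]
    exact mul_ne_zero (mul_ne_zero h4 (pow_ne_zero 2 hx0)) (pow_ne_zero 2 hx1)
  have e5 : 4 * x ^ 2 * (x - 1728) ^ 2 * D (γ b) =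
      -((x ^ 2 - 1968 * x + 2654208) * γ a) * D x := by
    have aL1 : AnalyticAt ℂ (fun t => 4 * jf (ζ t) ^ 2) t1 := analyticAt_const.fun_mul (hx.fun_pow 2)
    have aL2 : AnalyticAt ℂ (fun t => jf (ζ t) - 1728) t1 := hx.fun_sub analyticAt_const
    have aL3 : AnalyticAt ℂ (fun t => 4 * jf (ζ t) ^ 2 * (jf (ζ t) - 1728) ^ 2) t1 :=
      aL1.fun_mul (aL2.fun_pow 2)
    have aL : AnalyticAt ℂ
        (fun t => 4 * jf (ζ t) ^ 2 * (jf (ζ t) - 1728) ^ 2 * deriv b t) t1 :=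
      aL3.fun_mul hb.deriv
    have gL : γ (fun t => 4 * jf (ζ t) ^ 2 * (jf (ζ t) - 1728) ^ 2 * deriv b t) =
        4 * x ^ 2 * (x - 1728) ^ 2 * D (γ b) := by
      rw [hg.mul _ _ aL3 hb.deriv, hg.mul _ _ aL1 (aL2.fun_pow 2), g_cmul hg (hx.fun_pow 2) 4,
        g_pow hg hx 2, g_pow hg aL2 2, g_sub_const hg hx 1728, map_ofNat, map_ofNat, hg.der _ hb]
    have aR1 : AnalyticAt ℂ (fun t => 1968 * jf (ζ t)) t1 := analyticAt_const.fun_mul hx
    have aR2 : AnalyticAt ℂ (fun t => -(1968 * jf (ζ t))) t1 := aR1.fun_neg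
    have aR3 : AnalyticAt ℂ (fun t => jf (ζ t) ^ 2 + -(1968 * jf (ζ t))) t1 :=
      (hx.fun_pow 2).fun_add aR2
    have aR4 : AnalyticAt ℂ (fun t => jf (ζ t) ^ 2 + -(1968 * jf (ζ t)) + 2654208) t1 :=
      aR3.fun_add analyticAt_const
    have aR5 : AnalyticAt ℂ
        (fun t => (jf (ζ t) ^ 2 + -(1968 * jf (ζ t)) + 2654208) * a t) t1 := aR4.fun_mul ha
    have gR : γ (fun t => -((jf (ζ t) ^ 2 + -(1968 * jf (ζ t)) + 2654208) * a t) *
        deriv (fun t => jf (ζ t)) t) =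
        -((x ^ 2 - 1968 * x + 2654208) * γ a) * D x := by
      have h2 := hg.mul (fun t => -((jf (ζ t) ^ 2 + -(1968 * jf (ζ t)) + 2654208) * a t))
        (deriv (fun t => jf (ζ t))) aR5.fun_neg hx.deriv
      have h3 := hg.mul (fun t => jf (ζ t) ^ 2 + -(1968 * jf (ζ t)) + 2654208) a aR4 ha
      have h4 := hg.add (fun t => jf (ζ t) ^ 2 + -(1968 * jf (ζ t))) (fun _ => 2654208) aR3
        analyticAt_const
      have h5 := hg.add (fun t => jf (ζ t) ^ 2) (fun t => -(1968 * jf (ζ t))) (hx.fun_pow 2) aR2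
      rw [g_neg hg aR5, h3, h4, h5, g_pow hg hx 2, g_neg hg aR1, g_cmul hg hx 1968, hg.const,
        map_ofNat, map_ofNat, ← hg.der _ hx] at h2
      rw [h2, ← hxd, sub_eq_add_neg]
    rw [← gL, ← gR]
    refine hg.congr _ _ aL (hev.mono fun t h => ?_)
    have h6 := h.2.2.2.2
    show _ = -((jf (ζ t) ^ 2 + -(1968 * jf (ζ t)) + 2654208) * a t) *
        deriv (fun t => jf (ζ t)) t
    rw [h6]
    ring
  refine ⟨γ a, γ b, g_ne hg ha ha0, e1, e2, hM0, e3, e4, ?_⟩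
  have h6 : Polynomial.aeval x polM * D (γ b) = -(Polynomial.aeval x polN * γ a) * D x := by
    rw [hM, hN]
    exact e5
  field_simp
  rw [mul_comm (D (γ b)), h6]
  ring

end

theorem anaS {n : ℕ} (ζ : Fin n → ℂ → ℂ) (t1 : ℂ)
    (h : ∀ k, AnalyticAt ℂ (ζ k) t1 ∧ 0 < (ζ k t1).im ∧ deriv jf (ζ k t1) ≠ 0 ∧
      ¬ ∀ᶠ t in 𝓝 t1, ζ k t = ζ k t1)
    (halg : ∀ k, ∃ P : Polynomial (Polynomial ℂ), P ≠ 0 ∧
      ∀ᶠ t in 𝓝 t1, (P.map (Polynomial.evalRingHom t)).eval (ζ k t) = 0)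
    {Ω : Type} [Field Ω] [Algebra ℂ Ω] (D : Derivation ℂ Ω Ω) (γ : (ℂ → ℂ) → Ω)
    (hg : IsGer t1 D γ) (hC : ∀ y, D y = 0 → y ∈ Set.range (algebraMap ℂ Ω)) :
    ∃ S : FDat ℂ Ω n, S.t = γ (fun t => t) ∧ ∀ k, S.z k = γ (ζ k) ∧
      S.x k = γ (fun t => jf (ζ k t)) ∧ S.a k ^ 2 = γ (fun t => deriv jf (ζ k t)) ∧
      S.b k * (2 * S.a k ^ 3) = γ (fun t => deriv (deriv jf) (ζ k t)) := by
  choose a b ha0 ha2 hb hM hx hDa hDb using fun k => one_fun (ζ k) hg (h k).1 (h k).2.1 (h k).2.2.1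
  refine ⟨{ D := D, N := polN, M := polM, t := γ (fun t => t), z := fun k => γ (ζ k)
            x := fun k => γ (fun t => jf (ζ k t)), a := a, b := b, hC := hC, ht := ?_, ha := ha0
            hM := hM, hx := hx, hDa := hDa, hDb := hDb, hz := ?_, h1 := ?_ }, rfl,
    fun k => ⟨rfl, rfl, ha2 k, hb k⟩⟩
  · rw [hg.der (fun t => t) analyticAt_id]
    have h1 : deriv (fun t : ℂ => t) = fun _ => 1 := by
      funext t
      exact deriv_id t
    rw [h1, hg.const, map_one]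
  · intro k
    exact anaHz hg (ζ k) (h k).1 (halg k)
  · intro k
    exact anaH1 hg (ζ k) (h k).1 (h k).2.1 (h k).2.2.2 (a k) (b k) (ha2 k) (hb k)

end Pool.Agent.Lib.MSF
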