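import Mathlib

set_option autoImplicit false

/-!
# CST : a subspace stable under `D` is spanned by its constant vectors (about 90 lines; only Mathlib)

Strong induction on the number `s` of nonzero coordinates of `v ∈ W`. `v = 0` clear. Among the nonzero
vectors `u ∈ W` with `u i = 0` whenever `v i = 0` choose one with the least number of nonzero
coordinates, and scale it so that `u i₀ = 1` for some `i₀` (scaling by `(u i₀)⁻¹` does not change the
support). Then `(D (u i))_i ∈ W` has support in the support of `u` without `i₀` (`D 1 = 0`,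
`D 0 = 0`), so it is zero by minimality, and all `u i` are in the range of `algebraMap` (`hD`). Now
`v - v i₀ • u ∈ W` has smaller support than `v` (at `i₀` it vanishes; `v i₀ ≠ 0` because `u i₀ ≠ 0`),
so it is in the span by induction, and `v = (v - v i₀ • u) + v i₀ • u`.
-/

noncomputable section

namespace Pool.Agent.Lib.MSF

theorem cst_span {C F : Type} [Field C] [Field F] [Algebra C F] (D : Derivation C F F)
    (hD : ∀ y, D y = 0 → y ∈ Set.range (algebraMap C F)) {ι : Type} [Fintype ι]
    (W : Submodule F (ι → F)) (hW : ∀ v ∈ W, (fun i => D (v i)) ∈ W) :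
    ∀ v ∈ W, v ∈ Submodule.span F
      {u : ι → F | u ∈ W ∧ ∀ i, u i ∈ Set.range (algebraMap C F)} := by
  classical
  let s : (ι → F) → ℕ := fun v => (Finset.univ.filter fun i => v i ≠ 0).card
  suffices H : ∀ k : ℕ, ∀ v ∈ W, s v = k → v ∈ Submodule.span F
      {u : ι → F | u ∈ W ∧ ∀ i, u i ∈ Set.range (algebraMap C F)} from
    fun v hv => H _ v hv rfl
  intro k
  induction k using Nat.strong_induction_on with
  | _ k ih =>
    intro v hv hk
    by_cases hv0 : v = 0
    · rw [hv0]; exact Submodule.zero_mem _
    have hP : ∃ m : ℕ, ∃ u ∈ W, u ≠ 0 ∧ (∀ i, v i = 0 → u i = 0) ∧ s u = m :=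
      ⟨s v, v, hv, hv0, fun i h => h, rfl⟩
    obtain ⟨u, huW, hu0, huv, hus⟩ := Nat.find_spec hP
    obtain ⟨i0, hi0⟩ : ∃ i0, u i0 ≠ 0 := by
      by_contra h
      push Not at h
      exact hu0 (funext h)
    obtain ⟨w, hw⟩ : ∃ w : ι → F, w = (u i0)⁻¹ • u := ⟨_, rfl⟩
    have hwW : w ∈ W := by rw [hw]; exact W.smul_mem _ huW
    have hw1 : w i0 = 1 := by rw [hw]; simp [hi0]
    have hwi : ∀ i, u i = 0 → w i = 0 := by
      intro i h
      rw [hw]
      simp [h]
    have hDw : (fun i => D (w i)) = 0 := by
      by_contra hne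
      have hlt : s (fun i => D (w i)) < s u := by
        apply Finset.card_lt_card
        rw [Finset.ssubset_iff_of_subset]
        · refine ⟨i0, by simp [hi0], ?_⟩
          simp [hw1]
        · intro i hi
          simp only [Finset.mem_filter, Finset.mem_univ, true_and] at hi ⊢
          intro h
          apply hi
          rw [hwi i h]
          simp
      refine Nat.find_min hP (m := s (fun i => D (w i))) (by rw [← hus]; exact hlt)
        ⟨_, hW w hwW, hne, ?_, rfl⟩
      intro i h
      show D (w i) = 0
      rw [hwi i (huv i h)]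
      simp
    have hwc : ∀ i, w i ∈ Set.range (algebraMap C F) := fun i => hD _ (congrFun hDw i)
    have hvi0 : v i0 ≠ 0 := fun h => hi0 (huv i0 h)
    have h1 : v - v i0 • w ∈ Submodule.span F
        {u : ι → F | u ∈ W ∧ ∀ i, u i ∈ Set.range (algebraMap C F)} := by
      refine ih (s (v - v i0 • w)) ?_ _ (W.sub_mem hv (W.smul_mem _ hwW)) rfl
      rw [← hk]
      apply Finset.card_lt_card
      rw [Finset.ssubset_iff_of_subset]
      · refine ⟨i0, by simp [hvi0], ?_⟩
        simp [hw1]
      · intro i hi
        simp only [Finset.mem_filter, Finset.mem_univ, true_and] at hi ⊢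
        intro h
        apply hi
        simp [h, hwi i (huv i h)]
    have h2 : v = (v - v i0 • w) + v i0 • w := by simp
    rw [h2]
    exact Submodule.add_mem _ h1
      (Submodule.smul_mem _ _ (Submodule.subset_span ⟨hwW, hwc⟩))

end Pool.Agent.Lib.MSF
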