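import Mathlib

set_option autoImplicit false

/-!
# MSF : functional independence of `J(z_k(t))` for algebraic `z_k(t)`, definitions (helper64)

Notation of the whole library. `C ⊆ F` fields of characteristic zero, `D` a derivation of `F` with
constants `C`. `ACl C S` is the algebraic closure of `C(S)` in `F`. For `z, a, b ∈ F` put
`Phi = [[a, z a], [b, z b + 1/a]]` (determinant `1`) and `A(q) = [[0, 1], [-q, 0]]`. If `z` is a point
of the upper half plane (a function), `x = j(z)`, `a = √(j'(z))`, `b = j''(z)/(2 a³)`, `q = Q(x)`, then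
`D Phi = D x • A(q) Phi`: `a` and `z a` are solutions of `d²y/dx² = - Q(x) y`, `b = da/dx`.
For a derivation `δ` of `F` over `C` put `eta δ = Phi⁻¹ (δ Phi - δ x • A(q) Phi)`, a matrix of trace `0`.
-/

noncomputable section

namespace Pool.Agent.Lib.MSF

/-- the algebraic closure of `C(S)` in `F` -/
def ACl (C : Type) {F : Type} [Field C] [Field F] [Algebra C F] (S : Set F) :
    IntermediateField C F :=
  (algebraicClosure (IntermediateField.adjoin C S) F).restrictScalars C

/-- the fundamental matrix -/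
def Phi {F : Type} [Field F] (z a b : F) : Matrix (Fin 2) (Fin 2) F :=
  !![a, z * a; b, z * b + 1 / a]

/-- its inverse -/
def Phi' {F : Type} [Field F] (z a b : F) : Matrix (Fin 2) (Fin 2) F :=
  !![z * b + 1 / a, -(z * a); -b, a]

/-- the matrix of the equation -/
def AA {F : Type} [Field F] (q : F) : Matrix (Fin 2) (Fin 2) F := !![0, 1; -q, 0]

/-- `Phi⁻¹ (δ Phi - δ x • A(q) Phi)` -/
def eta {C F : Type} [Field C] [Field F] [Algebra C F] (z x a b q : F) (δ : Derivation C F F) :
    Matrix (Fin 2) (Fin 2) F :=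
  Phi' z a b * ((Phi z a b).map δ - δ x • (AA q * Phi z a b))

/-- the matrix with constant entries -/
def cmat {C F : Type} [Field C] [Field F] [Algebra C F] (g : Matrix (Fin 2) (Fin 2) C) :
    Matrix (Fin 2) (Fin 2) F := g.map (algebraMap C F)

/-- `n` functions `z_k` algebraic over `C(t)`, `x_k = j(z_k)`, `a_k = √(j'(z_k))`,
`b_k = d a_k / d x_k`, in a differential field `F` with constants `C`; `Q = N/M` -/
structure FDat (C F : Type) [Field C] [Field F] [Algebra C F] (n : ℕ) where
  D : Derivation C F F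
  N : Polynomial ℤ
  M : Polynomial ℤ
  t : F
  z : Fin n → F
  x : Fin n → F
  a : Fin n → F
  b : Fin n → F
  hC : ∀ y, D y = 0 → y ∈ Set.range (algebraMap C F)
  ht : D t = 1
  ha : ∀ k, a k ≠ 0
  hM : ∀ k, Polynomial.aeval (x k) M ≠ 0
  hx : ∀ k, D (x k) = a k ^ 2 * D (z k)
  hDa : ∀ k, D (a k) = b k * D (x k)
  hDb : ∀ k, D (b k) = -(Polynomial.aeval (x k) N / Polynomial.aeval (x k) M * a k) * D (x k)
  hz : ∀ k, z k ∈ ACl C {t}
  h1 : ∀ k, AlgebraicIndependent C ![z k, x k, a k, b k]

variable {C F : Type} [Field C] [Field F] [Algebra C F] {n : ℕ}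

/-- `Q(x_k)` -/
def FDat.q (S : FDat C F n) (k : Fin n) : F :=
  Polynomial.aeval (S.x k) S.N / Polynomial.aeval (S.x k) S.M

/-- the matrix `eta` of the index `k` -/
def FDat.eta (S : FDat C F n) (k : Fin n) (δ : Derivation C F F) : Matrix (Fin 2) (Fin 2) F :=
  Pool.Agent.Lib.MSF.eta (S.z k) (S.x k) (S.a k) (S.b k) (S.q k) δ

/-- the matrix `Phi_l g Phi_k⁻¹` -/
def FDat.M2 (S : FDat C F n) (k l : Fin n) (g : Matrix (Fin 2) (Fin 2) C) :
    Matrix (Fin 2) (Fin 2) F :=
  Phi (S.z l) (S.a l) (S.b l) * cmat g * Phi' (S.z k) (S.a k) (S.b k)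

/-- the functions `t, x_k, a_k, b_k` -/
def FDat.fam (S : FDat C F n) (v : Option (Fin n × Fin 3)) : F :=
  v.elim S.t fun p => ![S.x p.1, S.a p.1, S.b p.1] p.2

end Pool.Agent.Lib.MSF
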