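import Mathlib

set_option autoImplicit false

/-!
# SL2.B : `sl₂(C)` is simple and perfect (about 90 lines; only Mathlib)

`e = [[0,1],[0,0]]`, `h = [[1,0],[0,-1]]`, `f = [[0,0],[1,0]]`; `[h,e] = 2e`, `[h,f] = -2f`, `[e,f] = h`.
`sl2_ideal`: let `0 ≠ X = p h + q e + r f ∈ I`. `[e,[e,X]] = -2 r e ∈ I` (`[e,X] = -2 p e + r h`,
`[e,[e,X]] = -2 r e`), `[f,[f,X]] = -2 q f`, and if `q = r = 0` then `[e, X] = -2 p e`. So `e ∈ I` or
`f ∈ I`; if `e ∈ I` then `[e,f] = h`, `[h,f] = -2 f` (use `[X, Y]` and `[Y, X]`) are in `I`; similarly for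
`f`. Every matrix of trace zero is a combination of `e, h, f`.
`sl2_perfect`: `e = [h/2, e]`, `f = [-h/2, f]`, `h = [e, f]`.
-/

noncomputable section

namespace Pool.Agent.Lib.MSF

private theorem mat_eq {C : Type} [Field C] (Y : Matrix (Fin 2) (Fin 2) C) (h : Y.trace = 0) :
    Y = !![Y 0 0, Y 0 1; Y 1 0, -(Y 0 0)] := by
  have h1 : Y 0 0 + Y 1 1 = 0 := by simpa [Matrix.trace, Fin.sum_univ_two] using h
  have h2 : Y 1 1 = -(Y 0 0) := by linear_combination h1
  ext i j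
  fin_cases i <;> fin_cases j <;> simp [h2]

private theorem comb {C : Type} [Field C] (I : Submodule C (Matrix (Fin 2) (Fin 2) C))
    (he : (!![0, 1; 0, 0] : Matrix (Fin 2) (Fin 2) C) ∈ I)
    (hf : (!![0, 0; 1, 0] : Matrix (Fin 2) (Fin 2) C) ∈ I)
    (hh : (!![1, 0; 0, -1] : Matrix (Fin 2) (Fin 2) C) ∈ I) :
    ∀ Y : Matrix (Fin 2) (Fin 2) C, Y.trace = 0 → Y ∈ I := by
  intro Y hY
  have : Y = (Y 0 0) • (!![1, 0; 0, -1] : Matrix (Fin 2) (Fin 2) C)
      + ((Y 0 1) • (!![0, 1; 0, 0] : Matrix (Fin 2) (Fin 2) C)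
        + (Y 1 0) • (!![0, 0; 1, 0] : Matrix (Fin 2) (Fin 2) C)) := by
    rw [mat_eq Y hY]
    ext i j
    fin_cases i <;> fin_cases j <;> simp
  rw [this]
  exact I.add_mem (I.smul_mem _ hh) (I.add_mem (I.smul_mem _ he) (I.smul_mem _ hf))

private theorem ofE {C : Type} [Field C] [CharZero C]
    (I : Submodule C (Matrix (Fin 2) (Fin 2) C))
    (hid : ∀ X ∈ I, ∀ Y : Matrix (Fin 2) (Fin 2) C, Y.trace = 0 → Y * X - X * Y ∈ I)
    (he : (!![0, 1; 0, 0] : Matrix (Fin 2) (Fin 2) C) ∈ I) :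
    ∀ Y : Matrix (Fin 2) (Fin 2) C, Y.trace = 0 → Y ∈ I := by
  have h2 : (2 : C) ≠ 0 := two_ne_zero
  have hh : (!![1, 0; 0, -1] : Matrix (Fin 2) (Fin 2) C) ∈ I := by
    have h1 := hid _ he (!![0, 0; 1, 0]) (by simp [Matrix.trace, Fin.sum_univ_two])
    have h3 := I.smul_mem (-1 : C) h1
    have key : (!![1, 0; 0, -1] : Matrix (Fin 2) (Fin 2) C)
        = (-1 : C) • ((!![0, 0; 1, 0] : Matrix (Fin 2) (Fin 2) C) * !![0, 1; 0, 0]
          - !![0, 1; 0, 0] * !![0, 0; 1, 0]) := by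
      ext i j
      fin_cases i <;> fin_cases j <;> simp
    rw [key]
    exact h3
  have hf : (!![0, 0; 1, 0] : Matrix (Fin 2) (Fin 2) C) ∈ I := by
    have h1 := hid _ hh (!![0, 0; 1, 0]) (by simp [Matrix.trace, Fin.sum_univ_two])
    have h3 := I.smul_mem (1/2 : C) h1
    have key : (!![0, 0; 1, 0] : Matrix (Fin 2) (Fin 2) C)
        = (1/2 : C) • ((!![0, 0; 1, 0] : Matrix (Fin 2) (Fin 2) C) * !![1, 0; 0, -1]
          - !![1, 0; 0, -1] * !![0, 0; 1, 0]) := by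
      ext i j
      fin_cases i <;> fin_cases j <;> simp
      norm_num
    rw [key]
    exact h3
  exact comb I he hf hh

private theorem ofF {C : Type} [Field C] [CharZero C]
    (I : Submodule C (Matrix (Fin 2) (Fin 2) C))
    (hid : ∀ X ∈ I, ∀ Y : Matrix (Fin 2) (Fin 2) C, Y.trace = 0 → Y * X - X * Y ∈ I)
    (hf : (!![0, 0; 1, 0] : Matrix (Fin 2) (Fin 2) C) ∈ I) :
    ∀ Y : Matrix (Fin 2) (Fin 2) C, Y.trace = 0 → Y ∈ I := by
  have h2 : (2 : C) ≠ 0 := two_ne_zero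
  have hh : (!![1, 0; 0, -1] : Matrix (Fin 2) (Fin 2) C) ∈ I := by
    have h1 := hid _ hf (!![0, 1; 0, 0]) (by simp [Matrix.trace, Fin.sum_univ_two])
    have key : (!![1, 0; 0, -1] : Matrix (Fin 2) (Fin 2) C)
        = (!![0, 1; 0, 0] : Matrix (Fin 2) (Fin 2) C) * !![0, 0; 1, 0]
          - !![0, 0; 1, 0] * !![0, 1; 0, 0] := by
      ext i j
      fin_cases i <;> fin_cases j <;> simp
    rw [key]
    exact h1
  have he : (!![0, 1; 0, 0] : Matrix (Fin 2) (Fin 2) C) ∈ I := by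
    have h1 := hid _ hh (!![0, 1; 0, 0]) (by simp [Matrix.trace, Fin.sum_univ_two])
    have h3 := I.smul_mem (-1/2 : C) h1
    have key : (!![0, 1; 0, 0] : Matrix (Fin 2) (Fin 2) C)
        = (-1/2 : C) • ((!![0, 1; 0, 0] : Matrix (Fin 2) (Fin 2) C) * !![1, 0; 0, -1]
          - !![1, 0; 0, -1] * !![0, 1; 0, 0]) := by
      ext i j
      fin_cases i <;> fin_cases j <;> simp
      norm_num
    rw [key]
    exact h3
  exact comb I he hf hh

theorem sl2_ideal {C : Type} [Field C] [CharZero C]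
    (I : Submodule C (Matrix (Fin 2) (Fin 2) C)) (htr : ∀ X ∈ I, X.trace = 0)
    (hid : ∀ X ∈ I, ∀ Y : Matrix (Fin 2) (Fin 2) C, Y.trace = 0 → Y * X - X * Y ∈ I)
    (hne : ∃ X ∈ I, X ≠ 0) : ∀ Y : Matrix (Fin 2) (Fin 2) C, Y.trace = 0 → Y ∈ I := by
  obtain ⟨X, hXI, hX0⟩ := hne
  have hX := mat_eq X (htr X hXI)
  set p := X 0 0 with hp
  set q := X 0 1 with hq
  set r := X 1 0 with hr
  have h2 : (2 : C) ≠ 0 := two_ne_zero
  by_cases hr0 : r = 0
  · by_cases hq0 : q = 0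
    · have hp0 : p ≠ 0 := by
        intro hp0
        apply hX0
        rw [hX, hp0, hq0, hr0]
        ext i j
        fin_cases i <;> fin_cases j <;> simp
      apply ofE I hid
      have h1 := hid X hXI (!![0, 1; 0, 0]) (by simp [Matrix.trace, Fin.sum_univ_two])
      have h3 := I.smul_mem (-(1/(2*p)) : C) h1
      have key : (!![0, 1; 0, 0] : Matrix (Fin 2) (Fin 2) C)
          = (-(1/(2*p)) : C) • ((!![0, 1; 0, 0] : Matrix (Fin 2) (Fin 2) C) * X
            - X * (!![0, 1; 0, 0] : Matrix (Fin 2) (Fin 2) C)) := by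
        rw [hX, hq0, hr0]
        ext i j
        fin_cases i <;> fin_cases j <;> simp
        field_simp
        ring
      rw [key]
      exact h3
    · apply ofF I hid
      have h1 := hid X hXI (!![0, 0; 1, 0]) (by simp [Matrix.trace, Fin.sum_univ_two])
      have h1' := hid _ h1 (!![0, 0; 1, 0]) (by simp [Matrix.trace, Fin.sum_univ_two])
      have h3 := I.smul_mem (-(1/(2*q)) : C) h1'
      have key : (!![0, 0; 1, 0] : Matrix (Fin 2) (Fin 2) C)
          = (-(1/(2*q)) : C) • ((!![0, 0; 1, 0] : Matrix (Fin 2) (Fin 2) C) *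
              ((!![0, 0; 1, 0] : Matrix (Fin 2) (Fin 2) C) * X
                - X * (!![0, 0; 1, 0] : Matrix (Fin 2) (Fin 2) C))
            - ((!![0, 0; 1, 0] : Matrix (Fin 2) (Fin 2) C) * X
                - X * (!![0, 0; 1, 0] : Matrix (Fin 2) (Fin 2) C))
              * (!![0, 0; 1, 0] : Matrix (Fin 2) (Fin 2) C)) := by
        rw [hX]
        ext i j
        fin_cases i <;> fin_cases j <;> simp
        field_simp
        ring
      rw [key]
      exact h3
  · apply ofE I hid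
    have h1 := hid X hXI (!![0, 1; 0, 0]) (by simp [Matrix.trace, Fin.sum_univ_two])
    have h1' := hid _ h1 (!![0, 1; 0, 0]) (by simp [Matrix.trace, Fin.sum_univ_two])
    have h3 := I.smul_mem (-(1/(2*r)) : C) h1'
    have key : (!![0, 1; 0, 0] : Matrix (Fin 2) (Fin 2) C)
        = (-(1/(2*r)) : C) • ((!![0, 1; 0, 0] : Matrix (Fin 2) (Fin 2) C) *
            ((!![0, 1; 0, 0] : Matrix (Fin 2) (Fin 2) C) * X
              - X * (!![0, 1; 0, 0] : Matrix (Fin 2) (Fin 2) C))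
          - ((!![0, 1; 0, 0] : Matrix (Fin 2) (Fin 2) C) * X
              - X * (!![0, 1; 0, 0] : Matrix (Fin 2) (Fin 2) C))
            * (!![0, 1; 0, 0] : Matrix (Fin 2) (Fin 2) C)) := by
      rw [hX]
      ext i j
      fin_cases i <;> fin_cases j <;> simp
      field_simp
      ring
    rw [key]
    exact h3

theorem sl2_perfect {C : Type} [Field C] [CharZero C]
    (I : Submodule C (Matrix (Fin 2) (Fin 2) C))
    (h : ∀ X Y : Matrix (Fin 2) (Fin 2) C, X.trace = 0 → Y.trace = 0 → X * Y - Y * X ∈ I) :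
    ∀ Y : Matrix (Fin 2) (Fin 2) C, Y.trace = 0 → Y ∈ I := by
  have h2 : (2 : C) ≠ 0 := two_ne_zero
  apply comb I
  · have h1 := h (!![1, 0; 0, -1]) (!![0, 1; 0, 0]) (by simp [Matrix.trace, Fin.sum_univ_two])
      (by simp [Matrix.trace, Fin.sum_univ_two])
    have h3 := I.smul_mem (1/2 : C) h1
    have key : (!![0, 1; 0, 0] : Matrix (Fin 2) (Fin 2) C)
        = (1/2 : C) • ((!![1, 0; 0, -1] : Matrix (Fin 2) (Fin 2) C) * !![0, 1; 0, 0]
          - !![0, 1; 0, 0] * !![1, 0; 0, -1]) := by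
      ext i j
      fin_cases i <;> fin_cases j <;> simp
      norm_num
    rw [key]
    exact h3
  · have h1 := h (!![1, 0; 0, -1]) (!![0, 0; 1, 0]) (by simp [Matrix.trace, Fin.sum_univ_two])
      (by simp [Matrix.trace, Fin.sum_univ_two])
    have h3 := I.smul_mem (-1/2 : C) h1
    have key : (!![0, 0; 1, 0] : Matrix (Fin 2) (Fin 2) C)
        = (-1/2 : C) • ((!![1, 0; 0, -1] : Matrix (Fin 2) (Fin 2) C) * !![0, 0; 1, 0]
          - !![0, 0; 1, 0] * !![1, 0; 0, -1]) := by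
      ext i j
      fin_cases i <;> fin_cases j <;> simp
      norm_num
    rw [key]
    exact h3
  · have h1 := h (!![0, 1; 0, 0]) (!![0, 0; 1, 0]) (by simp [Matrix.trace, Fin.sum_univ_two])
      (by simp [Matrix.trace, Fin.sum_univ_two])
    have key : (!![1, 0; 0, -1] : Matrix (Fin 2) (Fin 2) C)
        = (!![0, 1; 0, 0] : Matrix (Fin 2) (Fin 2) C) * !![0, 0; 1, 0]
          - !![0, 0; 1, 0] * !![0, 1; 0, 0] := by
      ext i j
      fin_cases i <;> fin_cases j <;> simp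
    rw [key]
    exact h1

end Pool.Agent.Lib.MSF
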