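import Mathlib

set_option autoImplicit false

/-!
# SL2.C : endomorphisms of `sl₂(C)` are inner (about 150 lines; only Mathlib)

`E = φ e`, `H = φ h`, `F = φ f` (`e, h, f` as in Sl2B): `[H,E] = 2E`, `[H,F] = -2F`, `[E,F] = H`, traces
zero. `E ≠ 0` (otherwise `H = 0`, then `F = 0` and `φ` vanishes on all matrices of trace `0`).
`2 E² = [H,E] E`, so `2 tr E² = tr (H E E) - tr (E H E) = 0`; for a `2 × 2` matrix of trace zero
`E² = -(det E) 1` (Cayley-Hamilton), so `det E = 0` and `E² = 0`. Choose `u` with `v = E u ≠ 0`; `E v = 0`.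
`H v = H E u = E H u + 2 E u = E (H u) + 2 v` and the image of `E` is `C v` (rank one), so `H v = λ v`.
With `H u = α u + c v`: trace `0` gives `α = -λ`, and `2 v = 2 E u = [H,E] u = λ v - E (-λ u + c v) =
2 λ v`, so `λ = 1`: `H v = v`. (Another way: `v' = F v`; `E v' = E F v = H v + F E v = H v`.) Put
`g = (v | F v)` (columns). `E v = 0`, `E (F v) = H v + F (E v) = v`, `H (F v) = F H v + [H,F] v = - F v`,
`F (F v)`: `H (F F v) = -3 F F v`, while the eigenvalues of `H` are `1, -1` (`H² = -(det H) 1`, and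
`H v = v` gives `-(det H) = 1`), so `9 F F v = F F v`, `F F v = 0`. So `E g = g e`, `H g = g h`, `F g = g f`,
hence `φ X g = g X` for all `X` of trace zero. `det g ≠ 0`: if `F v = c v` then `- F v = H F v = F v`, so
`F v = 0`, `v = E F v = 0`.
-/

noncomputable section

namespace Pool.Agent.Lib.MSF

section aux

variable {C : Type} [Field C]

private theorem s2_sq (M : Matrix (Fin 2) (Fin 2) C) (h : M.trace = 0) :
    M * M = (-M.det) • (1 : Matrix (Fin 2) (Fin 2) C) := by
  rw [Matrix.trace_fin_two] at h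
  have h1 : M 1 1 = - M 0 0 := by linear_combination h
  ext i j
  fin_cases i <;> fin_cases j <;>
    simp [Matrix.mul_apply, Fin.sum_univ_two, Matrix.det_fin_two, h1] <;> ring

private theorem s2_anti (A B : Matrix (Fin 2) (Fin 2) C) (hA : A.trace = 0) (hB : B.trace = 0) :
    A * B + B * A = ((A * B).trace) • (1 : Matrix (Fin 2) (Fin 2) C) := by
  rw [Matrix.trace_fin_two] at hA hB
  have h1 : A 1 1 = - A 0 0 := by linear_combination hA
  have h2 : B 1 1 = - B 0 0 := by linear_combination hB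
  ext i j
  fin_cases i <;> fin_cases j <;>
    simp [Matrix.mul_apply, Fin.sum_univ_two, Matrix.trace_fin_two, h1, h2] <;> ring

/-- `[H,E] = c E`, `c ≠ 0`, traces zero, `E ≠ 0`: then `E² = 0` and `HE = (c/2) E`. -/
private theorem s2_nil [CharZero C] (H E : Matrix (Fin 2) (Fin 2) C) (c : C) (hc : c ≠ 0)
    (hH : H.trace = 0) (hE : E.trace = 0) (hE0 : E ≠ 0) (h : H * E - E * H = c • E) :
    E * E = 0 ∧ (2 : C) • (H * E) = c • E ∧ E * H = -(H * E) := by
  have hEE : E * E = 0 := by
    have e1 : (H * E - E * H) * E = c • (E * E) := by rw [h, Matrix.smul_mul]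
    have e2 : ((H * E - E * H) * E).trace = 0 := by
      rw [Matrix.sub_mul, Matrix.trace_sub, sub_eq_zero, Matrix.mul_assoc H E E,
        Matrix.trace_mul_comm H (E * E), Matrix.mul_assoc E H E, Matrix.mul_assoc E E H,
        Matrix.trace_mul_comm E (H * E), Matrix.mul_assoc H E E,
        Matrix.trace_mul_comm H (E * E), Matrix.mul_assoc E E H]
    rw [e1, Matrix.trace_smul, smul_eq_mul, mul_eq_zero] at e2
    have e3 : (E * E).trace = 0 := e2.resolve_left hc
    have e4 := s2_sq E hE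
    rw [e4, Matrix.trace_smul, Matrix.trace_one, Fintype.card_fin, smul_eq_mul, mul_eq_zero] at e3
    rcases e3 with e3 | e3
    · rw [e4, e3, zero_smul]
    · norm_num at e3
  have hanti := s2_anti H E hH hE
  set t := (H * E).trace with ht
  have hEHE : E * H * E = 0 := by
    have e1 : E * (H * E - E * H) = 0 := by rw [h, Matrix.mul_smul, hEE, smul_zero]
    rw [Matrix.mul_sub, ← Matrix.mul_assoc E E H, hEE, Matrix.zero_mul, sub_zero,
      ← Matrix.mul_assoc] at e1
    exact e1
  have ht0 : t = 0 := by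
    have e1 : E * (H * E + E * H) = t • E := by rw [hanti, Matrix.mul_smul, Matrix.mul_one]
    rw [Matrix.mul_add, ← Matrix.mul_assoc E E H, hEE, Matrix.zero_mul, add_zero,
      ← Matrix.mul_assoc, hEHE] at e1
    rcases smul_eq_zero.1 e1.symm with e2 | e2
    · exact e2
    · exact absurd e2 hE0
  rw [ht0, zero_smul] at hanti
  have hEH : E * H = -(H * E) := by
    rw [eq_neg_iff_add_eq_zero, add_comm]; exact hanti
  refine ⟨hEE, ?_, hEH⟩
  rw [← h, hEH, sub_neg_eq_add, two_smul]

private theorem s2_decomp (X : Matrix (Fin 2) (Fin 2) C) (h : X.trace = 0) :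
    X = X 0 1 • !![0, 1; 0, 0] + X 0 0 • !![1, 0; 0, -1] + X 1 0 • !![0, 0; 1, 0] := by
  rw [Matrix.trace_fin_two] at h
  have h1 : X 1 1 = - X 0 0 := by linear_combination h
  ext i j
  fin_cases i <;> fin_cases j <;> simp [h1]

end aux

theorem sl2_inner {C : Type} [Field C] [CharZero C]
    (φ : Matrix (Fin 2) (Fin 2) C →ₗ[C] Matrix (Fin 2) (Fin 2) C)
    (htr : ∀ X, X.trace = 0 → (φ X).trace = 0)
    (hbr : ∀ X Y : Matrix (Fin 2) (Fin 2) C, X.trace = 0 → Y.trace = 0 →
      φ (X * Y - Y * X) = φ X * φ Y - φ Y * φ X)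
    (hne : ∃ X : Matrix (Fin 2) (Fin 2) C, X.trace = 0 ∧ φ X ≠ 0) :
    ∃ g : Matrix (Fin 2) (Fin 2) C, g.det ≠ 0 ∧
      ∀ X : Matrix (Fin 2) (Fin 2) C, X.trace = 0 → φ X * g = g * X := by
  set e : Matrix (Fin 2) (Fin 2) C := !![0, 1; 0, 0] with he
  set h : Matrix (Fin 2) (Fin 2) C := !![1, 0; 0, -1] with hh
  set f : Matrix (Fin 2) (Fin 2) C := !![0, 0; 1, 0] with hf
  have te : e.trace = 0 := by rw [he, Matrix.trace_fin_two]; simp
  have th : h.trace = 0 := by rw [hh, Matrix.trace_fin_two]; simp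
  have tf : f.trace = 0 := by rw [hf, Matrix.trace_fin_two]; simp
  have b1 : h * e - e * h = (2 : C) • e := by
    rw [he, hh]
    ext i j
    fin_cases i <;> fin_cases j <;> simp [Matrix.mul_apply, Fin.sum_univ_two] <;> norm_num
  have b2 : h * f - f * h = (-2 : C) • f := by
    rw [hf, hh]
    ext i j
    fin_cases i <;> fin_cases j <;> simp [Matrix.mul_apply, Fin.sum_univ_two] <;> norm_num
  have b3 : e * f - f * e = h := by
    rw [he, hf, hh]
    ext i j
    fin_cases i <;> fin_cases j <;> simp [Matrix.mul_apply, Fin.sum_univ_two]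
  have c1 : φ h * φ e - φ e * φ h = (2 : C) • φ e := by rw [← hbr h e th te, b1, map_smul]
  have c2 : φ h * φ f - φ f * φ h = (-2 : C) • φ f := by rw [← hbr h f th tf, b2, map_smul]
  have c3 : φ e * φ f - φ f * φ e = φ h := by rw [← hbr e f te tf, b3]
  have hE0 : φ e ≠ 0 := by
    intro h0
    have hH0 : φ h = 0 := by rw [← c3, h0, Matrix.zero_mul, Matrix.mul_zero, sub_zero]
    have hF0 : φ f = 0 := by
      rw [hH0, Matrix.zero_mul, Matrix.mul_zero, sub_zero] at c2
      rcases smul_eq_zero.1 c2.symm with h1 | h1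
      · norm_num at h1
      · exact h1
    obtain ⟨X, hX, hX0⟩ := hne
    apply hX0
    rw [s2_decomp X hX, ← he, ← hh, ← hf, map_add, map_add, map_smul, map_smul, map_smul, h0, hH0,
      hF0, smul_zero, smul_zero, smul_zero, add_zero, add_zero]
  obtain ⟨hEE, hHE2, -⟩ := s2_nil (φ h) (φ e) 2 two_ne_zero (htr h th) (htr e te) hE0 c1
  have hHE : φ h * φ e = φ e := smul_right_injective _ (two_ne_zero (α := C)) hHE2
  have hH0 : φ h ≠ 0 := by
    intro h0
    apply hE0
    rw [← hHE, h0, Matrix.zero_mul]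
  have hF0 : φ f ≠ 0 := by
    intro h0
    apply hH0
    rw [← c3, h0, Matrix.zero_mul, Matrix.mul_zero, sub_zero]
  obtain ⟨hFF, hHF2, -⟩ := s2_nil (φ h) (φ f) (-2) (neg_ne_zero.2 two_ne_zero) (htr h th)
    (htr f tf) hF0 c2
  have hHF : φ h * φ f = -φ f := by
    apply smul_right_injective _ (two_ne_zero (α := C))
    show (2 : C) • (φ h * φ f) = (2 : C) • (-φ f)
    rw [hHF2, smul_neg, neg_smul]
  -- the vector
  obtain ⟨u, hu⟩ : ∃ u : Fin 2 → C, (φ e).mulVec u ≠ 0 := by
    by_contra hcon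
    push Not at hcon
    apply hE0
    ext i j
    have h1 := congrFun (hcon (Pi.single j 1)) i
    rw [Matrix.mulVec_single_one] at h1
    exact h1
  set w : Fin 2 → C := (φ e).mulVec u with hw
  set w' : Fin 2 → C := (φ f).mulVec w with hw'
  have d1 : (φ e).mulVec w = 0 := by rw [hw, Matrix.mulVec_mulVec, hEE, Matrix.zero_mulVec]
  have d2 : (φ h).mulVec w = w := by rw [hw, Matrix.mulVec_mulVec, hHE]
  have d3 : (φ e).mulVec w' = w := by
    have h1 : φ e * φ f = φ h + φ f * φ e := by rw [← c3]; abel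
    rw [hw', Matrix.mulVec_mulVec, h1, Matrix.add_mulVec, ← Matrix.mulVec_mulVec, d1, d2,
      Matrix.mulVec_zero, add_zero]
  have d4 : (φ h).mulVec w' = -w' := by
    rw [hw', Matrix.mulVec_mulVec, hHF, Matrix.neg_mulVec]
  have d5 : (φ f).mulVec w' = 0 := by rw [hw', Matrix.mulVec_mulVec, hFF, Matrix.zero_mulVec]
  set g : Matrix (Fin 2) (Fin 2) C := Matrix.of fun i => ![w i, w' i] with hg
  have gcol : ∀ (M : Matrix (Fin 2) (Fin 2) C) (i : Fin 2), (M * g) i 0 = (M.mulVec w) i ∧
      (M * g) i 1 = (M.mulVec w') i := by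
    intro M i
    constructor <;> simp [hg, Matrix.mul_apply, Matrix.mulVec, dotProduct]
  have r1 : φ e * g = g * e := by
    ext i j
    fin_cases j
    · show (φ e * g) i 0 = (g * e) i 0
      rw [(gcol _ i).1, d1]
      simp [he, Matrix.mul_apply, Fin.sum_univ_two]
    · show (φ e * g) i 1 = (g * e) i 1
      rw [(gcol _ i).2, d3]
      simp [he, hg, Matrix.mul_apply, Fin.sum_univ_two]
  have r2 : φ h * g = g * h := by
    ext i j
    fin_cases j
    · show (φ h * g) i 0 = (g * h) i 0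
      rw [(gcol _ i).1, d2]
      simp [hh, hg, Matrix.mul_apply, Fin.sum_univ_two]
    · show (φ h * g) i 1 = (g * h) i 1
      rw [(gcol _ i).2, d4]
      simp [hh, hg, Matrix.mul_apply, Fin.sum_univ_two]
  have r3 : φ f * g = g * f := by
    ext i j
    fin_cases j
    · show (φ f * g) i 0 = (g * f) i 0
      rw [(gcol _ i).1, ← hw']
      simp [hf, hg, Matrix.mul_apply, Fin.sum_univ_two]
    · show (φ f * g) i 1 = (g * f) i 1
      rw [(gcol _ i).2, d5]
      simp [hf, Matrix.mul_apply, Fin.sum_univ_two]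
  refine ⟨g, ?_, ?_⟩
  · intro hdet
    obtain ⟨z, hz0, hz⟩ := Matrix.exists_mulVec_eq_zero_iff.2 hdet
    have gz : ∀ y : Fin 2 → C, g.mulVec y = y 0 • w + y 1 • w' := by
      intro y
      ext i
      simp [hg, Matrix.mulVec, dotProduct, Fin.sum_univ_two, mul_comm]
    have h1 : z 0 • w + z 1 • w' = 0 := by rw [← gz, hz]
    have h2 : z 1 • w = 0 := by
      have h3 := congrArg (φ e).mulVec h1
      rw [Matrix.mulVec_add, Matrix.mulVec_smul, Matrix.mulVec_smul, d1, d3, smul_zero, zero_add,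
        Matrix.mulVec_zero] at h3
      exact h3
    have hz1 : z 1 = 0 := (smul_eq_zero.1 h2).resolve_right hu
    rw [hz1, zero_smul, add_zero] at h1
    have hz0' : z 0 = 0 := (smul_eq_zero.1 h1).resolve_right hu
    apply hz0
    ext i
    fin_cases i
    · exact hz0'
    · exact hz1
  · intro X hX
    rw [s2_decomp X hX, ← he, ← hh, ← hf]
    simp only [map_add, map_smul, Matrix.add_mul, Matrix.mul_add, Matrix.smul_mul, Matrix.mul_smul,
      r1, r2, r3]

end Pool.Agent.Lib.MSF
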