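import Pool.Agent.Lib.MSF.Sl2A
import Pool.Agent.Lib.MSF.Sl2B
import Pool.Agent.Lib.MSF.Sl2C

set_option autoImplicit false

/-!
# GOU : Goursat for subalgebras of `sl₂(C)^n` (about 180 lines; from Sl2A, Sl2B, Sl2C)

`W_k = {w k : w ∈ W}` (`Submodule.map (LinearMap.proj k) W`), closed under commutators. If for some `k` a
matrix of trace zero is not in `W_k`: `sl2_borel`, first alternative. So assume that every matrix of trace
zero is in every `W_k`.
For `k ≠ l` let `I_{k,l} = {w l : w ∈ W, w k = 0}`; it is an ideal (`hid` of `sl2_ideal`: for `Y` of trace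
zero take `u ∈ W` with `u l = Y` and the commutator of `u` and `w`). If `I_{k,l} = 0` for some `k ≠ l`,
then `w k = 0` implies `w l = 0` for `w ∈ W`, so there is a linear map `φ` with `w l = φ (w k)` for all
`w ∈ W` (define `φ` on `W_k`, extend: `LinearMap.exists_extend`; or choose preimages of a basis); it
respects commutators of matrices of trace zero, it is not zero because `W_l` contains all matrices of trace
zero: `sl2_inner`, second alternative.
Otherwise all `I_{k,l}` contain all matrices of trace zero (`sl2_ideal`). Claim for `l` and every finite set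
`T` of indices with `l ∉ T`: every `Y` of trace zero is `w l` for some `w ∈ W` with `w k = 0` for `k ∈ T`.
Induction on `T`: `T ∪ {k}`: the set of these `w l` is a subspace `I`; for `X, Y` of trace zero take
`w` for `T` and `X`, `w'` with `w' k = 0` and `w' l = Y` (from `I_{k,l}`), the commutator of `w` and `w'`
vanishes on `T ∪ {k}` and is `X Y - Y X` at `l`, so `sl2_perfect` applies. For `T = {k : k ≠ l}` this says
that `Pi.single l Y ∈ W`. So `W` contains all families of matrices of trace zero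
(`Finset.univ_sum_single`), contradicting `hne`.
-/

noncomputable section

namespace Pool.Agent.Lib.MSF

/-- the trace zero matrices in coordinates -/
private theorem gou_dec {C : Type} [Field C] (X : Matrix (Fin 2) (Fin 2) C) (h : X.trace = 0) :
    X = X 0 0 • !![1, 0; 0, -1] + X 0 1 • !![0, 1; 0, 0] + X 1 0 • !![0, 0; 1, 0] := by
  have h11 : X 1 1 = -X 0 0 := by
    rw [Matrix.trace_fin_two] at h
    linear_combination h
  ext i j
  fin_cases i <;> fin_cases j <;> simp [h11]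

/-- the linear map given by three matrices -/
private def gouMap {C : Type} [Field C] (A B D : Matrix (Fin 2) (Fin 2) C) :
    Matrix (Fin 2) (Fin 2) C →ₗ[C] Matrix (Fin 2) (Fin 2) C where
  toFun X := X 0 0 • A + X 0 1 • B + X 1 0 • D
  map_add' X Y := by
    simp only [Matrix.add_apply, add_smul]
    abel
  map_smul' c X := by
    simp only [Matrix.smul_apply, smul_eq_mul, mul_smul, smul_add, RingHom.id_apply]

private theorem gouMap_apply {C : Type} [Field C] (A B D X : Matrix (Fin 2) (Fin 2) C) :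
    gouMap A B D X = X 0 0 • A + X 0 1 • B + X 1 0 • D := rfl

/-- the second alternative -/
private theorem gou_second {C : Type} [Field C] [CharZero C] {n : ℕ}
    (W : Submodule C (Fin n → Matrix (Fin 2) (Fin 2) C))
    (htr : ∀ w ∈ W, ∀ k, (w k).trace = 0)
    (hbr : ∀ u ∈ W, ∀ v ∈ W, (fun k => u k * v k - v k * u k) ∈ W)
    (hfull : ∀ k, ∀ Y : Matrix (Fin 2) (Fin 2) C, Y.trace = 0 → ∃ w ∈ W, w k = Y)
    (k l : Fin n) (hkl : ∀ w ∈ W, w k = 0 → w l = 0) :
    ∃ g : Matrix (Fin 2) (Fin 2) C, g.det ≠ 0 ∧ ∀ w ∈ W, w l * g = g * w k := by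
  obtain ⟨wH, hwH, hH⟩ := hfull k !![1, 0; 0, -1] (by simp [Matrix.trace, Fin.sum_univ_two])
  obtain ⟨wE, hwE, hE⟩ := hfull k !![0, 1; 0, 0] (by simp [Matrix.trace, Fin.sum_univ_two])
  obtain ⟨wF, hwF, hF⟩ := hfull k !![0, 0; 1, 0] (by simp [Matrix.trace, Fin.sum_univ_two])
  have hφ : ∀ w ∈ W, gouMap (wH l) (wE l) (wF l) (w k) = w l := by
    intro w hw
    have h1 : (w k 0 0 • wH + w k 0 1 • wE + w k 1 0 • wF) ∈ W :=
      W.add_mem (W.add_mem (W.smul_mem _ hwH) (W.smul_mem _ hwE)) (W.smul_mem _ hwF)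
    have h2 := W.sub_mem hw h1
    have h3 := hkl _ h2 (by
      simp only [Pi.sub_apply, Pi.add_apply, Pi.smul_apply, hH, hE, hF]
      exact sub_eq_zero.mpr (gou_dec (w k) (htr w hw k)))
    rw [gouMap_apply]
    simp only [Pi.sub_apply, Pi.add_apply, Pi.smul_apply] at h3
    exact (sub_eq_zero.mp h3).symm
  obtain ⟨g, hg, hgX⟩ := sl2_inner (gouMap (wH l) (wE l) (wF l)) (by
      intro X hX
      obtain ⟨w, hw, hwX⟩ := hfull k X hX
      rw [← hwX, hφ w hw]
      exact htr w hw l) (by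
      intro X Y hX hY
      obtain ⟨u, hu, huX⟩ := hfull k X hX
      obtain ⟨v, hv, hvY⟩ := hfull k Y hY
      have h1 := hφ _ (hbr u hu v hv)
      rw [← huX, ← hvY, hφ u hu, hφ v hv]
      exact h1) (by
      obtain ⟨w, hw, hwl⟩ := hfull l !![1, 0; 0, -1] (by simp [Matrix.trace, Fin.sum_univ_two])
      refine ⟨w k, htr w hw k, ?_⟩
      rw [hφ w hw, hwl]
      intro h
      have h1 := congrFun (congrFun h 0) 0
      simp at h1)
  refine ⟨g, hg, ?_⟩
  intro w hw
  rw [← hφ w hw]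
  exact hgX (w k) (htr w hw k)

/-- if all the ideals are everything then `W` contains all families -/
private theorem gou_third {C : Type} [Field C] [CharZero C] {n : ℕ}
    (W : Submodule C (Fin n → Matrix (Fin 2) (Fin 2) C))
    (hbr : ∀ u ∈ W, ∀ v ∈ W, (fun k => u k * v k - v k * u k) ∈ W)
    (hfull : ∀ k, ∀ Y : Matrix (Fin 2) (Fin 2) C, Y.trace = 0 → ∃ w ∈ W, w k = Y)
    (hkl : ∀ k l, k ≠ l → ∀ Y : Matrix (Fin 2) (Fin 2) C, Y.trace = 0 →
      ∃ w ∈ W, w k = 0 ∧ w l = Y) (l : Fin n) (T : Finset (Fin n)) :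
    l ∉ T → ∀ Y : Matrix (Fin 2) (Fin 2) C, Y.trace = 0 →
      ∃ w ∈ W, (∀ k ∈ T, w k = 0) ∧ w l = Y := by
  classical
  induction T using Finset.induction_on with
  | empty =>
    intro _ Y hY
    obtain ⟨w, hw, h⟩ := hfull l Y hY
    exact ⟨w, hw, by simp, h⟩
  | insert k T hk ih =>
    intro hl
    rw [Finset.mem_insert, not_or] at hl
    let I : Submodule C (Matrix (Fin 2) (Fin 2) C) :=
      { carrier := {X | ∃ w ∈ W, (∀ j ∈ insert k T, w j = 0) ∧ w l = X}
        add_mem' := by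
          rintro X Y ⟨w, hw, h1, h2⟩ ⟨w', hw', h1', h2'⟩
          refine ⟨w + w', W.add_mem hw hw', ?_, ?_⟩
          · intro j hj
            rw [Pi.add_apply, h1 j hj, h1' j hj, add_zero]
          · rw [Pi.add_apply, h2, h2']
        zero_mem' := ⟨0, W.zero_mem, fun _ _ => rfl, rfl⟩
        smul_mem' := by
          rintro c X ⟨w, hw, h1, h2⟩
          refine ⟨c • w, W.smul_mem c hw, ?_, ?_⟩
          · intro j hj
            rw [Pi.smul_apply, h1 j hj, smul_zero]
          · rw [Pi.smul_apply, h2] }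
    have hI : ∀ X Y : Matrix (Fin 2) (Fin 2) C, X.trace = 0 → Y.trace = 0 →
        X * Y - Y * X ∈ I := by
      intro X Y hX hY
      obtain ⟨w, hw, h1, h2⟩ := ih hl.2 X hX
      obtain ⟨w', hw', h1', h2'⟩ := hkl k l (Ne.symm hl.1) Y hY
      refine ⟨_, hbr w hw w' hw', ?_, ?_⟩
      · intro j hj
        rcases Finset.mem_insert.mp hj with h | h
        · subst h
          simp only [h1', mul_zero, zero_mul, sub_zero]
        · simp only [h1 j h, mul_zero, zero_mul, sub_zero]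
      · simp only [h2, h2']
    intro Y hY
    exact sl2_perfect I hI Y hY

theorem gou {C : Type} [Field C] [IsAlgClosed C] [CharZero C] {n : ℕ}
    (W : Submodule C (Fin n → Matrix (Fin 2) (Fin 2) C))
    (htr : ∀ w ∈ W, ∀ k, (w k).trace = 0)
    (hbr : ∀ u ∈ W, ∀ v ∈ W, (fun k => u k * v k - v k * u k) ∈ W)
    (hne : ∃ u : Fin n → Matrix (Fin 2) (Fin 2) C, (∀ k, (u k).trace = 0) ∧ u ∉ W) :
    (∃ k, ∃ v : Fin 2 → C, v ≠ 0 ∧ ∀ w ∈ W, ∃ c : C, (w k).mulVec v = c • v) ∨
    (∃ k l, k ≠ l ∧ ∃ g : Matrix (Fin 2) (Fin 2) C, g.det ≠ 0 ∧ ∀ w ∈ W, w l * g = g * w k) := by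
  classical
  by_cases hfull : ∀ k, ∀ Y : Matrix (Fin 2) (Fin 2) C, Y.trace = 0 → ∃ w ∈ W, w k = Y
  swap
  · left
    push Not at hfull
    obtain ⟨k, Y, hY, hnot⟩ := hfull
    refine ⟨k, ?_⟩
    obtain ⟨v, hv, h⟩ := sl2_borel (Submodule.map (LinearMap.proj k) W) (by
        rintro _ ⟨w, hw, rfl⟩
        exact htr w hw k) (by
        rintro _ ⟨w, hw, rfl⟩ _ ⟨w', hw', rfl⟩
        exact ⟨_, hbr w hw w' hw', rfl⟩) ⟨Y, hY, by
        rintro ⟨w, hw, h⟩
        exact hnot w hw h⟩
    exact ⟨v, hv, fun w hw => h (w k) ⟨w, hw, rfl⟩⟩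
  by_cases hI : ∃ k l, k ≠ l ∧ ∀ w ∈ W, w k = 0 → w l = 0
  · obtain ⟨k, l, hne', hkl⟩ := hI
    right
    exact ⟨k, l, hne', gou_second W htr hbr hfull k l hkl⟩
  exfalso
  push Not at hI
  have hA : ∀ k l, k ≠ l → ∀ Y : Matrix (Fin 2) (Fin 2) C, Y.trace = 0 →
      ∃ w ∈ W, w k = 0 ∧ w l = Y := by
    intro k l hkl Y hY
    have h := sl2_ideal (Submodule.map (LinearMap.proj l)
      (W ⊓ LinearMap.ker (LinearMap.proj (R := C) k :
        (Fin n → Matrix (Fin 2) (Fin 2) C) →ₗ[C] Matrix (Fin 2) (Fin 2) C))) (by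
        rintro _ ⟨w, hw, rfl⟩
        exact htr w hw.1 l) (by
        rintro _ ⟨w, hw, rfl⟩ Z hZ
        obtain ⟨u, hu, huZ⟩ := hfull l Z hZ
        refine ⟨_, ⟨hbr u hu w hw.1, ?_⟩, ?_⟩
        · have hwk : w k = 0 := hw.2
          simp only [SetLike.mem_coe, LinearMap.mem_ker, LinearMap.proj_apply, hwk, mul_zero,
            zero_mul, sub_zero]
        · simp only [LinearMap.proj_apply, huZ]) (by
        obtain ⟨w, hw, h1, h2⟩ := hI k l hkl
        exact ⟨w l, ⟨w, ⟨hw, h1⟩, rfl⟩, h2⟩) Y hY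
    obtain ⟨w, hw, h1⟩ := h
    exact ⟨w, hw.1, hw.2, h1⟩
  obtain ⟨u, hu, huW⟩ := hne
  apply huW
  rw [← Finset.univ_sum_single u]
  apply Submodule.sum_mem
  intro l _
  obtain ⟨w, hw, h1, h2⟩ := gou_third W hbr hfull hA l (Finset.univ.erase l)
    (Finset.notMem_erase l _) (u l) (hu l)
  have h3 : Pi.single l (u l) = w := by
    funext j
    by_cases hj : j = l
    · subst hj
      rw [Pi.single_eq_same, h2]
    · rw [Pi.single_eq_of_ne hj, h1 j (Finset.mem_erase.mpr ⟨hj, Finset.mem_univ j⟩)]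
  rw [h3]
  exact hw

end Pool.Agent.Lib.MSF
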