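import Pool.Agent.Lib.MSF.DichA
import Pool.Agent.Lib.MSF.Cst
import Pool.Agent.Lib.MSF.Gou

set_option autoImplicit false

/-!
# DICH : the dichotomy (about 160 lines; from DichA, Cst, EtaA, EtaB, Gou)

`W = {(η_k δ)_k : δ}` is an `F`-subspace of `Fin n → Matrix` (`eta_add`, `eta_smul`), with traces zero
(`eta_trace`), and stable under `D` entrywise (`eta_bracket_D`, `eta_D`, `q_der`).
(1) Not every family of matrices of trace zero is in `W`: `dichA`.
(2) Let `W₀` be the `C`-subspace of the families `w` of matrices over `C` with `(cmat (w k))_k ∈ W`. It is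
closed under commutators: if `cmat (u k) = η_k δ₁`, `cmat (v k) = η_k δ₂` for all `k`, then
`eta_bracket` with `(cmat _).map δ = 0` (a derivation over `C` kills constants) gives
`η_k ⁅δ₁, δ₂⁆ = cmat (u k * v k - v k * u k)`. Traces zero (`algebraMap` is injective).
(3) Some family of matrices of trace zero over `C` is not in `W₀`: otherwise `W` contains the families
`cmat` of all those, whose `F`-span is everything of trace zero, contradicting (1).
(4) `gou` for `W₀`. By `cst_span` (for `ι = Fin n × Fin 2 × Fin 2`, `hC`) every element of `W` is an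
`F`-linear combination of families `cmat (w k)`, `w ∈ W₀`; both conclusions are linear in `w`
(`Submodule.span_induction`).
-/

noncomputable section

namespace Pool.Agent.Lib.MSF

variable {C F : Type} [Field C] [Field F] [Algebra C F] {n : ℕ}

private def etaM (S : FDat C F n) (k : Fin n) :
    Derivation C F F →ₗ[F] Matrix (Fin 2) (Fin 2) F where
  toFun δ := S.eta k δ
  map_add' δ₁ δ₂ := eta_add _ _ _ _ _ δ₁ δ₂
  map_smul' f δ := eta_smul _ _ _ _ _ f δ

private theorem etaM_apply (S : FDat C F n) (k : Fin n) (δ : Derivation C F F) :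
    etaM S k δ = S.eta k δ := rfl

private def etaL (S : FDat C F n) : Derivation C F F →ₗ[F] (Fin n × Fin 2 × Fin 2 → F) where
  toFun δ := fun p => etaM S p.1 δ p.2.1 p.2.2
  map_add' δ₁ δ₂ := by
    funext p
    rw [map_add]
    rfl
  map_smul' f δ := by
    funext p
    rw [map_smul]
    rfl

private theorem etaL_apply (S : FDat C F n) (δ : Derivation C F F) (p : Fin n × Fin 2 × Fin 2) :
    etaL S δ p = S.eta p.1 δ p.2.1 p.2.2 := rfl

private theorem eta_S_D (S : FDat C F n) (k : Fin n) : S.eta k S.D = 0 :=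
  eta_D (S.z k) (S.x k) (S.a k) (S.b k) (S.q k) (S.ha k) S.D (S.hx k) (S.hDa k) (S.hDb k)

private theorem eta_S_bracket_D (S : FDat C F n) (k : Fin n) (δ : Derivation C F F) :
    S.eta k ⁅S.D, δ⁆ = (S.eta k δ).map S.D := by
  obtain ⟨q', hq'⟩ := q_der (C := C) (S.x k) S.N S.M (S.hM k)
  exact eta_bracket_D (S.z k) (S.x k) (S.a k) (S.b k) (S.q k) (S.ha k) S.D δ q' (hq' S.D) (hq' δ)
    (eta_S_D S k)

private theorem eta_S_bracket (S : FDat C F n) (k : Fin n) (δ₁ δ₂ : Derivation C F F) :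
    S.eta k ⁅δ₁, δ₂⁆ = (S.eta k δ₂).map δ₁ - (S.eta k δ₁).map δ₂ +
      (S.eta k δ₁ * S.eta k δ₂ - S.eta k δ₂ * S.eta k δ₁) := by
  obtain ⟨q', hq'⟩ := q_der (C := C) (S.x k) S.N S.M (S.hM k)
  exact eta_bracket (S.z k) (S.x k) (S.a k) (S.b k) (S.q k) (S.ha k) δ₁ δ₂ q' (hq' δ₁) (hq' δ₂)

private theorem eta_S_trace (S : FDat C F n) (k : Fin n) (δ : Derivation C F F) :
    (S.eta k δ).trace = 0 :=
  eta_trace (S.z k) (S.x k) (S.a k) (S.b k) (S.q k) (S.ha k) δ

private theorem cmat_map (g : Matrix (Fin 2) (Fin 2) C) (δ : Derivation C F F) :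
    (cmat (F := F) g).map δ = 0 := by
  ext i j
  simp [cmat]

private theorem cmat_mul (g h : Matrix (Fin 2) (Fin 2) C) :
    cmat (F := F) (g * h) = cmat g * cmat h := by
  unfold cmat
  rw [Matrix.map_mul]

private theorem cmat_add (g h : Matrix (Fin 2) (Fin 2) C) :
    cmat (F := F) (g + h) = cmat g + cmat h := by
  ext i j
  simp [cmat]

private theorem cmat_sub (g h : Matrix (Fin 2) (Fin 2) C) :
    cmat (F := F) (g - h) = cmat g - cmat h := by
  ext i j
  simp [cmat]

private theorem cmat_smul (c : C) (g : Matrix (Fin 2) (Fin 2) C) :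
    cmat (F := F) (c • g) = algebraMap C F c • cmat g := by
  ext i j
  simp [cmat]

/-- the constant families in the image of `eta` -/
private def W0 (S : FDat C F n) : Submodule C (Fin n → Matrix (Fin 2) (Fin 2) C) where
  carrier := {w | ∃ δ : Derivation C F F, ∀ k, etaM S k δ = cmat (w k)}
  zero_mem' := ⟨0, fun k => by
    rw [map_zero]
    ext i j
    simp [cmat]⟩
  add_mem' := by
    rintro u v ⟨δ₁, h₁⟩ ⟨δ₂, h₂⟩
    refine ⟨δ₁ + δ₂, fun k => ?_⟩
    rw [map_add, h₁, h₂, Pi.add_apply, cmat_add]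
  smul_mem' := by
    rintro c u ⟨δ, h⟩
    refine ⟨algebraMap C F c • δ, fun k => ?_⟩
    rw [map_smul, h, Pi.smul_apply, cmat_smul]

private theorem W0_trace (S : FDat C F n) : ∀ w ∈ W0 S, ∀ k, (w k).trace = 0 := by
  rintro w ⟨δ, h⟩ k
  have h1 := eta_S_trace S k δ
  rw [← etaM_apply, h k] at h1
  have h2 : (cmat (F := F) (w k)).trace = algebraMap C F (w k).trace := by
    simp [cmat, Matrix.trace_fin_two]
  rw [h2] at h1
  exact (map_eq_zero_iff (algebraMap C F) (algebraMap C F).injective).1 h1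

private theorem W0_bracket (S : FDat C F n) : ∀ u ∈ W0 S, ∀ v ∈ W0 S,
    (fun k => u k * v k - v k * u k) ∈ W0 S := by
  rintro u ⟨δ₁, h₁⟩ v ⟨δ₂, h₂⟩
  refine ⟨⁅δ₁, δ₂⁆, fun k => ?_⟩
  have h1 := h₁ k
  have h2 := h₂ k
  rw [etaM_apply] at h1 h2 ⊢
  rw [eta_S_bracket, h1, h2, cmat_map, cmat_map, sub_zero, zero_add, cmat_sub, cmat_mul, cmat_mul]

private theorem decomp (X : Matrix (Fin 2) (Fin 2) F) (hX : X.trace = 0) :
    X = X 0 0 • cmat (C := C) !![1, 0; 0, -1] + X 0 1 • cmat (C := C) !![0, 1; 0, 0] +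
      X 1 0 • cmat (C := C) !![0, 0; 1, 0] := by
  rw [Matrix.trace_fin_two] at hX
  have h11 : X 1 1 = -X 0 0 := by linear_combination hX
  ext i j
  fin_cases i <;> fin_cases j <;> simp [cmat, h11]

private theorem W0_ne [CharZero C] (S : FDat C F n) (d : ℕ) (hd : d ≤ 3 * n)
    (y : Fin d → F) (hy : ∀ u : F, u ∈ ACl C (Set.range y)) :
    ∃ u : Fin n → Matrix (Fin 2) (Fin 2) C, (∀ k, (u k).trace = 0) ∧ u ∉ W0 S := by
  by_contra hcon
  push Not at hcon
  obtain ⟨u, hu0, hu⟩ := dichA S d hd y hy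
  have hX : ∀ X : Matrix (Fin 2) (Fin 2) C, X.trace = 0 → ∀ k : Fin n,
      ∃ δ : Derivation C F F, ∀ l, etaM S l δ = cmat ((Pi.single k X : Fin n → _) l) := by
    intro X hX k
    refine hcon _ fun l => ?_
    by_cases h : l = k
    · subst h
      rw [Pi.single_eq_same, hX]
    · rw [Pi.single_eq_of_ne h, Matrix.trace_zero]
  choose δh hδh using hX !![1, 0; 0, -1] (by simp [Matrix.trace_fin_two])
  choose δe hδe using hX !![0, 1; 0, 0] (by simp [Matrix.trace_fin_two])
  choose δf hδf using hX !![0, 0; 1, 0] (by simp [Matrix.trace_fin_two])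
  apply hu (∑ k, (u k 0 0 • δh k + u k 0 1 • δe k + u k 1 0 • δf k))
  funext l
  rw [← etaM_apply, map_sum, Finset.sum_eq_single l]
  · rw [map_add, map_add, map_smul, map_smul, map_smul, hδh, hδe, hδf, Pi.single_eq_same,
      Pi.single_eq_same, Pi.single_eq_same]
    exact (decomp (C := C) (u l) (hu0 l)).symm
  · intro k _ hk
    have hz : cmat (F := F) (0 : Matrix (Fin 2) (Fin 2) C) = 0 := by
      ext i j
      simp [cmat]
    rw [map_add, map_add, map_smul, map_smul, map_smul, hδh, hδe, hδf,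
      Pi.single_eq_of_ne hk.symm, Pi.single_eq_of_ne hk.symm, Pi.single_eq_of_ne hk.symm, hz,
      smul_zero, smul_zero, smul_zero, add_zero, add_zero]
  · intro h
    exact absurd (Finset.mem_univ l) h

/-- the matrix of the index `k` of a flattened family -/
private def mt (v : Fin n × Fin 2 × Fin 2 → F) (k : Fin n) : Matrix (Fin 2) (Fin 2) F :=
  Matrix.of fun i j => v (k, i, j)

private theorem span_W (S : FDat C F n) (P : (Fin n × Fin 2 × Fin 2 → F) → Prop)
    (hW : ∀ w ∈ W0 S, P (fun p => algebraMap C F (w p.1 p.2.1 p.2.2)))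
    (hzero : P 0) (hadd : ∀ u v, P u → P v → P (u + v)) (hsmul : ∀ (c : F) u, P u → P (c • u))
    (δ : Derivation C F F) : P (etaL S δ) := by
  have hst : ∀ v ∈ LinearMap.range (etaL S), (fun i => S.D (v i)) ∈ LinearMap.range (etaL S) := by
    rintro v ⟨δ, rfl⟩
    refine ⟨⁅S.D, δ⁆, ?_⟩
    funext p
    rw [etaL_apply, etaL_apply, eta_S_bracket_D]
    rfl
  have h1 := cst_span S.D S.hC (LinearMap.range (etaL S)) hst (etaL S δ) ⟨δ, rfl⟩
  refine Submodule.span_induction (p := fun v _ => P v) ?_ hzero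
    (fun u v _ _ hu hv => hadd u v hu hv) (fun c u _ hu => hsmul c u hu) h1
  rintro v ⟨⟨δ', rfl⟩, hv⟩
  choose w hw using hv
  have h2 := hW (fun k => Matrix.of fun i j => w (k, i, j)) ⟨δ', fun k => by
    ext i j
    rw [etaM_apply]
    exact (hw (k, i, j)).symm⟩
  have h3 : (fun p : Fin n × Fin 2 × Fin 2 => algebraMap C F
      ((fun k => Matrix.of fun i j => w (k, i, j)) p.1 p.2.1 p.2.2)) = etaL S δ' := by
    funext p
    exact hw p
  rwa [h3] at h2

theorem dich [IsAlgClosed C] [CharZero C] (S : FDat C F n) (d : ℕ) (hd : d ≤ 3 * n)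
    (y : Fin d → F) (hy : ∀ u : F, u ∈ ACl C (Set.range y)) :
    (∃ k, ∃ v : Fin 2 → C, v ≠ 0 ∧ ∀ δ : Derivation C F F, ∃ c : F,
      (S.eta k δ).mulVec (fun i => algebraMap C F (v i)) =
        c • (fun i => algebraMap C F (v i))) ∨
    (∃ k l, k ≠ l ∧ ∃ g : Matrix (Fin 2) (Fin 2) C, g.det ≠ 0 ∧
      ∀ δ : Derivation C F F, S.eta l δ * cmat g = cmat g * S.eta k δ) := by
  rcases gou (W0 S) (W0_trace S) (W0_bracket S) (W0_ne S d hd y hy) with
    ⟨k, v, hv0, hv⟩ | ⟨k, l, hkl, g, hg, hgw⟩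
  · left
    refine ⟨k, v, hv0, fun δ => ?_⟩
    refine span_W S (fun u => ∃ c : F, (mt u k).mulVec (fun i => algebraMap C F (v i)) =
      c • (fun i => algebraMap C F (v i))) ?_ ?_ ?_ ?_ δ
    · intro w hw
      obtain ⟨c, hc⟩ := hv w hw
      refine ⟨algebraMap C F c, ?_⟩
      funext i
      have h1 := congrArg (algebraMap C F) (congrFun hc i)
      simp only [Matrix.mulVec, dotProduct, Fin.sum_univ_two, map_add, map_mul,
        Pi.smul_apply, smul_eq_mul] at h1
      simp only [Matrix.mulVec, dotProduct, Fin.sum_univ_two, Pi.smul_apply, smul_eq_mul, mt,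
        Matrix.of_apply]
      exact h1
    · refine ⟨0, ?_⟩
      funext i
      simp [mt, Matrix.mulVec, dotProduct]
    · rintro u u' ⟨c, hc⟩ ⟨c', hc'⟩
      refine ⟨c + c', ?_⟩
      have h1 : mt (u + u') k = mt u k + mt u' k := rfl
      rw [h1, Matrix.add_mulVec, hc, hc', add_smul]
    · rintro f u ⟨c, hc⟩
      refine ⟨f * c, ?_⟩
      have h1 : mt (f • u) k = f • mt u k := rfl
      rw [h1, Matrix.smul_mulVec, hc, smul_smul]
  · right
    refine ⟨k, l, hkl, g, hg, fun δ => ?_⟩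
    refine span_W S (fun u => mt u l * cmat g = cmat g * mt u k) ?_ ?_ ?_ ?_ δ
    · intro w hw
      have h1 : ∀ m : Fin n, mt (fun p : Fin n × Fin 2 × Fin 2 =>
          algebraMap C F (w p.1 p.2.1 p.2.2)) m = cmat (w m) := fun m => rfl
      show mt _ l * cmat g = cmat g * mt _ k
      rw [h1, h1, ← cmat_mul, ← cmat_mul, hgw w hw]
    · show mt 0 l * cmat g = cmat g * mt 0 k
      have h1 : ∀ m : Fin n, mt (0 : Fin n × Fin 2 × Fin 2 → F) m = 0 := fun m => rfl
      rw [h1, h1, Matrix.zero_mul, Matrix.mul_zero]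
    · intro u u' hu hu'
      have h1 : ∀ m, mt (u + u') m = mt u m + mt u' m := fun m => rfl
      show mt (u + u') l * cmat g = cmat g * mt (u + u') k
      rw [h1, h1, Matrix.add_mul, Matrix.mul_add, hu, hu']
    · intro f u hu
      have h1 : ∀ m, mt (f • u) m = f • mt u m := fun m => rfl
      show mt (f • u) l * cmat g = cmat g * mt (f • u) k
      rw [h1, h1, Matrix.smul_mul, Matrix.mul_smul, hu]

end Pool.Agent.Lib.MSF
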