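import Pool.Agent.Lib.MSF.EtaA

set_option autoImplicit false

/-!
# ETA.B : the flat connection (about 130 lines)

`q_der`: `q' = (N'(x) M(x) - N(x) M'(x)) / M(x)²`: `δ (aeval x P) = aeval x P' * δ x`
(`Derivation.map_aeval`, for integer polynomials; or `Polynomial.induction_on`), `Derivation.leibniz_div`.
`eta_bracket`: put `∇ᵢ Y = (Y).map δᵢ - δᵢ x • A Y`. By `Phi_der`, `∇ᵢ Phi = Phi ηᵢ`. Apply `δ₁` to
`(Phi).map δ₂ = δ₂ x • A Phi + Phi η₂` (entrywise Leibniz rule: `(Y Z).map δ = (Y).map δ Z + Y (Z).map δ`,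
`(f • Y).map δ = δ f • Y + f • (Y).map δ`) and subtract the same with `1, 2` exchanged; `(A).map δᵢ =
δᵢ x • A'` with `A' = [[0,0],[-q',0]]`, so the terms `δ₂ x δ₁ x A' Phi` cancel, the terms
`δ₂ x δ₁ x A A Phi` cancel, and `⁅δ₁, δ₂⁆ x = δ₁ (δ₂ x) - δ₂ (δ₁ x)`
(`Derivation.commutator_apply`). The result is
`(Phi).map ⁅δ₁, δ₂⁆ - ⁅δ₁, δ₂⁆ x • A Phi = Phi (η₁ η₂ - η₂ η₁ + (η₂).map δ₁ - (η₁).map δ₂)`;
multiply by `Phi'` from the left (`Phi'_mul`).
`eta_bracket_D`: the case `δ₁ = D`, `eta D = 0`.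
-/

noncomputable section

namespace Pool.Agent.Lib.MSF

variable {C F : Type} [Field C] [Field F] [Algebra C F]

private theorem der_aevalZ (x : F) (P : Polynomial ℤ) (δ : Derivation C F F) :
    δ (Polynomial.aeval x P) = Polynomial.aeval x (Polynomial.derivative P) * δ x := by
  induction P using Polynomial.induction_on with
  | C a => simp
  | add p q hp hq => simp only [map_add, hp, hq]; ring
  | monomial n a _ =>
    simp only [map_mul, map_pow, Polynomial.aeval_X, Polynomial.aeval_C,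
      Polynomial.derivative_mul, Polynomial.derivative_C, Polynomial.derivative_X_pow,
      Derivation.leibniz, Derivation.leibniz_pow, smul_eq_mul, map_add, map_zero]
    simp
    ring

theorem q_der (x : F) (N M : Polynomial ℤ) (hM : Polynomial.aeval x M ≠ 0) :
    ∃ q' : F, ∀ δ : Derivation C F F,
      δ (Polynomial.aeval x N / Polynomial.aeval x M) = q' * δ x := by
  refine ⟨(Polynomial.aeval x (Polynomial.derivative N) * Polynomial.aeval x M -
    Polynomial.aeval x N * Polynomial.aeval x (Polynomial.derivative M)) /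
      (Polynomial.aeval x M) ^ 2, fun δ => ?_⟩
  rw [Derivation.leibniz_div, der_aevalZ, der_aevalZ]
  simp only [smul_eq_mul]
  field_simp

private theorem map_mulM (Y Z : Matrix (Fin 2) (Fin 2) F) (δ : Derivation C F F) :
    (Y * Z).map δ = Y.map δ * Z + Y * Z.map δ := by
  ext i j
  simp only [Matrix.map_apply, Matrix.add_apply, Matrix.mul_apply, Fin.sum_univ_two, map_add,
    Derivation.leibniz, smul_eq_mul]
  ring

private theorem map_smulM (f : F) (Y : Matrix (Fin 2) (Fin 2) F) (δ : Derivation C F F) :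
    (f • Y).map δ = δ f • Y + f • Y.map δ := by
  ext i j
  simp only [Matrix.map_apply, Matrix.add_apply, Matrix.smul_apply,
    Derivation.leibniz, smul_eq_mul]
  ring

private theorem map_addM (Y Z : Matrix (Fin 2) (Fin 2) F) (δ : Derivation C F F) :
    (Y + Z).map δ = Y.map δ + Z.map δ := by
  ext i j
  simp only [Matrix.map_apply, Matrix.add_apply, map_add]

private theorem map_AA (q q' x : F) (δ : Derivation C F F) (h : δ q = q' * δ x) :
    (AA q).map δ = δ x • (!![0, 0; -q', 0] : Matrix (Fin 2) (Fin 2) F) := by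
  ext i j
  fin_cases i <;> fin_cases j <;> simp [AA, h, mul_comm]

private theorem second_der (P A A' e₁ e₂ : Matrix (Fin 2) (Fin 2) F) (x : F)
    (δ₁ δ₂ : Derivation C F F)
    (H₁ : P.map δ₁ = δ₁ x • (A * P) + P * e₁) (H₂ : P.map δ₂ = δ₂ x • (A * P) + P * e₂)
    (hA : A.map δ₁ = δ₁ x • A') :
    (P.map δ₂).map δ₁ = δ₁ (δ₂ x) • (A * P) + (δ₂ x * δ₁ x) • (A' * P + A * (A * P)) +
      δ₂ x • (A * (P * e₁)) + δ₁ x • (A * (P * e₂)) + P * (e₁ * e₂) + P * e₂.map δ₁ := by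
  rw [H₂, map_addM, map_smulM, map_mulM, map_mulM, H₁, hA]
  simp only [Matrix.smul_mul, Matrix.mul_smul, mul_add, add_mul, smul_add, smul_smul, mul_assoc]
  abel

theorem eta_bracket (z x a b q : F) (ha : a ≠ 0) (δ₁ δ₂ : Derivation C F F) (q' : F)
    (h₁ : δ₁ q = q' * δ₁ x) (h₂ : δ₂ q = q' * δ₂ x) :
    eta z x a b q ⁅δ₁, δ₂⁆ = (eta z x a b q δ₂).map δ₁ - (eta z x a b q δ₁).map δ₂ +
      (eta z x a b q δ₁ * eta z x a b q δ₂ - eta z x a b q δ₂ * eta z x a b q δ₁) := by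
  have H₁ := Phi_der z x a b q ha δ₁
  have H₂ := Phi_der z x a b q ha δ₂
  have K₁ := second_der (Phi z a b) (AA q) _ _ _ x δ₁ δ₂ H₁ H₂ (map_AA q q' x δ₁ h₁)
  have K₂ := second_der (Phi z a b) (AA q) _ _ _ x δ₂ δ₁ H₂ H₁ (map_AA q q' x δ₂ h₂)
  have hb : (Phi z a b).map (⁅δ₁, δ₂⁆ : Derivation C F F) = ((Phi z a b).map δ₂).map δ₁ - ((Phi z a b).map δ₁).map δ₂ := by
    ext i j
    simp only [Matrix.map_apply, Matrix.sub_apply, Derivation.commutator_apply]
  have hmain : (Phi z a b).map (⁅δ₁, δ₂⁆ : Derivation C F F) - (⁅δ₁, δ₂⁆ : Derivation C F F) x • (AA q * Phi z a b) =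
      Phi z a b * ((eta z x a b q δ₂).map δ₁ - (eta z x a b q δ₁).map δ₂ +
      (eta z x a b q δ₁ * eta z x a b q δ₂ - eta z x a b q δ₂ * eta z x a b q δ₁)) := by
    rw [hb, K₁, K₂, Derivation.commutator_apply, sub_smul, mul_comm (δ₁ x) (δ₂ x)]
    simp only [mul_add, mul_sub]
    abel
  have hdef : eta z x a b q ⁅δ₁, δ₂⁆ =
      Phi' z a b * ((Phi z a b).map (⁅δ₁, δ₂⁆ : Derivation C F F) - (⁅δ₁, δ₂⁆ : Derivation C F F) x • (AA q * Phi z a b)) := rfl
  rw [hdef, hmain, ← mul_assoc, Phi'_mul z a b ha, one_mul]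

theorem eta_bracket_D (z x a b q : F) (ha : a ≠ 0) (D δ : Derivation C F F) (q' : F)
    (h₁ : D q = q' * D x) (h₂ : δ q = q' * δ x) (hD : eta z x a b q D = 0) :
    eta z x a b q ⁅D, δ⁆ = (eta z x a b q δ).map D := by
  rw [eta_bracket z x a b q ha D δ q' h₁ h₂, hD, zero_mul, mul_zero, sub_zero, add_zero]
  have h0 : (0 : Matrix (Fin 2) (Fin 2) F).map δ = 0 := by
    ext i j
    simp only [Matrix.map_apply, Matrix.zero_apply, map_zero]
  rw [h0, sub_zero]

end Pool.Agent.Lib.MSF
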