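import Pool.Agent.Lib.MSF.Der
import Pool.Agent.Lib.MSF.EtaB

set_option autoImplicit false

/-!
# DICH.A : the dimension argument (about 120 lines; from Der, EtaA)

Suppose every family `u` of matrices of trace zero is `(η_k δ)_k` for some `δ`. For each of the `3n` basis
families `e_{k,i}` (`Pi.single k` of `e`, `h`, `f`) choose `δ_{k,i}` with `η δ_{k,i} = e_{k,i}`. The
`3n + 1` derivations `D`, `δ_{k,i}` are linearly independent over `F`: apply `η` to
`c₀ • D + ∑ c_{k,i} • δ_{k,i} = 0` (`eta_add`, `eta_smul`, `eta_D`) to get `c_{k,i} = 0`, then `D t = 1`. The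
map `δ ↦ (δ (y i))_i` to `Fin d → F` is linear and injective (`der_acl` with `S = range y` and `hy`), so
`3n + 1 ≤ d` (`LinearIndependent.map'`, `LinearIndependent.fintype_card_le_finrank`,
`Module.finrank_fintype_fun_eq_card`), contradiction.
-/

noncomputable section

namespace Pool.Agent.Lib.MSF

variable {C F : Type} [Field C] [Field F] [Algebra C F] {n : ℕ}

private theorem eta_zero_aux (z x a b q : F) :
    eta z x a b q (0 : Derivation C F F) = 0 := by
  have h := eta_smul z x a b q (0 : F) (0 : Derivation C F F)
  rw [zero_smul, zero_smul] at h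
  exact h

private theorem eta_sum_aux {ι : Type} (z x a b q : F) (s : Finset ι) (c : ι → F)
    (Δ : ι → Derivation C F F) :
    eta z x a b q (∑ v ∈ s, c v • Δ v) = ∑ v ∈ s, c v • eta z x a b q (Δ v) := by
  classical
  induction s using Finset.induction_on with
  | empty => simpa using eta_zero_aux z x a b q
  | insert v s hv ih => rw [Finset.sum_insert hv, Finset.sum_insert hv, eta_add, eta_smul, ih]

private theorem der_sum_aux {ι : Type} (s : Finset ι) (c : ι → F)
    (Δ : ι → Derivation C F F) (u : F) :
    (∑ v ∈ s, c v • Δ v) u = ∑ v ∈ s, c v * Δ v u := by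
  classical
  induction s using Finset.induction_on with
  | empty => simp
  | insert v s hv ih =>
    rw [Finset.sum_insert hv, Finset.sum_insert hv, Derivation.add_apply, ih,
      Derivation.smul_apply, smul_eq_mul]

private def BB (F : Type) [Field F] : Fin 3 → Matrix (Fin 2) (Fin 2) F :=
  ![!![0, 1; 0, 0], !![1, 0; 0, -1], !![0, 0; 1, 0]]

private theorem BB_trace (F : Type) [Field F] (i : Fin 3) : (BB F i).trace = 0 := by
  fin_cases i <;> simp [BB, Matrix.trace, Fin.sum_univ_two]

private theorem BB_indep (F : Type) [Field F] (c : Fin 3 → F)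
    (h : ∑ i, c i • BB F i = 0) : ∀ i, c i = 0 := by
  have h01 := congrFun (congrFun h 0) 1
  have h00 := congrFun (congrFun h 0) 0
  have h10 := congrFun (congrFun h 1) 0
  simp only [Fin.sum_univ_three, BB, Matrix.add_apply, Matrix.smul_apply, Matrix.zero_apply,
    smul_eq_mul] at h01 h00 h10
  simp at h01 h00 h10
  intro i
  fin_cases i
  · exact h01
  · exact h00
  · exact h10

theorem dichA [CharZero C] (S : FDat C F n) (d : ℕ) (hd : d ≤ 3 * n)
    (y : Fin d → F) (hy : ∀ u : F, u ∈ ACl C (Set.range y)) :
    ∃ u : Fin n → Matrix (Fin 2) (Fin 2) F, (∀ k, (u k).trace = 0) ∧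
      ∀ δ : Derivation C F F, (fun k => S.eta k δ) ≠ u := by
  classical
  by_contra hcon
  push Not at hcon
  have hsingle : ∀ p : Fin n × Fin 3, ∃ δ : Derivation C F F,
      (fun k => S.eta k δ) = Pi.single p.1 (BB F p.2) := by
    intro p
    refine hcon _ ?_
    intro k
    by_cases hk : k = p.1
    · subst hk
      rw [Pi.single_eq_same]
      exact BB_trace F p.2
    · rw [Pi.single_eq_of_ne hk]
      exact Matrix.trace_zero _ _
  choose δ hδ using hsingle
  let Δ : Option (Fin n × Fin 3) → Derivation C F F := fun v => v.elim S.D δ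
  let L : (Option (Fin n × Fin 3) → F) →ₗ[F] (Fin d → F) :=
    { toFun := fun c i => ∑ v, c v * Δ v (y i)
      map_add' := by
        intro c c'
        funext i
        simp only [Pi.add_apply, add_mul, Finset.sum_add_distrib]
      map_smul' := by
        intro r c
        funext i
        simp only [Pi.smul_apply, smul_eq_mul, RingHom.id_apply, Finset.mul_sum, mul_assoc] }
  have hL : Function.Injective L := by
    rw [← LinearMap.ker_eq_bot, LinearMap.ker_eq_bot']
    intro c hc
    have h0 : ∀ u : F, (∑ v, c v • Δ v) u = 0 := by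
      intro u
      refine der_acl (∑ v, c v • Δ v) (Set.range y) ?_ u (hy u)
      rintro _ ⟨i, rfl⟩
      rw [der_sum_aux]
      exact congrFun hc i
    have h0' : (∑ v, c v • Δ v) = 0 := by
      ext u
      rw [h0 u]
      rfl
    have hDeta : ∀ k, S.eta k S.D = 0 := by
      intro k
      exact eta_D _ _ _ _ _ (S.ha k) S.D (S.hx k) (S.hDa k) (S.hDb k)
    have hsome : ∀ p : Fin n × Fin 3, c (some p) = 0 := by
      rintro ⟨k, i⟩
      have h1 : S.eta k (∑ v, c v • Δ v) = 0 := by
        rw [h0']
        exact eta_zero_aux _ _ _ _ _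
      have h2 : S.eta k (∑ v, c v • Δ v) = ∑ v, c v • S.eta k (Δ v) :=
        eta_sum_aux _ _ _ _ _ _ _ _
      rw [h2, Fintype.sum_option] at h1
      have h3 : S.eta k (Δ none) = 0 := hDeta k
      rw [h3, smul_zero, zero_add, Fintype.sum_prod_type] at h1
      have h4 : ∀ k' : Fin n, k' ≠ k → ∑ i, c (some (k', i)) • S.eta k (Δ (some (k', i))) = 0 := by
        intro k' hk'
        refine Finset.sum_eq_zero ?_
        intro i _
        have h5 : S.eta k (Δ (some (k', i))) = 0 := by
          have h6 := congrFun (hδ (k', i)) k
          rw [Pi.single_eq_of_ne hk'.symm] at h6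
          exact h6
        rw [h5, smul_zero]
      rw [Finset.sum_eq_single k (fun k' _ hk' => h4 k' hk') (by simp)] at h1
      have h7 : ∀ i, S.eta k (Δ (some (k, i))) = BB F i := by
        intro i
        have h6 := congrFun (hδ (k, i)) k
        rw [Pi.single_eq_same] at h6
        exact h6
      simp only [h7] at h1
      exact BB_indep F (fun i => c (some (k, i))) h1 i
    have hnone : c none = 0 := by
      have h8 := h0 S.t
      rw [der_sum_aux, Fintype.sum_option] at h8
      have h9 : ∑ i, c (some i) * Δ (some i) S.t = 0 := by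
        refine Finset.sum_eq_zero ?_
        intro p _
        rw [hsome p, zero_mul]
      rw [h9, add_zero] at h8
      have h10 : Δ none S.t = 1 := S.ht
      rw [h10, mul_one] at h8
      exact h8
    funext v
    cases v with
    | none => exact hnone
    | some p => exact hsome p
  have hfin := LinearMap.finrank_le_finrank_of_injective hL
  rw [Module.finrank_fintype_fun_eq_card, Module.finrank_fintype_fun_eq_card,
    Fintype.card_option, Fintype.card_prod, Fintype.card_fin, Fintype.card_fin,
    Fintype.card_fin] at hfin
  omega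

end Pool.Agent.Lib.MSF
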