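import Pool.Agent.Lib.MSF.Defs
import Pool.Agent.Lib.MP_5e64e7_nt.ODefs

set_option autoImplicit false

/-!
# MSF : germs, definitions
-/

noncomputable section

namespace Pool.Agent.Lib.MSF

open Topology

/-- `γ f` is the germ at `t0` of the function `f` analytic at `t0`, in a differential ring `R` -/
structure IsGer (t0 : ℂ) {R : Type} [CommRing R] [Algebra ℂ R] (D : Derivation ℂ R R)
    (γ : (ℂ → ℂ) → R) : Prop where
  add : ∀ f g, AnalyticAt ℂ f t0 → AnalyticAt ℂ g t0 → γ (fun t => f t + g t) = γ f + γ g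
  mul : ∀ f g, AnalyticAt ℂ f t0 → AnalyticAt ℂ g t0 → γ (fun t => f t * g t) = γ f * γ g
  const : ∀ c : ℂ, γ (fun _ => c) = algebraMap ℂ R c
  der : ∀ f, AnalyticAt ℂ f t0 → D (γ f) = γ (deriv f)
  zero : ∀ f, AnalyticAt ℂ f t0 → γ f = 0 → ∀ᶠ t in 𝓝 t0, f t = 0
  congr : ∀ f g : ℂ → ℂ, AnalyticAt ℂ f t0 → (∀ᶠ t in 𝓝 t0, f t = g t) → γ f = γ g

/-- the polynomials of the Schwarzian equation of `j` -/
def polN : Polynomial ℤ := Polynomial.X ^ 2 - Polynomial.C 1968 * Polynomial.X + Polynomial.C 2654208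

/-- the denominator -/
def polM : Polynomial ℤ := Polynomial.C 4 * Polynomial.X ^ 2 * (Polynomial.X - Polynomial.C 1728) ^ 2

/-- the functions `t, J(ζ_k(t))` -/
def jfam {n : ℕ} (ζ : Fin n → ℂ → ℂ) (t : ℂ) (v : Option (Fin n × Fin 3)) : ℂ :=
  v.elim t fun p => Pool.Agent.Lib.MP5e.J4 (ζ p.1 t) p.2.succ

end Pool.Agent.Lib.MSF
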