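import Pool.Agent.Lib.MSF.GDefs

set_option autoImplicit false

/-!
# GER.A : the ring of germs of analytic functions (about 170 lines)

`R` = the set of the germs (`Filter.Germ (𝓝 t0) ℂ`) which have a representative analytic at `t0`, a
subalgebra of the `ℂ`-algebra of all germs. Domain: if `f g = 0` near `t0` and `f` does not vanish near
`t0`, then `f ≠ 0` on a punctured neighbourhood (`AnalyticAt.eventually_eq_zero_or_eventually_ne_zero`), so
`g = 0` there and, by continuity (or the same dichotomy for `g`), near `t0`. `D` = `deriv` on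
representatives (`Filter.EventuallyEq.deriv`, `AnalyticAt.deriv`, `deriv_add`, `deriv_mul` near `t0`:
`AnalyticAt.eventually_analyticAt`). `γ f` = the germ of `f` if `f` is analytic at `t0`, else `0`.
Another construction: the image of the germs in `PowerSeries ℂ`.
-/

noncomputable section

namespace Pool.Agent.Lib.MSF

open Topology

private def gsub (t0 : ℂ) : Subring (Filter.Germ (𝓝 t0) ℂ) where
  carrier := {g | ∃ f : ℂ → ℂ, AnalyticAt ℂ f t0 ∧ (↑f : Filter.Germ (𝓝 t0) ℂ) = g}
  mul_mem' := by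
    rintro _ _ ⟨f, hf, rfl⟩ ⟨g, hg, rfl⟩
    exact ⟨f * g, hf.mul hg, rfl⟩
  add_mem' := by
    rintro _ _ ⟨f, hf, rfl⟩ ⟨g, hg, rfl⟩
    exact ⟨f + g, hf.add hg, rfl⟩
  neg_mem' := by
    rintro _ ⟨f, hf, rfl⟩
    exact ⟨-f, hf.neg, rfl⟩
  zero_mem' := ⟨fun _ => 0, analyticAt_const, rfl⟩
  one_mem' := ⟨fun _ => 1, analyticAt_const, rfl⟩

private def gm {t0 : ℂ} (f : ℂ → ℂ) (hf : AnalyticAt ℂ f t0) : gsub t0 :=
  ⟨(↑f : Filter.Germ (𝓝 t0) ℂ), f, hf, rfl⟩

private theorem gm_eq {t0 : ℂ} {f g : ℂ → ℂ} {hf : AnalyticAt ℂ f t0} {hg : AnalyticAt ℂ g t0} :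
    gm f hf = gm g hg ↔ ∀ᶠ t in 𝓝 t0, f t = g t := by
  unfold gm
  rw [Subtype.mk.injEq]
  exact Filter.Germ.coe_eq

private theorem gm_add {t0 : ℂ} {f g : ℂ → ℂ} (hf : AnalyticAt ℂ f t0) (hg : AnalyticAt ℂ g t0) :
    gm f hf + gm g hg = gm (fun t => f t + g t) (hf.add hg) := rfl

private theorem gm_mul {t0 : ℂ} {f g : ℂ → ℂ} (hf : AnalyticAt ℂ f t0) (hg : AnalyticAt ℂ g t0) :
    gm f hf * gm g hg = gm (fun t => f t * g t) (hf.mul hg) := rfl

private theorem gm_surj {t0 : ℂ} (r : gsub t0) : ∃ f, ∃ hf : AnalyticAt ℂ f t0, gm f hf = r := by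
  obtain ⟨r, f, hf, rfl⟩ := r
  exact ⟨f, hf, rfl⟩

private def rC (t0 : ℂ) : ℂ →+* gsub t0 where
  toFun c := gm (fun _ => c) analyticAt_const
  map_one' := rfl
  map_mul' _ _ := rfl
  map_zero' := rfl
  map_add' _ _ := rfl

private def dm {t0 : ℂ} (r : gsub t0) : gsub t0 :=
  gm (deriv (gm_surj r).choose) (gm_surj r).choose_spec.choose.deriv

private theorem dm_gm {t0 : ℂ} (f : ℂ → ℂ) (hf : AnalyticAt ℂ f t0) :
    dm (gm f hf) = gm (deriv f) hf.deriv := by
  unfold dm
  rw [gm_eq]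
  have h := (gm_surj (gm f hf)).choose_spec.choose_spec
  rw [gm_eq] at h
  exact Filter.EventuallyEq.deriv h

theorem gerA (t0 : ℂ) : ∃ (R : Type) (_ : CommRing R) (_ : IsDomain R) (_ : Algebra ℂ R)
    (D : Derivation ℂ R R) (γ : (ℂ → ℂ) → R), IsGer t0 D γ ∧
      ∀ r : R, ∃ f, AnalyticAt ℂ f t0 ∧ γ f = r := by
  classical
  have : Nontrivial (gsub t0) := ⟨gm (fun _ => 0) analyticAt_const,
    gm (fun _ => 1) analyticAt_const, fun h => by
      rw [gm_eq] at h
      exact zero_ne_one h.self_of_nhds⟩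
  have : NoZeroDivisors (gsub t0) := ⟨by
    intro a b hab
    obtain ⟨f, hf, rfl⟩ := gm_surj a
    obtain ⟨g, hg, rfl⟩ := gm_surj b
    have h0 : (0 : gsub t0) = gm (fun _ => 0) analyticAt_const := rfl
    rw [h0, gm_mul, gm_eq] at hab
    rw [h0, gm_eq, gm_eq]
    rcases hf.eventually_eq_zero_or_eventually_ne_zero with h | h
    · exact Or.inl h
    · rcases hg.eventually_eq_zero_or_eventually_ne_zero with h' | h'
      · exact Or.inr h'
      · exfalso
        have h2 : ∀ᶠ t in 𝓝[≠] t0, f t * g t = 0 := hab.filter_mono nhdsWithin_le_nhds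
        obtain ⟨t, ht1, ht2, ht3⟩ := (h.and (h'.and h2)).exists
        rcases mul_eq_zero.1 ht3 with e | e
        · exact ht1 e
        · exact ht2 e⟩
  have hdom : IsDomain (gsub t0) := NoZeroDivisors.to_isDomain _
  let alg : Algebra ℂ (gsub t0) := (rC t0).toAlgebra
  have hadd : ∀ a b : gsub t0, dm (a + b) = dm a + dm b := by
    intro a b
    obtain ⟨f, hf, rfl⟩ := gm_surj a
    obtain ⟨g, hg, rfl⟩ := gm_surj b
    rw [gm_add, dm_gm, dm_gm, dm_gm, gm_add, gm_eq]
    filter_upwards [hf.eventually_analyticAt, hg.eventually_analyticAt] with t h1 h2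
    exact deriv_fun_add h1.differentiableAt h2.differentiableAt
  have hmul : ∀ a b : gsub t0, dm (a * b) = a * dm b + b * dm a := by
    intro a b
    obtain ⟨f, hf, rfl⟩ := gm_surj a
    obtain ⟨g, hg, rfl⟩ := gm_surj b
    rw [gm_mul, dm_gm, dm_gm, dm_gm, gm_mul, gm_mul, gm_add, gm_eq]
    filter_upwards [hf.eventually_analyticAt, hg.eventually_analyticAt] with t h1 h2
    rw [deriv_fun_mul h1.differentiableAt h2.differentiableAt]
    ring
  have hconst : ∀ c : ℂ, dm (algebraMap ℂ (gsub t0) c) = 0 := by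
    intro c
    have e1 : algebraMap ℂ (gsub t0) c = gm (fun _ => c) analyticAt_const := rfl
    have h0 : (0 : gsub t0) = gm (fun _ => 0) analyticAt_const := rfl
    rw [e1, dm_gm, h0, gm_eq]
    exact Filter.Eventually.of_forall fun t => deriv_const t c
  let L : gsub t0 →ₗ[ℂ] gsub t0 :=
    { toFun := dm
      map_add' := hadd
      map_smul' := by
        intro c a
        rw [Algebra.smul_def, hmul, hconst, mul_zero, add_zero, RingHom.id_apply,
          Algebra.smul_def] }
  refine ⟨gsub t0, inferInstance, hdom, alg, Derivation.mk' L (fun a b => by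
    rw [smul_eq_mul, smul_eq_mul]
    exact hmul a b),
    fun f => if hf : AnalyticAt ℂ f t0 then gm f hf else 0, ?_, ?_⟩
  · refine ⟨?_, ?_, ?_, ?_, ?_, ?_⟩
    · intro f g hf hg
      have h1 : AnalyticAt ℂ (fun t => f t + g t) t0 := hf.add hg
      simp only [dif_pos hf, dif_pos hg]
      rw [dif_pos h1]
      rfl
    · intro f g hf hg
      have h1 : AnalyticAt ℂ (fun t => f t * g t) t0 := hf.mul hg
      simp only [dif_pos hf, dif_pos hg]
      rw [dif_pos h1]
      rfl
    · intro c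
      simp only [dif_pos (analyticAt_const : AnalyticAt ℂ (fun _ => c) t0)]
      rfl
    · intro f hf
      simp only [dif_pos hf, dif_pos hf.deriv]
      exact dm_gm f hf
    · intro f hf h
      simp only [dif_pos hf] at h
      have h0 : (0 : gsub t0) = gm (fun _ => 0) analyticAt_const := rfl
      rw [h0, gm_eq] at h
      exact h
    · intro f g hf h
      have hg : AnalyticAt ℂ g t0 := hf.congr h
      simp only [dif_pos hf, dif_pos hg]
      exact gm_eq.2 h
  · intro r
    obtain ⟨f, hf, rfl⟩ := gm_surj r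
    exact ⟨f, hf, dif_pos hf⟩

end Pool.Agent.Lib.MSF
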