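import Pool.Agent.Lib.MSF.GDefs

set_option autoImplicit false

/-!
# GER.E : polynomials in germs (about 110 lines)

`ger_aeval`: `MvPolynomial.induction_on P` (the functions `t ↦ eval (fun i => y i t) P` are analytic at
`t0`). `ger_zero`: from `ger_aeval` and `IsGer.zero`, and `congr` with `const 0`.
`ger_ind`: `algebraicIndependent_iff` and `ger_zero`.
-/

noncomputable section

namespace Pool.Agent.Lib.MSF

open Topology

variable {t0 : ℂ} {Ω : Type} [Field Ω] [Algebra ℂ Ω] {D : Derivation ℂ Ω Ω} {γ : (ℂ → ℂ) → Ω}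

theorem ger_analytic {σ : Type} (y : σ → ℂ → ℂ) (hy : ∀ i, AnalyticAt ℂ (y i) t0)
    (P : MvPolynomial σ ℂ) : AnalyticAt ℂ (fun t => MvPolynomial.eval (fun i => y i t) P) t0 := by
  induction P using MvPolynomial.induction_on with
  | C a => simpa using analyticAt_const
  | add p q hp hq =>
    simp only [map_add]
    exact hp.add hq
  | mul_X p i hp =>
    simp only [map_mul, MvPolynomial.eval_X]
    exact hp.mul (hy i)

theorem ger_aeval (h : IsGer t0 D γ) {σ : Type} (y : σ → ℂ → ℂ)
    (hy : ∀ i, AnalyticAt ℂ (y i) t0) (P : MvPolynomial σ ℂ) :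
    γ (fun t => MvPolynomial.eval (fun i => y i t) P) =
      MvPolynomial.aeval (fun i => γ (y i)) P := by
  induction P using MvPolynomial.induction_on with
  | C a =>
    simp only [MvPolynomial.eval_C, MvPolynomial.aeval_C]
    exact h.const a
  | add p q hp hq =>
    simp only [map_add]
    rw [← hp, ← hq]
    exact h.add _ _ (ger_analytic y hy p) (ger_analytic y hy q)
  | mul_X p i hp =>
    simp only [map_mul, MvPolynomial.eval_X, MvPolynomial.aeval_X]
    rw [← hp]
    exact h.mul _ _ (ger_analytic y hy p) (hy i)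

theorem ger_zero (h : IsGer t0 D γ) {σ : Type} (y : σ → ℂ → ℂ)
    (hy : ∀ i, AnalyticAt ℂ (y i) t0) (P : MvPolynomial σ ℂ) :
    MvPolynomial.aeval (fun i => γ (y i)) P = 0 ↔
      ∀ᶠ t in 𝓝 t0, MvPolynomial.eval (fun i => y i t) P = 0 := by
  rw [← ger_aeval h y hy P]
  constructor
  · intro h0
    exact h.zero _ (ger_analytic y hy P) h0
  · intro h0
    have h1 := h.congr _ (fun _ => (0 : ℂ)) (ger_analytic y hy P) h0
    rw [h1, h.const 0, map_zero]

theorem ger_ind (h : IsGer t0 D γ) {σ : Type} (y : σ → ℂ → ℂ)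
    (hy : ∀ i, AnalyticAt ℂ (y i) t0) : AlgebraicIndependent ℂ (fun i => γ (y i)) ↔
      ∀ P : MvPolynomial σ ℂ, (∀ᶠ t in 𝓝 t0, MvPolynomial.eval (fun i => y i t) P = 0) →
        P = 0 := by
  rw [algebraicIndependent_iff]
  constructor
  · intro h1 P hP
    exact h1 P ((ger_zero h y hy P).2 hP)
  · intro h1 P hP
    exact h1 P ((ger_zero h y hy P).1 hP)

end Pool.Agent.Lib.MSF
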