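import Pool.Agent.Lib.MSF.GDefs
import Pool.Agent.Lib.MP_5e64e7_nt.JDer

set_option autoImplicit false

/-!
# J.ASY : `j(z) e^{2πiz} → 1` at the cusp

`jf z = 1728 E4³/(E4³ - E6²)` with `E4f z = 1 + 240 ∑ σ₃(m+1) q^{m+1}`, `E6f z = 1 - 504 ∑ σ₅(m+1) q^{m+1}`,
`q = e^{2πiz} → 0`. `E4 = 1 + 240 q + O(q²)`, `E6 = 1 - 504 q + O(q²)`, so `(E4³ - E6²)/q → 720 + 1008 =
1728` and `j q = 1728 E4³ q/(E4³ - E6²) → 1`.
-/

noncomputable section

namespace Pool.Agent.Lib.MSF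

open Topology Pool.Agent.Lib.MP5e

private theorem ja_bd (c : ℕ → ℂ) (r : ℕ) (hc : ∀ m : ℕ, ‖c m‖ ≤ ((m : ℝ) + 1) ^ r) :
    Filter.Tendsto (fun q : ℂ => ∑' m : ℕ, c m * q ^ m) (𝓝 0) (𝓝 (c 0)) := by
  have hs : Summable (fun m : ℕ => ((m : ℝ) + 1) ^ r * (1 / 2 : ℝ) ^ m) := by
    have h1 := (summable_nat_add_iff 1).2
      (summable_pow_mul_geometric_of_norm_lt_one (R := ℝ) r (r := (1 / 2 : ℝ)) (by norm_num))
    have h2 : (fun m : ℕ => ((m : ℝ) + 1) ^ r * (1 / 2 : ℝ) ^ m) =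
        fun m : ℕ => 2 * (((m + 1 : ℕ) : ℝ) ^ r * (1 / 2 : ℝ) ^ (m + 1)) := by
      funext m
      push_cast
      rw [pow_succ]
      ring
    rw [h2]
    exact h1.mul_left 2
  have hcont : ContinuousOn (fun q : ℂ => ∑' m : ℕ, c m * q ^ m) (Metric.ball 0 (1 / 2)) := by
    refine continuousOn_tsum (u := fun m : ℕ => ((m : ℝ) + 1) ^ r * (1 / 2 : ℝ) ^ m)
      (fun m => by fun_prop) hs ?_
    intro m q hq
    rw [norm_mul, norm_pow]
    have hq' : ‖q‖ ≤ 1 / 2 := by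
      rw [Metric.mem_ball, dist_zero_right] at hq
      exact hq.le
    exact mul_le_mul (hc m) (pow_le_pow_left₀ (norm_nonneg _) hq' m) (by positivity) (by positivity)
  have h0 : (∑' m : ℕ, c m * (0 : ℂ) ^ m) = c 0 := by
    rw [tsum_eq_single 0]
    · simp
    · intro m hm
      simp [hm]
  have h1 := (hcont.continuousAt (Metric.ball_mem_nhds 0 (by norm_num))).tendsto
  simp only [h0] at h1
  exact h1

private theorem ja_sig (k m : ℕ) :
    ‖(((ArithmeticFunction.sigma k) (m + 1) : ℕ) : ℂ)‖ ≤ ((m : ℝ) + 1) ^ (k + 1) := by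
  rw [Complex.norm_natCast]
  have h1 : ArithmeticFunction.sigma k (m + 1) ≤ (m + 1) ^ (k + 1) := by
    rw [ArithmeticFunction.sigma_apply]
    calc ∑ d ∈ (m + 1).divisors, d ^ k ≤ ∑ d ∈ (m + 1).divisors, (m + 1) ^ k := by
          apply Finset.sum_le_sum
          intro d hd
          exact Nat.pow_le_pow_left (Nat.divisor_le hd) k
      _ = (m + 1).divisors.card * (m + 1) ^ k := by rw [Finset.sum_const, smul_eq_mul]
      _ ≤ (m + 1) * (m + 1) ^ k := by
          apply Nat.mul_le_mul_right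
          exact Nat.card_divisors_le_self _
      _ = (m + 1) ^ (k + 1) := by ring
  exact_mod_cast h1

private def ja_T (k : ℕ) (q : ℂ) : ℂ :=
  ∑' m : ℕ, (((ArithmeticFunction.sigma k) (m + 1) : ℕ) : ℂ) * q ^ m

private theorem ja_T_lim (k : ℕ) : Filter.Tendsto (ja_T k) (𝓝 0) (𝓝 1) := by
  have h := ja_bd (fun m => (((ArithmeticFunction.sigma k) (m + 1) : ℕ) : ℂ)) (k + 1) (ja_sig k)
  have e : ja_T k = fun q : ℂ =>
      ∑' m : ℕ, (((ArithmeticFunction.sigma k) (m + 1) : ℕ) : ℂ) * q ^ m := rfl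
  rw [e]
  simpa [ArithmeticFunction.sigma_one] using h

private theorem ja_ser (k : ℕ) (q : ℂ) :
    ∑' m : ℕ, (((ArithmeticFunction.sigma k) (m + 1) : ℕ) : ℂ) * q ^ (m + 1) = q * ja_T k q := by
  unfold ja_T
  rw [← tsum_mul_left]
  congr 1
  funext m
  rw [pow_succ]
  ring

theorem j_asy : Filter.Tendsto (fun z : ℂ => jf z *
    Complex.exp (2 * (Real.pi : ℂ) * Complex.I * z))
    (Filter.comap Complex.im Filter.atTop) (𝓝 1) := by
  obtain ⟨D, hD⟩ : ∃ D : ℂ → ℂ, D = fun q => 720 * ja_T 3 q + 3 * 240 ^ 2 * q * ja_T 3 q ^ 2 +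
      240 ^ 3 * q ^ 2 * ja_T 3 q ^ 3 + 1008 * ja_T 5 q - 504 ^ 2 * q * ja_T 5 q ^ 2 := ⟨_, rfl⟩
  have hDlim : Filter.Tendsto D (𝓝 0) (𝓝 1728) := by
    have hid : Filter.Tendsto (fun q : ℂ => q) (𝓝 0) (𝓝 0) := Filter.tendsto_id
    have h := ((((ja_T_lim 3).const_mul 720).add
      ((hid.const_mul (3 * 240 ^ 2)).mul ((ja_T_lim 3).pow 2))).add
      (((hid.pow 2).const_mul (240 ^ 3)).mul ((ja_T_lim 3).pow 3))).add
      ((ja_T_lim 5).const_mul 1008) |>.sub
      ((hid.const_mul (504 ^ 2)).mul ((ja_T_lim 5).pow 2))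
    rw [hD]
    convert h using 2
    norm_num
  have hH : Filter.Tendsto (fun q : ℂ => 1728 * (1 + 240 * (q * ja_T 3 q)) ^ 3 / D q)
      (𝓝 0) (𝓝 1) := by
    have hid : Filter.Tendsto (fun q : ℂ => q) (𝓝 0) (𝓝 0) := Filter.tendsto_id
    have h := (((((hid.mul (ja_T_lim 3)).const_mul 240).const_add 1).pow 3).const_mul 1728).div
      hDlim (by norm_num)
    convert h using 2
    all_goals norm_num
  have hq : Filter.Tendsto (fun z : ℂ => Complex.exp (2 * (Real.pi : ℂ) * Complex.I * z))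
      (Filter.comap Complex.im Filter.atTop) (𝓝 0) := by
    rw [tendsto_zero_iff_norm_tendsto_zero]
    have h1 : (fun z : ℂ => ‖Complex.exp (2 * (Real.pi : ℂ) * Complex.I * z)‖) =
        (fun y : ℝ => Real.exp (-(2 * Real.pi * y))) ∘ Complex.im := by
      funext z
      rw [Complex.norm_exp, Function.comp]
      congr 1
      simp
    rw [h1]
    apply Filter.Tendsto.comp _ Filter.tendsto_comap
    apply Real.tendsto_exp_neg_atTop_nhds_zero.comp
    exact Filter.Tendsto.const_mul_atTop (by positivity) Filter.tendsto_id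
  have h := hH.comp hq
  refine h.congr ?_
  intro z
  simp only [Function.comp]
  set q : ℂ := Complex.exp (2 * (Real.pi : ℂ) * Complex.I * z) with hqd
  have hq0 : q ≠ 0 := Complex.exp_ne_zero _
  have e4 : E4f z = 1 + 240 * (q * ja_T 3 q) := by
    unfold E4f
    rw [← hqd, ja_ser]
  have e6 : E6f z = 1 - 504 * (q * ja_T 5 q) := by
    unfold E6f
    rw [← hqd, ja_ser]
  have e : E4f z ^ 3 - E6f z ^ 2 = D q * q := by
    rw [e4, e6, hD]
    ring
  unfold jf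
  rw [e, div_mul_eq_mul_div, mul_div_mul_right _ _ hq0, e4]

end Pool.Agent.Lib.MSF
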