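import Pool.Agent.Lib.MSF.JIrr

set_option autoImplicit false

/-!
# J.INV : real Moebius transformations which leave `j` invariant (about 130 lines; from JIrr, JAsy, JTr)

`h = [[p, q], [r, s]]`. If `r ≠ 0` then `p/r` is rational (`j_irr`), `p/r = P/Q` in lowest terms; with
`γ = [[A, B], [Q, -P]] ∈ SL₂(ℤ)` the matrix `γ h` has lower left entry `Q p - P r = 0`, determinant `1` and
leaves `j` invariant (`jf_sl`); `h = γ⁻¹ (γ h)`, so it is enough to treat `r = 0`:
`s = 1/p`, `h z = p² z + p q`. By `j_asy` along `z = i y` (`y → ∞`):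
`j(i y) e^{-2πy} → 1` and `j(h(i y)) e^{2πi (p² i y + p q)} → 1`, `j(h(iy)) = j(iy)`; taking absolute
values, `e^{2πy (1 - p²)} → 1`, so `p² = 1`; then `e^{2πi p q} = 1`, so `p q` is an integer
(`Complex.exp_eq_one_iff`); `p = ±1`, so `p, q, s` are integers.
-/

noncomputable section

namespace Pool.Agent.Lib.MSF

open Topology Pool.Agent.Lib.MP5e

private lemma jinv_im (p q r s : ℝ) (hdet : p * s - q * r = 1) {z : ℂ} (hz : 0 < z.im) :
    (r : ℂ) * z + s ≠ 0 ∧ 0 < (((p : ℂ) * z + q) / ((r : ℂ) * z + s)).im := by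
  have hD : (r : ℂ) * z + s ≠ 0 := by
    intro h0
    have him := congrArg Complex.im h0
    have hre := congrArg Complex.re h0
    simp at him hre
    rcases him with hr | hz0
    · rw [hr] at hre hdet
      simp at hre
      rw [hre] at hdet
      simp at hdet
    · exact hz.ne' hz0
  refine ⟨hD, ?_⟩
  have hn : 0 < Complex.normSq ((r : ℂ) * z + s) := Complex.normSq_pos.2 hD
  have e1 : (((p : ℂ) * z + q) / ((r : ℂ) * z + s)).im =
      z.im / Complex.normSq ((r : ℂ) * z + s) := by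
    rw [Complex.div_im, ← sub_div]
    congr 1
    simp
    linear_combination z.im * hdet
  rw [e1]
  exact div_pos hz hn

private lemma jinv_zero (p q s : ℝ) (hdet : p * s = 1)
    (h : ∀ z : ℂ, 0 < z.im → jf (((p : ℂ) * z + q) / (s : ℂ)) = jf z) :
    ∃ P Q S : ℤ, p = P ∧ q = Q ∧ s = S := by
  have hp : p ≠ 0 := by
    intro h0
    rw [h0] at hdet
    simp at hdet
  have hs : s ≠ 0 := by
    intro h0
    rw [h0] at hdet
    simp at hdet
  have hp2 : 0 < p ^ 2 := by positivity
  have hinv : ∀ z : ℂ, ((p : ℂ) * z + q) / (s : ℂ) = (p : ℂ) ^ 2 * z + p * q := by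
    intro z
    have hs' : (s : ℂ) ≠ 0 := Complex.ofReal_ne_zero.2 hs
    have hdet' : (p : ℂ) * (s : ℂ) = 1 := by
      rw [← Complex.ofReal_mul, hdet, Complex.ofReal_one]
    rw [div_eq_iff hs']
    linear_combination (-(p : ℂ) * z - q) * hdet'
  -- the two limits
  have him1 : ∀ y : ℝ, ((y : ℂ) * Complex.I).im = y := by
    intro y
    simp
  have him2 : ∀ y : ℝ, ((p : ℂ) ^ 2 * ((y : ℂ) * Complex.I) + p * q).im = p ^ 2 * y := by
    intro y
    have : ((p : ℂ) ^ 2 * ((y : ℂ) * Complex.I) + p * q) =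
        ((p ^ 2 * y : ℝ) : ℂ) * Complex.I + ((p * q : ℝ) : ℂ) := by
      push_cast
      ring
    rw [this, Complex.add_im, Complex.im_ofReal_mul, Complex.I_im, Complex.ofReal_im]
    ring
  have t1 : Filter.Tendsto (fun y : ℝ => (y : ℂ) * Complex.I) Filter.atTop
      (Filter.comap Complex.im Filter.atTop) := by
    rw [Filter.tendsto_comap_iff]
    refine Filter.tendsto_id.congr fun y => ?_
    simp
  have t2 : Filter.Tendsto (fun y : ℝ => (p : ℂ) ^ 2 * ((y : ℂ) * Complex.I) + p * q) Filter.atTop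
      (Filter.comap Complex.im Filter.atTop) := by
    rw [Filter.tendsto_comap_iff]
    have h3 : Filter.Tendsto (fun y : ℝ => p ^ 2 * y) Filter.atTop Filter.atTop :=
      Filter.tendsto_id.const_mul_atTop hp2
    refine h3.congr fun y => ?_
    rw [Function.comp_apply, him2]
  have l1 := j_asy.comp t1
  have l2 := j_asy.comp t2
  have l3 : Filter.Tendsto (fun y : ℝ => Complex.exp (2 * (Real.pi : ℂ) * Complex.I *
      ((((p ^ 2 - 1) * y : ℝ) : ℂ) * Complex.I + ((p * q : ℝ) : ℂ)))) Filter.atTop (𝓝 1) := by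
    have h4 := l2.div l1 one_ne_zero
    rw [div_one] at h4
    refine h4.congr' ?_
    have h5 : ∀ᶠ y : ℝ in Filter.atTop, ((fun z : ℂ => jf z *
      Complex.exp (2 * (Real.pi : ℂ) * Complex.I * z)) ∘
        (fun y : ℝ => (y : ℂ) * Complex.I)) y ≠ 0 := l1.eventually_ne one_ne_zero
    filter_upwards [h5, Filter.eventually_gt_atTop (0 : ℝ)] with y hy hy0
    have h6 : jf ((y : ℂ) * Complex.I) ≠ 0 := by
      intro h0
      apply hy
      simp [h0]
    have h7 : jf ((p : ℂ) ^ 2 * ((y : ℂ) * Complex.I) + p * q) = jf ((y : ℂ) * Complex.I) := by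
      rw [← hinv]
      exact h _ (by rw [him1]; exact hy0)
    simp only [Pi.div_apply, Function.comp_apply]
    rw [h7, mul_div_mul_left _ _ h6, ← Complex.exp_sub]
    congr 1
    push_cast
    ring
  have hnorm : ∀ y : ℝ, ‖Complex.exp (2 * (Real.pi : ℂ) * Complex.I *
      ((((p ^ 2 - 1) * y : ℝ) : ℂ) * Complex.I + ((p * q : ℝ) : ℂ)))‖ =
        Real.exp (-(2 * Real.pi * (p ^ 2 - 1)) * y) := by
    intro y
    rw [Complex.norm_exp]
    congr 1
    have : (2 * (Real.pi : ℂ) * Complex.I *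
      ((((p ^ 2 - 1) * y : ℝ) : ℂ) * Complex.I + ((p * q : ℝ) : ℂ))) =
        ((-(2 * Real.pi * (p ^ 2 - 1)) * y : ℝ) : ℂ) + ((2 * Real.pi * (p * q) : ℝ) : ℂ) *
          Complex.I := by
      push_cast
      linear_combination (2 * (Real.pi : ℂ) * ((p : ℂ) ^ 2 - 1) * y) * Complex.I_sq
    rw [this, Complex.add_re, Complex.ofReal_re, Complex.re_ofReal_mul, Complex.I_re]
    ring
  have l4 : Filter.Tendsto (fun y : ℝ => Real.exp (-(2 * Real.pi * (p ^ 2 - 1)) * y))
      Filter.atTop (𝓝 1) := by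
    have h4 := l3.norm
    rw [norm_one] at h4
    exact h4.congr hnorm
  have hp1 : p ^ 2 = 1 := by
    rcases lt_trichotomy (p ^ 2) 1 with hlt | heq | hgt
    · exfalso
      have hc : 0 < -(2 * Real.pi * (p ^ 2 - 1)) := by
        have := Real.pi_pos
        nlinarith
      have h5 : Filter.Tendsto (fun y : ℝ => Real.exp (-(2 * Real.pi * (p ^ 2 - 1)) * y))
          Filter.atTop Filter.atTop :=
        Real.tendsto_exp_atTop.comp (Filter.tendsto_id.const_mul_atTop hc)
      exact not_tendsto_nhds_of_tendsto_atTop h5 1 l4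
    · exact heq
    · exfalso
      have hc : -(2 * Real.pi * (p ^ 2 - 1)) < 0 := by
        have := Real.pi_pos
        nlinarith
      have h5 : Filter.Tendsto (fun y : ℝ => Real.exp (-(2 * Real.pi * (p ^ 2 - 1)) * y))
          Filter.atTop (𝓝 0) :=
        Real.tendsto_exp_atBot.comp (Filter.tendsto_id.const_mul_atTop_of_neg hc)
      exact zero_ne_one (tendsto_nhds_unique h5 l4)
  have hexp : Complex.exp (2 * (Real.pi : ℂ) * Complex.I * ((p * q : ℝ) : ℂ)) = 1 := by
    have h5 : (fun y : ℝ => Complex.exp (2 * (Real.pi : ℂ) * Complex.I *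
      ((((p ^ 2 - 1) * y : ℝ) : ℂ) * Complex.I + ((p * q : ℝ) : ℂ)))) =
        fun _ => Complex.exp (2 * (Real.pi : ℂ) * Complex.I * ((p * q : ℝ) : ℂ)) := by
      funext y
      rw [hp1, sub_self, zero_mul, Complex.ofReal_zero, zero_mul, zero_add]
    rw [h5] at l3
    exact tendsto_nhds_unique tendsto_const_nhds l3
  obtain ⟨m, hm⟩ := Complex.exp_eq_one_iff.1 hexp
  have hpq : p * q = m := by
    have h6 : ((p * q : ℝ) : ℂ) = ((m : ℝ) : ℂ) := by
      have h7 := Complex.two_pi_I_ne_zero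
      apply mul_left_cancel₀ h7
      rw [hm]
      push_cast
      ring
    exact_mod_cast h6
  have hp3 : (p - 1) * (p + 1) = 0 := by linear_combination hp1
  rcases mul_eq_zero.1 hp3 with h8 | h8
  · have hp4 : p = 1 := by linarith
    refine ⟨1, m, 1, ?_, ?_, ?_⟩
    · rw [hp4]; simp
    · rw [← hpq, hp4]; ring
    · rw [hp4] at hdet; push_cast; linarith
  · have hp4 : p = -1 := by linarith
    refine ⟨-1, -m, -1, ?_, ?_, ?_⟩
    · rw [hp4]; simp
    · push_cast; rw [← hpq, hp4]; ring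
    · rw [hp4] at hdet; push_cast; linarith

theorem jinv (p q r s : ℝ) (hdet : p * s - q * r = 1)
    (h : ∀ z : ℂ, 0 < z.im → jf (((p : ℂ) * z + q) / ((r : ℂ) * z + s)) = jf z) :
    ∃ P Q R S : ℤ, p = P ∧ q = Q ∧ r = R ∧ s = S := by
  by_cases hr : r = 0
  · subst hr
    have hdet' : p * s = 1 := by linarith
    obtain ⟨P, Q, S, h1, h2, h3⟩ := jinv_zero p q s hdet' (fun z hz => by
      have h4 := h z hz
      rwa [Complex.ofReal_zero, zero_mul, zero_add] at h4)
    exact ⟨P, Q, 0, S, h1, h2, by simp, h3⟩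
  · have hrat : ¬ Irrational (p / r) := fun hirr => j_irr p q r s hdet hr hirr h
    rw [Irrational, not_not] at hrat
    obtain ⟨x, hx⟩ := hrat
    have hQ : (x.den : ℝ) ≠ 0 := by exact_mod_cast x.den_nz
    have hx2 : (x.num : ℝ) * r = (x.den : ℝ) * p := by
      have h1 : ((x.num : ℝ) / (x.den : ℝ)) = p / r := by
        rw [← hx]
        exact_mod_cast x.num_div_den
      rw [div_eq_div_iff hQ hr] at h1
      rw [h1]
      ring
    have hcop : IsCoprime x.num (x.den : ℤ) := by
      rw [Int.isCoprime_iff_nat_coprime]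
      simpa using x.reduced
    obtain ⟨a, b, hab⟩ := hcop
    have habR : (a : ℝ) * x.num + b * x.den = 1 := by exact_mod_cast hab
    set P : ℤ := x.num with hP
    set Q : ℤ := (x.den : ℤ) with hQd
    have hQR : (x.den : ℝ) = (Q : ℝ) := by rw [hQd]; simp
    rw [hQR] at hx2 habR
    -- the product
    have hdet2 : (-(a : ℝ) * p + -(b : ℝ) * r) * ((Q : ℝ) * q - P * s) = 1 := by
      linear_combination ((a : ℝ) * P + b * Q) * hdet + habR + ((a : ℝ) * q + b * s) * hx2
    have hdetZ : (-a) * (-P) - (-b) * Q = 1 := by linear_combination hab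
    have hx2C : (P : ℂ) * r = (Q : ℂ) * p := by exact_mod_cast hx2
    have hinv : ∀ z : ℂ, 0 < z.im →
        jf ((((-(a : ℝ) * p + -(b : ℝ) * r : ℝ) : ℂ) * z + ((-(a : ℝ) * q + -(b : ℝ) * s : ℝ) : ℂ)) /
          (((Q : ℝ) * q - P * s : ℝ) : ℂ)) = jf z := by
      intro z hz
      obtain ⟨hD, him⟩ := jinv_im p q r s hdet hz
      have h1 := h z hz
      have h2 := jf_sl (-a) (-b) Q (-P) hdetZ him
      set w : ℂ := ((p : ℂ) * z + q) / ((r : ℂ) * z + s) with hw
      have hwD : w * ((r : ℂ) * z + s) = (p : ℂ) * z + q := div_mul_cancel₀ _ hD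
      rw [← h1, ← h2]
      congr 1
      rw [← mul_div_mul_right (((-a : ℤ) : ℂ) * w + ((-b : ℤ) : ℂ)) ((Q : ℂ) * w + ((-P : ℤ) : ℂ)) hD]
      congr 1
      · push_cast
        linear_combination (a : ℂ) * hwD
      · push_cast
        linear_combination (-(Q : ℂ)) * hwD + z * hx2C
    obtain ⟨P1, Q1, S1, h1, h2, h3⟩ := jinv_zero _ _ _ hdet2 hinv
    refine ⟨-P * P1, -P * Q1 + b * S1, -Q * P1, -Q * Q1 - a * S1, ?_, ?_, ?_, ?_⟩
    · push_cast
      rw [← h1]
      linear_combination (-p) * habR - (b : ℝ) * hx2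
    · push_cast
      rw [← h2, ← h3]
      linear_combination (-q) * habR
    · push_cast
      rw [← h1]
      linear_combination (-r) * habR + (a : ℝ) * hx2
    · push_cast
      rw [← h2, ← h3]
      linear_combination (-s) * habR

end Pool.Agent.Lib.MSF
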