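import Pool.Agent.Lib.MSF.JAsy
import Pool.Agent.Lib.MP_5e64e7_nt.JTr

set_option autoImplicit false

/-!
# J.IRR : an invariance of `j` maps the cusp to a cusp (about 160 lines; from JAsy, JTr)

Suppose `α = p/r` is irrational; `σ = s/r`.
`h (i y) = (p i y + q)/(r i y + s) = α - 1/(r² (i y + σ))`, so its imaginary part is
`y/(r² (y² + σ²))` and `|Re - α| ≤ |σ|/(r² y²)`. For infinitely many fractions `P/Q` (lowest terms, `Q`
unbounded) `|α - P/Q| < 1/Q²` (`Real.infinite_rat_abs_sub_lt_one_div_den_sq_of_irrational`). Take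
`y = Q²/r²`: for large `Q` the point `ζ = h (i y)` has `1/(2 Q²) ≤ Im ζ ≤ 1/Q²` and
`|Re ζ - α| ≤ 1/Q²`. Take integers `A, B` with `γ = [[A, B], [Q, -P]]` of determinant `1`:
`Im γζ = Im ζ/|Q ζ - P|²`, `|Q ζ - P|² = (Q (Re ζ - P/Q))² + (Q Im ζ)²` is between `1/(4 Q²)` and
`(2/Q)² + 1/Q² = 5/Q²`, so `1/10 ≤ Im γζ ≤ 4`; after an integer translation `0 ≤ Re ≤ 1`. `|j|` is
bounded on this compact set (continuity, `jf_analyticAt`), and `j(i y) = j(h(i y)) = j(γζ)` (`jf_sl`), but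
`|j(i y)| → ∞` for `y → ∞` by `j_asy` (`|e^{2πi·iy}| = e^{-2πy}`).
-/

noncomputable section

namespace Pool.Agent.Lib.MSF

open Topology Pool.Agent.Lib.MP5e

private theorem jirr_im (a b c d : ℝ) (w : ℂ) :
    (((a : ℂ) * w + b) / ((c : ℂ) * w + d)).im =
      (a * d - b * c) * w.im / ((c * w.re + d) ^ 2 + (c * w.im) ^ 2) := by
  rw [Complex.div_im, Complex.normSq_apply, ← sub_div]
  simp only [Complex.add_re, Complex.add_im, Complex.mul_re, Complex.mul_im, Complex.ofReal_re,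
    Complex.ofReal_im, zero_mul, sub_zero, add_zero]
  congr 1
  · ring
  · ring

private theorem jirr_re (a b c d : ℝ) (w : ℂ) :
    (((a : ℂ) * w + b) / ((c : ℂ) * w + d)).re =
      ((a * w.re + b) * (c * w.re + d) + a * w.im * (c * w.im)) /
        ((c * w.re + d) ^ 2 + (c * w.im) ^ 2) := by
  rw [Complex.div_re, Complex.normSq_apply, ← add_div]
  simp only [Complex.add_re, Complex.add_im, Complex.mul_re, Complex.mul_im, Complex.ofReal_re,
    Complex.ofReal_im, zero_mul, sub_zero, add_zero]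
  congr 1
  ring

private theorem jirr_shift (n : ℤ) {w : ℂ} (hw : 0 < w.im) : jf (w + n) = jf w := by
  have h := jf_sl 1 n 0 1 (by norm_num) hw
  simpa using h

private theorem jirr_bdd : ∃ M : ℝ, ∀ z : ℂ, 1 / 10 ≤ z.im → z.im ≤ 4 → ‖jf z‖ ≤ M := by
  have hK : IsCompact ((Set.Icc (0 : ℝ) 1) ×ℂ (Set.Icc (1 / 10 : ℝ) 4)) :=
    isCompact_Icc.reProdIm isCompact_Icc
  have hc : ContinuousOn (fun z => ‖jf z‖) ((Set.Icc (0 : ℝ) 1) ×ℂ (Set.Icc (1 / 10 : ℝ) 4)) := by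
    intro z hz
    have hz' : 0 < z.im := lt_of_lt_of_le (by norm_num) hz.2.1
    exact ((jf_analyticAt hz').continuousAt.norm).continuousWithinAt
  obtain ⟨M, hM⟩ := (hK.image_of_continuousOn hc).bddAbove
  refine ⟨M, fun z h1 h2 => ?_⟩
  have hz' : 0 < z.im := lt_of_lt_of_le (by norm_num) h1
  have h3 := jirr_shift (-⌊z.re⌋) hz'
  rw [← h3]
  refine hM ⟨z + ((-⌊z.re⌋ : ℤ) : ℂ), ?_, rfl⟩
  have e1 : (z + ((-⌊z.re⌋ : ℤ) : ℂ)).re = z.re - ⌊z.re⌋ := by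
    simp [sub_eq_add_neg]
  have e2 : (z + ((-⌊z.re⌋ : ℤ) : ℂ)).im = z.im := by
    simp
  refine ⟨?_, ?_⟩
  · change (z + ((-⌊z.re⌋ : ℤ) : ℂ)).re ∈ Set.Icc (0 : ℝ) 1
    rw [e1]
    exact ⟨sub_nonneg.mpr (Int.floor_le _), by linarith [Int.lt_floor_add_one z.re]⟩
  · change (z + ((-⌊z.re⌋ : ℤ) : ℂ)).im ∈ Set.Icc (1 / 10 : ℝ) 4
    rw [e2]
    exact ⟨h1, h2⟩

private theorem jirr_large : Filter.Tendsto (fun y : ℝ => ‖jf ((y : ℂ) * Complex.I)‖)
    Filter.atTop Filter.atTop := by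
  have h0 : Filter.Tendsto (fun y : ℝ => (y : ℂ) * Complex.I) Filter.atTop
      (Filter.comap Complex.im Filter.atTop) := by
    rw [Filter.tendsto_comap_iff]
    have : Complex.im ∘ (fun y : ℝ => (y : ℂ) * Complex.I) = id := by
      funext y
      simp
    rw [this]
    exact Filter.tendsto_id
  have h1 := (j_asy.comp h0).norm
  have h2 : Filter.Tendsto (fun y : ℝ => Real.exp (2 * Real.pi * y)) Filter.atTop
      Filter.atTop :=
    Real.tendsto_exp_atTop.comp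
      (Filter.tendsto_id.const_mul_atTop (by positivity))
  have h3 := Filter.Tendsto.pos_mul_atTop (by simp) h1 h2
  refine h3.congr fun y => ?_
  have e1 : ‖Complex.exp (2 * (Real.pi : ℂ) * Complex.I * ((y : ℂ) * Complex.I))‖ =
      Real.exp (-(2 * Real.pi * y)) := by
    rw [Complex.norm_exp]
    congr 1
    have : 2 * (Real.pi : ℂ) * Complex.I * ((y : ℂ) * Complex.I) =
        ((-(2 * Real.pi * y) : ℝ) : ℂ) := by
      push_cast
      linear_combination (2 * (Real.pi : ℂ) * y) * Complex.I_sq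
    rw [this, Complex.ofReal_re]
  simp only [Function.comp_apply, norm_mul]
  rw [e1, mul_assoc, ← Real.exp_add]
  simp

private theorem jirr_den (α : ℝ) (hα : Irrational α) (N : ℕ) :
    ∃ x : ℚ, N < x.den ∧ |α - x| < 1 / (x.den : ℝ) ^ 2 := by
  by_contra hcon
  push Not at hcon
  refine Real.infinite_rat_abs_sub_lt_one_div_den_sq_of_irrational hα ?_
  have hle : ∀ x ∈ {x : ℚ | |α - x| < 1 / (x.den : ℝ) ^ 2}, x.den ≤ N := by
    intro x hx
    by_contra hlt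
    exact absurd (hcon x (not_le.mp hlt)) (not_le.mpr hx)
  have hfin : (Set.Icc (-⌈(|α| + 1) * N⌉) ⌈(|α| + 1) * N⌉ ×ˢ Set.Iic N).Finite :=
    (Set.finite_Icc _ _).prod (Set.finite_Iic _)
  refine Set.Finite.of_injOn (f := fun x : ℚ => (x.num, x.den)) ?_ ?_ hfin
  · intro x hx
    have hd : (1 : ℝ) ≤ x.den := by exact_mod_cast x.den_pos
    have hN : (x.den : ℝ) ≤ N := by exact_mod_cast hle x hx
    have h1 : |α - x| < 1 := by
      refine lt_of_lt_of_le hx ?_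
      rw [div_le_one (by positivity)]
      nlinarith
    have h2 : |(x : ℝ)| ≤ |α| + 1 := by
      have := abs_sub_abs_le_abs_sub (x : ℝ) α
      rw [abs_sub_comm (x : ℝ) α] at this
      linarith
    have h3 : (x.num : ℝ) = x * x.den := by
      have := Rat.mul_den_eq_num x
      exact_mod_cast this.symm
    have h4 : |(x.num : ℝ)| ≤ (|α| + 1) * N := by
      rw [h3, abs_mul, Nat.abs_cast]
      exact mul_le_mul h2 hN (by positivity) (by positivity)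
    have h5 : |(x.num : ℝ)| ≤ (⌈(|α| + 1) * N⌉ : ℤ) := h4.trans (Int.le_ceil _)
    have h6 : |x.num| ≤ ⌈(|α| + 1) * N⌉ := by exact_mod_cast h5
    exact ⟨abs_le.mp h6, hle x hx⟩
  · intro x _ y _ hxy
    have := Prod.mk.inj hxy
    exact Rat.ext this.1 this.2

theorem j_irr (p q r s : ℝ) (hdet : p * s - q * r = 1) (hr : r ≠ 0) (hirr : Irrational (p / r))
    (h : ∀ z : ℂ, 0 < z.im → jf (((p : ℂ) * z + q) / ((r : ℂ) * z + s)) = jf z) : False := by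
  obtain ⟨M, hM⟩ := jirr_bdd
  obtain ⟨Y, hY⟩ := (Filter.eventually_atTop.mp (jirr_large.eventually_gt_atTop M))
  obtain ⟨N, hN⟩ := exists_nat_gt (max (r ^ 2 * |Y|) |r * s|)
  obtain ⟨x, hxN, hx⟩ := jirr_den (p / r) hirr N
  have hQ1 : (1 : ℝ) ≤ x.den := by exact_mod_cast x.den_pos
  have hQN : (N : ℝ) < x.den := by exact_mod_cast hxN
  have hxP : (x.num : ℝ) = x * x.den := by
    have := Rat.mul_den_eq_num x
    exact_mod_cast this.symm
  obtain ⟨a, b, hab⟩ : ∃ a b : ℤ, a * x.num + b * x.den = 1 := by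
    have := x.reduced
    have h1 : IsCoprime x.num (x.den : ℤ) := by
      rw [Int.isCoprime_iff_gcd_eq_one]
      simpa [Int.gcd] using this
    exact h1
  generalize hQdef : (x.den : ℝ) = Q at *
  generalize hXdef : (x : ℝ) = X at *
  have hQ0 : 0 < Q := by linarith
  have hr2 : 0 < r ^ 2 := by positivity
  have hQQ : Q ≤ Q ^ 2 := by nlinarith
  have hrs : |r * s| ≤ Q ^ 2 := by
    have := le_max_right (r ^ 2 * |Y|) |r * s|
    linarith
  have hrs2 : (r * s) ^ 2 ≤ Q ^ 4 := by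
    have : (r * s) ^ 2 = |r * s| ^ 2 := (sq_abs _).symm
    rw [this]
    calc |r * s| ^ 2 ≤ (Q ^ 2) ^ 2 := pow_le_pow_left₀ (abs_nonneg _) hrs 2
      _ = Q ^ 4 := by ring
  -- the point
  set y : ℝ := Q ^ 2 / r ^ 2 with hy
  have hy0 : 0 < y := by positivity
  have hyY : Y ≤ y := by
    rw [hy, le_div_iff₀ hr2]
    have h1 := le_max_left (r ^ 2 * |Y|) |r * s|
    have h2 := le_abs_self Y
    nlinarith
  have hbig := hY y hyY
  set ζ : ℂ := ((p : ℂ) * ((y : ℂ) * Complex.I) + q) / ((r : ℂ) * ((y : ℂ) * Complex.I) + s)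
    with hζ
  have hjζ : jf ζ = jf ((y : ℂ) * Complex.I) := h _ (by simpa using hy0)
  have hD : 0 < Q ^ 4 + (r * s) ^ 2 := by positivity
  have hyr : y * r ^ 2 = Q ^ 2 := by
    rw [hy]; field_simp
  have hζim : ζ.im = Q ^ 2 / (Q ^ 4 + (r * s) ^ 2) := by
    rw [hζ, jirr_im]
    simp only [Complex.mul_re, Complex.mul_im, Complex.ofReal_re, Complex.ofReal_im,
      Complex.I_re, Complex.I_im, mul_zero, mul_one, sub_zero, add_zero, zero_add]
    rw [hdet, one_mul]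
    have h1 : (0 : ℝ) < s ^ 2 + (r * y) ^ 2 := by positivity
    rw [div_eq_div_iff (ne_of_gt h1) (ne_of_gt hD)]
    have h2 : (s ^ 2 + (r * y) ^ 2) * r ^ 2 = Q ^ 4 + (r * s) ^ 2 := by
      calc (s ^ 2 + (r * y) ^ 2) * r ^ 2 = (y * r ^ 2) ^ 2 + (r * s) ^ 2 := by ring
        _ = _ := by rw [hyr]; ring
    rw [← h2, ← hyr]
    ring
  have hζre : ζ.re - p / r = -(r * s) / (Q ^ 4 + (r * s) ^ 2) := by
    rw [hζ, jirr_re]
    simp only [Complex.mul_re, Complex.mul_im, Complex.ofReal_re, Complex.ofReal_im,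
      Complex.I_re, Complex.I_im, mul_zero, mul_one, sub_zero, add_zero, zero_add]
    have h1 : (0 : ℝ) < s ^ 2 + (r * y) ^ 2 := by positivity
    have h2 : (s ^ 2 + (r * y) ^ 2) * r ^ 2 = Q ^ 4 + (r * s) ^ 2 := by
      calc (s ^ 2 + (r * y) ^ 2) * r ^ 2 = (y * r ^ 2) ^ 2 + (r * s) ^ 2 := by ring
        _ = _ := by rw [hyr]; ring
    rw [← h2, div_sub_div _ _ (ne_of_gt h1) hr, div_eq_div_iff (by positivity) (by positivity)]
    have h3 : (q * s + p * y * (r * y)) * r - (s ^ 2 + (r * y) ^ 2) * p = -s := by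
      linear_combination (-s) * hdet
    rw [h3]
    ring
  have hi1 : 1 / (2 * Q ^ 2) ≤ ζ.im := by
    rw [hζim, div_le_div_iff₀ (by positivity) hD]
    nlinarith
  have hi2 : ζ.im ≤ 1 / Q ^ 2 := by
    rw [hζim, div_le_div_iff₀ hD (by positivity)]
    nlinarith [sq_nonneg (r * s)]
  have hi0 : 0 < ζ.im := lt_of_lt_of_le (by positivity) hi1
  have hre : |ζ.re - p / r| ≤ 1 / Q ^ 2 := by
    rw [hζre, abs_div, abs_neg, abs_of_pos hD, div_le_div_iff₀ hD (by positivity)]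
    calc |r * s| * Q ^ 2 ≤ Q ^ 2 * Q ^ 2 := mul_le_mul_of_nonneg_right hrs (by positivity)
      _ ≤ 1 * (Q ^ 4 + (r * s) ^ 2) := by nlinarith [sq_nonneg (r * s)]
  have hre2 : |ζ.re - X| ≤ 2 / Q ^ 2 := by
    have h1 : ζ.re - X = (ζ.re - p / r) + (p / r - X) := by ring
    have h2 : (2 : ℝ) / Q ^ 2 = 1 / Q ^ 2 + 1 / Q ^ 2 := by ring
    rw [h1, h2]
    exact (abs_add_le _ _).trans (add_le_add hre hx.le)
  -- the denominator
  have hden1 : (Q * ζ.re + -(x.num : ℝ)) ^ 2 + (Q * ζ.im) ^ 2 ≤ 5 / Q ^ 2 := by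
    have h1 : Q * ζ.re + -(x.num : ℝ) = Q * (ζ.re - X) := by rw [hxP]; ring
    rw [h1, mul_pow, mul_pow]
    have h2 : (ζ.re - X) ^ 2 ≤ (2 / Q ^ 2) ^ 2 := by
      rw [← sq_abs (ζ.re - X)]
      exact pow_le_pow_left₀ (abs_nonneg _) hre2 2
    have h3 : ζ.im ^ 2 ≤ (1 / Q ^ 2) ^ 2 := pow_le_pow_left₀ hi0.le hi2 2
    calc Q ^ 2 * (ζ.re - X) ^ 2 + Q ^ 2 * ζ.im ^ 2
        ≤ Q ^ 2 * (2 / Q ^ 2) ^ 2 + Q ^ 2 * (1 / Q ^ 2) ^ 2 := by gcongr
      _ = 5 / Q ^ 2 := by field_simp; ring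
  have hden2 : 1 / (4 * Q ^ 2) ≤ (Q * ζ.re + -(x.num : ℝ)) ^ 2 + (Q * ζ.im) ^ 2 := by
    have h3 : (1 / (2 * Q ^ 2)) ^ 2 ≤ ζ.im ^ 2 := pow_le_pow_left₀ (by positivity) hi1 2
    calc 1 / (4 * Q ^ 2) = Q ^ 2 * (1 / (2 * Q ^ 2)) ^ 2 := by field_simp; ring
      _ ≤ Q ^ 2 * ζ.im ^ 2 := by gcongr
      _ = 0 + (Q * ζ.im) ^ 2 := by ring
      _ ≤ _ := by gcongr; positivity
  have hdet2 : (-a) * (-x.num) - (-b) * (x.den : ℤ) = 1 := by linarith
  have hγ := jf_sl (-a) (-b) (x.den : ℤ) (-x.num) hdet2 hi0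
  have him : ((((-a : ℤ) : ℂ) * ζ + ((-b : ℤ) : ℂ)) /
      ((((x.den : ℤ)) : ℂ) * ζ + ((-x.num : ℤ) : ℂ))).im =
      ζ.im / ((Q * ζ.re + -(x.num : ℝ)) ^ 2 + (Q * ζ.im) ^ 2) := by
    have h1 := jirr_im (((-a : ℤ)) : ℝ) (((-b : ℤ)) : ℝ) ((x.den : ℤ) : ℝ) ((-x.num : ℤ) : ℝ) ζ
    have h2 : (((-a : ℤ)) : ℝ) * ((-x.num : ℤ) : ℝ) - (((-b : ℤ)) : ℝ) * ((x.den : ℤ) : ℝ) =
        1 := by exact_mod_cast hdet2
    have h3 : ((x.den : ℤ) : ℝ) = Q := by rw [← hQdef]; simp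
    have h4 : ((-x.num : ℤ) : ℝ) = -(x.num : ℝ) := by push_cast; ring
    rw [h2, h3, h4, one_mul] at h1
    rw [← h1]
    congr 1
    have h5 : (Q : ℂ) = ((x.den : ℤ) : ℂ) := by rw [← hQdef]; simp
    rw [h5]
    push_cast
    rfl
  have hpos : 0 < (Q * ζ.re + -(x.num : ℝ)) ^ 2 + (Q * ζ.im) ^ 2 :=
    lt_of_lt_of_le (by positivity) hden2
  have hlow : 1 / 10 ≤ ((((-a : ℤ) : ℂ) * ζ + ((-b : ℤ) : ℂ)) /
      ((((x.den : ℤ)) : ℂ) * ζ + ((-x.num : ℤ) : ℂ))).im := by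
    rw [him, le_div_iff₀ hpos]
    calc 1 / 10 * ((Q * ζ.re + -(x.num : ℝ)) ^ 2 + (Q * ζ.im) ^ 2)
        ≤ 1 / 10 * (5 / Q ^ 2) := by gcongr
      _ = 1 / (2 * Q ^ 2) := by field_simp; norm_num
      _ ≤ ζ.im := hi1
  have hup : ((((-a : ℤ) : ℂ) * ζ + ((-b : ℤ) : ℂ)) /
      ((((x.den : ℤ)) : ℂ) * ζ + ((-x.num : ℤ) : ℂ))).im ≤ 4 := by
    rw [him, div_le_iff₀ hpos]
    calc ζ.im ≤ 1 / Q ^ 2 := hi2
      _ = 4 * (1 / (4 * Q ^ 2)) := by field_simp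
      _ ≤ _ := by gcongr
  have hfin := hM _ hlow hup
  rw [hγ, hjζ] at hfin
  exact absurd hbig (not_lt.mpr hfin)

end Pool.Agent.Lib.MSF
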