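import Pool.Agent.Lib.MSF.GDefs
import Pool.Agent.Lib.MSF.JIndE
import Pool.Agent.Lib.MP_5e64e7_nt.JDer

set_option autoImplicit false

/-!
# J.PIG : pigeonhole for algebraic relations with `j` (from JDer and JIndE)

`H` = upper half plane (open, convex, so preconnected). As `P ≠ 0`, there is a point `v` with `P(v 0, v 1) ≠ 0`.
The function `z ↦ P(j(z), v 1)` does not vanish identically on `H` (`j_ind` from JIndE applied to the
polynomial `P(X 1, v 1)`), so there is a nonempty open subset `U` of `H` where `P(j z, v 1) ≠ 0`. For `z ∈ U` the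
`d + 1` numbers `j(φ_i z)`, `i ≤ d`, are roots of the nonzero polynomial `P(j z, Y)` of degree `≤ d`, so two
of them agree. If none of the analytic functions `j(φ_i z) - j(φ_i' z)`, `i < i' ≤ d`, vanished near a point
`z0 ∈ U`, they would all be nonzero on a punctured neighbourhood of `z0`, contradiction; so one vanishes near
`z0` and hence on `H`
(`AnalyticOnNhd.eqOn_zero_of_preconnected_of_eventuallyEq_zero`).
-/

noncomputable section

namespace Pool.Agent.Lib.MSF

open Topology Pool.Agent.Lib.MP5e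

private theorem jpig_evalC (P : MvPolynomial (Fin 2) ℂ) (x y : ℂ) :
    Polynomial.eval y (MvPolynomial.aeval ![Polynomial.C x, Polynomial.X] P) =
      MvPolynomial.eval ![x, y] P := by
  have h : (Polynomial.evalRingHom y).comp
      (MvPolynomial.aeval ![Polynomial.C x, (Polynomial.X : Polynomial ℂ)] :
        MvPolynomial (Fin 2) ℂ →ₐ[ℂ] Polynomial ℂ).toRingHom =
      MvPolynomial.eval ![x, y] := by
    apply MvPolynomial.ringHom_ext
    · intro r
      simp
    · intro i
      fin_cases i <;> simp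
  exact RingHom.congr_fun h P

private theorem jpig_evalR (P : MvPolynomial (Fin 2) ℂ) (c : ℂ) (w : Fin 4 → ℂ) :
    MvPolynomial.eval w
        (MvPolynomial.aeval ![MvPolynomial.X (1 : Fin 4), (MvPolynomial.C c : MvPolynomial (Fin 4) ℂ)] P) =
      MvPolynomial.eval ![w 1, c] P := by
  have h : (MvPolynomial.eval w).comp
      (MvPolynomial.aeval ![MvPolynomial.X (1 : Fin 4), (MvPolynomial.C c : MvPolynomial (Fin 4) ℂ)] :
        MvPolynomial (Fin 2) ℂ →ₐ[ℂ] MvPolynomial (Fin 4) ℂ).toRingHom =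
      MvPolynomial.eval ![w 1, c] := by
    apply MvPolynomial.ringHom_ext
    · intro r
      simp
    · intro i
      fin_cases i <;> simp
  exact RingHom.congr_fun h P

/-- the degree of `P(x, Y)` is at most the total degree of `P` -/
private theorem jpig_deg (P : MvPolynomial (Fin 2) ℂ) (x : ℂ) :
    (MvPolynomial.aeval ![Polynomial.C x, (Polynomial.X : Polynomial ℂ)] P).natDegree ≤
      P.totalDegree := by
  rw [MvPolynomial.aeval_def, MvPolynomial.eval₂_eq']
  apply Polynomial.natDegree_sum_le_of_forall_le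
  intro m hm
  refine Polynomial.natDegree_mul_le.trans ?_
  have h1 : (algebraMap ℂ (Polynomial ℂ) (MvPolynomial.coeff m P)).natDegree = 0 :=
    Polynomial.natDegree_C _
  rw [h1, zero_add, Fin.prod_univ_two]
  refine Polynomial.natDegree_mul_le.trans ?_
  have h2 : (![Polynomial.C x, (Polynomial.X : Polynomial ℂ)] 0 ^ m 0).natDegree = 0 := by
    rw [Matrix.cons_val_zero, ← Polynomial.C_pow, Polynomial.natDegree_C]
  have h3 : (![Polynomial.C x, (Polynomial.X : Polynomial ℂ)] 1 ^ m 1).natDegree = m 1 := by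
    rw [Matrix.cons_val_one, Matrix.cons_val_zero, Polynomial.natDegree_X_pow]
  rw [h2, h3, zero_add]
  have h4 := MvPolynomial.le_totalDegree hm
  refine le_trans ?_ h4
  rw [Finsupp.sum_fintype _ _ (fun _ => rfl), Fin.sum_univ_two]
  exact Nat.le_add_left _ _

theorem jpig (P : MvPolynomial (Fin 2) ℂ) (hP : P ≠ 0) (φ : ℕ → ℂ → ℂ)
    (hφ : ∀ i z, 0 < z.im → 0 < (φ i z).im)
    (han : ∀ i, DifferentiableOn ℂ (φ i) {z : ℂ | 0 < z.im})
    (h : ∀ i z, 0 < z.im → MvPolynomial.eval ![jf z, jf (φ i z)] P = 0) :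
    ∃ i i', i < i' ∧ ∀ z : ℂ, 0 < z.im → jf (φ i z) = jf (φ i' z) := by
  obtain ⟨v, hv⟩ : ∃ v : Fin 2 → ℂ, MvPolynomial.eval v P ≠ 0 := by
    by_contra hc
    push Not at hc
    exact hP (MvPolynomial.funext fun x => by rw [hc x, map_zero])
  -- a point with P(j z, v 1) ≠ 0
  obtain ⟨z0, hz0, hPz0⟩ : ∃ z0 : ℂ, 0 < z0.im ∧ MvPolynomial.eval ![jf z0, v 1] P ≠ 0 := by
    by_contra hc
    push Not at hc
    have hI : 0 < Complex.I.im := by simp
    set R : MvPolynomial (Fin 4) ℂ :=
      MvPolynomial.aeval ![MvPolynomial.X (1 : Fin 4), MvPolynomial.C (v 1)] P with hR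
    have hev : ∀ w : Fin 4 → ℂ, MvPolynomial.eval w R = MvPolynomial.eval ![w 1, v 1] P :=
      fun w => jpig_evalR P (v 1) w
    have hR0 : R = 0 := by
      refine j_ind hI R ?_
      filter_upwards [JDer_open.mem_nhds hI] with z hz
      rw [hev]
      exact hc z hz
    apply hv
    have h1 := hev (fun _ => v 0)
    rw [hR0, map_zero] at h1
    rw [h1]
    have h2 : v = ![v 0, v 1] := by
      funext i
      fin_cases i <;> rfl
    exact congrArg (fun u => MvPolynomial.eval u P) h2
  -- the polynomial P(j z, Y)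
  set d := P.totalDegree with hd
  have hU : ∀ᶠ z in 𝓝 z0, 0 < z.im ∧ MvPolynomial.eval ![jf z, v 1] P ≠ 0 := by
    have h1 : ∀ᶠ z in 𝓝 z0, 0 < z.im := JDer_open.mem_nhds hz0
    have h2 : ContinuousAt (fun z => MvPolynomial.eval ![jf z, v 1] P) z0 := by
      have h3 : ContinuousAt (fun z => (![jf z, v 1] : Fin 2 → ℂ)) z0 := by
        rw [continuousAt_pi]
        intro i
        fin_cases i
        · exact (jf_analyticAt hz0).continuousAt
        · exact continuousAt_const
      exact (MvPolynomial.continuous_eval P).continuousAt.comp_of_eq h3 rfl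
    exact h1.and (h2.eventually_ne hPz0)
  have hpair : ∀ z : ℂ, 0 < z.im → MvPolynomial.eval ![jf z, v 1] P ≠ 0 →
      ∃ i ∈ Finset.range (d + 1), ∃ i' ∈ Finset.range (d + 1), i < i' ∧
        jf (φ i z) = jf (φ i' z) := by
    intro z hz hne
    set p : Polynomial ℂ := MvPolynomial.aeval ![Polynomial.C (jf z), Polynomial.X] P with hp
    have hp0 : p ≠ 0 := by
      intro h0
      apply hne
      rw [← jpig_evalC, ← hp, h0, Polynomial.eval_zero]
    have hroot : ∀ i, jf (φ i z) ∈ p.roots.toFinset := by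
      intro i
      rw [Multiset.mem_toFinset, Polynomial.mem_roots hp0, Polynomial.IsRoot.def, hp, jpig_evalC]
      exact h i z hz
    have hcard : p.roots.toFinset.card < (Finset.range (d + 1)).card := by
      rw [Finset.card_range, Nat.lt_succ_iff]
      exact (Multiset.toFinset_card_le _).trans ((Polynomial.card_roots' p).trans (jpig_deg P _))
    obtain ⟨i, hi, i', hi', hne', heq⟩ := Finset.exists_ne_map_eq_of_card_lt_of_maps_to hcard
      (f := fun i => jf (φ i z)) (fun i _ => hroot i)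
    rcases lt_or_gt_of_ne hne' with hlt | hlt
    · exact ⟨i, hi, i', hi', hlt, heq⟩
    · exact ⟨i', hi', i, hi, hlt, heq.symm⟩
  -- the differences are analytic
  have hana : ∀ i i' : ℕ, AnalyticOnNhd ℂ (fun z => jf (φ i z) - jf (φ i' z))
      {z : ℂ | 0 < z.im} := by
    intro i i' z hz
    have h1 : ∀ k : ℕ, AnalyticAt ℂ (fun z => jf (φ k z)) z := fun k =>
      (jf_analyticAt (hφ k z hz)).comp_of_eq ((han k).analyticAt (JDer_open.mem_nhds hz)) rfl
    exact (h1 i).sub (h1 i')
  -- a pair with j(φ_i) = j(φ_i') near z0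
  obtain ⟨i, i', hii, hnear⟩ : ∃ i i' : ℕ, i < i' ∧
      ∀ᶠ z in 𝓝 z0, jf (φ i z) - jf (φ i' z) = 0 := by
    by_contra hc
    have h1 : ∀ i i' : ℕ, i < i' → ∀ᶠ z in 𝓝[≠] z0, jf (φ i z) - jf (φ i' z) ≠ 0 := by
      intro i i' hii
      rcases (hana i i' z0 hz0).eventually_eq_zero_or_eventually_ne_zero with h0 | h0
      · exact absurd ⟨i, i', hii, h0⟩ hc
      · exact h0
    have h2 : ∀ᶠ z in 𝓝[≠] z0, ∀ i ∈ Finset.range (d + 1), ∀ i' ∈ Finset.range (d + 1), i < i' →
        jf (φ i z) - jf (φ i' z) ≠ 0 := by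
      rw [Filter.eventually_all_finset]
      intro i _
      rw [Filter.eventually_all_finset]
      intro i' _
      by_cases hii : i < i'
      · filter_upwards [h1 i i' hii] with z hz _
        exact hz
      · exact Filter.Eventually.of_forall fun z hz => absurd hz hii
    have h3 : ∀ᶠ z in 𝓝[≠] z0, 0 < z.im ∧ MvPolynomial.eval ![jf z, v 1] P ≠ 0 :=
      hU.filter_mono nhdsWithin_le_nhds
    obtain ⟨z, hz2, hz3, hz4⟩ := (h2.and h3).exists
    obtain ⟨i, hi, i', hi', hlt, heq⟩ := hpair z hz3 hz4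
    exact hz2 i hi i' hi' hlt (sub_eq_zero.2 heq)
  refine ⟨i, i', hii, fun z hz => ?_⟩
  have hpre : IsPreconnected {z : ℂ | 0 < z.im} := (convex_halfSpace_im_gt 0).isPreconnected
  have h5 := (hana i i').eqOn_zero_of_preconnected_of_eventuallyEq_zero hpre hz0 hnear hz
  exact sub_eq_zero.1 h5

end Pool.Agent.Lib.MSF
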