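import Pool.Agent.Lib.MSF.JInv
import Pool.Agent.Lib.MSF.JPig

set_option autoImplicit false

/-!
# J.MOD : algebraic relations between `j(z)` and `j(gz)`, `g` real (from JInv, JPig, JTr)

(1) By the identity theorem on the upper half plane (`gz` is in it because the determinant is
positive) `P(j(z), j(gz)) = 0` for all `z`. (2) `jpig` for `φ i z = g (z + i)`: there are `i < i'` with
`j(g(z + i)) = j(g(z + i'))`, so with `N = i' - i ≥ 1`: `j(g(z + N)) = j(g z)` for all `z`, that is
`j ∘ h = j` for `h = g [[1,N],[0,1]] g⁻¹` (determinant `1`; replace `z` by `g⁻¹ z`). By `jinv` `h` is integral, so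
`g [[0,1],[0,0]] g⁻¹ = (h - 1)/N` has rational entries: with `Δ = a d - b c` these are
`-a c/Δ, a²/Δ, -c²/Δ, a c/Δ`. (3) The same for `g S`, `S z = -1/z`: `b d/Δ, b²/Δ, d²/Δ` are rational.
So all products of two of `a, b, c, d`, divided by `Δ`, are rational.
-/

noncomputable section

namespace Pool.Agent.Lib.MSF

open Topology Pool.Agent.Lib.MP5e

private def mr (a b c d : ℝ) (z : ℂ) : ℂ := ((a : ℂ) * z + b) / ((c : ℂ) * z + d)

private theorem jm_den {a b c d : ℝ} (hdet : 0 < a * d - b * c) {z : ℂ} (hz : 0 < z.im) :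
    (c : ℂ) * z + d ≠ 0 := by
  intro h
  have h1 := congrArg Complex.im h
  have h2 := congrArg Complex.re h
  simp at h1 h2
  rcases h1 with h1 | h1
  · rw [h1] at h2 hdet
    simp at h2
    rw [h2] at hdet
    simp at hdet
  · exact hz.ne' h1

private theorem jm_im {a b c d : ℝ} (hdet : 0 < a * d - b * c) {z : ℂ} (hz : 0 < z.im) :
    0 < (mr a b c d z).im := by
  have hd := jm_den hdet hz
  have h1 : 0 < Complex.normSq ((c : ℂ) * z + d) := Complex.normSq_pos.mpr hd
  have h2 : (mr a b c d z).im = (a * d - b * c) * z.im / Complex.normSq ((c : ℂ) * z + d) := by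
    unfold mr
    rw [Complex.div_im]
    simp
    field_simp
    ring
  rw [h2]
  positivity

private theorem jm_diff {a b c d : ℝ} (hdet : 0 < a * d - b * c) {z : ℂ} (hz : 0 < z.im) :
    DifferentiableAt ℂ (mr a b c d) z := by
  unfold mr
  have hd := jm_den hdet hz
  fun_prop (disch := exact hd)

private theorem jm_open : IsOpen {z : ℂ | 0 < z.im} :=
  isOpen_lt continuous_const Complex.continuous_im

private theorem jm_an {a b c d : ℝ} (hdet : 0 < a * d - b * c) (P : MvPolynomial (Fin 2) ℂ)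
    {z : ℂ} (hz : 0 < z.im) :
    AnalyticAt ℂ (fun z => MvPolynomial.eval ![jf z, jf (mr a b c d z)] P) z := by
  have hm : AnalyticAt ℂ (mr a b c d) z := by
    rw [Complex.analyticAt_iff_eventually_differentiableAt]
    filter_upwards [jm_open.mem_nhds hz] with u hu
    exact jm_diff hdet hu
  induction P using MvPolynomial.induction_on with
  | C x =>
    simp only [MvPolynomial.eval_C]
    exact analyticAt_const
  | add p q hp hq =>
    simp only [map_add]
    exact hp.add hq
  | mul_X p i hp =>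
    simp only [map_mul, MvPolynomial.eval_X]
    refine hp.mul ?_
    fin_cases i
    · exact jf_analyticAt hz
    · exact AnalyticAt.comp (g := jf) (jf_analyticAt (jm_im hdet hz)) hm

private theorem jm_all {a b c d : ℝ} (hdet : 0 < a * d - b * c) (P : MvPolynomial (Fin 2) ℂ)
    (w : ℂ) (hw : 0 < w.im)
    (h : ∀ᶠ z in 𝓝 w, MvPolynomial.eval ![jf z, jf (mr a b c d z)] P = 0) :
    ∀ z : ℂ, 0 < z.im → MvPolynomial.eval ![jf z, jf (mr a b c d z)] P = 0 := by
  have han : AnalyticOnNhd ℂ (fun z => MvPolynomial.eval ![jf z, jf (mr a b c d z)] P)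
      {z : ℂ | 0 < z.im} := fun z hz => jm_an hdet P hz
  have hc : IsPreconnected {z : ℂ | 0 < z.im} := (convex_halfSpace_im_gt 0).isPreconnected
  intro z hz
  exact han.eqOn_zero_of_preconnected_of_eventuallyEq_zero hc hw h hz

/-- the step for translations -/
private theorem jm_step {a b c d : ℝ} (hdet : 0 < a * d - b * c) (P : MvPolynomial (Fin 2) ℂ)
    (hP : P ≠ 0)
    (h : ∀ z : ℂ, 0 < z.im → MvPolynomial.eval ![jf z, jf (mr a b c d z)] P = 0) :
    ∃ x y t : ℚ, a * c / (a * d - b * c) = x ∧ a ^ 2 / (a * d - b * c) = y ∧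
      c ^ 2 / (a * d - b * c) = t := by
  have htr : ∀ (i : ℤ) (z : ℂ), 0 < z.im → jf (z + i) = jf z := by
    intro i z hz
    have h1 := jf_sl 1 i 0 1 (by ring) hz
    simpa using h1
  have himi : ∀ (i : ℤ) (z : ℂ), 0 < z.im → 0 < (z + i).im := by
    intro i z hz
    simpa using hz
  obtain ⟨i, i', hii, heq⟩ := jpig P hP (fun i z => mr a b c d (z + (i : ℤ)))
    (fun i z hz => jm_im hdet (himi i z hz))
    (fun i z hz => by
      apply DifferentiableAt.differentiableWithinAt
      exact DifferentiableAt.comp (g := mr a b c d) z (jm_diff hdet (himi i z hz)) (by fun_prop))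
    (fun i z hz => by
      have h1 := h (z + (i : ℤ)) (himi i z hz)
      rwa [htr _ _ hz] at h1)
  obtain ⟨N, hN⟩ : ∃ N : ℕ, i' = i + N := ⟨i' - i, by omega⟩
  have hN1 : 1 ≤ N := by omega
  have hN0 : (N : ℝ) ≠ 0 := by positivity
  obtain ⟨Δ, hΔ⟩ : ∃ Δ : ℝ, Δ = a * d - b * c := ⟨_, rfl⟩
  have hΔ0 : 0 < Δ := by rw [hΔ]; exact hdet
  have hkey : ∀ u : ℂ, 0 < u.im → jf (mr a b c d u) = jf (mr a b c d (u + (N : ℂ))) := by
    intro u hu
    have h1 := heq (u + ((-(i : ℤ) : ℤ) : ℂ)) (himi _ u hu)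
    have e1 : u + ((-(i : ℤ) : ℤ) : ℂ) + (((i : ℕ) : ℤ) : ℂ) = u := by
      push_cast
      ring
    have e2 : u + ((-(i : ℤ) : ℤ) : ℂ) + (((i' : ℕ) : ℤ) : ℂ) = u + (N : ℂ) := by
      rw [hN]
      push_cast
      ring
    rwa [e1, e2] at h1
  have hinv : ∀ z : ℂ, 0 < z.im →
      jf ((((1 - N * (a * c) / Δ : ℝ) : ℂ) * z + ((N * a ^ 2 / Δ : ℝ) : ℂ)) /
        (((-(N * c ^ 2 / Δ) : ℝ) : ℂ) * z + ((1 + N * (a * c) / Δ : ℝ) : ℂ))) = jf z := by
    intro z hz
    have hdet' : 0 < d * a - (-b) * (-c) := by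
      have : d * a - (-b) * (-c) = a * d - b * c := by ring
      rw [this]
      exact hdet
    have hu := jm_im hdet' hz
    have hden : (a : ℂ) - (c : ℂ) * z ≠ 0 := by
      have h1 := jm_den hdet' hz
      push_cast at h1
      intro h2
      apply h1
      linear_combination h2
    have hΔc : (Δ : ℂ) ≠ 0 := by exact_mod_cast hΔ0.ne'
    have hΔe : (Δ : ℂ) = (a : ℂ) * d - b * c := by rw [hΔ]; push_cast; ring
    obtain ⟨u, hu'⟩ : ∃ u, u = mr d (-b) (-c) a z := ⟨_, rfl⟩
    rw [← hu'] at hu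
    have hue : u * ((a : ℂ) - (c : ℂ) * z) = (d : ℂ) * z - b := by
      rw [hu']
      unfold mr
      push_cast
      have h1 : -(c : ℂ) * z + a ≠ 0 := by
        intro h2
        apply hden
        linear_combination h2
      have h2 : (a : ℂ) - (c : ℂ) * z = -(c : ℂ) * z + a := by ring
      rw [h2, div_mul_cancel₀ _ h1]
      ring
    have hcu := jm_den hdet hu
    have huN : 0 < (u + (N : ℂ)).im := by simpa using hu
    have hcuN := jm_den hdet huN
    have e1 : mr a b c d u = z := by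
      unfold mr
      rw [div_eq_iff hcu]
      have h1 : ((a : ℂ) - (c : ℂ) * z) * ((a : ℂ) * u + b - z * ((c : ℂ) * u + d)) = 0 := by
        linear_combination ((a : ℂ) - z * c) * hue
      have h2 := (mul_eq_zero.mp h1).resolve_left hden
      linear_combination h2
    have e2 : mr a b c d (u + (N : ℂ)) =
        (((1 - N * (a * c) / Δ : ℝ) : ℂ) * z + ((N * a ^ 2 / Δ : ℝ) : ℂ)) /
        (((-(N * c ^ 2 / Δ) : ℝ) : ℂ) * z + ((1 + N * (a * c) / Δ : ℝ) : ℂ)) := by
      have h3 : ((a : ℂ) * (u + N) + b) * ((a : ℂ) - (c : ℂ) * z) =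
          (Δ - a * c * N) * z + a ^ 2 * N := by
        rw [hΔe]
        linear_combination (a : ℂ) * hue
      have h4 : ((c : ℂ) * (u + N) + d) * ((a : ℂ) - (c : ℂ) * z) =
          -(c ^ 2 * N) * z + (Δ + a * c * N) := by
        rw [hΔe]
        linear_combination (c : ℂ) * hue
      have h5 : -((c : ℂ) ^ 2 * N) * z + (Δ + a * c * N) ≠ 0 := by
        rw [← h4]
        exact mul_ne_zero hcuN hden
      have h6 : (((1 - N * (a * c) / Δ : ℝ) : ℂ) * z + ((N * a ^ 2 / Δ : ℝ) : ℂ)) =
          ((Δ - a * c * N) * z + a ^ 2 * N) / Δ := by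
        push_cast
        field_simp
      have h7 : (((-(N * c ^ 2 / Δ) : ℝ) : ℂ) * z + ((1 + N * (a * c) / Δ : ℝ) : ℂ)) =
          (-((c : ℂ) ^ 2 * N) * z + (Δ + a * c * N)) / Δ := by
        push_cast
        field_simp
      unfold mr
      rw [h6, h7, div_div_div_cancel_right₀ hΔc, ← h3, ← h4, mul_div_mul_right _ _ hden]
    rw [← e2, ← hkey u hu, e1]
  obtain ⟨p, q, r, s, hp, hq, hr, hs⟩ := jinv _ _ _ _ (by field_simp; ring) hinv
  refine ⟨(1 - p) / N, q / N, -r / N, ?_, ?_, ?_⟩
  · rw [← hΔ]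
    push_cast
    rw [← hp]
    field_simp
    ring
  · rw [← hΔ]
    push_cast
    rw [← hq]
    field_simp
  · rw [← hΔ]
    push_cast
    rw [← hr]
    field_simp

theorem jmod (a b c d : ℝ) (hdet : 0 < a * d - b * c) (P : MvPolynomial (Fin 2) ℂ) (hP : P ≠ 0)
    (w : ℂ) (hw : 0 < w.im)
    (h : ∀ᶠ z in 𝓝 w, MvPolynomial.eval ![jf z, jf (((a : ℂ) * z + b) / ((c : ℂ) * z + d))] P = 0) :
    ∃ (lam : ℝ) (A B C D : ℚ), lam ≠ 0 ∧ a = lam * A ∧ b = lam * B ∧ c = lam * C ∧ d = lam * D := by
  have h1 := jm_all hdet P w hw h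
  obtain ⟨x, y, t, hx, hy, ht⟩ := jm_step hdet P hP h1
  have hdet' : 0 < b * (-c) - (-a) * d := by
    have : b * (-c) - (-a) * d = a * d - b * c := by ring
    rw [this]
    exact hdet
  have h2 : ∀ z : ℂ, 0 < z.im → MvPolynomial.eval ![jf z, jf (mr b (-a) d (-c) z)] P = 0 := by
    intro z hz
    have hz0 : z ≠ 0 := by
      intro h0
      rw [h0] at hz
      simp at hz
    have h3 : 0 < (-1 / z).im := by
      have h4 : (-1 / z).im = z.im / Complex.normSq z := by
        rw [Complex.div_im]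
        simp
        ring
      rw [h4]
      exact div_pos hz (Complex.normSq_pos.mpr hz0)
    have h5 := h1 (-1 / z) h3
    have h6 : jf (-1 / z) = jf z := by
      have h7 := jf_sl 0 (-1) 1 0 (by ring) hz
      simpa using h7
    have h8 : mr a b c d (-1 / z) = mr b (-a) d (-c) z := by
      unfold mr
      rw [← mul_div_mul_right _ _ hz0]
      congr 1
      · push_cast
        field_simp
        ring
      · push_cast
        field_simp
        ring
    rwa [h6, h8] at h5
  obtain ⟨x', y', t', hx', hy', ht'⟩ := jm_step hdet' P hP h2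
  obtain ⟨Δ, hΔ⟩ : ∃ Δ : ℝ, Δ = a * d - b * c := ⟨_, rfl⟩
  have hΔ0 : 0 < Δ := by rw [hΔ]; exact hdet
  have e0 : b * (-c) - (-a) * d = Δ := by rw [hΔ]; ring
  rw [e0] at hx' hy' ht'
  rw [← hΔ] at hx hy ht
  have hne := hΔ0.ne'
  have hac : a * c = Δ * x := by rw [← hx]; field_simp
  have haa : a ^ 2 = Δ * y := by rw [← hy]; field_simp
  have hcc : c ^ 2 = Δ * t := by rw [← ht]; field_simp
  have hbd : b * d = Δ * x' := by rw [← hx']; field_simp
  have hbb : b ^ 2 = Δ * y' := by rw [← hy']; field_simp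
  have hdd : d ^ 2 = Δ * t' := by rw [← ht']; field_simp
  have hab : a * b = Δ * (y * x' - x * y') := by
    have h3 : Δ * (a * b) = Δ * (Δ * (y * x' - x * y')) := by
      linear_combination (a * b) * hΔ + (b * d) * haa + (Δ * y) * hbd - (b ^ 2) * hac -
        (Δ * x) * hbb
    exact mul_left_cancel₀ hne h3
  have had : a * d = Δ * (y * t' - x * x') := by
    have h3 : Δ * (a * d) = Δ * (Δ * (y * t' - x * x')) := by
      linear_combination (a * d) * hΔ + (d ^ 2) * haa + (Δ * y) * hdd - (b * d) * hac -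
        (Δ * x) * hbd
    exact mul_left_cancel₀ hne h3
  by_cases ha : a = 0
  · have hbc : b * c = -Δ := by rw [hΔ, ha]; ring
    have hb : b ≠ 0 := by
      intro h0
      rw [h0, zero_mul] at hbc
      linarith
    have hy0 : (y' : ℝ) ≠ 0 := by
      intro h0
      rw [h0, mul_zero] at hbb
      exact hb (pow_eq_zero_iff two_ne_zero |>.mp hbb)
    refine ⟨b, 0, 1, -1 / y', x' / y', hb, by simp [ha], by simp, ?_, ?_⟩
    · apply mul_left_cancel₀ hb
      push_cast
      rw [hbc]
      field_simp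
      linear_combination hbb
    · apply mul_left_cancel₀ hb
      push_cast
      rw [hbd]
      field_simp
      linear_combination (-(x' : ℝ)) * hbb
  · have hy0 : (y : ℝ) ≠ 0 := by
      intro h0
      rw [h0, mul_zero] at haa
      exact ha (pow_eq_zero_iff two_ne_zero |>.mp haa)
    refine ⟨a, 1, (y * x' - x * y') / y, x / y, (y * t' - x * x') / y, ha, by simp, ?_, ?_, ?_⟩
    · apply mul_left_cancel₀ ha
      push_cast
      rw [hab]
      field_simp
      linear_combination (-((y : ℝ) * x' - x * y')) * haa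
    · apply mul_left_cancel₀ ha
      push_cast
      rw [hac]
      field_simp
      linear_combination (-(x : ℝ)) * haa
    · apply mul_left_cancel₀ ha
      push_cast
      rw [had]
      field_simp
      linear_combination (-((y : ℝ) * t' - x * x')) * haa

end Pool.Agent.Lib.MSF
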