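import Pool.Agent.Lib.MSF.GDefs

set_option autoImplicit false

/-!
# MOB.A : the real locus of a Moebius transformation (about 120 lines; from GDefs)

For real `u`, `him g u = Im(a c̄) u² + Im(a d̄ + b c̄) u + Im(b d̄)` (`g = [[a,b],[c,d]]`).
Either this real polynomial is not zero: finitely many `u` (`Polynomial.rootSet_finite` or `card_roots`); or
`Im(a c̄) = Im(a d̄ + b c̄) = Im(b d̄) = 0`. Then `g = lam • (real matrix)`. Case `c ≠ 0`: put
`A = a c̄`, `N = c c̄ > 0` (real), `e = d c̄`, `f = b c̄`. `a d̄ N = A ē`, `b c̄ N = N f`, `b d̄ N = f ē`, so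
`- A Im e + N Im f = 0` and `Im f Re e - Re f Im e = 0`. If `Im e ≠ 0` then `A = N Im f/Im e`,
`Re f = Im f Re e/Im e`, hence `(a d - b c) c̄² = A e - f N = N (Im f/Im e · e - f) = 0`, contradiction to
`det g ≠ 0`. So `Im e = 0`, `Im f = 0`, and `c̄ g` is real, `lam = 1/c̄`. Case `c = 0`: `d ≠ 0`, `a d̄` and
`b d̄` are real, `lam = 1/d̄`.
-/

noncomputable section

namespace Pool.Agent.Lib.MSF

open Topology Pool.Agent.Lib.MP5e

private theorem moba_him (g : Matrix (Fin 2) (Fin 2) ℂ) (u : ℂ) (hu : u.im = 0) :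
    him g u = ((g 0 0).im * (g 1 0).re - (g 0 0).re * (g 1 0).im) * u.re ^ 2 +
      ((g 0 0).im * (g 1 1).re - (g 0 0).re * (g 1 1).im +
        ((g 0 1).im * (g 1 0).re - (g 0 1).re * (g 1 0).im)) * u.re +
      ((g 0 1).im * (g 1 1).re - (g 0 1).re * (g 1 1).im) := by
  unfold him
  simp only [Complex.mul_im, Complex.add_re, Complex.add_im, Complex.mul_re, Complex.conj_re,
    Complex.conj_im, hu]
  ring

/-- a matrix all entries of which are real after multiplication by `s ≠ 0` -/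
private theorem moba_real (g : Matrix (Fin 2) (Fin 2) ℂ) (s : ℂ) (hs : s ≠ 0)
    (h : ∀ i j, (s * g i j).im = 0) :
    ∃ (lam : ℂ) (a b c d : ℝ), lam ≠ 0 ∧ g = lam • !![(a : ℂ), b; c, d] := by
  have h1 : ∀ i j, ((s * g i j).re : ℂ) = s * g i j := by
    intro i j
    apply Complex.ext
    · simp
    · rw [Complex.ofReal_im, h]
  have h2 : ∀ i j, g i j = s⁻¹ * ((s * g i j).re : ℂ) := by
    intro i j
    rw [h1, inv_mul_cancel_left₀ hs]
  refine ⟨s⁻¹, (s * g 0 0).re, (s * g 0 1).re, (s * g 1 0).re, (s * g 1 1).re,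
    inv_ne_zero hs, ?_⟩
  ext i j
  fin_cases i <;> fin_cases j
  · exact h2 0 0
  · exact h2 0 1
  · exact h2 1 0
  · exact h2 1 1

private theorem moba_poly (α β γ : ℝ) (h : Polynomial.C α * Polynomial.X ^ 2 +
    Polynomial.C β * Polynomial.X + Polynomial.C γ = 0) : α = 0 ∧ β = 0 ∧ γ = 0 := by
  have h2 := congrArg (fun p => Polynomial.coeff p 2) h
  have h1 := congrArg (fun p => Polynomial.coeff p 1) h
  have h0 := congrArg (fun p => Polynomial.coeff p 0) h
  simp [Polynomial.coeff_C] at h2 h1 h0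
  exact ⟨h2, h1, h0⟩

theorem real_or_fin (g : Matrix (Fin 2) (Fin 2) ℂ) (hdet : g.det ≠ 0) :
    {u : ℂ | u.im = 0 ∧ him g u = 0}.Finite ∨
      ∃ (lam : ℂ) (a b c d : ℝ), lam ≠ 0 ∧ g = lam • !![(a : ℂ), b; c, d] := by
  obtain ⟨a1, ha1⟩ : ∃ x, x = (g 0 0).re := ⟨_, rfl⟩
  obtain ⟨a2, ha2⟩ : ∃ x, x = (g 0 0).im := ⟨_, rfl⟩
  obtain ⟨b1, hb1⟩ : ∃ x, x = (g 0 1).re := ⟨_, rfl⟩
  obtain ⟨b2, hb2⟩ : ∃ x, x = (g 0 1).im := ⟨_, rfl⟩
  obtain ⟨c1, hc1⟩ : ∃ x, x = (g 1 0).re := ⟨_, rfl⟩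
  obtain ⟨c2, hc2⟩ : ∃ x, x = (g 1 0).im := ⟨_, rfl⟩
  obtain ⟨d1, hd1⟩ : ∃ x, x = (g 1 1).re := ⟨_, rfl⟩
  obtain ⟨d2, hd2⟩ : ∃ x, x = (g 1 1).im := ⟨_, rfl⟩
  have hhim : ∀ u : ℂ, u.im = 0 → him g u = (a2 * c1 - a1 * c2) * u.re ^ 2 +
      (a2 * d1 - a1 * d2 + (b2 * c1 - b1 * c2)) * u.re + (b2 * d1 - b1 * d2) := by
    intro u hu
    rw [moba_him g u hu, ha1, ha2, hb1, hb2, hc1, hc2, hd1, hd2]
  by_cases h0 : a2 * c1 - a1 * c2 = 0 ∧ a2 * d1 - a1 * d2 + (b2 * c1 - b1 * c2) = 0 ∧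
      b2 * d1 - b1 * d2 = 0
  · right
    obtain ⟨hα, hβ, hγ⟩ := h0
    rw [Matrix.det_fin_two] at hdet
    by_cases hc : g 1 0 = 0
    · have hd : g 1 1 ≠ 0 := by
        intro hd
        apply hdet
        rw [hc, hd]
        ring
      have hc1' : c1 = 0 := by rw [hc1, hc]; rfl
      have hc2' : c2 = 0 := by rw [hc2, hc]; rfl
      rw [hc1', hc2'] at hβ
      refine moba_real g ((starRingEnd ℂ) (g 1 1)) ((map_ne_zero _).2 hd) ?_
      intro i j
      fin_cases i <;> fin_cases j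
      · show ((starRingEnd ℂ) (g 1 1) * g 0 0).im = 0
        rw [Complex.mul_im, Complex.conj_re, Complex.conj_im, ← ha1, ← ha2, ← hd1, ← hd2]
        linear_combination hβ
      · show ((starRingEnd ℂ) (g 1 1) * g 0 1).im = 0
        rw [Complex.mul_im, Complex.conj_re, Complex.conj_im, ← hb1, ← hb2, ← hd1, ← hd2]
        linear_combination hγ
      · show ((starRingEnd ℂ) (g 1 1) * g 1 0).im = 0
        rw [hc, mul_zero]
        rfl
      · show ((starRingEnd ℂ) (g 1 1) * g 1 1).im = 0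
        rw [Complex.mul_im, Complex.conj_re, Complex.conj_im]
        ring
    · have hN : 0 < c1 ^ 2 + c2 ^ 2 := by
        rcases lt_or_eq_of_le (add_nonneg (sq_nonneg c1) (sq_nonneg c2)) with h | h
        · exact h
        · exfalso
          apply hc
          have h1 : c1 = 0 := by nlinarith [sq_nonneg c1, sq_nonneg c2]
          have h2 : c2 = 0 := by nlinarith [sq_nonneg c1, sq_nonneg c2]
          apply Complex.ext
          · rw [← hc1, h1]; rfl
          · rw [← hc2, h2]; rfl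
      have he : d2 * c1 - d1 * c2 = 0 := by
        by_contra he
        have hz : (g 0 0 * g 1 1 - g 0 1 * g 1 0) * (starRingEnd ℂ) (g 1 0) ^ 2 = 0 := by
          have hre : ((g 0 0 * g 1 1 - g 0 1 * g 1 0) * (starRingEnd ℂ) (g 1 0) ^ 2).re *
              (d2 * c1 - d1 * c2) = 0 := by
            rw [pow_two]
            simp only [Complex.mul_re, Complex.mul_im, Complex.sub_re, Complex.sub_im,
              Complex.conj_re, Complex.conj_im]
            rw [← ha1, ← ha2, ← hb1, ← hb2, ← hc1, ← hc2, ← hd1, ← hd2]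
            linear_combination ((d1 * c1 + d2 * c2) ^ 2 - (d2 * c1 - d1 * c2) ^ 2) * hα -
              (c1 ^ 2 + c2 ^ 2) * (d1 * c1 + d2 * c2) * hβ + (c1 ^ 2 + c2 ^ 2) ^ 2 * hγ
          have him' : ((g 0 0 * g 1 1 - g 0 1 * g 1 0) * (starRingEnd ℂ) (g 1 0) ^ 2).im = 0 := by
            rw [pow_two]
            simp only [Complex.mul_re, Complex.mul_im, Complex.sub_re, Complex.sub_im,
              Complex.conj_re, Complex.conj_im]
            rw [← ha1, ← ha2, ← hb1, ← hb2, ← hc1, ← hc2, ← hd1, ← hd2]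
            linear_combination 2 * (d1 * c1 + d2 * c2) * hα - (c1 ^ 2 + c2 ^ 2) * hβ
          apply Complex.ext
          · exact (mul_eq_zero.1 hre).resolve_right he
          · exact him'
        have hcc : (starRingEnd ℂ) (g 1 0) ^ 2 ≠ 0 := pow_ne_zero 2 ((map_ne_zero _).2 hc)
        exact hdet ((mul_eq_zero.1 hz).resolve_right hcc)
      have hf : b2 * c1 - b1 * c2 = 0 := by
        have h1 : (c1 ^ 2 + c2 ^ 2) * (b2 * c1 - b1 * c2) = 0 := by
          linear_combination (c1 ^ 2 + c2 ^ 2) * hβ - (d1 * c1 + d2 * c2) * hα +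
            (a1 * c1 + a2 * c2) * he
        exact (mul_eq_zero.1 h1).resolve_left hN.ne'
      refine moba_real g ((starRingEnd ℂ) (g 1 0)) ((map_ne_zero _).2 hc) ?_
      intro i j
      fin_cases i <;> fin_cases j
      · show ((starRingEnd ℂ) (g 1 0) * g 0 0).im = 0
        rw [Complex.mul_im, Complex.conj_re, Complex.conj_im, ← ha1, ← ha2, ← hc1, ← hc2]
        linear_combination hα
      · show ((starRingEnd ℂ) (g 1 0) * g 0 1).im = 0
        rw [Complex.mul_im, Complex.conj_re, Complex.conj_im, ← hb1, ← hb2, ← hc1, ← hc2]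
        linear_combination hf
      · show ((starRingEnd ℂ) (g 1 0) * g 1 0).im = 0
        rw [Complex.mul_im, Complex.conj_re, Complex.conj_im]
        ring
      · show ((starRingEnd ℂ) (g 1 0) * g 1 1).im = 0
        rw [Complex.mul_im, Complex.conj_re, Complex.conj_im, ← hc1, ← hc2, ← hd1, ← hd2]
        linear_combination he
  · left
    obtain ⟨p, hp⟩ : ∃ p : Polynomial ℝ, p = Polynomial.C (a2 * c1 - a1 * c2) * Polynomial.X ^ 2 +
        Polynomial.C (a2 * d1 - a1 * d2 + (b2 * c1 - b1 * c2)) * Polynomial.X +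
        Polynomial.C (b2 * d1 - b1 * d2) := ⟨_, rfl⟩
    have hp0 : p ≠ 0 := by
      intro hp0
      apply h0
      rw [hp] at hp0
      exact moba_poly _ _ _ hp0
    have hfin : {x : ℝ | p.IsRoot x}.Finite := Polynomial.finite_setOfPred_isRoot hp0
    refine (hfin.image (fun x : ℝ => (x : ℂ))).subset ?_
    rintro u ⟨hu, hh⟩
    refine ⟨u.re, ?_, ?_⟩
    · show p.eval u.re = 0
      rw [hhim u hu] at hh
      rw [hp]
      simp only [Polynomial.eval_add, Polynomial.eval_mul, Polynomial.eval_pow, Polynomial.eval_C,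
        Polynomial.eval_X]
      exact hh
    · apply Complex.ext
      · simp
      · simp [hu]

end Pool.Agent.Lib.MSF
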