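import Pool.Agent.Lib.MSF.JMod
import Pool.Agent.Lib.MSF.MobA
import Pool.Agent.Lib.MP_5e64e7_nt.OOne

set_option autoImplicit false

/-!
# MOB.REL : algebraic relations between `j(z)` and `j(gz)`, `g` complex (about 130 lines; JMod, MobA, OOne)

`real_or_fin`. In the first case `oone` with `n = 2`, `g₀ = 1`, `g₁ = g` (`him 1 u = u.im`, `mob 1 u = u`; the
set in `hfin` is the set of `real_or_fin` up to the order of the two conditions; `0 < him g w` from
`0 < (mob g w).im`, `(N/E).im = (N Ē).im/|E|²`) and the polynomial `P` renamed by `0 ↦ some (0, 0)`,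
`1 ↦ some (1, 0)` (`J4 z 1 = jf z`) gives `P = 0`. In the second case
`mob g z = (a z + b)/(c z + d)` with real `a, b, c, d`; `a d - b c > 0` because `w` and `mob g w` are in the
upper half plane (`Im = (a d - b c) Im w/|c w + d|²`); `jmod` gives `a = lam A, ...`, `A D - B C > 0`, and
`mob g z = (A z + B)/(C z + D)`.
-/

noncomputable section

namespace Pool.Agent.Lib.MSF

open Topology Pool.Agent.Lib.MP5e

private theorem div_im' (N E : ℂ) : (N / E).im = (N * (starRingEnd ℂ) E).im / Complex.normSq E := by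
  rw [Complex.div_im]
  simp only [Complex.mul_im, Complex.conj_re, Complex.conj_im]
  ring

private theorem him_pos (g : Matrix (Fin 2) (Fin 2) ℂ) (w : ℂ) (h : 0 < (mob g w).im) :
    0 < him g w := by
  unfold mob at h
  rw [div_im'] at h
  have h2 : 0 ≤ Complex.normSq (g 1 0 * w + g 1 1) := Complex.normSq_nonneg _
  unfold him
  by_contra h3
  push Not at h3
  have := div_nonpos_of_nonpos_of_nonneg h3 h2
  linarith

private theorem him_one (u : ℂ) : him 1 u = u.im := by
  unfold him
  simp

private theorem mob_one (u : ℂ) : mob 1 u = u := by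
  unfold mob
  simp

private theorem fin_case (g : Matrix (Fin 2) (Fin 2) ℂ) (hdet : g.det ≠ 0) (w : ℂ) (hw : 0 < w.im)
    (hgw : 0 < (mob g w).im) (P : MvPolynomial (Fin 2) ℂ)
    (h : ∀ᶠ z in 𝓝 w, MvPolynomial.eval ![jf z, jf (mob g z)] P = 0)
    (hf : {u : ℂ | u.im = 0 ∧ him g u = 0}.Finite) : P = 0 := by
  have hinj : Function.Injective (![some (0, 0), some (1, 0)] : Fin 2 → Option (Fin 2 × Fin 3)) := by
    intro x y hxy
    fin_cases x <;> fin_cases y <;> simp_all
  have key := oone 2 ![1, g] ?_ w ?_ ?_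
    (MvPolynomial.rename (![some (0, 0), some (1, 0)] : Fin 2 → Option (Fin 2 × Fin 3)) P) ?_
  · exact (map_eq_zero_iff _ (MvPolynomial.rename_injective _ hinj)).mp key
  · intro k
    fin_cases k
    · simp
    · exact hdet
  · intro k
    fin_cases k
    · show 0 < him 1 w
      rw [him_one]
      exact hw
    · exact him_pos g w hgw
  · intro k l hkl
    fin_cases k <;> fin_cases l
    · exact absurd rfl hkl
    · show {u : ℂ | him 1 u = 0 ∧ him g u = 0}.Finite
      simp only [him_one]
      exact hf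
    · show {u : ℂ | him g u = 0 ∧ him 1 u = 0}.Finite
      simp only [him_one]
      refine hf.subset ?_
      rintro u ⟨h1, h2⟩
      exact ⟨h2, h1⟩
    · exact absurd rfl hkl
  · filter_upwards [h] with u hu
    rw [MvPolynomial.eval_rename, ← hu]
    congr 2
    funext i
    fin_cases i
    · show J4 (mob 1 u) 1 = jf u
      rw [mob_one]
      rfl
    · rfl

private theorem mob_real (lam : ℂ) (a b c d : ℝ) (hl : lam ≠ 0) (z : ℂ) :
    mob (lam • !![(a : ℂ), b; c, d]) z = ((a : ℂ) * z + b) / ((c : ℂ) * z + d) := by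
  unfold mob
  show (lam * (a : ℂ) * z + lam * b) / (lam * (c : ℂ) * z + lam * d) = _
  rw [mul_assoc, mul_assoc, ← mul_add, ← mul_add, mul_div_mul_left _ _ hl]

private theorem det_pos (a b c d : ℝ) (w : ℂ) (hw : 0 < w.im)
    (h : 0 < (((a : ℂ) * w + b) / ((c : ℂ) * w + d)).im) : 0 < a * d - b * c := by
  rw [div_im'] at h
  have h2 : 0 ≤ Complex.normSq ((c : ℂ) * w + d) := Complex.normSq_nonneg _
  have e : (((a : ℂ) * w + b) * (starRingEnd ℂ) ((c : ℂ) * w + d)).im = (a * d - b * c) * w.im := by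
    simp only [map_add, map_mul, Complex.conj_ofReal, Complex.mul_im, Complex.add_im, Complex.add_re,
      Complex.mul_re, Complex.ofReal_re, Complex.ofReal_im, Complex.conj_re, Complex.conj_im]
    ring
  rw [e] at h
  by_contra h3
  push Not at h3
  have h4 : (a * d - b * c) * w.im ≤ 0 := mul_nonpos_of_nonpos_of_nonneg h3 hw.le
  have := div_nonpos_of_nonpos_of_nonneg h4 h2
  linarith

theorem mob_rel (g : Matrix (Fin 2) (Fin 2) ℂ) (hdet : g.det ≠ 0) (w : ℂ) (hw : 0 < w.im)
    (hgw : 0 < (mob g w).im) (P : MvPolynomial (Fin 2) ℂ) (hP : P ≠ 0)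
    (h : ∀ᶠ z in 𝓝 w, MvPolynomial.eval ![jf z, jf (mob g z)] P = 0) :
    ∃ A B C D : ℚ, 0 < A * D - B * C ∧ ∀ z : ℂ, 0 < z.im →
      mob g z = ((A : ℂ) * z + B) / ((C : ℂ) * z + D) := by
  rcases real_or_fin g hdet with hf | ⟨lam, a, b, c, d, hl, hg⟩
  · exact absurd (fin_case g hdet w hw hgw P h hf) hP
  · have hm : ∀ z : ℂ, mob g z = ((a : ℂ) * z + b) / ((c : ℂ) * z + d) := by
      intro z
      rw [hg]
      exact mob_real lam a b c d hl z
    have hd : 0 < a * d - b * c := by
      rw [hm] at hgw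
      exact det_pos a b c d w hw hgw
    obtain ⟨l, A, B, C, D, hl0, h1, h2, h3, h4⟩ := jmod a b c d hd P hP w hw (by
      filter_upwards [h] with z hz
      rw [← hm z]
      exact hz)
    have e : a * d - b * c = l ^ 2 * ((A * D - B * C : ℚ) : ℝ) := by
      rw [h1, h2, h3, h4]
      push_cast
      ring
    have hpos : 0 < A * D - B * C := by
      rw [e] at hd
      have h5 : 0 < l ^ 2 := by positivity
      have h6 := (mul_pos_iff_of_pos_left h5).mp hd
      exact_mod_cast h6
    refine ⟨A, B, C, D, hpos, fun z _ => ?_⟩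
    have hl' : (l : ℂ) ≠ 0 := by exact_mod_cast hl0
    have e1 : (a : ℂ) = l * A := by rw [h1]; push_cast; rfl
    have e2 : (b : ℂ) = l * B := by rw [h2]; push_cast; rfl
    have e3 : (c : ℂ) = l * C := by rw [h3]; push_cast; rfl
    have e4 : (d : ℂ) = l * D := by rw [h4]; push_cast; rfl
    rw [hm, e1, e2, e3, e4, mul_assoc, mul_assoc, ← mul_add, ← mul_add, mul_div_mul_left _ _ hl']

end Pool.Agent.Lib.MSF
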