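import Pool.Agent.Lib.MSF.Der
import Pool.Agent.Lib.MSF.EtaA

set_option autoImplicit false

/-!
# PAIR.M : the matrix `Phi_l g Phi_k⁻¹` (about 140 lines; from Der, EtaA)

`pair_der`: `(Phi').map δ = - Phi' (Phi).map δ Phi' = - δ x • Phi' A - η Phi'` (differentiate
`Phi * Phi' = 1`; or check the entries), `(cmat g).map δ = 0`, Leibniz rule for products of matrices, and
`Phi_l (η_l g - g η_k) Phi_k' = 0` by `hg`.
`pair_mem`: `der_kill` for `{x_k, x_l}` and `pair_der`.
`pair_00`, `pair_01`: computation. `pair_det`: determinants of `Phi`, `Phi'` are `1`,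
`det (cmat g) = algebraMap (det g)` (`Matrix.det_mul`, `RingHom.map_det`).
-/

noncomputable section

namespace Pool.Agent.Lib.MSF

variable {C F : Type} [Field C] [Field F] [Algebra C F] {n : ℕ}

private theorem map_mul_der (δ : Derivation C F F) (X Y : Matrix (Fin 2) (Fin 2) F) :
    (X * Y).map δ = X.map δ * Y + X * Y.map δ := by
  ext i j
  simp only [Matrix.map_apply, Matrix.add_apply, Matrix.mul_apply, Fin.sum_univ_two, map_add,
    Derivation.leibniz, smul_eq_mul]
  ring

private theorem map_one_der (δ : Derivation C F F) :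
    (1 : Matrix (Fin 2) (Fin 2) F).map δ = 0 := by
  ext i j
  by_cases h : i = j <;> simp [h]

private theorem map_cmat_der (δ : Derivation C F F) (g : Matrix (Fin 2) (Fin 2) C) :
    (cmat g : Matrix (Fin 2) (Fin 2) F).map δ = 0 := by
  ext i j
  simp [cmat]

private theorem map_inv_der (z x a b q : F) (ha : a ≠ 0) (δ : Derivation C F F) :
    (Phi' z a b).map δ = -(δ x • (Phi' z a b * AA q)) - eta z x a b q δ * Phi' z a b := by
  have h1 := Phi'_mul z a b ha
  have h2 := Phi_mul z a b ha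
  have h3 : (Phi' z a b).map δ * Phi z a b + Phi' z a b * (Phi z a b).map δ = 0 := by
    rw [← map_mul_der, h1, map_one_der]
  rw [Phi_der z x a b q ha δ] at h3
  have h4 : (Phi' z a b).map δ * (Phi z a b * Phi' z a b)
      + Phi' z a b * (δ x • (AA q * Phi z a b) + Phi z a b * eta z x a b q δ) * Phi' z a b = 0 := by
    rw [← Matrix.mul_assoc, ← Matrix.add_mul, h3, Matrix.zero_mul]
  rw [h2, Matrix.mul_one] at h4
  have h5 : Phi' z a b * (δ x • (AA q * Phi z a b) + Phi z a b * eta z x a b q δ) * Phi' z a b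
      = δ x • (Phi' z a b * AA q) + eta z x a b q δ * Phi' z a b := by
    have e1 : Phi' z a b * (δ x • (AA q * Phi z a b)) * Phi' z a b
        = δ x • (Phi' z a b * AA q * (Phi z a b * Phi' z a b)) := by
      simp only [Matrix.mul_smul, Matrix.smul_mul, Matrix.mul_assoc]
    have e2 : Phi' z a b * (Phi z a b * eta z x a b q δ) * Phi' z a b
        = (Phi' z a b * Phi z a b) * eta z x a b q δ * Phi' z a b := by
      simp only [Matrix.mul_assoc]
    rw [Matrix.mul_add, Matrix.add_mul, e1, e2, h1, h2, Matrix.mul_one, Matrix.one_mul]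
  rw [h5] at h4
  have h6 := eq_neg_of_add_eq_zero_left h4
  rw [h6]
  abel

theorem pair_der (S : FDat C F n) (k l : Fin n) (g : Matrix (Fin 2) (Fin 2) C)
    (hg : ∀ δ : Derivation C F F, S.eta l δ * cmat g = cmat g * S.eta k δ)
    (δ : Derivation C F F) :
    (S.M2 k l g).map δ =
      δ (S.x l) • (AA (S.q l) * S.M2 k l g) - δ (S.x k) • (S.M2 k l g * AA (S.q k)) := by
  have hgδ := hg δ
  unfold FDat.eta at hgδ
  unfold FDat.M2
  rw [map_mul_der, map_mul_der, map_cmat_der, Matrix.mul_zero, add_zero,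
    Phi_der (S.z l) (S.x l) (S.a l) (S.b l) (S.q l) (S.ha l) δ,
    map_inv_der (S.z k) (S.x k) (S.a k) (S.b k) (S.q k) (S.ha k) δ]
  set P := Phi (S.z l) (S.a l) (S.b l)
  set P' := Phi' (S.z k) (S.a k) (S.b k)
  set el := eta (S.z l) (S.x l) (S.a l) (S.b l) (S.q l) δ
  set ek := eta (S.z k) (S.x k) (S.a k) (S.b k) (S.q k) δ
  have e1 : (δ (S.x l) • (AA (S.q l) * P) + P * el) * cmat g * P'
      = δ (S.x l) • (AA (S.q l) * (P * cmat g * P')) + P * (el * cmat g) * P' := by
    simp only [Matrix.add_mul, Matrix.smul_mul, Matrix.mul_assoc]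
  have e2 : P * cmat g * (-(δ (S.x k) • (P' * AA (S.q k))) - ek * P')
      = -(δ (S.x k) • (P * cmat g * P' * AA (S.q k))) - P * (cmat g * ek) * P' := by
    simp only [Matrix.mul_sub, Matrix.mul_neg, Matrix.mul_smul, Matrix.mul_assoc]
  rw [e1, e2, hgδ]
  abel

theorem pair_mem [CharZero C] (S : FDat C F n) (k l : Fin n) (g : Matrix (Fin 2) (Fin 2) C)
    (hg : ∀ δ : Derivation C F F, S.eta l δ * cmat g = cmat g * S.eta k δ) (i j : Fin 2) :
    S.M2 k l g i j ∈ ACl C {S.x k, S.x l} := by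
  apply der_kill
  intro δ hδ
  have h1 : δ (S.x k) = 0 := hδ _ (by simp)
  have h2 : δ (S.x l) = 0 := hδ _ (by simp)
  have h3 := pair_der S k l g hg δ
  rw [h1, h2, zero_smul, zero_smul, sub_zero] at h3
  have h4 := congrFun (congrFun h3 i) j
  simpa using h4

theorem pair_01 (S : FDat C F n) (k l : Fin n) (g : Matrix (Fin 2) (Fin 2) C) :
    S.M2 k l g 0 1 = S.a k * S.a l * (-(S.z k) *
      (algebraMap C F (g 0 0) + S.z l * algebraMap C F (g 1 0)) +
      (algebraMap C F (g 0 1) + S.z l * algebraMap C F (g 1 1))) := by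
  simp only [FDat.M2, Phi, Phi', cmat, Matrix.mul_apply, Fin.sum_univ_two, Matrix.of_apply,
    Matrix.cons_val', Matrix.cons_val_zero, Matrix.cons_val_one, Matrix.map_apply,
    Matrix.cons_val_fin_one]
  ring

theorem pair_00 (S : FDat C F n) (k l : Fin n) (g : Matrix (Fin 2) (Fin 2) C) :
    S.M2 k l g 0 0 = S.a l * (-(S.b k) * (-(S.z k) *
      (algebraMap C F (g 0 0) + S.z l * algebraMap C F (g 1 0)) +
      (algebraMap C F (g 0 1) + S.z l * algebraMap C F (g 1 1))) +
      (algebraMap C F (g 0 0) + S.z l * algebraMap C F (g 1 0)) / S.a k) := by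
  simp only [FDat.M2, Phi, Phi', cmat, Matrix.mul_apply, Fin.sum_univ_two, Matrix.of_apply,
    Matrix.cons_val', Matrix.cons_val_zero, Matrix.cons_val_one, Matrix.map_apply,
    Matrix.cons_val_fin_one]
  ring

theorem pair_det (S : FDat C F n) (k l : Fin n) (g : Matrix (Fin 2) (Fin 2) C) :
    (S.M2 k l g).det = algebraMap C F g.det := by
  have hl := S.ha l
  have hk := S.ha k
  have h1 : (Phi (S.z l) (S.a l) (S.b l)).det = 1 := by
    rw [Phi, Matrix.det_fin_two_of]
    field_simp
    ring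
  have h2 : (Phi' (S.z k) (S.a k) (S.b k)).det = 1 := by
    rw [Phi', Matrix.det_fin_two_of]
    field_simp
    ring
  have h3 : (cmat g : Matrix (Fin 2) (Fin 2) F).det = algebraMap C F g.det := by
    unfold cmat
    rw [RingHom.map_det]
    rfl
  unfold FDat.M2
  rw [Matrix.det_mul, Matrix.det_mul, h1, h2, h3]
  ring

end Pool.Agent.Lib.MSF
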