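import Mathlib

set_option autoImplicit false

/-!
# SL2.A : a proper subalgebra of `sl₂(C)` has a common eigenvector (about 130 lines; only Mathlib)

`W` a subspace of matrices of trace `0`, closed under commutators, and some matrix of trace `0` is not
in `W`. The form `tr (X Y)` is nondegenerate on the matrices of trace `0` (with
`X = [[p, q], [r, -p]]`, `Y = [[s, t], [u, -s]]` it is `2 p s + q u + r t`), so there is `B ≠ 0` of
trace `0` with `tr (B X) = 0` for all `X ∈ W` (`Submodule.exists_le_ker_of_notMem` / a nonzero linear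
functional vanishing on `W`, written in the coordinates `p, q, r`).
Case `det B = 0`: there is `v ≠ 0` with `B v = 0`, and `B² = 0` (Cayley-Hamilton, trace `0`), so
`im B = C v`: `B u = v` for some `u` independent of `v`. For `X ∈ W` write `X v = c v + e u`; then
`B X v = e v`; and `0 = tr (B X)`: in the basis `v, u` the matrix of `B` is `e₁₂`, `tr (B X) = X₂₁ = e`.
So `X v = c v`. (One may conjugate by a matrix `g` with `g⁻¹ B g = e₁₂`.)
Case `det B ≠ 0`: `B` has eigenvalues `λ, -λ`, `λ ≠ 0` (`IsAlgClosed.exists_pow_nat_eq` for `λ² = -det B`);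
in a basis of eigenvectors `B = λ diag(1, -1)`, so all `X ∈ W` have diagonal `(0, 0)`:
`X = [[0, q], [r, 0]]`. For `X, X' ∈ W` the commutator is `diag(q r' - q' r, ..)` and lies in `W`, so
`q r' = q' r`. If `W = 0` any `v`; otherwise fix `0 ≠ X₀ ∈ W`; all other `X ∈ W` are multiples of `X₀`
(proportional `(q, r)`), take an eigenvector of `X₀` (`Module.End.exists_eigenvalue` or solve
`v₂² q = r v₁²` by hand).
-/

noncomputable section

namespace Pool.Agent.Lib.MSF

private theorem s2a_eig {C : Type} [Field C] (X : Matrix (Fin 2) (Fin 2) C) (htr : X.trace = 0)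
    (a b : C) (hv : a ≠ 0 ∨ b ≠ 0)
    (hE : 2 * X 0 0 * a * b + X 0 1 * b ^ 2 - X 1 0 * a ^ 2 = 0) :
    ∃ c : C, X.mulVec ![a, b] = c • ![a, b] := by
  have h11 : X 1 1 = -X 0 0 := by
    rw [Matrix.trace_fin_two] at htr
    linear_combination htr
  have h0 : X.mulVec ![a, b] 0 = X 0 0 * a + X 0 1 * b := by
    simp [Matrix.mulVec, dotProduct, Fin.sum_univ_two]
  have h1 : X.mulVec ![a, b] 1 = X 1 0 * a + X 1 1 * b := by
    simp [Matrix.mulVec, dotProduct, Fin.sum_univ_two]
  by_cases ha : a = 0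
  · have hb : b ≠ 0 := by
      rcases hv with h | h
      · exact absurd ha h
      · exact h
    refine ⟨X 1 1, ?_⟩
    subst ha
    have h01 : X 0 1 = 0 := by
      have : X 0 1 * b ^ 2 = 0 := by linear_combination hE
      rcases mul_eq_zero.mp this with h | h
      · exact h
      · exact absurd h (pow_ne_zero 2 hb)
    funext i
    fin_cases i
    · change X.mulVec ![0, b] 0 = _
      rw [h0]
      simp [h01]
    · change X.mulVec ![0, b] 1 = _
      rw [h1]
      simp
  · refine ⟨(X 0 0 * a + X 0 1 * b) / a, ?_⟩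
    funext i
    fin_cases i
    · change X.mulVec ![a, b] 0 = _
      rw [h0]
      simp [ha]
    · change X.mulVec ![a, b] 1 = _
      rw [h1, h11]
      simp only [Pi.smul_apply, smul_eq_mul, Fin.mk_one, Matrix.cons_val_one, Matrix.cons_val_fin_one]
      rw [div_mul_eq_mul_div, eq_div_iff ha]
      linear_combination -hE

theorem sl2_borel {C : Type} [Field C] [IsAlgClosed C] [CharZero C]
    (W : Submodule C (Matrix (Fin 2) (Fin 2) C)) (htr : ∀ X ∈ W, X.trace = 0)
    (hbr : ∀ X ∈ W, ∀ Y ∈ W, X * Y - Y * X ∈ W)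
    (hne : ∃ X : Matrix (Fin 2) (Fin 2) C, X.trace = 0 ∧ X ∉ W) :
    ∃ v : Fin 2 → C, v ≠ 0 ∧ ∀ X ∈ W, ∃ c : C, X.mulVec v = c • v := by
  classical
  -- the linear functional
  obtain ⟨X₀, hX₀tr, hX₀⟩ := hne
  obtain ⟨φ, hφ0, hφW⟩ := Submodule.exists_le_ker_of_notMem hX₀
  have hφ : ∀ X ∈ W, φ X = 0 := fun X hX => hφW hX
  obtain ⟨α, hα⟩ : ∃ α : C, α = φ !![1, 0; 0, -1] := ⟨_, rfl⟩
  obtain ⟨β, hβ⟩ : ∃ β : C, β = φ !![0, 1; 0, 0] := ⟨_, rfl⟩
  obtain ⟨γ, hγ⟩ : ∃ γ : C, γ = φ !![0, 0; 1, 0] := ⟨_, rfl⟩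
  have hexp : ∀ X : Matrix (Fin 2) (Fin 2) C, X.trace = 0 →
      φ X = X 0 0 * α + X 0 1 * β + X 1 0 * γ := by
    intro X hX
    have h11 : X 1 1 = -X 0 0 := by
      rw [Matrix.trace_fin_two] at hX
      linear_combination hX
    have h1 : X = X 0 0 • !![1, 0; 0, -1] + X 0 1 • !![0, 1; 0, 0] + X 1 0 • !![0, 0; 1, 0] := by
      ext i j
      fin_cases i <;> fin_cases j <;> simp [h11]
    conv_lhs => rw [h1]
    rw [map_add, map_add, map_smul, map_smul, map_smul, ← hα, ← hβ, ← hγ]
    simp [smul_eq_mul]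
  have hn : ∀ X ∈ W, X 0 0 * α + X 0 1 * β + X 1 0 * γ = 0 := by
    intro X hX
    rw [← hexp X (htr X hX)]
    exact hφ X hX
  have hne0 : α ≠ 0 ∨ β ≠ 0 ∨ γ ≠ 0 := by
    by_contra hcon
    push Not at hcon
    apply hφ0
    rw [hexp X₀ hX₀tr, hcon.1, hcon.2.1, hcon.2.2]
    ring
  by_cases hdet : α ^ 2 + 4 * β * γ = 0
  · -- the nilpotent case
    obtain ⟨b, hb⟩ := IsAlgClosed.exists_pow_nat_eq β (n := 2) (by norm_num)
    obtain ⟨a, hab⟩ : ∃ a : C, a ^ 2 = -γ ∧ 2 * a * b = α := by
      obtain ⟨a, ha⟩ := IsAlgClosed.exists_pow_nat_eq (-γ) (n := 2) (by norm_num)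
      have h1 : (2 * a * b) ^ 2 = α ^ 2 := by
        have : (2 * a * b) ^ 2 = 4 * a ^ 2 * b ^ 2 := by ring
        rw [this, ha, hb]
        linear_combination -hdet
      rcases sq_eq_sq_iff_eq_or_eq_neg.mp h1 with h2 | h2
      · exact ⟨a, ha, h2⟩
      · exact ⟨-a, by rw [neg_sq, ha], by linear_combination -h2⟩
    have hab0 : a ≠ 0 ∨ b ≠ 0 := by
      by_contra hcon
      push Not at hcon
      obtain ⟨h1, h2⟩ := hab
      rcases hne0 with h | h | h
      · apply h
        rw [← h2, hcon.1]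
        ring
      · apply h
        rw [← hb, hcon.2]
        ring
      · apply h
        rw [hcon.1] at h1
        linear_combination h1
    refine ⟨![a, b], ?_, ?_⟩
    · intro h
      have h1 := congrFun h 0
      have h2 := congrFun h 1
      simp at h1 h2
      rcases hab0 with h3 | h3
      · exact h3 h1
      · exact h3 h2
    · intro X hX
      apply s2a_eig X (htr X hX) a b hab0
      have h1 := hn X hX
      rw [← hab.2, ← hb] at h1
      have h2 : γ = -a ^ 2 := by linear_combination hab.1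
      rw [h2] at h1
      linear_combination h1
  · -- all elements of `W` are proportional
    have hprop : ∀ X ∈ W, ∀ Y ∈ W, X 0 1 * Y 1 0 = X 1 0 * Y 0 1 ∧
        X 1 0 * Y 0 0 = X 0 0 * Y 1 0 ∧ X 0 0 * Y 0 1 = X 0 1 * Y 0 0 := by
      intro X hX Y hY
      have hx := hn X hX
      have hy := hn Y hY
      have hX11 : X 1 1 = -X 0 0 := by
        have := htr X hX
        rw [Matrix.trace_fin_two] at this
        linear_combination this
      have hY11 : Y 1 1 = -Y 0 0 := by
        have := htr Y hY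
        rw [Matrix.trace_fin_two] at this
        linear_combination this
      have hc := hn _ (hbr X hX Y hY)
      simp only [Matrix.sub_apply, Matrix.mul_apply, Fin.sum_univ_two, hX11, hY11] at hc
      obtain ⟨c0, hc0⟩ : ∃ c, c = X 0 1 * Y 1 0 - X 1 0 * Y 0 1 := ⟨_, rfl⟩
      obtain ⟨c1, hc1⟩ : ∃ c, c = X 1 0 * Y 0 0 - X 0 0 * Y 1 0 := ⟨_, rfl⟩
      obtain ⟨c2, hc2⟩ : ∃ c, c = X 0 0 * Y 0 1 - X 0 1 * Y 0 0 := ⟨_, rfl⟩
      have hcc : α * c0 + 2 * β * c2 + 2 * γ * c1 = 0 := by
        rw [hc0, hc1, hc2]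
        linear_combination hc
      have e1 : α * c1 = β * c0 := by
        rw [hc0, hc1]
        linear_combination (X 1 0) * hy - (Y 1 0) * hx
      have e2 : α * c2 = γ * c0 := by
        rw [hc0, hc2]
        linear_combination (Y 0 1) * hx - (X 0 1) * hy
      have e3 : β * c2 = γ * c1 := by
        rw [hc1, hc2]
        linear_combination (X 0 0) * hy - (Y 0 0) * hx
      have z0 : (α ^ 2 + 4 * β * γ) * c0 = 0 := by
        linear_combination α * hcc - 2 * β * e2 - 2 * γ * e1
      have z1 : (α ^ 2 + 4 * β * γ) * c1 = 0 := by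
        linear_combination β * hcc + α * e1 - 2 * β * e3
      have z2 : (α ^ 2 + 4 * β * γ) * c2 = 0 := by
        linear_combination γ * hcc + α * e2 + 2 * γ * e3
      have w0 := (mul_eq_zero.mp z0).resolve_left hdet
      have w1 := (mul_eq_zero.mp z1).resolve_left hdet
      have w2 := (mul_eq_zero.mp z2).resolve_left hdet
      rw [hc0] at w0
      rw [hc1] at w1
      rw [hc2] at w2
      exact ⟨sub_eq_zero.mp w0, sub_eq_zero.mp w1, sub_eq_zero.mp w2⟩
    by_cases hW : ∀ X ∈ W, X = 0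
    · refine ⟨![1, 0], ?_, ?_⟩
      · intro h
        have h1 := congrFun h 0
        simp at h1
      · intro X hX
        rw [hW X hX]
        exact ⟨0, by simp⟩
    · push Not at hW
      obtain ⟨Y, hY, hY0⟩ := hW
      have hY11 : Y 1 1 = -Y 0 0 := by
        have := htr Y hY
        rw [Matrix.trace_fin_two] at this
        linear_combination this
      -- an eigenvector of `Y`
      obtain ⟨a, b, hab0, hE⟩ : ∃ a b : C, (a ≠ 0 ∨ b ≠ 0) ∧
          2 * Y 0 0 * a * b + Y 0 1 * b ^ 2 - Y 1 0 * a ^ 2 = 0 := by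
        by_cases h10 : Y 1 0 = 0
        · exact ⟨1, 0, Or.inl one_ne_zero, by rw [h10]; ring⟩
        · obtain ⟨s, hs⟩ := IsAlgClosed.exists_pow_nat_eq (Y 0 0 ^ 2 + Y 0 1 * Y 1 0) (n := 2)
            (by norm_num)
          refine ⟨Y 0 0 + s, Y 1 0, Or.inr h10, ?_⟩
          linear_combination -(Y 1 0) * hs
      have hYne : Y 0 0 ≠ 0 ∨ Y 0 1 ≠ 0 ∨ Y 1 0 ≠ 0 := by
        by_contra hcon
        push Not at hcon
        apply hY0
        ext i j
        fin_cases i <;> fin_cases j <;> simp [hcon.1, hcon.2.1, hcon.2.2, hY11]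
      refine ⟨![a, b], ?_, ?_⟩
      · intro h
        have h1 := congrFun h 0
        have h2 := congrFun h 1
        simp at h1 h2
        rcases hab0 with h3 | h3
        · exact h3 h1
        · exact h3 h2
      · intro X hX
        apply s2a_eig X (htr X hX) a b hab0
        obtain ⟨p0, p1, p2⟩ := hprop X hX Y hY
        rcases hYne with h | h | h
        · have : Y 0 0 * (2 * X 0 0 * a * b + X 0 1 * b ^ 2 - X 1 0 * a ^ 2) = 0 := by
            linear_combination (X 0 0) * hE - b ^ 2 * p2 - a ^ 2 * p1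
          exact (mul_eq_zero.mp this).resolve_left h
        · have : Y 0 1 * (2 * X 0 0 * a * b + X 0 1 * b ^ 2 - X 1 0 * a ^ 2) = 0 := by
            linear_combination (X 0 1) * hE + 2 * a * b * p2 + a ^ 2 * p0
          exact (mul_eq_zero.mp this).resolve_left h
        · have : Y 1 0 * (2 * X 0 0 * a * b + X 0 1 * b ^ 2 - X 1 0 * a ^ 2) = 0 := by
            linear_combination (X 1 0) * hE - 2 * a * b * p1 + b ^ 2 * p0
          exact (mul_eq_zero.mp this).resolve_left h

end Pool.Agent.Lib.MSF
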