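import Pool.Agent.Lib.MSF.GDefs
import Pool.Agent.Lib.MP_5e64e7_nt.JDer

set_option autoImplicit false

/-!
# SWZ : the Schwarzian equation of `j` (about 120 lines; from JDer of MP_5e64e7_nt)

`swz`: differentiate the formula `ddjf` (valid in a neighbourhood) with `E2f_hasDerivAt`,
`E4f_hasDerivAt`, `E6f_hasDerivAt` (RamA, RamC): with `c = 2πi`, `Δ = E4³ - E6²`,
`j = 1728 E4³/Δ`, `j' = -1728 c E4² E6/Δ`. Then clear denominators (`field_simp`, `ring`,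
`I² = -1`). In terms of the values: `j''' j' - (3/2) j''² + 2 Q(j) j'⁴ = 0`,
`Q = (X² - 1968 X + 2654208)/(4 X² (X - 1728)²)`; multiplied by `4 j² (j - 1728)²`. Note
`j - 1728 = 1728 E6²/Δ`. (Checked numerically.)
-/

noncomputable section

namespace Pool.Agent.Lib.MSF

open Pool.Agent.Lib.MP5e Topology

/-- the numerator of the second derivative -/
def SwzB (P Q R : ℂ) : ℂ := P * Q ^ 2 * R / 6 - 2 / 3 * Q * R ^ 2 - 1 / 2 * Q ^ 4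

/-- its derivative -/
def SwzC (P Q R : ℂ) : ℂ :=
  ((P ^ 2 - Q) / 12 * Q ^ 2 * R + P * (2 * Q * ((P * Q - R) / 3)) * R +
      P * Q ^ 2 * ((P * R - Q ^ 2) / 2)) / 6 -
    2 / 3 * ((P * Q - R) / 3 * R ^ 2 + Q * (2 * R * ((P * R - Q ^ 2) / 2))) -
    1 / 2 * (4 * Q ^ 3 * ((P * Q - R) / 3))

theorem Swz_B {w : ℂ} (hw : 0 < w.im) :
    HasDerivAt (fun u => SwzB (E2f u) (E4f u) (E6f u))
      (2 * (Real.pi : ℂ) * Complex.I * SwzC (E2f w) (E4f w) (E6f w)) w := by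
  have h2 := E2f_hasDerivAt hw
  have h4 := E4f_hasDerivAt hw
  have h6 := E6f_hasDerivAt hw
  have h := ((((h2.fun_mul (h4.fun_pow 2)).fun_mul h6).div_const 6).fun_sub
    ((h4.const_mul (2 / 3)).fun_mul (h6.fun_pow 2))).fun_sub ((h4.fun_pow 4).const_mul (1 / 2))
  refine h.congr_deriv ?_
  unfold SwzC
  push_cast
  ring

theorem Swz_third {w : ℂ} (hw : 0 < w.im) : HasDerivAt
    (fun u => 4 * (Real.pi : ℂ) ^ 2 * 1728 * SwzB (E2f u) (E4f u) (E6f u) /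
      (E4f u ^ 3 - E6f u ^ 2))
    (4 * (Real.pi : ℂ) ^ 2 * 1728 * (2 * (Real.pi : ℂ) * Complex.I) *
      (SwzC (E2f w) (E4f w) (E6f w) - E2f w * SwzB (E2f w) (E4f w) (E6f w)) /
        (E4f w ^ 3 - E6f w ^ 2)) w := by
  have hd := disc_ne hw
  have h := ((Swz_B hw).const_mul (4 * (Real.pi : ℂ) ^ 2 * 1728)).fun_div (JDer_disc hw) hd
  refine h.congr_deriv ?_
  rw [div_eq_div_iff (pow_ne_zero 2 hd) hd]
  ring

theorem Swz_d3 {w : ℂ} (hw : 0 < w.im) : deriv (deriv (deriv jf)) w =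
    4 * (Real.pi : ℂ) ^ 2 * 1728 * (2 * (Real.pi : ℂ) * Complex.I) *
      (SwzC (E2f w) (E4f w) (E6f w) - E2f w * SwzB (E2f w) (E4f w) (E6f w)) /
        (E4f w ^ 3 - E6f w ^ 2) := by
  have h1 : deriv (deriv jf) =ᶠ[𝓝 w] fun u => 4 * (Real.pi : ℂ) ^ 2 * 1728 *
      SwzB (E2f u) (E4f u) (E6f u) / (E4f u ^ 3 - E6f u ^ 2) := by
    filter_upwards [JDer_open.mem_nhds hw] with u hu
    exact ddjf hu
  rw [h1.deriv_eq]
  exact (Swz_third hw).deriv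

theorem Swz_alg (P Q R Δ c p : ℂ) (hΔ : Δ = Q ^ 3 - R ^ 2) (h0 : Δ ≠ 0) (hc : 4 * p ^ 2 = -c ^ 2) :
    4 * (1728 * Q ^ 3 / Δ) ^ 2 * (1728 * Q ^ 3 / Δ - 1728) ^ 2 *
      ((4 * p ^ 2 * 1728 * c * (SwzC P Q R - P * SwzB P Q R) / Δ) *
        (-c * 1728 * (Q ^ 2 * R) / Δ) - 3 / 2 * (4 * p ^ 2 * 1728 * SwzB P Q R / Δ) ^ 2) +
      2 * ((1728 * Q ^ 3 / Δ) ^ 2 - 1968 * (1728 * Q ^ 3 / Δ) + 2654208) *
        (-c * 1728 * (Q ^ 2 * R) / Δ) ^ 4 = 0 := by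
  have h1 : 1728 * Q ^ 3 / Δ - 1728 = 1728 * R ^ 2 / Δ := by
    field_simp
    rw [hΔ]
    ring
  have key : 4 * ((SwzC P Q R - P * SwzB P Q R) * Q ^ 2 * R - 3 / 2 * SwzB P Q R ^ 2) +
      2 * (Q ^ 6 - 41 / 36 * Q ^ 3 * Δ + 8 / 9 * Δ ^ 2) * Q ^ 2 = 0 := by
    rw [hΔ]
    unfold SwzC SwzB
    ring
  rw [h1, hc]
  generalize SwzC P Q R - P * SwzB P Q R = C at key ⊢
  generalize SwzB P Q R = B at key ⊢
  have h2 : 4 * (1728 * Q ^ 3 / Δ) ^ 2 * (1728 * R ^ 2 / Δ) ^ 2 *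
      ((-c ^ 2 * 1728 * c * C / Δ) *
        (-c * 1728 * (Q ^ 2 * R) / Δ) - 3 / 2 * (-c ^ 2 * 1728 * B / Δ) ^ 2) +
      2 * ((1728 * Q ^ 3 / Δ) ^ 2 - 1968 * (1728 * Q ^ 3 / Δ) + 2654208) *
        (-c * 1728 * (Q ^ 2 * R) / Δ) ^ 4 =
      1728 ^ 6 * c ^ 4 * Q ^ 6 * R ^ 4 / Δ ^ 6 * (4 * (C * Q ^ 2 * R - 3 / 2 * B ^ 2) +
      2 * (Q ^ 6 - 41 / 36 * Q ^ 3 * Δ + 8 / 9 * Δ ^ 2) * Q ^ 2) := by
    field_simp
    ring
  rw [h2, key, mul_zero]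

theorem swz {w : ℂ} (hw : 0 < w.im) :
    4 * jf w ^ 2 * (jf w - 1728) ^ 2 * (deriv (deriv (deriv jf)) w * deriv jf w -
        3 / 2 * deriv (deriv jf) w ^ 2) +
      2 * (jf w ^ 2 - 1968 * jf w + 2654208) * deriv jf w ^ 4 = 0 := by
  have hj : jf w = 1728 * E4f w ^ 3 / (E4f w ^ 3 - E6f w ^ 2) := rfl
  have h2 : deriv (deriv jf) w = 4 * (Real.pi : ℂ) ^ 2 * 1728 *
      SwzB (E2f w) (E4f w) (E6f w) / (E4f w ^ 3 - E6f w ^ 2) := ddjf hw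
  rw [Swz_d3 hw, h2, djf hw, hj]
  refine Swz_alg _ _ _ _ _ _ rfl (disc_ne hw) ?_
  have hI : Complex.I ^ 2 = -1 := Complex.I_sq
  linear_combination (4 * (Real.pi : ℂ) ^ 2) * hI

/-- where `j' ≠ 0` the value of `j` is not `0` or `1728` -/
theorem jf_ne {w : ℂ} (hw : 0 < w.im) (h : deriv jf w ≠ 0) : jf w ≠ 0 ∧ jf w ≠ 1728 := by
  have hj : jf w = 1728 * E4f w ^ 3 / (E4f w ^ 3 - E6f w ^ 2) := rfl
  have hd := disc_ne hw
  rw [djf hw] at h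
  have h4 : E4f w ≠ 0 := by
    intro h4
    apply h
    rw [h4]
    simp
  have h6 : E6f w ≠ 0 := by
    intro h6
    apply h
    rw [h6]
    simp
  constructor
  · rw [hj]
    exact div_ne_zero (mul_ne_zero (by norm_num) (pow_ne_zero 3 h4)) hd
  · rw [hj]
    intro h1
    rw [div_eq_iff hd] at h1
    have h2 : 1728 * E6f w ^ 2 = 0 := by linear_combination h1
    exact (mul_ne_zero (by norm_num) (pow_ne_zero 2 h6)) h2

end Pool.Agent.Lib.MSF
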